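/-
MP_b1ea0f_al, library BMM: the star algebra (Hecke algebras of G7, G11, G19).
Paper: /team-store/MP_b1ea0f_al_paper.md.  This file has no unproved statement.
-/
import Mathlib

open Polynomial

namespace BMM

/-! ## The star algebra over a commutative ring, for three arbitrary polynomials -/

/-- Relations of the star algebra: `a b c = b c a = c a b`, `P_x (g_x) = 0`. -/
inductive HRel (A : Type*) [CommRing A] (P : Fin 3 → A[X]) :
    FreeAlgebra A (Fin 3) → FreeAlgebra A (Fin 3) → Prop
  | cyc₁ : HRel A P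
      (FreeAlgebra.ι A 0 * FreeAlgebra.ι A 1 * FreeAlgebra.ι A 2)
      (FreeAlgebra.ι A 1 * FreeAlgebra.ι A 2 * FreeAlgebra.ι A 0)
  | cyc₂ : HRel A P
      (FreeAlgebra.ι A 0 * FreeAlgebra.ι A 1 * FreeAlgebra.ι A 2)
      (FreeAlgebra.ι A 2 * FreeAlgebra.ι A 0 * FreeAlgebra.ι A 1)
  | pol (x : Fin 3) : HRel A P (aeval (FreeAlgebra.ι A x) (P x)) 0

/-- The star algebra `A<a,b,c> / (abc = bca = cab, P_x (g_x) = 0)`. -/
def HA (A : Type*) [CommRing A] (P : Fin 3 → A[X]) : Type _ := RingQuot (HRel A P)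

noncomputable instance (A : Type*) [CommRing A] (P : Fin 3 → A[X]) : Ring (HA A P) :=
  inferInstanceAs (Ring (RingQuot (HRel A P)))

noncomputable instance (A : Type*) [CommRing A] (P : Fin 3 → A[X]) : Algebra A (HA A P) :=
  inferInstanceAs (Algebra A (RingQuot (HRel A P)))

/-- Three elements of an `A`-algebra that satisfy the relations of the star algebra. -/
structure IsTriple {A : Type*} [CommRing A] (P : Fin 3 → A[X]) {B : Type*} [Ring B] [Algebra A B]
    (g : Fin 3 → B) : Prop where
  cyc₁ : g 0 * g 1 * g 2 = g 1 * g 2 * g 0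
  cyc₂ : g 0 * g 1 * g 2 = g 2 * g 0 * g 1
  pol : ∀ x, aeval (g x) (P x) = 0

section basic

variable (A : Type*) [CommRing A] (P : Fin 3 → A[X])

/-- The quotient map. -/
noncomputable def mkA : FreeAlgebra A (Fin 3) →ₐ[A] HA A P := RingQuot.mkAlgHom A (HRel A P)

/-- The generators `a = gen 0`, `b = gen 1`, `c = gen 2`. -/
noncomputable def gen (x : Fin 3) : HA A P := mkA A P (FreeAlgebra.ι A x)

/-- The central element `z = abc`. -/
noncomputable def zz : HA A P := gen A P 0 * gen A P 1 * gen A P 2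

theorem mkA_surjective : Function.Surjective (mkA A P) := RingQuot.mkAlgHom_surjective _ _

theorem isTriple_gen : IsTriple P (gen A P) where
  cyc₁ := by
    have h : mkA A P _ = mkA A P _ := RingQuot.mkAlgHom_rel A (HRel.cyc₁ (A := A) (P := P))
    rwa [map_mul, map_mul, map_mul, map_mul] at h
  cyc₂ := by
    have h : mkA A P _ = mkA A P _ := RingQuot.mkAlgHom_rel A (HRel.cyc₂ (A := A) (P := P))
    rwa [map_mul, map_mul, map_mul, map_mul] at h
  pol x := by
    have h : mkA A P _ = mkA A P _ := RingQuot.mkAlgHom_rel A (HRel.pol (A := A) (P := P) x)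
    rw [map_zero, ← aeval_algHom_apply] at h
    exact h

variable {A P}

/-- The universal property. -/
noncomputable def lift {B : Type*} [Ring B] [Algebra A B] (g : Fin 3 → B) (hg : IsTriple P g) :
    HA A P →ₐ[A] B :=
  RingQuot.liftAlgHom A ⟨FreeAlgebra.lift A g, by
    intro u v h
    cases h with
    | cyc₁ => simpa using hg.cyc₁
    | cyc₂ => simpa using hg.cyc₂
    | pol x => simp [← aeval_algHom_apply, hg.pol x]⟩

@[simp] theorem lift_gen {B : Type*} [Ring B] [Algebra A B] (g : Fin 3 → B) (hg : IsTriple P g)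
    (x : Fin 3) : lift g hg (gen A P x) = g x := by
  unfold lift gen mkA
  erw [RingQuot.liftAlgHom_mkAlgHom_apply]
  simp

theorem algHom_ext {B : Type*} [Ring B] [Algebra A B] {f f' : HA A P →ₐ[A] B}
    (h : ∀ x, f (gen A P x) = f' (gen A P x)) : f = f' := by
  have h2 : f.comp (mkA A P) = f'.comp (mkA A P) := by
    apply FreeAlgebra.hom_ext
    funext x
    exact h x
  apply AlgHom.ext
  intro u
  obtain ⟨v, rfl⟩ := mkA_surjective A P u
  exact DFunLike.congr_fun h2 v

theorem adjoin_gen : Algebra.adjoin A (Set.range (gen A P)) = ⊤ := by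
  have h : Algebra.adjoin A (Set.range (gen A P))
      = (Algebra.adjoin A (Set.range (FreeAlgebra.ι A (X := Fin 3)))).map (mkA A P) := by
    rw [AlgHom.map_adjoin, ← Set.range_comp]
    rfl
  rw [h, FreeAlgebra.adjoin_range_ι, Algebra.map_top]
  exact (AlgHom.range_eq_top _).2 (mkA_surjective A P)

/-- Induction principle. -/
theorem HA.induction {p : HA A P → Prop} (h1 : ∀ r : A, p (algebraMap A _ r))
    (hg : ∀ x, p (gen A P x)) (hadd : ∀ u v, p u → p v → p (u + v))
    (hmul : ∀ u v, p u → p v → p (u * v)) (u : HA A P) : p u := by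
  have hu : u ∈ Algebra.adjoin A (Set.range (gen A P)) := by rw [adjoin_gen]; trivial
  refine Algebra.adjoin_induction (p := fun u _ => p u) ?_ h1 ?_ ?_ hu
  · rintro _ ⟨x, rfl⟩; exact hg x
  · intro u v _ _ hu hv; exact hadd u v hu hv
  · intro u v _ _ hu hv; exact hmul u v hu hv

theorem IsTriple.comm_z {B : Type*} [Ring B] [Algebra A B] {g : Fin 3 → B} (hg : IsTriple P g)
    (x : Fin 3) : g x * (g 0 * g 1 * g 2) = g 0 * g 1 * g 2 * g x := by
  have h1 := hg.cyc₁
  have h2 := hg.cyc₂
  fin_cases x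
  · change g 0 * (g 0 * g 1 * g 2) = g 0 * g 1 * g 2 * g 0
    rw [mul_assoc (g 0) (g 1) (g 2), mul_assoc, mul_assoc]
    congr 1
    rw [← mul_assoc (g 0) (g 1) (g 2), h1, mul_assoc]
  · change g 1 * (g 0 * g 1 * g 2) = g 0 * g 1 * g 2 * g 1
    rw [h2]
    nth_rewrite 2 [← h2]
    rw [h1]
    simp only [mul_assoc]
  · change g 2 * (g 0 * g 1 * g 2) = g 0 * g 1 * g 2 * g 2
    nth_rewrite 2 [h2]
    simp only [mul_assoc]

theorem zz_comm (u : HA A P) : u * zz A P = zz A P * u := by
  induction u using HA.induction with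
  | h1 r => exact Algebra.commutes r _
  | hg x => exact (isTriple_gen A P).comm_z x
  | hadd u v hu hv => rw [add_mul, mul_add, hu, hv]
  | hmul u v hu hv => rw [mul_assoc, hv, ← mul_assoc, hu, mul_assoc]

/-- A root of a polynomial with unit constant coefficient is a unit. -/
theorem isUnit_of_aeval {B : Type*} [Ring B] [Algebra A B] {Q : A[X]} (hQ : IsUnit (Q.coeff 0))
    {u : B} (hu : aeval u Q = 0) : IsUnit u := by
  obtain ⟨r, hr⟩ := hQ
  have h := Polynomial.divX_mul_X_add Q
  have h2 : aeval u Q.divX * u + algebraMap A B r = 0 := by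
    rw [← hu]
    conv_rhs => rw [← h]
    simp [hr]
  have h3 : u * aeval u Q.divX + algebraMap A B r = 0 := by
    rw [← h2]
    congr 1
    have := Polynomial.aeval_X (R := A) u
    calc u * aeval u Q.divX = aeval u (X * Q.divX) := by simp
      _ = aeval u (Q.divX * X) := by rw [mul_comm]
      _ = aeval u Q.divX * u := by simp
  set w : B := -(algebraMap A B ((r⁻¹ : Aˣ) : A)) * aeval u Q.divX with hw
  have hc : ∀ v : B, algebraMap A B ((r⁻¹ : Aˣ) : A) * v = v * algebraMap A B ((r⁻¹ : Aˣ) : A) :=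
    fun v => Algebra.commutes _ _
  have hrr : algebraMap A B ((r⁻¹ : Aˣ) : A) * algebraMap A B r = 1 := by
    rw [← map_mul]; simp
  refine ⟨⟨u, w, ?_, ?_⟩, rfl⟩
  · rw [hw, neg_mul, mul_neg, hc, ← mul_assoc, eq_neg_of_add_eq_zero_left h3, neg_mul, neg_neg,
      ← hc, hrr]
  · rw [hw, neg_mul, neg_mul, mul_assoc, eq_neg_of_add_eq_zero_left h2, mul_neg, neg_neg, hrr]

theorem isUnit_gen (hP : ∀ x, IsUnit ((P x).coeff 0)) (x : Fin 3) : IsUnit (gen A P x) :=
  isUnit_of_aeval (hP x) ((isTriple_gen A P).pol x)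

theorem isUnit_zz (hP : ∀ x, IsUnit ((P x).coeff 0)) : IsUnit (zz A P) :=
  ((isUnit_gen hP 0).mul (isUnit_gen hP 1)).mul (isUnit_gen hP 2)

end basic

/-! ## Change of base ring (semilinear) -/

section basechange

variable {A : Type*} [CommRing A] (P : Fin 3 → A[X]) {B : Type*} [CommRing B] (f : A →+* B)

/-- The polynomials after change of base. -/
noncomputable abbrev mapP : Fin 3 → B[X] := fun x => (P x).map f

/-- `H(B, f P)` as an `A`-algebra. -/
@[reducible] noncomputable def mapAlg : Algebra A (HA B (mapP P f)) :=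
  ((algebraMap B (HA B (mapP P f))).comp f).toAlgebra' (fun c x => Algebra.commutes (f c) x)

theorem isTriple_map : @IsTriple A _ P (HA B (mapP P f)) _ (mapAlg P f) (gen B (mapP P f)) := by
  let _ := mapAlg P f
  refine ⟨(isTriple_gen B _).cyc₁, (isTriple_gen B _).cyc₂, fun x => ?_⟩
  have h := (isTriple_gen B (mapP P f)).pol x
  rw [aeval_def, eval₂_map] at h
  exact h

/-- The ring homomorphism `H(A, P) → H(B, f P)`. -/
noncomputable def mapH : HA A P →+* HA B (mapP P f) :=
  letI := mapAlg P f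
  (lift (gen B (mapP P f)) (isTriple_map P f)).toRingHom

@[simp] theorem mapH_gen (x : Fin 3) : mapH P f (gen A P x) = gen B (mapP P f) x := by
  let _ := mapAlg P f
  exact lift_gen (gen B (mapP P f)) (isTriple_map P f) x

@[simp] theorem mapH_algebraMap (r : A) :
    mapH P f (algebraMap A _ r) = algebraMap B _ (f r) := by
  let _ := mapAlg P f
  exact (lift (gen B (mapP P f)) (isTriple_map P f)).commutes r

@[simp] theorem mapH_zz : mapH P f (zz A P) = zz B (mapP P f) := by
  simp [zz]

theorem mapH_smul (r : A) (u : HA A P) : mapH P f (r • u) = f r • mapH P f u := by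
  rw [Algebra.smul_def, map_mul, mapH_algebraMap, Algebra.smul_def]

end basechange

end BMM
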