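/-
MP_b1ea0f_al, library BMM: definitions for operators on vector spaces (sections 3 and 5 of the paper).
Paper: /team-store/MP_b1ea0f_al_paper.md.  This file has no unproved statement.
-/
import Pool.Agent.Lib.BMM.Defs

open Polynomial

namespace BMM

section ops

variable {K : Type*} [Field K] {X Y : Type*} [AddCommGroup X] [Module K X]
  [AddCommGroup Y] [Module K Y]

/-- The map `s ↦ s g - h s` on `Hom(X, Y)`; `g` acts on `X`, `h` acts on `Y`. -/
def ad (g : Module.End K X) (h : Module.End K Y) : (X →ₗ[K] Y) →ₗ[K] (X →ₗ[K] Y) where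
  toFun s := s ∘ₗ g - h ∘ₗ s
  map_add' s t := by rw [LinearMap.add_comp, LinearMap.comp_add]; abel
  map_smul' c s := by rw [LinearMap.smul_comp, LinearMap.comp_smul, RingHom.id_apply, smul_sub]

@[simp] theorem ad_apply (g : Module.End K X) (h : Module.End K Y) (s : X →ₗ[K] Y) :
    ad g h s = s ∘ₗ g - h ∘ₗ s := rfl

/-- The maps that commute with the three operators. -/
def Hom3 (g : Fin 3 → Module.End K X) (h : Fin 3 → Module.End K Y) : Submodule K (X →ₗ[K] Y) :=
  ⨅ i, LinearMap.ker (ad (g i) (h i))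

/-- The product `I_a × I_b × I_c` of the images of `s ↦ s g - h s`. -/
def I3 (g : Fin 3 → Module.End K X) (h : Fin 3 → Module.End K Y) :
    Submodule K (Fin 3 → (X →ₗ[K] Y)) :=
  Submodule.pi Set.univ (fun i => LinearMap.range (ad (g i) (h i)))

/-- `d0 (s) = (s g - h s)_g`. -/
def d0 (g : Fin 3 → Module.End K X) (h : Fin 3 → Module.End K Y) :
    (X →ₗ[K] Y) →ₗ[K] (Fin 3 → (X →ₗ[K] Y)) :=
  LinearMap.pi (fun i => ad (g i) (h i))

/-- `L (δ) = δ_a b c + a δ_b c + a b δ_c`. -/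
def LL (g : Fin 3 → Module.End K X) (h : Fin 3 → Module.End K Y) :
    (Fin 3 → (X →ₗ[K] Y)) →ₗ[K] (X →ₗ[K] Y) where
  toFun δ := δ 0 ∘ₗ g 1 ∘ₗ g 2 + h 0 ∘ₗ δ 1 ∘ₗ g 2 + h 0 ∘ₗ h 1 ∘ₗ δ 2
  map_add' δ ε := by
    simp only [Pi.add_apply, LinearMap.add_comp, LinearMap.comp_add]; abel
  map_smul' c δ := by
    simp only [Pi.smul_apply, LinearMap.smul_comp, LinearMap.comp_smul, RingHom.id_apply, smul_add]

@[simp] theorem LL_apply (g : Fin 3 → Module.End K X) (h : Fin 3 → Module.End K Y)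
    (δ : Fin 3 → (X →ₗ[K] Y)) :
    LL g h δ = δ 0 ∘ₗ g 1 ∘ₗ g 2 + h 0 ∘ₗ δ 1 ∘ₗ g 2 + h 0 ∘ₗ h 1 ∘ₗ δ 2 := rfl

/-- `abc = bca = cab` for three operators, all of them invertible. -/
structure IsCyc {B : Type*} [Ring B] (g : Fin 3 → B) : Prop where
  unit : ∀ x, IsUnit (g x)
  cyc₁ : g 0 * g 1 * g 2 = g 1 * g 2 * g 0
  cyc₂ : g 0 * g 1 * g 2 = g 2 * g 0 * g 1

/-- `abc` as an operator. -/
def zop {B : Type*} [Ring B] (g : Fin 3 → B) : B := g 0 * g 1 * g 2

/-- The `j`-th step of the flag of `g`: the image of `(g - ξ_0) ⋯ (g - ξ_{j-1})`. -/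
def fl (g : Module.End K X) {p : ℕ} (ξ : Fin p → K) (j : ℕ) : Submodule K X :=
  LinearMap.range (((List.ofFn ξ).take j).map
    (fun c => g - algebraMap K (Module.End K X) c)).prod

/-- The multiplicity `m_j = dim X_{j-1} / X_j`. -/
noncomputable def mult (g : Module.End K X) {p : ℕ} (ξ : Fin p → K) (j : Fin p) : ℤ :=
  (Module.finrank K (fl g ξ j) : ℤ) - (Module.finrank K (fl g ξ (j + 1)) : ℤ)

/-- The derivative of `P` at `g`: `η ↦ ∑_k p_k ∑_{i+j=k-1} g^i η g^j`. -/
noncomputable def dP {A : Type*} [CommRing A] {B : Type*} [Ring B] [Algebra A B] (P : A[X])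
    (g : B) : B →ₗ[A] B where
  toFun η := P.sum (fun k p => p • ∑ i ∈ Finset.range k, g ^ i * η * g ^ (k - 1 - i))
  map_add' η θ := by
    simp only [Polynomial.sum, mul_add, add_mul, Finset.sum_add_distrib, smul_add]
  map_smul' c η := by
    simp only [Polynomial.sum, mul_smul_comm, smul_mul_assoc, RingHom.id_apply, Finset.smul_sum,
      smul_smul, mul_comm]

/-- The map `d1 (δ)_g = z δ_g z⁻¹ - δ_g + [L(δ) z⁻¹, g]` on `V³`, `V = End M`; here `w = z⁻¹`. -/
def d1 {M : Type*} [AddCommGroup M] [Module K M] (g : Fin 3 → Module.End K M)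
    (w : Module.End K M) : (Fin 3 → Module.End K M) →ₗ[K] (Fin 3 → Module.End K M) where
  toFun δ := fun x => zop g * δ x * w - δ x + (LL g g δ * w * g x - g x * (LL g g δ * w))
  map_add' δ ε := by
    funext x
    simp only [map_add, Pi.add_apply, mul_add, add_mul]
    abel
  map_smul' c δ := by
    funext x
    simp only [map_smul, Pi.smul_apply, mul_smul_comm, smul_mul_assoc, RingHom.id_apply,
      smul_sub, smul_add]

theorem d1_apply {M : Type*} [AddCommGroup M] [Module K M] (g : Fin 3 → Module.End K M)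
    (w : Module.End K M) (δ : Fin 3 → Module.End K M) (x : Fin 3) :
    d1 g w δ x = zop g * δ x * w - δ x + (LL g g δ * w * g x - g x * (LL g g δ * w)) := rfl

/-- Unobstructedness of a triple of operators: everything that the lifting argument (5.7) uses. -/
structure Unob {M : Type*} [AddCommGroup M] [Module K M] (P : Fin 3 → K[X])
    (g : Fin 3 → Module.End K M) : Prop where
  tri : IsTriple P g
  unit : ∀ x, IsUnit (g x)
  img : ∀ x e, e * g x = g x * e → ∃ η, dP (P x) (g x) η = e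
  ker : ∀ x η, dP (P x) (g x) η = 0 → ∃ s, η = s * g x - g x * s
  exact : ∀ w, w * zop g = 1 → ∀ δ ∈ I3 g g, LL g g δ = 0 → ∃ δ' ∈ I3 g g, d1 g w δ' = δ

end ops

/-! ## Modules over the star algebra of a field -/

section gop

variable {K : Type*} [Field K] (P : Fin 3 → K[X]) (M : Type*) [AddCommGroup M] [Module K M]
  [Module (HA K P) M] [IsScalarTower K (HA K P) M]

/-- The operator of `gen x` on a module. -/
noncomputable def gop (x : Fin 3) : Module.End K M := Algebra.lsmul K K M (gen K P x)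

@[simp] theorem gop_apply (x : Fin 3) (m : M) : gop P M x m = gen K P x • m := rfl

theorem isTriple_gop : IsTriple P (gop P M) where
  cyc₁ := by
    simp only [gop, ← map_mul]; rw [(isTriple_gen K P).cyc₁]
  cyc₂ := by
    simp only [gop, ← map_mul]; rw [(isTriple_gen K P).cyc₂]
  pol x := by
    rw [gop, aeval_algHom_apply, (isTriple_gen K P).pol x, map_zero]

end gop

/-! ## Vectors, roots, characters -/

/-- The orders of the three generators. -/
def pp (n : ℕ) : Fin 3 → ℕ := ![2, 3, n]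

/-- The index set of the parameters. -/
abbrev J (n : ℕ) : Type := Σ x : Fin 3, Fin (pp n x)

/-- The number `N = |Z(W)|` (12, 24, 60 for n = 3, 4, 5); `|W| = N²`. -/
def NN (n : ℕ) : ℕ := 12 * n / (6 - n)

variable {n : ℕ}

/-- The level `|v| = v_0` of a vector. -/
def lev (v : J n → ℤ) : ℤ := ∑ i : Fin (pp n 0), v ⟨0, i⟩

/-- The lattice `Q`: all three legs have the same sum. -/
def InQ (v : J n → ℤ) : Prop := ∀ x : Fin 3, ∑ i : Fin (pp n x), v ⟨x, i⟩ = lev v

/-- The bilinear form. -/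
def bil (v w : J n → ℤ) : ℤ := ∑ j, v j * w j - lev v * lev w

/-- Roots. -/
def IsRoot (v : J n → ℤ) : Prop := InQ v ∧ bil v v = 2

/-- `Rc`: roots of level at least one. -/
def Rc (n : ℕ) : Set (J n → ℤ) := {v | IsRoot v ∧ 1 ≤ lev v}

/-- The monomial `m_v`. -/
noncomputable def mon {K : Type*} [Field K] (x : J n → K) (v : J n → ℤ) : K := ∏ j, x j ^ v j

/-- The character `q^v = m_v z^{-|v|}`. -/
noncomputable def qch {K : Type*} [Field K] (x : J n → K) (z : K) (v : J n → ℤ) : K :=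
  z ^ (-lev v) * mon x v

/-- The vector `ϖ`. -/
def varpi (n : ℕ) : J n → ℤ := fun j => (NN n : ℤ) / (2 * (pp n j.1 : ℤ))

/-- The sign `κ` (+ for n = 3, - for n = 4, 5). -/
def kap (n : ℕ) : ℤ := if n = 3 then 1 else -1

/-- A half of `Γ_α = {c root : (c, α) = 1}` together with the decomposition
`∑ c = 2 μ + ε α`. -/
structure Half (α : J n → ℤ) where
  /-- the half -/
  L : Finset (J n → ℤ)
  mem : ∀ c ∈ L, IsRoot c ∧ bil c α = 1
  half : ∀ c, IsRoot c → bil c α = 1 → (c ∈ L ↔ α - c ∉ L)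
  /-- the sign exponent -/
  ε : ℕ
  /-- half of the sum -/
  μ : J n → ℤ
  hμ : InQ μ
  hε : ε = 0 ∨ ε = 1
  sum : ∑ c ∈ L, c = (2 : ℤ) • μ + (ε : ℤ) • α

/-- `D(α; q) = (-1)^ε q^{-μ} ∏_{c ∈ L} (q^c - 1)`. -/
noncomputable def Half.D {α : J n → ℤ} (h : Half α) {K : Type*} [Field K] (x : J n → K) (z : K) :
    K :=
  (-1) ^ h.ε * qch x z (-h.μ) * ∏ c ∈ h.L, (qch x z c - 1)

/-- The polynomials `P_g = ∏ (T - x_{gj})`. -/
noncomputable def PX {A : Type*} [CommRing A] (x : J n → A) : Fin 3 → A[X] :=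
  fun l => ∏ i : Fin (pp n l), (X - C (x ⟨l, i⟩))

/-- The dimension vector of a triple of operators. -/
noncomputable def dimv {K : Type*} [Field K] {M : Type*} [AddCommGroup M] [Module K M]
    (x : J n → K) (g : Fin 3 → Module.End K M) : J n → ℤ :=
  fun j => mult (g j.1) (fun i => x ⟨j.1, i⟩) j.2

end BMM
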