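/-
MP_b1ea0f_al, library BMM, module Bridge (about 120 lines).
Modules over H = HA K P and triples of operators.
PROOFS.
isCyc_gop: `gen x` is a unit of H (`isUnit_gen`), its image under the algebra map `lsmul` is a unit.
mem_Hom3_iff: the condition for the generators extends to all of H by `HA.induction` (scalars: s is
K-linear and algebraMap r • m = r • m by `algebraMap_smul`).
zz_scalar: M is a simple H-module, finite-dimensional over K = K-closed. z is central (`zz_comm`),
so `m ↦ zz • m` is H-linear; it has an eigenvalue ζ (`Module.End.exists_eigenvalue`), the kernel of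
z - ζ is a non-zero H-submodule, so it is M. ζ ≠ 0 since zz is a unit and M ≠ 0.
schur: the same argument for an arbitrary element of Hom3 g g: s = ζ • 1.
iso_of_hom: the kernel and the image of a non-zero H-linear map between simple modules.
-/
import Pool.Agent.Lib.BMM.Ops

open Polynomial

namespace BMM

variable {K : Type*} [Field K] {P : Fin 3 → K[X]}
  {M : Type*} [AddCommGroup M] [Module K M] [Module (HA K P) M] [IsScalarTower K (HA K P) M]
  {M' : Type*} [AddCommGroup M'] [Module K M'] [Module (HA K P) M']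
  [IsScalarTower K (HA K P) M']

theorem isCyc_gop (hP : ∀ x, (P x).coeff 0 ≠ 0) : IsCyc (gop P M) where
  unit x := (isUnit_gen (A := K) (P := P) (fun y => IsUnit.mk0 _ (hP y)) x).map
    (Algebra.lsmul K K M)
  cyc₁ := (isTriple_gop P M).cyc₁
  cyc₂ := (isTriple_gop P M).cyc₂

theorem zop_gop_apply (m : M) : zop (gop P M) m = zz K P • m := by
  simp only [zop, zz, Module.End.mul_apply, gop_apply, mul_smul]

private lemma mem_Hom3_gen (s : M →ₗ[K] M') :
    s ∈ Hom3 (gop P M) (gop P M') ↔ ∀ (x : Fin 3) (m : M), s (gen K P x • m) = gen K P x • s m := by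
  unfold Hom3
  rw [Submodule.mem_iInf]
  refine forall_congr' fun x => ?_
  rw [LinearMap.mem_ker, ad_apply, sub_eq_zero, LinearMap.ext_iff]
  refine forall_congr' fun m => ?_
  simp only [LinearMap.comp_apply, gop_apply]

theorem mem_Hom3_iff (s : M →ₗ[K] M') :
    s ∈ Hom3 (gop P M) (gop P M') ↔ ∀ (u : HA K P) (m : M), s (u • m) = u • s m := by
  rw [mem_Hom3_gen]
  constructor
  · intro h u
    induction u using HA.induction with
    | h1 r => intro m; rw [algebraMap_smul, algebraMap_smul, map_smul]
    | hg x => exact h x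
    | hadd u v hu hv => intro m; rw [add_smul, map_add, hu, hv, add_smul]
    | hmul u v hu hv => intro m; rw [mul_smul, hu, hv, mul_smul]
  · intro h x m
    exact h _ m

/-- A member of `Hom3` as an `H`-linear map. -/
private def toH (s : M →ₗ[K] M') (hs : s ∈ Hom3 (gop P M) (gop P M')) : M →ₗ[HA K P] M' where
  toFun := s
  map_add' := s.map_add
  map_smul' u m := (mem_Hom3_iff s).1 hs u m

theorem iso_of_hom [IsSimpleModule (HA K P) M] [IsSimpleModule (HA K P) M'] (s : M →ₗ[K] M')
    (hs : s ∈ Hom3 (gop P M) (gop P M')) (h0 : s ≠ 0) : Nonempty (M ≃ₗ[HA K P] M') := by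
  have h : toH s hs ≠ 0 := by
    intro h
    apply h0
    ext m
    have := LinearMap.congr_fun h m
    exact this
  exact ⟨LinearEquiv.ofBijective _ (LinearMap.bijective_of_ne_zero h)⟩

theorem schur [IsAlgClosed K] [FiniteDimensional K M] [IsSimpleModule (HA K P) M]
    (s : M →ₗ[K] M) (hs : s ∈ Hom3 (gop P M) (gop P M)) : ∃ c : K, ∀ m, s m = c • m := by
  have : Nontrivial M := IsSimpleModule.nontrivial (HA K P) M
  obtain ⟨c, hc⟩ := Module.End.exists_eigenvalue (K := K) (V := M) s
  refine ⟨c, ?_⟩
  obtain ⟨v, hv⟩ := hc.exists_hasEigenvector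
  let t : M →ₗ[HA K P] M :=
    { toFun := fun m => s m - c • m
      map_add' := fun m m' => by rw [map_add, smul_add]; abel
      map_smul' := fun u m => by
        rw [(mem_Hom3_iff s).1 hs u m, smul_comm c u m, RingHom.id_apply, smul_sub] }
  have htv : t v = 0 := by
    change s v - c • v = 0
    rw [hv.apply_eq_smul, sub_self]
  rcases LinearMap.injective_or_eq_zero t with h | h
  · exfalso
    apply hv.2
    apply h
    rw [htv, map_zero]
  · intro m
    have := LinearMap.congr_fun h m
    exact sub_eq_zero.1 this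

theorem finrank_Hom3_self [IsAlgClosed K] [FiniteDimensional K M] [IsSimpleModule (HA K P) M] :
    Module.finrank K (Hom3 (gop P M) (gop P M)) = 1 := by
  have : Nontrivial M := IsSimpleModule.nontrivial (HA K P) M
  have hid : (LinearMap.id : M →ₗ[K] M) ∈ Hom3 (gop P M) (gop P M) := by
    rw [mem_Hom3_iff]
    intro u m
    rfl
  have hne : (⟨LinearMap.id, hid⟩ : Hom3 (gop P M) (gop P M)) ≠ 0 := by
    intro h
    obtain ⟨m, hm⟩ := exists_ne (0 : M)
    apply hm
    have h1 := congrArg Subtype.val h
    exact LinearMap.congr_fun h1 m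
  rw [finrank_eq_one_iff_of_nonzero' _ hne]
  rintro ⟨s, hs⟩
  obtain ⟨c, hc⟩ := schur s hs
  refine ⟨c, ?_⟩
  apply Subtype.ext
  ext m
  exact (hc m).symm

theorem zz_scalar [IsAlgClosed K] [FiniteDimensional K M] [IsSimpleModule (HA K P) M]
    (hP : ∀ x, (P x).coeff 0 ≠ 0) : ∃ ζ : K, ζ ≠ 0 ∧ ∀ m : M, zz K P • m = ζ • m := by
  have : Nontrivial M := IsSimpleModule.nontrivial (HA K P) M
  have hmem : (Algebra.lsmul K K M (zz K P) : M →ₗ[K] M) ∈ Hom3 (gop P M) (gop P M) := by
    rw [mem_Hom3_iff]
    intro u m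
    change zz K P • u • m = u • zz K P • m
    rw [← mul_smul, ← mul_smul, zz_comm]
  obtain ⟨ζ, hζ⟩ := schur _ hmem
  have hζ' : ∀ m : M, zz K P • m = ζ • m := hζ
  refine ⟨ζ, ?_, hζ'⟩
  intro h0
  obtain ⟨m, hm⟩ := exists_ne (0 : M)
  apply hm
  have hu : IsUnit (zz K P) := isUnit_zz (fun y => IsUnit.mk0 _ (hP y))
  have h1 : zz K P • m = 0 := by rw [hζ' m, h0, zero_smul]
  obtain ⟨w, hw⟩ := hu
  rw [← hw] at h1
  have h2 : ((w⁻¹ : (HA K P)ˣ) : HA K P) • ((w : HA K P) • m) = 0 := by rw [h1, smul_zero]
  rwa [← mul_smul, Units.inv_mul, one_smul] at h2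

private lemma prod_intertwine {X Y : Type*} [AddCommGroup X] [Module K X] [AddCommGroup Y]
    [Module K Y] (e : X →ₗ[K] Y) (g : Module.End K X) (h : Module.End K Y)
    (hgh : ∀ m, e (g m) = h (e m)) (l : List K) (m : X) :
    e (((l.map (fun c => g - algebraMap K (Module.End K X) c)).prod) m) =
      ((l.map (fun c => h - algebraMap K (Module.End K Y) c)).prod) (e m) := by
  induction l generalizing m with
  | nil => rfl
  | cons a l ih =>
    rw [List.map_cons, List.prod_cons, List.map_cons, List.prod_cons, Module.End.mul_apply,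
      Module.End.mul_apply, ← ih m]
    simp only [LinearMap.sub_apply, Module.algebraMap_end_apply, map_sub, map_smul, hgh]

private lemma mult_congr {X Y : Type*} [AddCommGroup X] [Module K X] [AddCommGroup Y]
    [Module K Y] (e : X ≃ₗ[K] Y) (g : Module.End K X) (h : Module.End K Y)
    (hgh : ∀ m, e (g m) = h (e m)) {p : ℕ} (ξ : Fin p → K) (j : Fin p) :
    mult g ξ j = mult h ξ j := by
  have key : ∀ i : ℕ, Module.finrank K (fl g ξ i) = Module.finrank K (fl h ξ i) := by
    intro i
    have hmap : fl h ξ i = (fl g ξ i).map (e : X →ₗ[K] Y) := by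
      unfold fl
      ext y
      simp only [LinearMap.mem_range, Submodule.mem_map]
      constructor
      · rintro ⟨y', rfl⟩
        refine ⟨_, ⟨e.symm y', rfl⟩, ?_⟩
        rw [prod_intertwine (e : X →ₗ[K] Y) g h hgh]
        simp
      · rintro ⟨_, ⟨m, rfl⟩, rfl⟩
        refine ⟨e m, ?_⟩
        rw [prod_intertwine (e : X →ₗ[K] Y) g h hgh]
        simp
    rw [hmap]
    exact (LinearEquiv.finrank_map_eq e (fl g ξ i)).symm
  unfold mult
  rw [key, key]

/-- An isomorphism of `H`-modules induces an equality of dimension vectors. -/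
theorem dimv_congr {n : ℕ} (x : J n → K) [Module (HA K (PX x)) M] [IsScalarTower K (HA K (PX x)) M]
    [Module (HA K (PX x)) M'] [IsScalarTower K (HA K (PX x)) M']
    (e : M ≃ₗ[HA K (PX x)] M') : dimv x (gop (PX x) M) = dimv x (gop (PX x) M') := by
  funext j
  unfold dimv
  refine mult_congr (e.restrictScalars K) _ _ (fun m => ?_) _ _
  simp only [gop_apply, LinearEquiv.restrictScalars_apply, map_smul]

end BMM
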