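/-
MP_b1ea0f_al, library BMM, module C51 (about 100 lines).  Section 5.1.
The complex V → V³ → V³ → V, V = End M.
Notation z = zop g = abc, w = z⁻¹; g x commutes with z and w (from IsCyc).
PROOFS.
LL_d1 (all δ in V³): put σ = d1 δ. Σ of the conjugation parts: L(z δ w) = z L(δ) w, since z and w commute
with a, b, c: L(z δ w - δ) = z L(δ) w - L(δ). For y = L(δ) w: L([y, g]) = y abc - abc y = y z - z y =
L(δ) - z L(δ) w (telescoping). The sum is 0.
d1_d0: d0 s = s g - g s, L(d0 s) = s z - z s (telescoping), so y = L(d0 s) w = s - z s w and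
[y, g] = s g - g s - (z s w g - g z s w), while z (s g - g s) w = z s w g - g z s w. Sum 0.
d1_mem: for δ_g = s g - g s: z δ_g w = (z s w) g - g (z s w), and [y, g] = y g - g y: in the range of ad.
In `Module.End`, `f * g = f ∘ₗ g` definitionally (`Module.End.mul_eq_comp`).
-/
import Pool.Agent.Lib.BMM.Ops

namespace BMM

variable {K : Type*} [Field K] {M : Type*} [AddCommGroup M] [Module K M]

private theorem zop_comm {B : Type*} [Ring B] {g : Fin 3 → B} (hg : IsCyc g) (x : Fin 3) :
    zop g * g x = g x * zop g := by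
  have h1 := hg.cyc₁
  have h2 := hg.cyc₂
  unfold zop
  fin_cases x
  · change g 0 * g 1 * g 2 * g 0 = g 0 * (g 0 * g 1 * g 2)
    symm
    rw [mul_assoc (g 0) (g 1) (g 2), mul_assoc, mul_assoc]
    congr 1
    rw [← mul_assoc (g 0) (g 1) (g 2), h1, mul_assoc]
  · change g 0 * g 1 * g 2 * g 1 = g 1 * (g 0 * g 1 * g 2)
    rw [h2]
    nth_rewrite 1 [← h2]
    rw [h1]
    simp only [mul_assoc]
  · change g 0 * g 1 * g 2 * g 2 = g 2 * (g 0 * g 1 * g 2)
    nth_rewrite 1 [h2]
    simp only [mul_assoc]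

private theorem zop_inv {B : Type*} [Ring B] {g : Fin 3 → B} (hg : IsCyc g) {w : B}
    (hw : w * zop g = 1) : zop g * w = 1 := by
  have hu : IsUnit (zop g) := ((hg.unit 0).mul (hg.unit 1)).mul (hg.unit 2)
  obtain ⟨u, hu⟩ := hu
  rw [← hu] at hw ⊢
  have : w = ((u⁻¹ : Bˣ) : B) := by
    calc w = w * (u * ((u⁻¹ : Bˣ) : B)) := by simp
      _ = ((u⁻¹ : Bˣ) : B) := by rw [← mul_assoc, hw, one_mul]
  rw [this]
  simp

private theorem w_comm {B : Type*} [Ring B] {g : Fin 3 → B} (hg : IsCyc g) {w : B}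
    (hw : w * zop g = 1) (x : Fin 3) : w * g x = g x * w := by
  have h1 := zop_inv hg hw
  calc w * g x = w * g x * (zop g * w) := by rw [h1, mul_one]
    _ = w * (g x * zop g) * w := by simp only [mul_assoc]
    _ = w * (zop g * g x) * w := by rw [zop_comm hg x]
    _ = g x * w := by rw [← mul_assoc w, hw, one_mul]

private theorem ring_LL_d1 {B : Type*} [Ring B] (a b c z w d0 d1 d2 L : B) (hz : a * b * c = z)
    (za : z * a = a * z) (zb : z * b = b * z) (wb : w * b = b * w) (wc : w * c = c * w)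
    (hwz : w * z = 1) (hL : d0 * (b * c) + a * (d1 * c) + a * (b * d2) = L) :
    (z * d0 * w - d0 + (L * w * a - a * (L * w))) * (b * c) +
      a * ((z * d1 * w - d1 + (L * w * b - b * (L * w))) * c) +
      a * (b * (z * d2 * w - d2 + (L * w * c - c * (L * w)))) = 0 := by
  have e0 : z * d0 * w * (b * c) = z * (d0 * (b * c)) * w := by
    rw [mul_assoc (z * d0) w (b * c), ← mul_assoc w b c, wb, mul_assoc b w c, wc]
    simp only [mul_assoc]
  have e1 : a * (z * d1 * w * c) = z * (a * (d1 * c)) * w := by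
    rw [mul_assoc (z * d1) w c, wc, mul_assoc z d1 (c * w), ← mul_assoc a z, ← za]
    simp only [mul_assoc]
  have e2 : a * (b * (z * d2 * w)) = z * (a * (b * d2)) * w := by
    rw [mul_assoc z d2 w, ← mul_assoc b z, ← zb, mul_assoc z b, ← mul_assoc a z, ← za]
    simp only [mul_assoc]
  have e3 : (z * d0 * w - d0 + (L * w * a - a * (L * w))) * (b * c) +
      a * ((z * d1 * w - d1 + (L * w * b - b * (L * w))) * c) +
      a * (b * (z * d2 * w - d2 + (L * w * c - c * (L * w)))) =
      (z * d0 * w * (b * c) + a * (z * d1 * w * c) + a * (b * (z * d2 * w))) -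
        (d0 * (b * c) + a * (d1 * c) + a * (b * d2)) +
        (L * w * (a * b * c) - a * b * c * (L * w)) := by
    noncomm_ring
  have e4 : z * (d0 * (b * c)) * w + z * (a * (d1 * c)) * w + z * (a * (b * d2)) * w =
      z * (d0 * (b * c) + a * (d1 * c) + a * (b * d2)) * w := by
    noncomm_ring
  rw [e3, e0, e1, e2, e4, hL, hz, mul_assoc L w z, hwz, mul_one, ← mul_assoc z L w]
  abel

theorem LL_d1 {g : Fin 3 → Module.End K M} (hg : IsCyc g) {w : Module.End K M}
    (hw : w * zop g = 1) (δ : Fin 3 → Module.End K M) : LL g g (d1 g w δ) = 0 := by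
  have h := ring_LL_d1 (g 0) (g 1) (g 2) (zop g) w (δ 0) (δ 1) (δ 2) (LL g g δ) rfl
    (zop_comm hg 0) (zop_comm hg 1) (w_comm hg hw 1) (w_comm hg hw 2) hw rfl
  exact h

theorem d1_d0 {g : Fin 3 → Module.End K M} (hg : IsCyc g) {w : Module.End K M}
    (hw : w * zop g = 1) (s : Module.End K M) : d1 g w (d0 g g s) = 0 := by
  have h1 : LL g g (d0 g g s) = s * zop g - zop g * s := by
    have h : (s * g 0 - g 0 * s) * (g 1 * g 2) + g 0 * ((s * g 1 - g 1 * s) * g 2) +
        g 0 * (g 1 * (s * g 2 - g 2 * s)) = s * (g 0 * g 1 * g 2) - g 0 * g 1 * g 2 * s := by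
      noncomm_ring
    exact h
  funext x
  rw [d1_apply, h1]
  have h2 : d0 g g s x = s * g x - g x * s := rfl
  rw [h2, Pi.zero_apply]
  have h3 := zop_inv hg hw
  have h4 := w_comm hg hw x
  have h5 := zop_comm hg x
  have h6 : (s * zop g - zop g * s) * w = s - zop g * s * w := by
    rw [sub_mul, mul_assoc s, h3, mul_one]
  rw [h6]
  have e1 : zop g * (s * g x - g x * s) * w =
      zop g * s * (g x * w) - zop g * g x * s * w := by noncomm_ring
  have e2 : (s - zop g * s * w) * g x - g x * (s - zop g * s * w) =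
      s * g x - zop g * s * (w * g x) - g x * s + g x * zop g * s * w := by noncomm_ring
  rw [e1, e2, h4, h5]
  abel

theorem d1_mem {g : Fin 3 → Module.End K M} (hg : IsCyc g) {w : Module.End K M}
    (hw : w * zop g = 1) {δ : Fin 3 → Module.End K M} (hδ : δ ∈ I3 g g) :
    d1 g w δ ∈ I3 g g := by
  have h3 : ∀ x, ∃ s : Module.End K M, δ x = s * g x - g x * s := by
    intro x
    have h := hδ x (Set.mem_univ x)
    obtain ⟨s, hs⟩ := h
    exact ⟨s, hs.symm⟩
  intro x _
  obtain ⟨s, hs⟩ := h3 x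
  have h4 := w_comm hg hw x
  have h5 := zop_comm hg x
  refine ⟨zop g * s * w - s + LL g g δ * w, ?_⟩
  have h6 : (zop g * s * w - s + LL g g δ * w) * g x - g x * (zop g * s * w - s + LL g g δ * w) =
      d1 g w δ x := by
    rw [d1_apply, hs]
    have e1 : zop g * (s * g x - g x * s) * w =
        zop g * s * (g x * w) - zop g * g x * s * w := by noncomm_ring
    have e2 : (zop g * s * w - s + LL g g δ * w) * g x -
        g x * (zop g * s * w - s + LL g g δ * w) =
        zop g * s * (w * g x) - s * g x - g x * zop g * s * w + g x * s +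
          (LL g g δ * w * g x - g x * (LL g g δ * w)) := by noncomm_ring
    rw [e1, e2, h4, h5]
    abel
  exact h6

/-- `d0` has image in `I3`, and on `I3 = d0`-type elements `LL (d0 s) = s z - z s`. -/
theorem LL_d0 {g : Fin 3 → Module.End K M} (s : Module.End K M) :
    LL g g (d0 g g s) = s * zop g - zop g * s := by
  have h : (s * g 0 - g 0 * s) * (g 1 * g 2) + g 0 * ((s * g 1 - g 1 * s) * g 2) +
      g 0 * (g 1 * (s * g 2 - g 2 * s)) = s * (g 0 * g 1 * g 2) - g 0 * g 1 * g 2 * s := by
    noncomm_ring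
  exact h

end BMM
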