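/-
MP_b1ea0f_al, library BMM, module DPl (about 120 lines, algebra only).
Properties of the derivative `dP P g η = ∑_k p_k ∑_{i+j=k-1} g^i η g^j`.
PROOFS. All four are linear in P, so it is enough to treat P = monomial k p (`Polynomial.induction_on'`
or sums); there
 dP_comm : g * Σ g^i η g^j - Σ g^i η g^j * g telescopes to g^k η - η g^k.
 dP_ad   : Σ g^i (s g - g s) g^j telescopes to s g^k - g^k s.
 dP_map  : ring homomorphisms commute with powers and sums.
 dP_expand: by induction on k: (g + t η)^k = g^k + t Σ_{i+j=k-1} g^i η g^j + t² ρ_k (t is central).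
-/
import Pool.Agent.Lib.BMM.Ops

open Polynomial

namespace BMM

variable {A : Type*} [CommRing A] {B : Type*} [Ring B] [Algebra A B]

private theorem dP_def (P : A[X]) (g η : B) :
    dP P g η = P.sum (fun k p => p • ∑ i ∈ Finset.range k, g ^ i * η * g ^ (k - 1 - i)) := rfl

private theorem aeval_sum (P : A[X]) (g : B) : aeval g P = P.sum (fun k p => p • g ^ k) := by
  rw [aeval_def, eval₂_eq_sum]
  simp only [Algebra.smul_def]

private theorem tele (k : ℕ) (g η : B) :
    g * (∑ i ∈ Finset.range k, g ^ i * η * g ^ (k - 1 - i)) -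
      (∑ i ∈ Finset.range k, g ^ i * η * g ^ (k - 1 - i)) * g = g ^ k * η - η * g ^ k := by
  rw [Finset.mul_sum, Finset.sum_mul, ← Finset.sum_sub_distrib]
  have h := Finset.sum_range_sub (fun i => g ^ i * η * g ^ (k - i)) k
  simp only [pow_zero, one_mul, Nat.sub_self, mul_one, Nat.sub_zero] at h
  rw [← h]
  refine Finset.sum_congr rfl fun i hi => ?_
  have hi' : i < k := Finset.mem_range.1 hi
  have e1 : k - (i + 1) = k - 1 - i := by omega
  have e2 : k - i = (k - 1 - i) + 1 := by omega
  rw [e1, e2, pow_succ g (k - 1 - i), pow_succ' g i]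
  simp only [mul_assoc]

private theorem tele' (k : ℕ) (g s : B) :
    (∑ i ∈ Finset.range k, g ^ i * (s * g - g * s) * g ^ (k - 1 - i)) = s * g ^ k - g ^ k * s := by
  have h := Finset.sum_range_sub (fun i => g ^ i * s * g ^ (k - i)) k
  simp only [pow_zero, one_mul, Nat.sub_self, mul_one, Nat.sub_zero] at h
  rw [← neg_sub (g ^ k * s) (s * g ^ k), ← h, ← Finset.sum_neg_distrib]
  refine Finset.sum_congr rfl fun i hi => ?_
  have hi' : i < k := Finset.mem_range.1 hi
  have e1 : k - (i + 1) = k - 1 - i := by omega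
  have e2 : k - i = (k - 1 - i) + 1 := by omega
  rw [e1, e2, pow_succ' g (k - 1 - i), pow_succ g i]
  simp only [mul_sub, sub_mul, mul_assoc, neg_sub]

theorem dP_comm (P : A[X]) (g η : B) :
    g * dP P g η - dP P g η * g = aeval g P * η - η * aeval g P := by
  rw [dP_def, aeval_sum]
  simp only [Polynomial.sum]
  rw [Finset.mul_sum, Finset.sum_mul, Finset.sum_mul, Finset.mul_sum, ← Finset.sum_sub_distrib,
    ← Finset.sum_sub_distrib]
  refine Finset.sum_congr rfl fun k _ => ?_
  rw [mul_smul_comm, smul_mul_assoc, ← smul_sub, tele, smul_mul_assoc, mul_smul_comm, smul_sub]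

theorem dP_ad (P : A[X]) (g s : B) :
    dP P g (s * g - g * s) = s * aeval g P - aeval g P * s := by
  rw [dP_def, aeval_sum]
  simp only [Polynomial.sum]
  rw [Finset.sum_mul, Finset.mul_sum, ← Finset.sum_sub_distrib]
  refine Finset.sum_congr rfl fun k _ => ?_
  rw [tele', smul_mul_assoc, mul_smul_comm, smul_sub]

theorem dP_map {A' : Type*} [CommRing A'] {B' : Type*} [Ring B'] [Algebra A' B'] (f : A →+* A')
    (φ : B →+* B') (hφ : ∀ r, φ (algebraMap A B r) = algebraMap A' B' (f r)) (P : A[X])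
    (g η : B) : φ (dP P g η) = dP (P.map f) (φ g) (φ η) := by
  rw [dP_def, dP_def,
    Polynomial.sum_over_range' P _ (P.natDegree + 1) (Nat.lt_succ_self _),
    Polynomial.sum_over_range' (P.map f) _ (P.natDegree + 1)
      (Nat.lt_succ_of_le natDegree_map_le), map_sum]
  · refine Finset.sum_congr rfl fun k _ => ?_
    rw [Algebra.smul_def, map_mul, hφ, ← Algebra.smul_def, coeff_map, map_sum]
    congr 1
    refine Finset.sum_congr rfl fun i _ => ?_
    rw [map_mul, map_mul, map_pow, map_pow]
  · intro n; rw [zero_smul]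
  · intro n; rw [zero_smul]

theorem aeval_map {A' : Type*} [CommRing A'] {B' : Type*} [Ring B'] [Algebra A' B'] (f : A →+* A')
    (φ : B →+* B') (hφ : ∀ r, φ (algebraMap A B r) = algebraMap A' B' (f r)) (P : A[X])
    (g : B) : φ (aeval g P) = aeval (φ g) (P.map f) := by
  rw [aeval_def, aeval_def, Polynomial.hom_eval₂, Polynomial.eval₂_map]
  have h : φ.comp (algebraMap A B) = (algebraMap A' B').comp f := RingHom.ext hφ
  rw [h]

private theorem expand_pow (g η : B) (t : A) (k : ℕ) :
    ∃ ρ : B, (g + t • η) ^ k =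
      g ^ k + t • (∑ i ∈ Finset.range k, g ^ i * η * g ^ (k - 1 - i)) + t ^ 2 • ρ := by
  induction k with
  | zero => exact ⟨0, by simp⟩
  | succ k ih =>
    obtain ⟨ρ, hρ⟩ := ih
    refine ⟨(∑ i ∈ Finset.range k, g ^ i * η * g ^ (k - 1 - i)) * η + ρ * g + t • (ρ * η), ?_⟩
    have hS : (∑ i ∈ Finset.range (k + 1), g ^ i * η * g ^ (k + 1 - 1 - i)) =
        (∑ i ∈ Finset.range k, g ^ i * η * g ^ (k - 1 - i)) * g + g ^ k * η := by
      rw [Finset.sum_range_succ, Finset.sum_mul]
      have e0 : k + 1 - 1 - k = 0 := by omega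
      rw [e0, pow_zero, mul_one]
      congr 1
      refine Finset.sum_congr rfl fun i hi => ?_
      have hi' : i < k := Finset.mem_range.1 hi
      have e2 : k + 1 - 1 - i = (k - 1 - i) + 1 := by omega
      rw [e2, pow_succ g (k - 1 - i), mul_assoc, mul_assoc, mul_assoc]
    rw [pow_succ, hρ, hS, pow_succ g k]
    simp only [add_mul, mul_add, smul_mul_assoc, mul_smul_comm, smul_add, smul_smul, pow_two, mul_assoc]
    abel

theorem dP_expand (P : A[X]) (g η : B) (t : A) :
    ∃ ρ : B, aeval (g + t • η) P = aeval g P + t • dP P g η + t ^ 2 • ρ := by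
  choose ρ hρ using fun k => expand_pow g η t k
  refine ⟨P.sum (fun k p => p • ρ k), ?_⟩
  rw [dP_def, aeval_sum, aeval_sum]
  simp only [Polynomial.sum]
  rw [Finset.smul_sum, Finset.smul_sum, ← Finset.sum_add_distrib, ← Finset.sum_add_distrib]
  refine Finset.sum_congr rfl fun k _ => ?_
  rw [hρ k, smul_add, smul_add, smul_smul, smul_smul, smul_smul, smul_smul,
    mul_comm (P.coeff k) t, mul_comm (P.coeff k) (t ^ 2)]

end BMM
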