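/-
MP_b1ea0f_al, library BMM, module Flag (about 150 lines, linear algebra only).  Section 3.1.
Facts on the flag X_j = image of (g - ξ_0)...(g - ξ_{j-1}) of an operator killed by ∏ (g - ξ_i).
PROOFS. fl g ξ 0 = X, fl g ξ (j+1) = (g - ξ_j) (fl g ξ j) ⊂ fl g ξ j (the factors commute), and
fl g ξ p = 0. So mult_nonneg; sum_mult is a telescoping sum.
det_eq: induction on p as in module Mul: X' = (g - ξ_0) X is invariant, g = ξ_0 on X/X', so
det g = det (g|X') * ξ_0^{dim X/X'} (`LinearMap.det_eq_det_mul_det` for an invariant submodule).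
mult_eq: if the ξ_i are distinct then X = ⊕ ker (g - ξ_i) and the image of (g-ξ_0)...(g-ξ_{j-1}) is
⊕_{i ≥ j} ker (g - ξ_i); so mult g ξ j = dim ker (g - ξ_j). (Alternative by induction on p:
dim X - dim uX = dim ker u for u = g - ξ_0, and ker (g - ξ_j) ⊂ uX for j ≥ 1 since u acts on it as
ξ_j - ξ_0 ≠ 0.)
mult_add: for an exact sequence 0 → X' → X → X'' → 0 compatible with g and ξ distinct,
dim ker (g - ξ_j) is additive: all three are direct sums of their eigenspaces, so
Σ_j dim ker = dim, and dim ker on X ≤ sum of the two others for each j (left exactness); equality of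
the sums forces equality for each j.
-/
import Pool.Agent.Lib.BMM.Ops

open Polynomial

namespace BMM

variable {K : Type*} [Field K] {X Y : Type*} [AddCommGroup X] [Module K X]
  [AddCommGroup Y] [Module K Y] {p : ℕ}

/-- the product of the first `j` factors -/
private noncomputable def TT (g : Module.End K X) (ξ : Fin p → K) (j : ℕ) : Module.End K X :=
  (((List.ofFn ξ).take j).map (fun c => g - algebraMap K (Module.End K X) c)).prod

private theorem fl_eq (g : Module.End K X) (ξ : Fin p → K) (j : ℕ) :
    fl g ξ j = LinearMap.range (TT g ξ j) := rfl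

private theorem TT_zero (g : Module.End K X) (ξ : Fin p → K) : TT g ξ 0 = 1 := by
  simp [TT]

private theorem TT_succ (g : Module.End K X) (ξ : Fin p → K) (j : Fin p) :
    TT g ξ (j + 1) = TT g ξ j * (g - algebraMap K (Module.End K X) (ξ j)) := by
  have h : (List.ofFn ξ).take ((j : ℕ) + 1) = (List.ofFn ξ).take j ++ [ξ j] := by
    rw [List.take_add_one]
    congr 1
    rw [List.getElem?_eq_getElem (by simp)]
    simp
  unfold TT
  rw [h, List.map_append, List.prod_append]
  simp

private theorem TT_all (g : Module.End K X) (ξ : Fin p → K) :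
    TT g ξ p = aeval g (∏ i, (Polynomial.X - C (ξ i))) := by
  unfold TT
  rw [List.take_of_length_le (by simp), ← List.prod_ofFn, map_list_prod]
  congr 1
  rw [List.map_ofFn, List.map_ofFn]
  congr 1
  funext i
  simp

private theorem fl_zero (g : Module.End K X) (ξ : Fin p → K) : fl g ξ 0 = ⊤ := by
  rw [fl_eq, TT_zero]
  exact LinearMap.range_id

private theorem fl_succ_le (g : Module.End K X) (ξ : Fin p → K) (j : Fin p) :
    fl g ξ (j + 1) ≤ fl g ξ j := by
  rw [fl_eq, fl_eq, TT_succ]
  exact LinearMap.range_comp_le_range _ _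

theorem mult_nonneg [FiniteDimensional K X] (g : Module.End K X) (ξ : Fin p → K) (j : Fin p) :
    0 ≤ mult g ξ j := by
  unfold mult
  have h := Submodule.finrank_mono (fl_succ_le g ξ j)
  omega

theorem sum_mult [FiniteDimensional K X] (g : Module.End K X) (ξ : Fin p → K)
    (hg : aeval g (∏ i, (Polynomial.X - C (ξ i))) = 0) :
    ∑ j, mult g ξ j = Module.finrank K X := by
  unfold mult
  rw [Fin.sum_univ_eq_sum_range (fun j : ℕ => (Module.finrank K (fl g ξ j) : ℤ)
    - (Module.finrank K (fl g ξ (j + 1)) : ℤ)) p]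
  rw [Finset.sum_range_sub' (fun j : ℕ => (Module.finrank K (fl g ξ j) : ℤ)) p]
  rw [fl_zero, fl_eq g ξ p, TT_all, hg, LinearMap.range_zero]
  simp

private theorem TT_commute (g : Module.End K X) (ξ : Fin p → K) (j : ℕ) (h : Module.End K X)
    (hh : Commute g h) : Commute (TT g ξ j) h := by
  unfold TT
  apply Commute.list_prod_left
  intro a ha
  obtain ⟨c, _, rfl⟩ := List.mem_map.1 ha
  exact hh.sub_left (Algebra.commute_algebraMap_left c h)

private theorem TT_cons (g : Module.End K X) (ξ : Fin (p + 1) → K) (j : ℕ) :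
    TT g ξ (j + 1) = TT g (fun i => ξ i.succ) j * (g - algebraMap K (Module.End K X) (ξ 0)) := by
  have hc : Commute (TT g (fun i => ξ i.succ) j) (g - algebraMap K (Module.End K X) (ξ 0)) :=
    TT_commute g _ j _ ((Commute.refl g).sub_right (Algebra.commute_algebraMap_right _ _))
  rw [hc.eq]
  unfold TT
  rw [List.ofFn_succ, List.take_succ_cons, List.map_cons, List.prod_cons]

private theorem det_step {V : Type*} [AddCommGroup V] [Module K V] [FiniteDimensional K V]
    (f : Module.End K V) (W : Submodule K V) (hW : W ≤ W.comap f) (c : K)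
    (h : ∀ y, f y - c • y ∈ W) :
    LinearMap.det f = LinearMap.det (f.restrict hW)
      * c ^ (Module.finrank K V - Module.finrank K W) := by
  rw [LinearMap.det_eq_det_mul_det W f hW]
  have h1 : W.mapQ W f hW = c • LinearMap.id := by
    apply LinearMap.ext
    intro x
    obtain ⟨y, rfl⟩ := Submodule.mkQ_surjective W x
    rw [Submodule.mkQ_apply, Submodule.mapQ_apply, LinearMap.smul_apply, LinearMap.id_apply,
      ← Submodule.Quotient.mk_smul, Submodule.Quotient.eq]
    exact h y
  rw [h1, LinearMap.det_smul, LinearMap.det_id, mul_one, Submodule.finrank_quotient]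

private theorem restrict_TT (g : Module.End K X) (W : Submodule K X) (hW : W ≤ W.comap g)
    (ξ : Fin p → K) (j : ℕ) (w : W) :
    ((TT (g.restrict hW) ξ j w : W) : X) = TT g ξ j (w : X) := by
  unfold TT
  generalize (List.ofFn ξ).take j = L
  induction L generalizing w with
  | nil => simp
  | cons c L ih =>
    rw [List.map_cons, List.map_cons, List.prod_cons, List.prod_cons, Module.End.mul_apply,
      Module.End.mul_apply, ← ih]
    simp [Module.algebraMap_end_apply]

/-- the invariant subspace `(g - ξ_0) X` -/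
private theorem inv_range (g : Module.End K X) (c : K) :
    LinearMap.range (g - algebraMap K (Module.End K X) c)
      ≤ (LinearMap.range (g - algebraMap K (Module.End K X) c)).comap g := by
  rintro _ ⟨v, rfl⟩
  refine ⟨g v, ?_⟩
  simp [Module.algebraMap_end_apply]

private theorem finrank_fl_restrict (g : Module.End K X) (ξ : Fin (p + 1) → K) (j : ℕ) :
    Module.finrank K (fl (g.restrict (inv_range g (ξ 0))) (fun i => ξ i.succ) j)
      = Module.finrank K (fl g ξ (j + 1)) := by
  set W := LinearMap.range (g - algebraMap K (Module.End K X) (ξ 0)) with hWdef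
  have h : (fl (g.restrict (inv_range g (ξ 0))) (fun i => ξ i.succ) j).map W.subtype
      = fl g ξ (j + 1) := by
    ext x
    rw [fl_eq, fl_eq, TT_cons]
    constructor
    · rintro ⟨_, ⟨⟨w, v, hv⟩, rfl⟩, rfl⟩
      refine ⟨v, ?_⟩
      rw [Submodule.subtype_apply, restrict_TT, Module.End.mul_apply, hv]
    · rintro ⟨v, rfl⟩
      refine ⟨TT (g.restrict (inv_range g (ξ 0))) (fun i => ξ i.succ) j
        ⟨(g - algebraMap K (Module.End K X) (ξ 0)) v, ⟨v, rfl⟩⟩, ⟨_, rfl⟩, ?_⟩
      rw [Submodule.subtype_apply, restrict_TT, Module.End.mul_apply]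
  rw [← h]
  exact (LinearEquiv.finrank_eq (Submodule.equivMapOfInjective W.subtype
    (Submodule.injective_subtype W) _))

private theorem mult_restrict (g : Module.End K X) (ξ : Fin (p + 1) → K) (j : Fin p) :
    mult (g.restrict (inv_range g (ξ 0))) (fun i => ξ i.succ) j = mult g ξ j.succ := by
  unfold mult
  rw [finrank_fl_restrict, finrank_fl_restrict]
  simp

private theorem TT_restrict_zero (g : Module.End K X) (ξ : Fin (p + 1) → K)
    (hg : TT g ξ (p + 1) = 0) :
    TT (g.restrict (inv_range g (ξ 0))) (fun i => ξ i.succ) p = 0 := by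
  apply LinearMap.ext
  rintro ⟨_, v, rfl⟩
  apply Subtype.ext
  rw [restrict_TT]
  have h := LinearMap.congr_fun hg v
  rw [TT_cons, Module.End.mul_apply] at h
  rw [h]
  rfl

private theorem det_aux {K : Type*} [Field K] : ∀ (p : ℕ) {V : Type*} [AddCommGroup V] [Module K V]
    [FiniteDimensional K V] (g : Module.End K V) (ξ : Fin p → K) (_ : ∀ i, ξ i ≠ 0)
    (_ : TT g ξ p = 0), LinearMap.det g = ∏ j, ξ j ^ (mult g ξ j) := by
  intro p
  induction p with
  | zero =>
    intro V _ _ _ g ξ hξ hg
    rw [TT_zero] at hg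
    have hs : Subsingleton V := by
      refine ⟨fun a b => ?_⟩
      have ha := LinearMap.congr_fun hg a
      have hb := LinearMap.congr_fun hg b
      simp only [Module.End.one_apply, LinearMap.zero_apply] at ha hb
      rw [ha, hb]
    have h0 : Module.finrank K V = 0 := Module.finrank_zero_of_subsingleton
    rw [LinearMap.det_eq_one_of_finrank_eq_zero h0 g]
    simp
  | succ p ih =>
    intro V _ _ _ g ξ hξ hg
    have h1 := det_step g (LinearMap.range (g - algebraMap K (Module.End K V) (ξ 0)))
      (inv_range g (ξ 0)) (ξ 0) (fun y => ⟨y, by simp [Module.algebraMap_end_apply]⟩)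
    have h2 := ih (g.restrict (inv_range g (ξ 0))) (fun i => ξ i.succ) (fun i => hξ _)
      (TT_restrict_zero g ξ hg)
    rw [h1, h2, Fin.prod_univ_succ, mul_comm]
    congr 1
    · unfold mult
      have e0 : fl g ξ ((0 : Fin (p + 1)) : ℕ) = ⊤ := fl_zero g ξ
      have e1 : fl g ξ (((0 : Fin (p + 1)) : ℕ) + 1)
          = LinearMap.range (g - algebraMap K (Module.End K V) (ξ 0)) := by
        rw [fl_eq, TT_succ]
        have : TT g ξ ((0 : Fin (p + 1)) : ℕ) = 1 := TT_zero g ξ
        rw [this, one_mul]
      rw [e0, e1, finrank_top, ← zpow_natCast]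
      congr 1
      rw [Nat.cast_sub (Submodule.finrank_le _)]
    · apply Finset.prod_congr rfl
      intro j _
      rw [mult_restrict]

theorem det_eq [FiniteDimensional K X] (g : Module.End K X) (ξ : Fin p → K)
    (hξ : ∀ i, ξ i ≠ 0) (hg : aeval g (∏ i, (Polynomial.X - C (ξ i))) = 0) :
    LinearMap.det g = ∏ j, ξ j ^ (mult g ξ j) :=
  det_aux p g ξ hξ (by rw [TT_all, hg])

private theorem TT_eigen (g : Module.End K X) (ξ : Fin p → K) (j : ℕ) (c : K) (v : X)
    (hv : g v = c • v) :
    TT g ξ j v = (((List.ofFn ξ).take j).map (fun b => c - b)).prod • v := by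
  unfold TT
  induction (List.ofFn ξ).take j with
  | nil => simp
  | cons b L ih =>
    rw [List.map_cons, List.map_cons, List.prod_cons, List.prod_cons, Module.End.mul_apply, ih,
      map_smul, LinearMap.sub_apply, hv, Module.algebraMap_end_apply, ← sub_smul, smul_smul,
      mul_comm]

theorem mult_eq [FiniteDimensional K X] (g : Module.End K X) (ξ : Fin p → K)
    (hξ : Function.Injective ξ) (hg : aeval g (∏ i, (Polynomial.X - C (ξ i))) = 0) (j : Fin p) :
    mult g ξ j
      = Module.finrank K (LinearMap.ker (g - algebraMap K (Module.End K X) (ξ j))) := by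
  set u := g - algebraMap K (Module.End K X) (ξ j) with hu
  have hle : LinearMap.ker u ≤ fl g ξ j := by
    intro v hv
    have hv' : g v = ξ j • v := by
      have h := LinearMap.mem_ker.1 hv
      rw [hu, LinearMap.sub_apply, Module.algebraMap_end_apply, sub_eq_zero] at h
      exact h
    have hT := TT_eigen g ξ j (ξ j) v hv'
    set s := (((List.ofFn ξ).take j).map (fun b => ξ j - b)).prod with hs
    have hs0 : s ≠ 0 := by
      rw [hs]
      intro h0
      rw [List.prod_eq_zero_iff, List.mem_map] at h0
      obtain ⟨b, hb, hb0⟩ := h0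
      rw [List.mem_take_iff_getElem] at hb
      obtain ⟨m, hm, hmb⟩ := hb
      rw [List.length_ofFn] at hm
      rw [List.getElem_ofFn] at hmb
      have h3 : ξ j = ξ ⟨m, by omega⟩ := by
        rw [hmb]; exact sub_eq_zero.1 hb0
      have h4 := hξ h3
      rw [Fin.ext_iff] at h4
      simp only at h4
      omega
    rw [fl_eq]
    refine ⟨s⁻¹ • v, ?_⟩
    rw [map_smul, hT, smul_smul, inv_mul_cancel₀ hs0, one_smul]
  have hmap : (fl g ξ j).map u = fl g ξ (j + 1) := by
    rw [fl_eq, fl_eq, TT_succ]
    have hc : Commute (TT g ξ j) u :=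
      TT_commute g _ j _ ((Commute.refl g).sub_right (Algebra.commute_algebraMap_right _ _))
    rw [hc.eq, ← LinearMap.range_comp]
    rfl
  have hrn := LinearMap.finrank_range_add_finrank_ker (u.domRestrict (fl g ξ j))
  rw [LinearMap.range_domRestrict, hmap] at hrn
  have hker : Module.finrank K (LinearMap.ker (u.domRestrict (fl g ξ j)))
      = Module.finrank K (LinearMap.ker u) := by
    have h5 : (LinearMap.ker (u.domRestrict (fl g ξ j))).map (fl g ξ j).subtype
        = LinearMap.ker u := by
      ext x
      constructor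
      · rintro ⟨w, hw, rfl⟩
        exact hw
      · intro hx
        exact ⟨⟨x, hle hx⟩, hx, rfl⟩
    rw [← h5]
    exact LinearEquiv.finrank_eq (Submodule.equivMapOfInjective _
      (Submodule.injective_subtype _) _)
  unfold mult
  rw [← hker]
  omega

/-- Additivity in short exact sequences `0 → X → Y → Z → 0` (for distinct `ξ`). -/
theorem mult_add {Z : Type*} [AddCommGroup Z] [Module K Z]
    [FiniteDimensional K X] [FiniteDimensional K Y] [FiniteDimensional K Z]
    (gX : Module.End K X) (gY : Module.End K Y) (gZ : Module.End K Z) (ξ : Fin p → K)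
    (hξ : Function.Injective ξ)
    (hX : aeval gX (∏ i, (Polynomial.X - C (ξ i))) = 0)
    (hY : aeval gY (∏ i, (Polynomial.X - C (ξ i))) = 0)
    (hZ : aeval gZ (∏ i, (Polynomial.X - C (ξ i))) = 0)
    (i : X →ₗ[K] Y) (q : Y →ₗ[K] Z) (hi : Function.Injective i) (hq : Function.Surjective q)
    (hiq : LinearMap.range i = LinearMap.ker q)
    (ci : i ∘ₗ gX = gY ∘ₗ i) (cq : q ∘ₗ gY = gZ ∘ₗ q) (j : Fin p) :
    mult gY ξ j = mult gX ξ j + mult gZ ξ j := by
  have hdim : Module.finrank K Y = Module.finrank K X + Module.finrank K Z := by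
    have h1 := LinearMap.finrank_range_add_finrank_ker q
    rw [LinearMap.range_eq_top.2 hq, finrank_top, ← hiq, LinearMap.finrank_range_of_inj hi] at h1
    omega
  have hle : ∀ j, mult gY ξ j ≤ mult gX ξ j + mult gZ ξ j := by
    intro j
    rw [mult_eq gX ξ hξ hX, mult_eq gY ξ hξ hY, mult_eq gZ ξ hξ hZ]
    set EX := LinearMap.ker (gX - algebraMap K (Module.End K X) (ξ j)) with hEX
    set EY := LinearMap.ker (gY - algebraMap K (Module.End K Y) (ξ j)) with hEY
    set EZ := LinearMap.ker (gZ - algebraMap K (Module.End K Z) (ξ j)) with hEZ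
    have hrn := LinearMap.finrank_range_add_finrank_ker (q.domRestrict EY)
    have hr : LinearMap.range (q.domRestrict EY) ≤ EZ := by
      rintro _ ⟨⟨y, hy⟩, rfl⟩
      have hy' : gY y = ξ j • y := by
        have h := LinearMap.mem_ker.1 hy
        rwa [LinearMap.sub_apply, Module.algebraMap_end_apply, sub_eq_zero] at h
      rw [hEZ, LinearMap.mem_ker, LinearMap.sub_apply, Module.algebraMap_end_apply, sub_eq_zero]
      have h := LinearMap.congr_fun cq y
      simp only [LinearMap.comp_apply] at h
      rw [LinearMap.domRestrict_apply, ← h, hy', map_smul]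
    have hk : (LinearMap.ker (q.domRestrict EY)).map EY.subtype ≤ EX.map i := by
      rintro _ ⟨⟨y, hy⟩, hqy, rfl⟩
      have hy' : gY y = ξ j • y := by
        have h := LinearMap.mem_ker.1 hy
        rwa [LinearMap.sub_apply, Module.algebraMap_end_apply, sub_eq_zero] at h
      have hqy' : q y = 0 := hqy
      have hy2 : y ∈ LinearMap.range i := by rw [hiq]; exact hqy'
      obtain ⟨x, rfl⟩ := hy2
      refine ⟨x, ?_, rfl⟩
      rw [hEX, SetLike.mem_coe, LinearMap.mem_ker, LinearMap.sub_apply,
        Module.algebraMap_end_apply, sub_eq_zero]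
      apply hi
      have h := LinearMap.congr_fun ci x
      simp only [LinearMap.comp_apply] at h
      rw [h, hy', map_smul]
    have h1 := Submodule.finrank_mono hr
    have h2 := Submodule.finrank_mono hk
    have h3 : Module.finrank K ((LinearMap.ker (q.domRestrict EY)).map EY.subtype)
        = Module.finrank K (LinearMap.ker (q.domRestrict EY)) :=
      (LinearEquiv.finrank_eq (Submodule.equivMapOfInjective _
        (Submodule.injective_subtype _) _)).symm
    have h4 : Module.finrank K (EX.map i) = Module.finrank K EX :=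
      (LinearEquiv.finrank_eq (Submodule.equivMapOfInjective _ hi _)).symm
    omega
  have hsum : ∑ j, mult gY ξ j = ∑ j, (mult gX ξ j + mult gZ ξ j) := by
    rw [Finset.sum_add_distrib, sum_mult gX ξ hX, sum_mult gY ξ hY, sum_mult gZ ξ hZ, hdim]
    push_cast
    ring
  exact (Finset.sum_eq_sum_iff_of_le (fun j _ => hle j)).1 hsum j (Finset.mem_univ j)

/-- Isomorphic operators have the same multiplicities (no condition on `ξ`). -/
theorem mult_congr (gX : Module.End K X) (gY : Module.End K Y) (ξ : Fin p → K) (e : X ≃ₗ[K] Y)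
    (he : ∀ u, e (gX u) = gY (e u)) (j : Fin p) : mult gX ξ j = mult gY ξ j := by
  have hT : ∀ (m : ℕ) (x : X), e (TT gX ξ m x) = TT gY ξ m (e x) := by
    intro m
    unfold TT
    induction (List.ofFn ξ).take m with
    | nil => intro x; simp
    | cons b L ih =>
      intro x
      rw [List.map_cons, List.map_cons, List.prod_cons, List.prod_cons, Module.End.mul_apply,
        Module.End.mul_apply, ← ih, LinearMap.sub_apply, LinearMap.sub_apply, map_sub, he,
        Module.algebraMap_end_apply, Module.algebraMap_end_apply, map_smul]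
  have hfl : ∀ m : ℕ, Module.finrank K (fl gX ξ m) = Module.finrank K (fl gY ξ m) := by
    intro m
    have h : (fl gX ξ m).map (e : X →ₗ[K] Y) = fl gY ξ m := by
      rw [fl_eq, fl_eq]
      ext y
      constructor
      · rintro ⟨_, ⟨x, rfl⟩, rfl⟩
        exact ⟨e x, (hT m x).symm⟩
      · rintro ⟨y, rfl⟩
        refine ⟨TT gX ξ m (e.symm y), ⟨_, rfl⟩, ?_⟩
        rw [LinearEquiv.coe_coe, hT, LinearEquiv.apply_symm_apply]
    rw [← h]
    exact (LinearEquiv.finrank_map_eq e _).symm
  unfold mult
  rw [hfl, hfl]

end BMM
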