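/-
MP_b1ea0f_al, library BMM, module DetL (linear algebra only).  Part of section 6.2.
Determinants over K[y]/(y^N).
SETTING. V finite-dimensional over K, three operators g 0, g 1, g 2 killed by P_x = ∏ (T - x_j)
(distinct on each leg), y an operator commuting with them, y^N = 0, g 0 g 1 g 2 = ζ + y, and V is free
over K[y]/(y^N): dim V = N dim (V / yV). CONCLUSION: if dimv x g = N α then (ζ + y)^d = m_α on V, where
d = dim (V / yV) = lev α.
-/
import Pool.Agent.Lib.BMM.Flag

open Polynomial

namespace BMM

/-! ### The ring `K[T]/(T^N)` -/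

/-- The ring `K[T]/(T^N)`. -/
private abbrev Lam (K : Type*) [Field K] (N : ℕ) : Type _ := K[X] ⧸ Ideal.span {(X : K[X]) ^ N}

private noncomputable def tt (K : Type*) [Field K] (N : ℕ) : Lam K N :=
  Ideal.Quotient.mk (Ideal.span {(X : K[X]) ^ N}) X

section lam

variable {K : Type*} [Field K] {N : ℕ}

private theorem tt_pow : tt K N ^ N = 0 := by
  rw [tt, ← map_pow]
  exact Ideal.Quotient.eq_zero_iff_mem.2 (Ideal.mem_span_singleton_self _)

private theorem finrank_Lam : Module.finrank K (Lam K N) = N := by
  rw [finrank_quotient_span_eq_natDegree, natDegree_X_pow]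

private theorem finite_Lam : Module.Finite K (Lam K N) :=
  (monic_X_pow N).finite_quotient

/-- Nakayama: a module over `K[T]/(T^N)` is generated by `dim (M / TM)` elements. -/
private theorem exists_span {M : Type*} [AddCommGroup M] [Module K M] [Module (Lam K N) M]
    [IsScalarTower K (Lam K N) M] [FiniteDimensional K M] (Y : M →ₗ[K] M)
    (hY : ∀ m, Y m = tt K N • m) :
    ∃ e : Fin (Module.finrank K (M ⧸ LinearMap.range Y)) → M,
      Submodule.span (Lam K N) (Set.range e) = ⊤ := by
  classical
  set b := Module.finBasis K (M ⧸ LinearMap.range Y) with hb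
  have hl : ∀ k, ∃ e : M, (LinearMap.range Y).mkQ e = b k := fun k =>
    (LinearMap.range Y).mkQ_surjective (b k)
  choose e he using hl
  refine ⟨e, ?_⟩
  set S := Submodule.span (Lam K N) (Set.range e) with hS
  have h1 : ∀ m : M, ∃ s ∈ S, ∃ m', m = s + tt K N • m' := by
    intro m
    refine ⟨∑ k, (b.repr ((LinearMap.range Y).mkQ m) k) • e k, ?_, ?_⟩
    · refine Submodule.sum_mem _ (fun k _ => ?_)
      rw [← algebraMap_smul (Lam K N)]
      exact Submodule.smul_mem _ _ (Submodule.subset_span ⟨k, rfl⟩)
    · have h2 : m - ∑ k, (b.repr ((LinearMap.range Y).mkQ m) k) • e k ∈ LinearMap.range Y := by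
        refine (Submodule.Quotient.mk_eq_zero _).1 ?_
        change (LinearMap.range Y).mkQ _ = 0
        rw [map_sub, map_sum]
        simp only [map_smul, he]
        rw [b.sum_repr, sub_self]
      obtain ⟨m', hm'⟩ := h2
      refine ⟨m', ?_⟩
      rw [← hY, hm']
      abel
  have h2 : ∀ n : ℕ, ∀ m : M, ∃ s ∈ S, ∃ m', m = s + tt K N ^ n • m' := by
    intro n
    induction n with
    | zero => exact fun m => ⟨0, S.zero_mem, m, by simp⟩
    | succ n ih =>
      intro m
      obtain ⟨s, hs, m', hm'⟩ := ih m
      obtain ⟨s', hs', m'', hm''⟩ := h1 m'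
      refine ⟨s + tt K N ^ n • s', S.add_mem hs (S.smul_mem _ hs'), m'', ?_⟩
      rw [hm', hm'', smul_add, smul_smul, ← pow_succ, add_assoc]
  rw [eq_top_iff]
  intro m _
  obtain ⟨s, hs, m', hm'⟩ := h2 N m
  have h3 : tt K N ^ N • m' = 0 := by
    rw [tt_pow]
    exact zero_smul (Lam K N) m'
  rw [hm', h3, add_zero]
  exact hs

/-- A generating family with `dim M / N` elements is a basis. -/
private theorem exists_basis {M : Type*} [AddCommGroup M] [Module K M] [Module (Lam K N) M]
    [IsScalarTower K (Lam K N) M] [FiniteDimensional K M] {ι : Type*} [Fintype ι] [DecidableEq ι]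
    (e : ι → M) (he : Submodule.span (Lam K N) (Set.range e) = ⊤)
    (hdim : Module.finrank K M = N * Fintype.card ι) :
    ∃ b : Module.Basis ι (Lam K N) M, ∀ i, b i = e i := by
  have := finite_Lam (K := K) (N := N)
  let f : (ι → Lam K N) →ₗ[Lam K N] M := Fintype.linearCombination (Lam K N) e
  have hs : Function.Surjective f := by
    rw [← LinearMap.range_eq_top, Fintype.range_linearCombination, he]
  have hd : Module.finrank K (ι → Lam K N) = Module.finrank K M := by
    rw [Module.finrank_pi_fintype, hdim]
    simp [finrank_Lam, mul_comm]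
  have hi : Function.Injective f :=
    (LinearMap.injective_iff_surjective_of_finrank_eq_finrank
      (f := f.restrictScalars K) hd).2 hs
  refine ⟨Module.Basis.ofEquivFun (LinearEquiv.ofBijective f ⟨hi, hs⟩).symm, fun i => ?_⟩
  rw [Module.Basis.coe_ofEquivFun, LinearEquiv.symm_symm]
  change Fintype.linearCombination (Lam K N) e (Pi.single i 1) = e i
  rw [Fintype.linearCombination_apply_single, one_smul]

private theorem finrank_le {M : Type*} [AddCommGroup M] [Module K M] [Module (Lam K N) M]
    [IsScalarTower K (Lam K N) M] [FiniteDimensional K M] {ι : Type*} [Fintype ι] 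
    (e : ι → M) (he : Submodule.span (Lam K N) (Set.range e) = ⊤) :
    Module.finrank K M ≤ N * Fintype.card ι := by
  classical
  have := finite_Lam (K := K) (N := N)
  let f : (ι → Lam K N) →ₗ[Lam K N] M := Fintype.linearCombination (Lam K N) e
  have hs : Function.Surjective f := by
    rw [← LinearMap.range_eq_top, Fintype.range_linearCombination, he]
  have hd : Module.finrank K (ι → Lam K N) = N * Fintype.card ι := by
    rw [Module.finrank_pi_fintype]
    simp [finrank_Lam, mul_comm]
  rw [← hd]
  exact LinearMap.finrank_le_finrank_of_surjective (f := f.restrictScalars K) hs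

end lam

/-- The kernel of a product of distinct linear factors is spanned by the eigenvectors. -/
private theorem iSup_ker {K : Type*} [Field K] {V : Type*} [AddCommGroup V] [Module K V]
    {p : ℕ} (g : Module.End K V) (ξ : Fin p → K) (hξ : Function.Injective ξ)
    (hg : aeval g (∏ i, (X - C (ξ i))) = 0) :
    ⨆ i, LinearMap.ker (g - algebraMap K (Module.End K V) (ξ i)) = ⊤ := by
  classical
  have h1 : ∀ i, g - algebraMap K (Module.End K V) (ξ i) = aeval g (X - C (ξ i)) := fun i => by
    simp
  have h2 : ∀ s : Finset (Fin p), LinearMap.ker (aeval g (∏ i ∈ s, (X - C (ξ i))))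
      ≤ ⨆ i, LinearMap.ker (g - algebraMap K (Module.End K V) (ξ i)) := by
    intro s
    induction s using Finset.induction_on with
    | empty =>
      simp only [Finset.prod_empty, map_one]
      intro v hv
      have : v = 0 := by simpa using hv
      rw [this]
      exact Submodule.zero_mem _
    | insert a s ha ih =>
      have hc : IsCoprime (X - C (ξ a)) (∏ i ∈ s, (X - C (ξ i))) := by
        refine IsCoprime.prod_right (fun i hi => ?_)
        refine isCoprime_X_sub_C_of_isUnit_sub ?_
        rw [isUnit_iff_ne_zero, sub_ne_zero]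
        intro h
        exact ha (hξ h ▸ hi)
      rw [Finset.prod_insert ha, ← sup_ker_aeval_eq_ker_aeval_mul_of_coprime g hc]
      refine sup_le ?_ ih
      rw [← h1]
      exact le_iSup (fun i => LinearMap.ker (g - algebraMap K (Module.End K V) (ξ i))) a
  rw [eq_top_iff]
  refine le_trans ?_ (h2 Finset.univ)
  rw [hg]
  intro v _
  simp

/-- Dimension of the kernel of a restriction. -/
private theorem finrank_ker_restrict {K : Type*} [Field K] {V : Type*} [AddCommGroup V]
    [Module K V] [FiniteDimensional K V] (W : Submodule K V) (u : Module.End K V)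
    (hu : ∀ v ∈ W, u v ∈ W) :
    Module.finrank K (LinearMap.ker (u.restrict hu))
      = Module.finrank K (LinearMap.ker u ⊓ W : Submodule K V) := by
  have h : Submodule.map W.subtype (LinearMap.ker (u.restrict hu)) = LinearMap.ker u ⊓ W := by
    ext v
    simp only [Submodule.mem_map, LinearMap.mem_ker, Submodule.subtype_apply, Submodule.mem_inf]
    constructor
    · rintro ⟨w, hw, rfl⟩
      refine ⟨?_, w.2⟩
      have := congrArg Subtype.val hw
      simpa using this
    · rintro ⟨h1, h2⟩
      exact ⟨⟨v, h2⟩, Subtype.ext (by simpa using h1), rfl⟩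
  rw [← h, Submodule.finrank_map_subtype_eq]


private theorem aeval_restrict {K : Type*} [Field K] {V : Type*} [AddCommGroup V]
    [Module K V] (W : Submodule K V) (g : Module.End K V) (hg : ∀ v ∈ W, g v ∈ W) (P : K[X])
    (w : W) : ((aeval (g.restrict hg) P w : W) : V) = aeval g P w := by
  have h : ∀ n : ℕ, ((((g.restrict hg) ^ n) w : W) : V) = (g ^ n) (w : V) := by
    intro n
    induction n with
    | zero => rfl
    | succ n ih =>
      rw [pow_succ', pow_succ', Module.End.mul_apply, Module.End.mul_apply, ← ih]
      rfl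
  induction P using Polynomial.induction_on' with
  | add p q hp hq => simp [hp, hq]
  | monomial n a => simp [aeval_monomial, h, ← Algebra.smul_def]

section leg

variable {K : Type*} [Field K] {N : ℕ} {V : Type*} [AddCommGroup V] [Module K V]
  [Module (Lam K N) V] [IsScalarTower K (Lam K N) V] [FiniteDimensional K V]

/-- One leg: `V` is free and the determinant over `K[T]/(T^N)` of an operator is the product of its
eigenvalues. -/
private theorem leg (hN0 : N ≠ 0) {p : ℕ} (Y g : Module.End K V) (hY : ∀ v, Y v = tt K N • v)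
    (hfree : Module.finrank K V = N * Module.finrank K (V ⧸ LinearMap.range Y))
    (G : V →ₗ[Lam K N] V) (hG : ∀ v, G v = g v) (ξ : Fin p → K) (hξ : Function.Injective ξ)
    (hg : aeval g (∏ i, (X - C (ξ i))) = 0) (α : Fin p → ℤ)
    (hα : ∀ j, mult g ξ j = (N : ℤ) * α j) :
    Module.Free (Lam K N) V ∧
    Module.finrank (Lam K N) V = Module.finrank K (V ⧸ LinearMap.range Y) ∧
    LinearMap.det G = algebraMap K (Lam K N) (∏ j, ξ j ^ α j) := by
  classical
  have hYg : ∀ v, Y (g v) = g (Y v) := fun v => by rw [hY, hY, ← hG, ← hG, map_smul]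
  -- the eigenspaces
  let E : Fin p → Submodule (Lam K N) V := fun i =>
    LinearMap.ker (G - (algebraMap K (Lam K N) (ξ i)) • LinearMap.id)
  have hE : ∀ i v, v ∈ E i ↔ G v = ξ i • v := by
    intro i v
    simp only [E, LinearMap.mem_ker, LinearMap.sub_apply, LinearMap.smul_apply, LinearMap.id_apply,
      algebraMap_smul, sub_eq_zero]
  have hEK : ∀ i, (E i).restrictScalars K
      = LinearMap.ker (g - algebraMap K (Module.End K V) (ξ i)) := by
    intro i
    ext v
    rw [Submodule.restrictScalars_mem, hE, LinearMap.mem_ker, LinearMap.sub_apply, sub_eq_zero, hG]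
    rfl
  have hfin : ∀ i, FiniteDimensional K (E i) := fun i =>
    inferInstanceAs (FiniteDimensional K ((E i).restrictScalars K))
  have hYE : ∀ i, ∀ v ∈ (E i).restrictScalars K, Y v ∈ (E i).restrictScalars K := by
    intro i v hv
    rw [hY]
    exact (E i).smul_mem _ hv
  let y : ∀ i, (E i) →ₗ[K] (E i) := fun i =>
    (Y.restrict (hYE i) : Module.End K ((E i).restrictScalars K))
  have hy : ∀ i m, y i m = tt K N • m := fun i m => Subtype.ext (hY m)
  let r : Fin p → ℕ := fun i => Module.finrank K ((E i) ⧸ LinearMap.range (y i))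
  have hr : ∀ i, r i = Module.finrank K (LinearMap.ker Y ⊓ (E i).restrictScalars K : Submodule K V) := by
    intro i
    have h1 : Module.finrank K (LinearMap.ker (y i))
        = Module.finrank K (LinearMap.ker Y ⊓ (E i).restrictScalars K : Submodule K V) :=
      finrank_ker_restrict ((E i).restrictScalars K) Y (hYE i)
    have h2 := LinearMap.finrank_range_add_finrank_ker (y i)
    have h3 := Submodule.finrank_quotient_add_finrank (LinearMap.range (y i))
    rw [← h1]
    simp only [r]
    omega
  have hW : Module.finrank K (V ⧸ LinearMap.range Y) = Module.finrank K (LinearMap.ker Y) := by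
    have h2 := LinearMap.finrank_range_add_finrank_ker Y
    have h3 := Submodule.finrank_quotient_add_finrank (LinearMap.range Y)
    omega
  have hgW : ∀ v ∈ LinearMap.ker Y, g v ∈ LinearMap.ker Y := by
    intro v hv
    rw [LinearMap.mem_ker] at hv ⊢
    rw [hYg, hv, map_zero]
  have hPW : aeval (g.restrict hgW) (∏ i, (X - C (ξ i))) = 0 := by
    ext w
    rw [aeval_restrict, hg]
    rfl
  have hsum : ∑ i, r i = Module.finrank K (V ⧸ LinearMap.range Y) := by
    have h1 := sum_mult (g.restrict hgW) ξ hPW
    have h2 : ∀ j, mult (g.restrict hgW) ξ j = (r j : ℤ) := by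
      intro j
      rw [mult_eq _ ξ hξ hPW j, hr, inf_comm, hEK]
      have h3 : ∀ v ∈ LinearMap.ker Y, (g - algebraMap K (Module.End K V) (ξ j)) v
          ∈ LinearMap.ker Y := fun v hv =>
        Submodule.sub_mem _ (hgW v hv) (Submodule.smul_mem _ _ hv)
      rw [← finrank_ker_restrict (LinearMap.ker Y) _ h3]
      rfl
    rw [Finset.sum_congr rfl (fun j _ => h2 j)] at h1
    rw [hW]
    exact_mod_cast h1
  choose e he using fun i => exists_span (y i) (hy i)
  have hle : ∀ i, Module.finrank K (E i) ≤ N * r i := by
    intro i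
    have := finrank_le (e i) (he i)
    simpa [r] using this
  have hdim : ∀ i, (Module.finrank K (E i) : ℤ) = N * α i := by
    intro i
    rw [← hα, mult_eq _ ξ hξ hg i, ← hEK]
    rfl
  have htot : ∑ i, (Module.finrank K (E i) : ℤ) = Module.finrank K V := by
    rw [← sum_mult g ξ hg]
    exact Finset.sum_congr rfl (fun i _ => by rw [hdim, hα])
  have heq : ∀ i, Module.finrank K (E i) = N * r i := by
    have h1 : ∑ i, Module.finrank K (E i) = ∑ i, N * r i := by
      rw [← Finset.mul_sum, hsum, ← hfree]
      exact_mod_cast htot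
    intro i
    exact (Finset.sum_eq_sum_iff_of_le (fun i _ => hle i)).1 h1 i (Finset.mem_univ i)
  have hαr : ∀ i, α i = r i := by
    intro i
    have h1 := hdim i
    rw [heq i] at h1
    push_cast at h1
    have h2 : (N : ℤ) ≠ 0 := by exact_mod_cast hN0
    exact (mul_left_cancel₀ h2 h1).symm
  -- the basis of eigenvectors
  let b0 : (Σ i : Fin p, Fin (r i)) → V := fun ik => (e ik.1 ik.2 : V)
  have hspan : Submodule.span (Lam K N) (Set.range b0) = ⊤ := by
    have h1 : ∀ i, E i ≤ Submodule.span (Lam K N) (Set.range b0) := by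
      intro i
      have h2 : Submodule.map (E i).subtype (Submodule.span (Lam K N) (Set.range (e i))) = E i := by
        rw [he, Submodule.map_subtype_top]
      rw [← h2, Submodule.map_span, Submodule.span_le]
      rintro _ ⟨_, ⟨k, rfl⟩, rfl⟩
      exact Submodule.subset_span ⟨⟨i, k⟩, rfl⟩
    have h3 := iSup_ker g ξ hξ hg
    rw [← Submodule.restrictScalars_eq_top_iff K, eq_top_iff, ← h3]
    refine iSup_le (fun i => ?_)
    rw [← hEK]
    exact h1 i
  have hcard : Module.finrank K V = N * Fintype.card (Σ i : Fin p, Fin (r i)) := by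
    rw [hfree, ← hsum]
    simp
  obtain ⟨b, hb⟩ := exists_basis b0 hspan hcard
  have hNt : Nontrivial (Lam K N) := by
    refine Module.nontrivial_of_finrank_pos (R := K) ?_
    rw [finrank_Lam]
    exact Nat.pos_of_ne_zero hN0
  refine ⟨Module.Free.of_basis b, ?_, ?_⟩
  · rw [Module.finrank_eq_card_basis b, ← hsum]
    simp
  · rw [← LinearMap.det_toMatrix b]
    have h1 : LinearMap.toMatrix b b G
        = Matrix.diagonal (fun ik : (Σ i : Fin p, Fin (r i)) => algebraMap K (Lam K N) (ξ ik.1)) := by
      ext a c
      rw [LinearMap.toMatrix_apply, hb c]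
      have h2 : G (b0 c) = algebraMap K (Lam K N) (ξ c.1) • b0 c := by
        rw [algebraMap_smul]
        exact (hE c.1 _).1 (e c.1 c.2).2
      rw [h2, map_smul, ← hb c, Module.Basis.repr_self]
      by_cases hac : a = c
      · subst hac
        simp [Algebra.algebraMap_eq_smul_one]
      · simp [Matrix.diagonal_apply_ne _ hac, Finsupp.single_apply, Ne.symm hac, eq_comm]
    rw [h1, Matrix.det_diagonal, map_prod, Fintype.prod_sigma]
    refine Finset.prod_congr rfl (fun i _ => ?_)
    change ∏ _y : Fin (r i), algebraMap K (Lam K N) (ξ i) = _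
    rw [Finset.prod_const, Finset.card_univ, Fintype.card_fin, hαr i, zpow_natCast, map_pow]

end leg

theorem det_lambda {n : ℕ} {K : Type*} [Field K] {V : Type*} [AddCommGroup V] [Module K V]
    [FiniteDimensional K V] (x : J n → K) (hx : ∀ j, x j ≠ 0)
    (h2 : ∀ l, Function.Injective (fun i : Fin (pp n l) => x ⟨l, i⟩))
    (g : Fin 3 → Module.End K V) (hp : ∀ l, aeval (g l) (PX x l) = 0)
    (y : Module.End K V) (hy : ∀ l, y * g l = g l * y) (ζ : K)
    (hz : zop g = algebraMap K (Module.End K V) ζ + y) (N : ℕ) (hN : y ^ N = 0)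
    (hfree : Module.finrank K V = N * Module.finrank K (V ⧸ LinearMap.range y))
    (α : J n → ℤ) (hα : dimv x g = (N : ℤ) • α) (hN0 : N ≠ 0) :
    zop g ^ (Module.finrank K (V ⧸ LinearMap.range y))
      = algebraMap K (Module.End K V) (mon x α) := by
  classical
  let φ : Lam K N →ₐ[K] Module.End K V :=
    Ideal.Quotient.liftₐ (Ideal.span {(X : K[X]) ^ N}) (aeval y) (by
      intro a ha
      obtain ⟨b, rfl⟩ := Ideal.mem_span_singleton.1 ha
      rw [map_mul, map_pow, aeval_X, hN, zero_mul])
  have hφ : φ (tt K N) = y := by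
    change aeval y X = y
    exact aeval_X y
  have hφc : ∀ (c : Lam K N) (l : Fin 3), φ c * g l = g l * φ c := by
    intro c l
    obtain ⟨q, rfl⟩ := Ideal.Quotient.mk_surjective c
    change aeval y q * g l = g l * aeval y q
    have h : Commute (aeval y q) (g l) := by
      induction q using Polynomial.induction_on' with
      | add p q hp hq => rw [map_add]; exact hp.add_left hq
      | monomial n a =>
        rw [aeval_monomial]
        exact (Algebra.commute_algebraMap_left a _).mul_left (Commute.pow_left (hy l) n)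
    exact h
  let _ : Module (Lam K N) V := Module.compHom V φ.toRingHom
  have hsm : ∀ (c : Lam K N) (v : V), c • v = φ c v := fun _ _ => rfl
  have _ : IsScalarTower K (Lam K N) V := ⟨fun a c v => by
    rw [hsm, hsm, map_smul]; rfl⟩
  let G : Fin 3 → (V →ₗ[Lam K N] V) := fun l =>
    { toFun := g l
      map_add' := map_add _
      map_smul' := fun c v => by
        rw [hsm, RingHom.id_apply, hsm, ← Module.End.mul_apply, ← Module.End.mul_apply, hφc] }
  have hleg : ∀ l, Module.Free (Lam K N) V ∧
      Module.finrank (Lam K N) V = Module.finrank K (V ⧸ LinearMap.range y) ∧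
      LinearMap.det (G l) = algebraMap K (Lam K N) (∏ i, x ⟨l, i⟩ ^ α ⟨l, i⟩) := fun l =>
    leg hN0 y (g l) (fun v => by rw [hsm, hφ]) hfree (G l) (fun v => rfl)
      (fun i => x ⟨l, i⟩) (h2 l) (hp l) (fun i => α ⟨l, i⟩)
      (fun j => congrFun hα ⟨l, j⟩)
  have hfr : Module.Free (Lam K N) V := (hleg 0).1
  have h3 : G 0 * G 1 * G 2
      = (algebraMap K (Lam K N) ζ + tt K N) • (1 : V →ₗ[Lam K N] V) := by
    ext v
    change (g 0 * g 1 * g 2) v = (algebraMap K (Lam K N) ζ + tt K N) • v
    rw [hsm, map_add, hφ, AlgHom.commutes, ← hz]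
    rfl
  have h4 : (algebraMap K (Lam K N) ζ + tt K N) ^ (Module.finrank K (V ⧸ LinearMap.range y))
      = algebraMap K (Lam K N) (mon x α) := by
    have h5 := congrArg LinearMap.det h3
    rw [map_mul, map_mul, LinearMap.det_smul, map_one, mul_one, (hleg 0).2.1, (hleg 0).2.2,
      (hleg 1).2.2, (hleg 2).2.2, ← map_mul, ← map_mul] at h5
    rw [← h5]
    congr 1
    rw [mon, Fintype.prod_sigma, Fin.prod_univ_three]
  have h6 := congrArg φ h4
  rw [map_pow, map_add, hφ, AlgHom.commutes, AlgHom.commutes, ← hz] at h6
  exact h6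

end BMM
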