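/-
MP_b1ea0f_al, library BMM, module Ext53 (about 130 lines).  Section 5.3.
First order deformations of the operators of a PROJECTIVE H-module are inner.
PROOF. Given δ with dP (P x) (g x) (δ x) = 0 and d1 g w δ = 0 (g = gop P M, z = zop g, w = z⁻¹). On
E = M × M let G x (m, m') = (g x m + δ x m', g x m'). G satisfies the relations of H:
 - P x (G x) (m, m') = (P(g) m + dP P g δ m', P(g) m') = 0 (compute the powers of G x, or use that
   M × M = M ⊗ dual numbers);
 - Z := G 0 G 1 G 2 = (z, L(δ); 0, z). d1 g w δ x = 0 multiplied by z on the right says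
   z δ_x - δ_x z + L(δ) g x - g x L(δ) = 0 (w commutes with everything here), i.e. Z commutes with G x.
   From Z (G 0) = (G 0) Z and G 0 injective (unipotent block matrix with invertible diagonal; g x is
   invertible by IsCyc): G 1 G 2 G 0 = Z; from Z commuting with G 2 and G 2 surjective: G 2 G 0 G 1 = Z.
So E is an H-module by `lift` (the algebra map H → End E; `Module.compHom`), the second projection
q : E → M is H-linear and surjective, M is projective, so there is an H-linear section
m ↦ (- X m, m) (`Module.projective_lifting_property`); X is K-linear. H-linearity for gen x: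
-X (g m) = g (-X m) + δ m, i.e. δ x = g X - X g ... so δ = d0 g g (-X) resp. with the sign: put
s m := first component of the section; s g = g s + δ, δ x = s * g x - g x * s = ad (g x) (g x) s.
-/
import Pool.Agent.Lib.BMM.Bridge
import Pool.Agent.Lib.BMM.DPl

open Polynomial

namespace BMM

section blkE

variable {K : Type*} [Field K] {M : Type*} [AddCommGroup M] [Module K M]

/-- The block operator `(m, m') ↦ (a m + b m', a m')`. -/
def blkE (a b : Module.End K M) : Module.End K (M × M) where
  toFun p := (a p.1 + b p.2, a p.2)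
  map_add' p q := by ext <;> simp <;> abel
  map_smul' c p := by ext <;> simp

theorem blkE_apply (a b : Module.End K M) (p : M × M) : blkE a b p = (a p.1 + b p.2, a p.2) := rfl

theorem blkE_mul (a b c d : Module.End K M) :
    blkE a b * blkE c d = blkE (a * c) (a * d + b * c) := by
  refine LinearMap.ext fun p => ?_
  simp only [Module.End.mul_apply, blkE_apply, LinearMap.add_apply, map_add, add_assoc]

theorem blkE_one : (blkE 1 0 : Module.End K (M × M)) = 1 := by
  refine LinearMap.ext fun p => ?_
  simp [blkE_apply]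

theorem blkE_zero : (blkE 0 0 : Module.End K (M × M)) = 0 := by
  refine LinearMap.ext fun p => ?_
  simp [blkE_apply]

theorem blkE_add (a b c d : Module.End K M) : blkE a b + blkE c d = blkE (a + c) (b + d) := by
  refine LinearMap.ext fun p => ?_
  simp only [LinearMap.add_apply, blkE_apply, Prod.mk_add_mk]
  congr 1
  abel

theorem blkE_smul (r : K) (a b : Module.End K M) : r • blkE a b = blkE (r • a) (r • b) := by
  refine LinearMap.ext fun p => ?_
  simp only [LinearMap.smul_apply, blkE_apply, Prod.smul_mk, smul_add]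

theorem blkE_pow (g η : Module.End K M) (k : ℕ) :
    blkE g η ^ k = blkE (g ^ k) (∑ i ∈ Finset.range k, g ^ i * η * g ^ (k - 1 - i)) := by
  induction k with
  | zero => simp [blkE_one]
  | succ k ih =>
    rw [pow_succ, ih, blkE_mul, ← pow_succ]
    congr 1
    rw [Finset.sum_range_succ]
    have h1 : k + 1 - 1 - k = 0 := by omega
    rw [h1, pow_zero, mul_one, add_comm]
    congr 1
    rw [Finset.sum_mul]
    refine Finset.sum_congr rfl fun i hi => ?_
    rw [Finset.mem_range] at hi
    rw [mul_assoc _ (g ^ (k - 1 - i)), ← pow_succ]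
    congr 2
    omega

theorem blkE_sum {ι : Type*} (s : Finset ι) (a b : ι → Module.End K M) :
    ∑ i ∈ s, blkE (a i) (b i) = blkE (∑ i ∈ s, a i) (∑ i ∈ s, b i) := by
  classical
  induction s using Finset.induction_on with
  | empty => simp [blkE_zero]
  | insert i s hi ih => rw [Finset.sum_insert hi, Finset.sum_insert hi, Finset.sum_insert hi, ih,
      blkE_add]

theorem aeval_blkE (Q : K[X]) (g η : Module.End K M) :
    aeval (blkE g η) Q = blkE (aeval g Q) (dP Q g η) := by
  have h1 : ∀ {B : Type _} [Ring B] [Algebra K B] (u : B),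
      aeval u Q = ∑ k ∈ Q.support, Q.coeff k • u ^ k := by
    intro B _ _ u
    rw [aeval_def, eval₂_eq_sum, Polynomial.sum]
    exact Finset.sum_congr rfl fun k _ => (Algebra.smul_def _ _).symm
  have h2 : dP Q g η = ∑ k ∈ Q.support,
      Q.coeff k • ∑ i ∈ Finset.range k, g ^ i * η * g ^ (k - 1 - i) := rfl
  rw [h1, h1, h2, ← blkE_sum]
  exact Finset.sum_congr rfl fun k _ => by rw [blkE_pow, blkE_smul]

end blkE

variable {K : Type*} [Field K] {P : Fin 3 → K[X]}

/-- Lifting along a surjection onto a projective module, for an action given by an algebra map. -/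
theorem exists_section_of_projective {M : Type*} [AddCommGroup M] [Module K M]
    [Module (HA K P) M] [IsScalarTower K (HA K P) M] [Module.Projective (HA K P) M]
    {E : Type*} [AddCommGroup E] [Module K E] (ρ : HA K P →ₐ[K] Module.End K E) (q : E →ₗ[K] M)
    (hq : ∀ x e, q (ρ (gen K P x) e) = gen K P x • q e) (hs : Function.Surjective q) :
    ∃ s : M →ₗ[K] E, (∀ m, q (s m) = m) ∧
      ∀ x m, s (gen K P x • m) = ρ (gen K P x) (s m) := by
  let _ : Module (HA K P) E := Module.compHom E ρ.toRingHom
  have hsm : ∀ (u : HA K P) (e : E), u • e = ρ u e := fun u e => rfl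
  have hlin : ∀ (u : HA K P) (e : E), q (ρ u e) = u • q e := by
    intro u
    induction u using HA.induction with
    | h1 r =>
      intro e
      rw [AlgHom.commutes, Module.algebraMap_end_apply, map_smul, algebraMap_smul]
    | hg x => exact hq x
    | hadd u v hu hv =>
      intro e
      rw [map_add, LinearMap.add_apply, map_add, hu, hv, add_smul]
    | hmul u v hu hv =>
      intro e
      rw [map_mul, Module.End.mul_apply, hu, hv, mul_smul]
  let q' : E →ₗ[HA K P] M :=
    { toFun := q
      map_add' := map_add q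
      map_smul' := fun u e => hlin u e }
  obtain ⟨h, hh⟩ := Module.projective_lifting_property q' LinearMap.id hs
  refine ⟨{ toFun := h, map_add' := map_add h, map_smul' := fun c m => ?_ }, fun m => ?_,
    fun x m => ?_⟩
  · have h1 : c • m = algebraMap K (HA K P) c • m := (algebraMap_smul _ _ _).symm
    rw [h1, map_smul, hsm, AlgHom.commutes, Module.algebraMap_end_apply]
    rfl
  · exact DFunLike.congr_fun hh m
  · exact map_smul h (gen K P x) m

variable (M : Type*) [AddCommGroup M] [Module K M] [Module (HA K P) M] [IsScalarTower K (HA K P) M]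

theorem ext53 (hP : ∀ x, (P x).coeff 0 ≠ 0) [Module.Projective (HA K P) M]
    (w : Module.End K M) (hw : w * zop (gop P M) = 1) (δ : Fin 3 → Module.End K M)
    (h1 : ∀ x, dP (P x) (gop P M x) (δ x) = 0) (h2 : d1 (gop P M) w δ = 0) :
    ∃ s, δ = d0 (gop P M) (gop P M) s := by
  set g := gop P M with hg
  have htri : IsTriple P g := isTriple_gop P M
  have hpol : ∀ x, aeval (blkE (g x) (δ x)) (P x) = 0 := by
    intro x
    rw [aeval_blkE, htri.pol x, h1 x, blkE_zero]
  have hun : ∀ x, IsUnit (blkE (g x) (δ x)) := fun x =>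
    isUnit_of_aeval (isUnit_iff_ne_zero.2 (hP x)) (hpol x)
  have hZ : blkE (g 0) (δ 0) * blkE (g 1) (δ 1) * blkE (g 2) (δ 2) = blkE (zop g) (LL g g δ) := by
    rw [blkE_mul, blkE_mul]
    congr 1
    refine LinearMap.ext fun m => ?_
    simp only [LinearMap.add_apply, Module.End.mul_apply, LL_apply, LinearMap.comp_apply, map_add]
    abel
  have hcomm : ∀ x, blkE (zop g) (LL g g δ) * blkE (g x) (δ x)
      = blkE (g x) (δ x) * blkE (zop g) (LL g g δ) := by
    intro x
    rw [blkE_mul, blkE_mul]
    have hc : g x * zop g = zop g * g x := htri.comm_z x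
    have h3 := congrFun h2 x
    rw [d1_apply, Pi.zero_apply] at h3
    have h4 : (zop g * δ x * w - δ x + (LL g g δ * w * g x - g x * (LL g g δ * w))) * zop g = 0 := by
      rw [h3, zero_mul]
    have h5 : zop g * δ x - δ x * zop g + (LL g g δ * g x - g x * LL g g δ) = 0 := by
      rw [← h4, add_mul, sub_mul, sub_mul]
      have e1 : zop g * δ x * w * zop g = zop g * δ x := by rw [mul_assoc _ w, hw, mul_one]
      have e2 : LL g g δ * w * g x * zop g = LL g g δ * g x := by
        rw [mul_assoc _ (g x), hc, ← mul_assoc, mul_assoc _ w, hw, mul_one]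
      have e3 : g x * (LL g g δ * w) * zop g = g x * LL g g δ := by
        rw [mul_assoc, mul_assoc, hw, mul_one]
      rw [e1, e2, e3]
    congr 1
    · exact hc.symm
    · have h6 : zop g * δ x + LL g g δ * g x - (g x * LL g g δ + δ x * zop g) = 0 := by
        rw [← h5]; abel
      exact sub_eq_zero.1 h6
  have hT : IsTriple P (fun x => blkE (g x) (δ x)) := by
    refine ⟨?_, ?_, hpol⟩
    · have h := hcomm 0
      rw [← hZ, mul_assoc (blkE (g 0) (δ 0)) (blkE (g 1) (δ 1)), mul_assoc (blkE (g 0) (δ 0))] at h
      have h' := (hun 0).mul_left_cancel h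
      show blkE (g 0) (δ 0) * blkE (g 1) (δ 1) * blkE (g 2) (δ 2) = _
      rw [mul_assoc, ← h']
    · have h := hcomm 2
      rw [← hZ] at h
      have h' : blkE (g 0) (δ 0) * blkE (g 1) (δ 1) * blkE (g 2) (δ 2) * blkE (g 2) (δ 2)
          = blkE (g 2) (δ 2) * blkE (g 0) (δ 0) * blkE (g 1) (δ 1) * blkE (g 2) (δ 2) := by
        rw [h]; simp only [mul_assoc]
      exact (hun 2).mul_right_cancel h'
  obtain ⟨s, hs1, hs2⟩ := exists_section_of_projective (P := P) (M := M) (lift _ hT)
    (LinearMap.snd K M M) (fun x e => by rw [lift_gen]; rfl) LinearMap.snd_surjective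
  refine ⟨LinearMap.fst K M M ∘ₗ s, funext fun x => LinearMap.ext fun m => ?_⟩
  have h7 := hs2 x m
  rw [lift_gen, blkE_apply] at h7
  have h8 : (s (gen K P x • m)).1 = g x (s m).1 + δ x (s m).2 := congrArg Prod.fst h7
  have h9 : (s m).2 = m := hs1 m
  rw [h9] at h8
  show δ x m = (s (gen K P x • m)).1 - g x (s m).1
  rw [h8]
  abel

end BMM
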