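/-
MP_b1ea0f_al, library BMM, module ExtZ (about 180 lines).  Section 3.7: in characteristic 0 (x
distinct on each leg) z acts as a scalar on a self-extension of a simple module.
PROOF. N ≤ E simple with N ≅ E/N, ζ the scalar of z on N, hence on E/N. θ := z - ζ maps E to N and
kills N. Choose a K-linear section of q : E → E/N and identify E = S × S as K-space (S = N, second
factor E/N ≅ N), so g_E (s, s') = (g s + δ_g s', g s'), δ_g ∈ End S.
 (1) P(g_E) = 0 and P(g) = 0 give dP P g δ_g = 0 (upper right entry of P(g_E)).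
 (2) As P = ∏ (T - x_i) with distinct roots, δ_g = s_g g - g s_g for some s_g ∈ End S: g is
     diagonalisable, S = ⊕ S_i (eigenspaces), dP P g maps the (i, j) block δ_ij of δ to
     (P(x_i) - P(x_j))/(x_i - x_j) δ_ij = 0 for i ≠ j and to P'(x_i) δ_ii for i = j; so δ_ii = 0, and
     s = δ_ij / (x_j - x_i) (i ≠ j) does it. (Alternative: g_E is diagonalisable, so q : E → E/N has
     a g-equivariant section t_g; the difference of t_g and the chosen section is s_g.)
 (3) z_E (s, s') = (ζ s + L s', ζ s') with L = δ_a b c + a δ_b c + a b δ_c; z_E is central, so L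
     commutes with a, b, c on S: L = c₀ by Schur.
 (4) trace: tr(δ_a b c) ζ⁻¹ = tr(δ_a a⁻¹) since b c = a⁻¹ ζ; tr(a δ_b c) = tr(δ_b c a) and
     c a = b⁻¹ ζ; tr(a b δ_c) = tr(δ_c a b), a b = ζ c⁻¹. And tr(δ_g g⁻¹) = tr(s_g - g s_g g⁻¹) = 0.
     So tr L = 0, c₀ dim S = 0, c₀ = 0 in characteristic 0.
 So θ = 0.
You may avoid bases: with t_g : E/N → E the g-equivariant sections of (2) as above.
-/
import Pool.Agent.Lib.BMM.Bridge

open Polynomial

namespace BMM

variable {n : ℕ} {K : Type*} [Field K] [IsAlgClosed K] [CharZero K] (x : J n → K)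
  (E : Type*) [AddCommGroup E] [Module K E] [Module (HA K (PX x)) E]
  [IsScalarTower K (HA K (PX x)) E] [FiniteDimensional K E]

private theorem exists_retr_gen {V : Type*} [AddCommGroup V] [Module K V] (f : Module.End K V)
    (hf : f.IsSemisimple) (p : Submodule K V) (hp : ∀ v ∈ p, f v ∈ p) :
    ∃ ρ : V →ₗ[K] p, (∀ v : p, ρ (v : V) = v) ∧ ∀ v, (ρ (f v) : V) = f (ρ v : V) := by
  rw [Module.End.isSemisimple_iff] at hf
  obtain ⟨q, hq, hc⟩ := hf p ((Module.End.mem_invtSubmodule _).2 hp)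
  have hq2 : ∀ v ∈ q, f v ∈ q := (Module.End.mem_invtSubmodule _).1 hq
  refine ⟨p.projectionOnto q hc, fun v => Submodule.projectionOnto_apply_left hc v, fun v => ?_⟩
  have hv : v ∈ p ⊔ q := by rw [hc.sup_eq_top]; trivial
  obtain ⟨a, ha, b, hb, rfl⟩ := Submodule.mem_sup.1 hv
  have h1 : p.projectionOnto q hc (f (a + b)) = ⟨f a, hp a ha⟩ := by
    rw [map_add, map_add]
    have := Submodule.projectionOnto_apply_left hc ⟨f a, hp a ha⟩
    have h2 := Submodule.projectionOnto_apply_right hc ⟨f b, hq2 b hb⟩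
    simp only at this h2
    rw [this, h2, add_zero]
  have h2 : p.projectionOnto q hc (a + b) = ⟨a, ha⟩ := by
    rw [map_add]
    have := Submodule.projectionOnto_apply_left hc ⟨a, ha⟩
    have h2 := Submodule.projectionOnto_apply_right hc ⟨b, hb⟩
    simp only at this h2
    rw [this, h2, add_zero]
  rw [h1, h2]

private theorem exists_retr (hinj : ∀ l, Function.Injective (fun i => x ⟨l, i⟩))
    (N : Submodule (HA K (PX x)) E) (l : Fin 3) :
    ∃ ρ : E →ₗ[K] N, (∀ v : N, ρ (v : E) = v) ∧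
      ∀ e, ρ (gen K (PX x) l • e) = gen K (PX x) l • ρ e := by
  have hss : (gop (PX x) E l).IsSemisimple := by
    refine Module.End.isSemisimple_of_squarefree_aeval_eq_zero (p := PX x l) ?_
      ((isTriple_gop (PX x) E).pol l)
    exact (separable_prod_X_sub_C_iff.2 (hinj l)).squarefree
  obtain ⟨ρ, h1, h2⟩ := exists_retr_gen _ hss (N.restrictScalars K) (fun v hv => by
    exact N.smul_mem _ hv)
  let c : (N.restrictScalars K) →ₗ[K] N :=
    { toFun := fun v => ⟨v.1, v.2⟩
      map_add' := fun _ _ => rfl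
      map_smul' := fun _ _ => rfl }
  have hc : ∀ v, ((c v : N) : E) = v.1 := fun v => rfl
  refine ⟨c ∘ₗ ρ, fun v => ?_, fun e => ?_⟩
  · apply Subtype.ext
    rw [LinearMap.comp_apply, hc]
    have := h1 ⟨v.1, v.2⟩
    exact congrArg Subtype.val this
  · apply Subtype.ext
    rw [LinearMap.comp_apply, hc]
    have := h2 e
    rw [gop_apply] at this
    rw [this]
    rfl

theorem ext_z_scalar (hx : ∀ j, x j ≠ 0)
    (hinj : ∀ l, Function.Injective (fun i => x ⟨l, i⟩))
    (N : Submodule (HA K (PX x)) E) [IsSimpleModule (HA K (PX x)) N]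
    [IsSimpleModule (HA K (PX x)) (E ⧸ N)] (hiso : Nonempty (N ≃ₗ[HA K (PX x)] (E ⧸ N))) :
    ∃ ζ : K, ∀ e : E, zz K (PX x) • e = ζ • e := by
  obtain ⟨ψ⟩ := hiso
  have hP : ∀ l, ((PX x) l).coeff 0 ≠ 0 := by
    intro l
    rw [PX, coeff_zero_eq_eval_zero, eval_prod]
    simp only [eval_sub, eval_X, eval_C, zero_sub]
    exact Finset.prod_ne_zero_iff.2 (fun i _ => neg_ne_zero.2 (hx _))
  have hfN : FiniteDimensional K N :=
    FiniteDimensional.of_injective (N.subtype.restrictScalars K) Subtype.val_injective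
  obtain ⟨ζ, hζ0, hζ⟩ := zz_scalar (K := K) (P := PX x) (M := N) hP
  refine ⟨ζ, ?_⟩
  have : SMulCommClass K (HA K (PX x)) E := IsScalarTower.to_smulCommClass
  have : SMulCommClass K (HA K (PX x)) N := IsScalarTower.to_smulCommClass
  -- the action of z on the quotient
  have hζN : ∀ e ∈ N, zz K (PX x) • e = ζ • e := fun e he =>
    congrArg Subtype.val (hζ ⟨e, he⟩)
  let ψK : N →ₗ[K] (E ⧸ N) := (ψ : N →ₗ[HA K (PX x)] (E ⧸ N)).restrictScalars K
  have hψK : ∀ n, ψK n = ψ n := fun n => rfl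
  have hquo : ∀ e : E, zz K (PX x) • e - ζ • e ∈ N := by
    intro e
    rw [← Submodule.Quotient.mk_eq_zero]
    obtain ⟨n, hn⟩ := ψ.surjective (Submodule.Quotient.mk e)
    have h1 : (Submodule.Quotient.mk (zz K (PX x) • e) : E ⧸ N) = zz K (PX x) • ψ n := by
      rw [hn]; rfl
    have h2 : (Submodule.Quotient.mk (ζ • e) : E ⧸ N) = ζ • ψK n := by
      rw [hψK, hn]; rfl
    rw [Submodule.Quotient.mk_sub, h1, h2, ← map_smul ψ, hζ, ← map_smul ψK, hψK, sub_self]
  -- a lift of psi
  let qK : E →ₗ[K] (E ⧸ N) := N.mkQ.restrictScalars K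
  obtain ⟨σ, hσ⟩ := qK.exists_rightInverse_of_surjective
    (LinearMap.range_eq_top.2 N.mkQ_surjective)
  let j : N →ₗ[K] E := σ ∘ₗ ψK
  have hj : ∀ n, (Submodule.Quotient.mk (j n) : E ⧸ N) = ψ n := by
    intro n
    have := LinearMap.congr_fun hσ (ψK n)
    exact this
  have hju : ∀ (u : HA K (PX x)) (n : N), j (u • n) - u • j n ∈ N := by
    intro u n
    rw [← Submodule.Quotient.mk_eq_zero, Submodule.Quotient.mk_sub, Submodule.Quotient.mk_smul,
      hj, hj, map_smul, sub_self]
  -- the retractions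
  obtain ⟨ρ0, h01, h02⟩ := exists_retr x E hinj N 0
  obtain ⟨ρ1, h11, h12⟩ := exists_retr x E hinj N 1
  obtain ⟨ρ2, h21, h22⟩ := exists_retr x E hinj N 2
  have hr1 : ∀ (u : HA K (PX x)) (n : N), (ρ0 - ρ1) (u • j n) = (ρ0 - ρ1) (j (u • n)) := by
    intro u n
    have h : (ρ0 - ρ1) (j (u • n) - u • j n) = 0 := by
      rw [LinearMap.sub_apply, h01 ⟨_, hju u n⟩, h11 ⟨_, hju u n⟩, sub_self]
    rw [map_sub, sub_eq_zero] at h
    exact h.symm
  have hr2 : ∀ (u : HA K (PX x)) (n : N), (ρ0 - ρ2) (u • j n) = (ρ0 - ρ2) (j (u • n)) := by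
    intro u n
    have h : (ρ0 - ρ2) (j (u • n) - u • j n) = 0 := by
      rw [LinearMap.sub_apply, h01 ⟨_, hju u n⟩, h21 ⟨_, hju u n⟩, sub_self]
    rw [map_sub, sub_eq_zero] at h
    exact h.symm
  -- the operators on N
  set A : Module.End K N := gop (PX x) N 0 with hA
  set B : Module.End K N := gop (PX x) N 1 with hB
  set C' : Module.End K N := gop (PX x) N 2 with hC
  have hA' : ∀ n, A n = gen K (PX x) 0 • n := fun n => rfl
  have hB' : ∀ n, B n = gen K (PX x) 1 • n := fun n => rfl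
  have hC' : ∀ n, C' n = gen K (PX x) 2 • n := fun n => rfl
  have habc : A * B * C' = ζ • (1 : Module.End K N) := by
    apply LinearMap.ext
    intro n
    have := hζ n
    rw [zz, mul_smul, mul_smul] at this
    exact this
  have hbca : B * C' * A = ζ • (1 : Module.End K N) := by
    rw [← habc]; exact (isTriple_gop (PX x) N).cyc₁.symm
  have hcab : C' * A * B = ζ • (1 : Module.End K N) := by
    rw [← habc]; exact (isTriple_gop (PX x) N).cyc₂.symm
  set R1 : Module.End K N := (ρ0 - ρ1) ∘ₗ j with hR1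
  set R2 : Module.End K N := (ρ0 - ρ2) ∘ₗ j with hR2
  -- theta
  let θ : E →ₗ[K] E := Algebra.lsmul K K E (zz K (PX x)) - ζ • LinearMap.id
  have hθ : ∀ e, θ e = zz K (PX x) • e - ζ • e := fun e => rfl
  have hθN : ∀ e ∈ N, θ e = 0 := fun e he => by rw [hθ, hζN e he, sub_self]
  have hθu : ∀ (u : HA K (PX x)) (e : E), θ (u • e) = u • θ e := by
    intro u e
    rw [hθ, hθ, smul_sub, ← mul_smul, ← zz_comm, mul_smul, smul_comm ζ u e]
  set T : Module.End K N := ρ0 ∘ₗ θ ∘ₗ j with hT
  have hTE : ∀ n, ((T n : N) : E) = θ (j n) := by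
    intro n
    have := h01 ⟨θ (j n), hquo (j n)⟩
    exact congrArg Subtype.val this
  have hTu : T ∈ Hom3 (gop (PX x) N) (gop (PX x) N) := by
    rw [mem_Hom3_iff]
    intro u m
    apply Subtype.ext
    rw [hTE, Submodule.coe_smul, hTE, ← hθu]
    have h := hθN _ (hju u m)
    rw [map_sub, sub_eq_zero] at h
    exact h
  have hTform : T = A * B * (R2 * C' - C' * R2) + A * (R1 * B * C' - B * R1 * C') := by
    apply LinearMap.ext
    intro n
    have hz : T n = ρ0 (zz K (PX x) • j n) - ζ • ρ0 (j n) := by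
      rw [hT]
      change ρ0 (θ (j n)) = _
      rw [hθ, map_sub, map_smul ρ0 ζ (j n)]
    have e1 : ρ0 (zz K (PX x) • j n)
        = gen K (PX x) 0 • ρ0 (gen K (PX x) 1 • gen K (PX x) 2 • j n) := by
      rw [zz, mul_smul, mul_smul, h02]
    have e2 : ∀ e, ρ0 (gen K (PX x) 1 • e) = gen K (PX x) 1 • ρ0 e
        + ((ρ0 - ρ1) (gen K (PX x) 1 • e) - gen K (PX x) 1 • (ρ0 - ρ1) e) := by
      intro e
      rw [LinearMap.sub_apply, LinearMap.sub_apply, h12, smul_sub]
      abel
    have e3 : ∀ e, ρ0 (gen K (PX x) 2 • e) = gen K (PX x) 2 • ρ0 e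
        + ((ρ0 - ρ2) (gen K (PX x) 2 • e) - gen K (PX x) 2 • (ρ0 - ρ2) e) := by
      intro e
      rw [LinearMap.sub_apply, LinearMap.sub_apply, h22, smul_sub]
      abel
    have e4 : (ρ0 - ρ1) (gen K (PX x) 1 • gen K (PX x) 2 • j n) = R1 (B (C' n)) := by
      rw [← mul_smul, hr1, mul_smul]
      rfl
    have e5 : (ρ0 - ρ1) (gen K (PX x) 2 • j n) = R1 (C' n) := by
      rw [hr1]; rfl
    have e6 : (ρ0 - ρ2) (gen K (PX x) 2 • j n) = R2 (C' n) := by
      rw [hr2]; rfl
    have e7 : (ρ0 - ρ2) (j n) = R2 n := rfl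
    have e8 : ζ • ρ0 (j n) = A (B (C' (ρ0 (j n)))) := by
      have := LinearMap.congr_fun habc (ρ0 (j n))
      exact this.symm
    rw [hz, e1, e2, e3, e4, e5, e6, e7, e8]
    simp only [LinearMap.add_apply, Module.End.mul_apply, LinearMap.sub_apply, map_sub, map_add,
      hA', hB', hC', smul_add, smul_sub]
    abel
  have htr : LinearMap.trace K N T = 0 := by
    have t1 : LinearMap.trace K N (A * B * (R2 * C')) = ζ * LinearMap.trace K N R2 := by
      rw [← mul_assoc, LinearMap.trace_mul_comm, ← mul_assoc, ← mul_assoc, hcab, smul_mul_assoc,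
        one_mul, map_smul, smul_eq_mul]
    have t2 : LinearMap.trace K N (A * B * (C' * R2)) = ζ * LinearMap.trace K N R2 := by
      rw [← mul_assoc, habc, smul_mul_assoc, one_mul, map_smul, smul_eq_mul]
    have t3 : LinearMap.trace K N (A * (R1 * B * C')) = ζ * LinearMap.trace K N R1 := by
      rw [LinearMap.trace_mul_comm, mul_assoc, mul_assoc, ← mul_assoc B, hbca, mul_smul_comm,
        mul_one, map_smul, smul_eq_mul]
    have t4 : LinearMap.trace K N (A * (B * R1 * C')) = ζ * LinearMap.trace K N R1 := by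
      rw [← mul_assoc, ← mul_assoc, LinearMap.trace_mul_comm, ← mul_assoc, ← mul_assoc, hcab,
        smul_mul_assoc, one_mul, map_smul, smul_eq_mul]
    rw [hTform, map_add, mul_sub, mul_sub, map_sub, map_sub, t1, t2, t3, t4, sub_self, sub_self,
      add_zero]
  obtain ⟨c, hc⟩ := schur (K := K) (P := PX x) (M := N) T hTu
  have hTc : T = c • (1 : Module.End K N) := by
    apply LinearMap.ext
    intro n
    exact hc n
  have hdim : (Module.finrank K N : K) ≠ 0 := by
    have hnt : Nontrivial N := IsSimpleModule.nontrivial (HA K (PX x)) N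
    have : 0 < Module.finrank K N := Module.finrank_pos
    exact_mod_cast this.ne'
  have hc0 : c = 0 := by
    rw [hTc, map_smul, LinearMap.trace_one, smul_eq_mul] at htr
    exact (mul_eq_zero.1 htr).resolve_right hdim
  intro e
  have hfin : θ e = 0 := by
    obtain ⟨n, hn⟩ := ψ.surjective (Submodule.Quotient.mk e)
    have h1 : e - j n ∈ N := by
      rw [← Submodule.Quotient.mk_eq_zero, Submodule.Quotient.mk_sub, hj, hn, sub_self]
    have h2 := hθN _ h1
    rw [map_sub, sub_eq_zero] at h2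
    rw [h2, ← hTE, hc, hc0, zero_smul]
    rfl
  rw [hθ, sub_eq_zero] at hfin
  exact hfin

end BMM
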