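/-
MP_b1ea0f_al, library BMM, module GenEig (about 130 lines).  Section 5, beginning, and 5.8.
The block decomposition of H = HA K P (finite-dimensional, K algebraically closed) under z.
PROOFS. `blk ζ` = elements killed by a power of z - ζ: a left ideal (z central). By
`Module.End.iSup_maxGenEigenspace_eq_top` and `Module.End.independent_maxGenEigenspace` for left
multiplication by z, H is the internal direct sum of the blk ζ, only finitely many of them non-zero;
H is a projective H-module, and a direct summand of a projective module is projective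
(`Module.Projective.of_split`: the inclusion blk ζ → H has the H-linear retraction given by the
projection of the direct sum, `DirectSum.IsInternal` / `Submodule.linearProjOfIsCompl`; the
complement ⨆_{ζ' ≠ ζ} blk ζ' is a left ideal).
nilp: blk ζ is finite-dimensional and z - ζ is locally nilpotent on it, hence nilpotent
(`Module.End.maxGenEigenspace`, `Module.End.isNilpotent_restrict_maxGenEigenspace_sub_algebraMap`).
unob_blk: combine `ext53` (Projective) and `unob_of_ext`.
-/
import Pool.Agent.Lib.BMM.Ext53
import Pool.Agent.Lib.BMM.Unob5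

open Polynomial

namespace BMM

variable {K : Type*} [Field K] (P : Fin 3 → K[X])

/-- The `ζ`-block of `H`: the generalised eigenspace of `z`. -/
def blk (ζ : K) : Submodule (HA K P) (HA K P) where
  carrier := {u | ∃ k : ℕ, (zz K P - algebraMap K (HA K P) ζ) ^ k * u = 0}
  add_mem' := by
    rintro u v ⟨k, hk⟩ ⟨l, hl⟩
    refine ⟨k + l, ?_⟩
    rw [mul_add]
    have h1 : (zz K P - algebraMap K (HA K P) ζ) ^ (k + l) * u = 0 := by
      rw [add_comm, pow_add, mul_assoc, hk, mul_zero]
    have h2 : (zz K P - algebraMap K (HA K P) ζ) ^ (k + l) * v = 0 := by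
      rw [pow_add, mul_assoc, hl, mul_zero]
    rw [h1, h2, add_zero]
  zero_mem' := ⟨0, by simp⟩
  smul_mem' := by
    rintro c u ⟨k, hk⟩
    refine ⟨k, ?_⟩
    have hc : Commute c (zz K P - algebraMap K (HA K P) ζ) := by
      refine Commute.sub_right (zz_comm c) ?_
      exact (Algebra.commutes ζ c).symm
    rw [smul_eq_mul, ← mul_assoc, ← (hc.pow_right k).eq, mul_assoc, hk, mul_zero]

private theorem blk_eq (ζ : K) : (blk P ζ).restrictScalars K
    = Module.End.maxGenEigenspace (LinearMap.mulLeft K (zz K P)) ζ := by
  ext u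
  rw [Submodule.restrictScalars_mem, Module.End.mem_maxGenEigenspace]
  have h : (LinearMap.mulLeft K (zz K P) - ζ • (1 : Module.End K (HA K P)))
      = LinearMap.mulLeft K (zz K P - algebraMap K (HA K P) ζ) := by
    refine LinearMap.ext fun v => ?_
    rw [LinearMap.sub_apply, LinearMap.mulLeft_apply, LinearMap.smul_apply,
      Module.End.one_apply, LinearMap.mulLeft_apply, sub_mul, Algebra.smul_def]
  rw [h]
  simp only [LinearMap.pow_mulLeft, LinearMap.mulLeft_apply]
  exact Iff.rfl

private theorem blk_indep : iSupIndep (fun ζ => blk P ζ) := by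
  have h := Module.End.independent_maxGenEigenspace (LinearMap.mulLeft K (zz K P))
  intro ζ
  have h1 := h ζ
  rw [Submodule.disjoint_def] at h1 ⊢
  intro u hu hu'
  refine h1 u ?_ ?_
  · rw [← blk_eq]
    exact hu
  · have h2 : u ∈ (⨆ (j : K) (_ : j ≠ ζ), blk P j).restrictScalars K := hu'
    simp only [Submodule.restrictScalars_iSup, blk_eq] at h2
    exact h2

theorem blk_finite [IsAlgClosed K] [Module.Finite K (HA K P)] :
    {ζ : K | blk P ζ ≠ ⊥}.Finite := by
  have : IsNoetherian (HA K P) (HA K P) := isNoetherian_of_tower K inferInstance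
  exact WellFoundedGT.finite_ne_bot_of_iSupIndep (blk_indep P)

/-- Internal direct sum (as subspaces over `K`). -/
theorem blk_internal [IsAlgClosed K] [Module.Finite K (HA K P)] :
    iSupIndep (fun ζ => blk P ζ) ∧ ⨆ ζ, blk P ζ = ⊤ := by
  refine ⟨blk_indep P, ?_⟩
  apply Submodule.restrictScalars_injective K (HA K P) (HA K P)
  rw [Submodule.restrictScalars_iSup]
  simp only [blk_eq]
  rw [Module.End.iSup_maxGenEigenspace_eq_top]
  rfl

theorem blk_projective [IsAlgClosed K] [Module.Finite K (HA K P)] (ζ : K) :
    Module.Projective (HA K P) (blk P ζ) := by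
  obtain ⟨hi, ht⟩ := blk_internal P
  have hc : IsCompl (blk P ζ) (⨆ (j : K) (_ : j ≠ ζ), blk P j) := by
    refine ⟨hi ζ, ?_⟩
    rw [codisjoint_iff, ← ht]
    apply le_antisymm
    · exact sup_le (le_iSup _ ζ) (iSup₂_le fun j _ => le_iSup _ j)
    · refine iSup_le fun j => ?_
      by_cases hj : j = ζ
      · rw [hj]; exact le_sup_left
      · exact le_sup_of_le_right (le_iSup₂_of_le j hj le_rfl)
  exact Module.Projective.of_split (blk P ζ).subtype (Submodule.projectionOnto _ _ hc)
    (LinearMap.ext fun u => Submodule.projectionOnto_apply_left hc u)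

theorem blk_nilp [Module.Finite K (HA K P)] (ζ : K) :
    IsNilpotent (zop (gop P (blk P ζ)) - algebraMap K (Module.End K (blk P ζ)) ζ) := by
  set f : Module.End K (HA K P) := LinearMap.mulLeft K (zz K P) with hf
  have hm := Module.End.maxGenEigenspace_eq_genEigenspace_finrank f ζ
  set N := Module.finrank K (HA K P) with hN
  refine ⟨N, LinearMap.ext fun u => ?_⟩
  have hu : (u : HA K P) ∈ f.genEigenspace ζ N := by
    rw [← hm, hf, ← blk_eq]
    exact u.2
  rw [Module.End.mem_genEigenspace_nat, LinearMap.mem_ker] at hu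
  have key : ∀ (k : ℕ) (v : blk P ζ),
      ((((zop (gop P (blk P ζ)) - algebraMap K (Module.End K (blk P ζ)) ζ) ^ k) v : blk P ζ)
        : HA K P) = ((f - ζ • (1 : Module.End K (HA K P))) ^ k) (v : HA K P) := by
    intro k
    induction k with
    | zero => intro v; simp
    | succ k ih =>
      intro v
      rw [pow_succ, pow_succ, Module.End.mul_apply, Module.End.mul_apply, ih]
      congr 1
      rw [LinearMap.sub_apply, zop_gop_apply, Module.algebraMap_end_apply, LinearMap.sub_apply,
        hf, LinearMap.mulLeft_apply, LinearMap.smul_apply, Module.End.one_apply]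
      rfl
  apply Subtype.ext
  rw [key, hu]
  rfl

/-- Every block is unobstructed. -/
theorem unob_blk [IsAlgClosed K] [Module.Finite K (HA K P)] (hP : ∀ x, (P x).coeff 0 ≠ 0)
    (ζ : K) : Unob P (gop P (blk P ζ)) := by
  have := blk_projective P ζ
  have : FiniteDimensional K (blk P ζ) :=
    FiniteDimensional.finiteDimensional_submodule ((blk P ζ).restrictScalars K)
  have hc := isCyc_gop (P := P) (M := blk P ζ) hP
  obtain ⟨u, hu⟩ := ((hc.unit 0).mul (hc.unit 1)).mul (hc.unit 2)
  have hw : (↑u⁻¹ : Module.End K (blk P ζ)) * zop (gop P (blk P ζ)) = 1 := by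
    rw [zop, ← hu, Units.inv_mul]
  refine unob_of_ext hc (isTriple_gop P (blk P ζ)) hw ζ (blk_nilp P ζ) ?_
  intro δ h1 h2
  exact ext53 (blk P ζ) hP _ hw δ h1 h2

end BMM
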