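/-
MP_b1ea0f_al, library BMM, module Semis (about 120 lines, general ring theory).  Section 3.8.
PROOF. Strong induction on the length (both chain conditions give finite length; or well-founded
induction): claim for every submodule C of E and every A ≤ C: C/A is semisimple. It is enough to
show: for the pair A ≤ C, the interval [A, C] of the lattice of submodules is such that C/A is a sum
of simple modules. If A = C nothing. Otherwise take B with A ⋖ B ≤ C (Artinian: atoms exist). By
induction C/B (smaller length) is semisimple: C is the supremum of submodules C_i with B ⋖ C_i
(atoms of C/B). For each i, A ⋖ B ⋖ C_i, so C_i / A is semisimple by hypothesis, hence C_i/A is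
contained in the socle (sum of all simple submodules) of C/A. So C/A, the supremum of the C_i/A (and
of B/A), is its own socle, hence semisimple (`isSemisimpleModule_of_sSup_simples_eq_top` or
`IsSemisimpleModule` of a supremum of semisimple submodules: `isSemisimpleModule_biSup_of_...`,
`IsSemisimpleModule.sup`, `isSemisimpleModule_of_isSemisimpleModule_submodule'`).
Simplest organisation: let S be the sum of all semisimple submodules... of E/A; induct on C.
-/
import Mathlib

namespace BMM

theorem semisimple_of_ext {H : Type*} [Ring H] {E : Type*} [AddCommGroup E] [Module H E]
    [IsNoetherian H E] [IsArtinian H E]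
    (hext : ∀ A B C : Submodule H E, A ⋖ B → B ⋖ C →
      IsSemisimpleModule H (C ⧸ A.submoduleOf C)) :
    IsSemisimpleModule H E := by
  have hmap : ∀ A C : Submodule H E, IsSemisimpleModule H (C ⧸ A.submoduleOf C) →
      IsSemisimpleModule H (C.map A.mkQ) := by
    intro A C h
    have e : (C ⧸ A.submoduleOf C) ≃ₗ[H] (C.map A.mkQ) := by
      have e1 := (A.mkQ.domRestrict C).quotKerEquivRange
      have h1 : LinearMap.ker (A.mkQ.domRestrict C) = A.submoduleOf C := by
        ext x
        simp [LinearMap.mem_ker, Submodule.submoduleOf]
      have h2 : LinearMap.range (A.mkQ.domRestrict C) = C.map A.mkQ := by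
        ext x
        simp [Submodule.mem_map]
      exact (Submodule.quotEquivOfEq _ _ h1.symm).trans (e1.trans (LinearEquiv.ofEq _ _ h2))
    exact IsSemisimpleModule.congr e.symm
  have key : ∀ A : Submodule H E, IsSemisimpleModule H (E ⧸ A) := by
    intro A
    refine IsNoetherian.induction (R := H) (P := fun A => IsSemisimpleModule H (E ⧸ A)) ?_ A
    clear A
    intro A ih
    · by_cases hA : A = ⊤
      · subst hA
        have : Subsingleton (Submodule H (E ⧸ (⊤ : Submodule H E))) := by
          refine ⟨fun a b => ?_⟩
          ext x
          have hx : x = 0 := by
            obtain ⟨y, rfl⟩ := Submodule.mkQ_surjective _ x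
            simp
          simp [hx]
        exact IsSemisimpleModule.of_sSup_simples_eq_top (Subsingleton.elim _ _)
      · obtain ⟨B, hAB⟩ := exists_covBy_of_wellFoundedLT (α := Submodule H E) (a := A)
          (by rwa [isMax_iff_eq_top])
        have ihB := ih B hAB.lt
        set s : Set (Submodule H E) := {C | IsSemisimpleModule H (C.map A.mkQ)} with hs
        have hB : B ∈ s := by
          apply hmap
          have := (covBy_iff_quot_is_simple hAB.le).1 hAB
          have : IsSimpleModule H (B ⧸ A.submoduleOf B) := this
          infer_instance
        have hC : ∀ C : Submodule H E, B ⋖ C → C ∈ s := by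
          intro C hBC
          exact hmap A C (hext A B C hAB hBC)
        have hT : sSup s = ⊤ := by
          have hBT : B ≤ sSup s := le_sSup hB
          have h1 : (sSup s).map B.mkQ = ⊤ := by
            rw [eq_top_iff, ← IsSemisimpleModule.sSup_simples_eq_top H (E ⧸ B)]
            apply sSup_le
            intro S hS
            have hS' : IsSimpleModule H S := hS
            have hat := isSimpleModule_iff_isAtom.1 hS'
            have hcov : B ⋖ S.comap B.mkQ := by
              have h3 : (⊥ : Submodule H (E ⧸ B)) ⋖ S := hat.bot_covBy
              refine ⟨?_, ?_⟩
              · refine lt_of_le_of_ne ?_ ?_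
                · intro x hx
                  rw [Submodule.mem_comap]
                  have : B.mkQ x = 0 := by simpa using hx
                  rw [this]; exact S.zero_mem
                · intro h
                  apply hat.1
                  rw [eq_bot_iff]
                  intro y hy
                  obtain ⟨x, rfl⟩ := B.mkQ_surjective y
                  have : x ∈ B := by rw [h]; exact hy
                  simpa using this
              · intro D hBD hDS
                have h4 : D.map B.mkQ < S := by
                  refine lt_of_le_of_ne ?_ ?_
                  · rw [Submodule.map_le_iff_le_comap]; exact hDS.le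
                  · intro h
                    have : D = S.comap B.mkQ := by
                      rw [← h, Submodule.comap_map_eq, Submodule.ker_mkQ, sup_eq_left.2 hBD.le]
                    exact hDS.ne this
                have h5 := hat.2 _ h4
                apply hBD.not_ge
                intro x hx
                have : B.mkQ x ∈ D.map B.mkQ := Submodule.mem_map_of_mem hx
                rw [h5] at this
                simpa using this
            have h6 : S.comap B.mkQ ≤ sSup s := le_sSup (hC _ hcov)
            have h7 := Submodule.map_mono (f := B.mkQ) h6
            rwa [Submodule.map_comap_eq_of_surjective B.mkQ_surjective] at h7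
          have h2 := congrArg (Submodule.comap B.mkQ) h1
          rw [Submodule.comap_map_eq, Submodule.ker_mkQ, sup_eq_left.2 hBT,
            Submodule.comap_top] at h2
          exact h2
        have h8 : (⨆ C ∈ s, Submodule.map A.mkQ C) = ⊤ := by
          have := congrArg (Submodule.map A.mkQ) hT
          rw [sSup_eq_iSup, Submodule.map_iSup, Submodule.map_top, Submodule.range_mkQ] at this
          rw [← this]
          congr 1
          funext C
          rw [Submodule.map_iSup]
        exact isSemisimpleModule_of_isSemisimpleModule_submodule (p := fun C => Submodule.map A.mkQ C)
          (fun C hC => hC) h8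
  have := key ⊥
  exact IsSemisimpleModule.congr (Submodule.quotEquivOfEqBot ⊥ rfl).symm

end BMM
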