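/-
MP_b1ea0f_al, library BMM, module Gen61 (about 180 lines).  Section 6.1.
The algebra H/(z - ζ) at a generic point (any characteristic) is a matrix algebra.
GENERIC: `Gen1 x` = condition (G1), `Gen2 x` = (G2): the x_j are distinct on each leg.
PROOFS.
unique_type: a simple module M on which z = ζ has v = dimv M ∈ Rc with ζ^{lev v} = mon x v
(simple_root, dimv_facts), so by (G1) v is the unique α; two such modules are isomorphic
(simple_iso, bil α α = 2 ≥ 1).
semis_scalar: E finite-dimensional with z = ζ: semisimple, by `semisimple_of_ext` and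
`semis_ext_scalar`: for A ⋖ B ⋖ C ≤ E the module C/A has the simple submodule N = B/A with simple
quotient ≅ C/B (third isomorphism theorem); both are simple modules with z = ζ, so isomorphic.
exists_rep: block ≠ 0. Let I = (z - ζ)H (two-sided), A' = H/I. A' ≠ 0: otherwise z - ζ is surjective,
hence injective, on H and the block is 0. A' is finite-dimensional and semisimple as an H-module
(semis_scalar), so it is a semisimple ring, and all simple A'-modules are isomorphic (they are simple
H-modules with z = ζ). So A' is a simple ring [semisimple + isotypic: Mathlib, RingTheory/SimpleModule/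
Isotypic and WedderburnArtin: `isSimpleRing_iff_isIsotypic`-type statement; or: from
`IsSemisimpleRing.exists_algEquiv_pi_matrix_of_isAlgClosed` A' ≅ ∏_{i<m} M_{d_i}(K), with m ≥ 2 the
modules K^{d_0}, K^{d_1} would be non-isomorphic simple modules: (1,0) acts as 1 and as 0]. So
A' ≅ M_d(K), and X = Fin d → K is a simple H-module with z = ζ: dimv X = α ∈ Rc and d = lev α.
Let φ be H → A' ≅ M_d(K).
The last clause of exists_rep: dimv x (operators of φ) = α is dimv of this module.
-/
import Pool.Agent.Lib.BMM.SplitS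
import Pool.Agent.Lib.BMM.Semis
import Pool.Agent.Lib.BMM.GenEig

open Polynomial

namespace BMM

variable {n : ℕ} {K : Type*} [Field K]

/-- (G1): for `α ≠ β` in `Rc` the polynomials `T^{α_0} - m_α`, `T^{β_0} - m_β` have no common root. -/
def Gen1 (x : J n → K) : Prop :=
  ∀ α ∈ Rc n, ∀ β ∈ Rc n, ∀ ζ : K, ζ ^ (lev α) = mon x α → ζ ^ (lev β) = mon x β → α = β

/-- (G2): the parameters are distinct on each leg. -/
def Gen2 (x : J n → K) : Prop := ∀ l, Function.Injective (fun i : Fin (pp n l) => x ⟨l, i⟩)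

private theorem fl_conj {X Y : Type*} [AddCommGroup X] [Module K X] [AddCommGroup Y] [Module K Y]
    (e : X ≃ₗ[K] Y) (g : Module.End K X) (g' : Module.End K Y) (h : ∀ m, g' (e m) = e (g m))
    {p : ℕ} (ξ : Fin p → K) (j : ℕ) : fl g' ξ j = (fl g ξ j).map e.toLinearMap := by
  have key : ∀ l : List K, ∀ m, (l.map (fun c => g' - algebraMap K (Module.End K Y) c)).prod (e m)
      = e ((l.map (fun c => g - algebraMap K (Module.End K X) c)).prod m) := by
    intro l
    induction l with
    | nil => intro m; simp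
    | cons c l ih =>
      intro m
      rw [List.map_cons, List.prod_cons, Module.End.mul_apply, ih, List.map_cons, List.prod_cons,
        Module.End.mul_apply]
      simp only [LinearMap.sub_apply, Module.algebraMap_end_apply, h, map_sub, map_smul]
  unfold fl
  ext y
  constructor
  · rintro ⟨u, rfl⟩
    refine ⟨_, ⟨e.symm u, rfl⟩, ?_⟩
    have := key ((List.ofFn ξ).take j) (e.symm u)
    rw [e.apply_symm_apply] at this
    exact this.symm
  · rintro ⟨_, ⟨u, rfl⟩, rfl⟩
    exact ⟨e u, key _ u⟩

private theorem dimv_conj {X Y : Type*} [AddCommGroup X] [Module K X] [AddCommGroup Y] [Module K Y]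
    (e : X ≃ₗ[K] Y) (x : J n → K) (g : Fin 3 → Module.End K X) (g' : Fin 3 → Module.End K Y)
    (h : ∀ l m, g' l (e m) = e (g l m)) : dimv x g' = dimv x g := by
  funext j
  have hf : ∀ k, Module.finrank K (fl (g' j.1) (fun i => x ⟨j.1, i⟩) k)
      = Module.finrank K (fl (g j.1) (fun i => x ⟨j.1, i⟩) k) := by
    intro k
    rw [fl_conj e (g j.1) (g' j.1) (h j.1)]
    exact LinearEquiv.finrank_map_eq e _
  unfold dimv mult
  rw [hf, hf]

theorem unique_type [IsAlgClosed K] (hn : n = 3 ∨ n = 4 ∨ n = 5) (x : J n → K)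
    (hx : ∀ j, x j ≠ 0) (h1 : Gen1 x)
    (M : Type*) [AddCommGroup M] [Module K M] [Module (HA K (PX x)) M]
    [IsScalarTower K (HA K (PX x)) M] [FiniteDimensional K M]
    (M' : Type*) [AddCommGroup M'] [Module K M'] [Module (HA K (PX x)) M']
    [IsScalarTower K (HA K (PX x)) M'] [FiniteDimensional K M']
    [IsSimpleModule (HA K (PX x)) M] [IsSimpleModule (HA K (PX x)) M'] (ζ : K)
    (hz : ∀ m : M, zz K (PX x) • m = ζ • m) (hz' : ∀ m : M', zz K (PX x) • m = ζ • m) :
    dimv x (gop (PX x) M) = dimv x (gop (PX x) M') ∧ Nonempty (M ≃ₗ[HA K (PX x)] M') := by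
  have hf := dimv_facts x M hx ζ hz
  have hf' := dimv_facts x M' hx ζ hz'
  have hr := simple_root x M hn hx
  have hr' := simple_root x M' hn hx
  have e1 : ζ ^ lev (dimv x (gop (PX x) M)) = mon x (dimv x (gop (PX x) M)) := by
    rw [hf.2.2.1, ← hf.2.2.2, zpow_natCast]
  have e2 : ζ ^ lev (dimv x (gop (PX x) M')) = mon x (dimv x (gop (PX x) M')) := by
    rw [hf'.2.2.1, ← hf'.2.2.2, zpow_natCast]
  have heq := h1 _ hr _ hr' ζ e1 e2
  refine ⟨heq, simple_iso x M M' hn hx ζ hz hz' ?_⟩
  rw [← heq, hr.1.2]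
  norm_num

theorem semis_scalar [IsAlgClosed K] (hn : n = 3 ∨ n = 4 ∨ n = 5) (x : J n → K)
    (hx : ∀ j, x j ≠ 0) (h1 : Gen1 x) (h2 : Gen2 x)
    (E : Type*) [AddCommGroup E] [Module K E] [Module (HA K (PX x)) E]
    [IsScalarTower K (HA K (PX x)) E] [FiniteDimensional K E] (ζ : K)
    (hz : ∀ e : E, zz K (PX x) • e = ζ • e) : IsSemisimpleModule (HA K (PX x)) E := by
  have : IsNoetherian (HA K (PX x)) E := isNoetherian_of_tower K inferInstance
  have : IsArtinian (HA K (PX x)) E := isArtinian_of_tower K inferInstance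
  apply semisimple_of_ext
  intro A B C hAB hBC
  have hA1 : IsSimpleModule (HA K (PX x)) (B ⧸ A.submoduleOf B) :=
    (covBy_iff_quot_is_simple hAB.le).1 hAB
  have hB1 : IsSimpleModule (HA K (PX x)) (C ⧸ B.submoduleOf C) :=
    (covBy_iff_quot_is_simple hBC.le).1 hBC
  have fC : FiniteDimensional K C :=
    inferInstanceAs (FiniteDimensional K (C.restrictScalars K))
  have fQ : FiniteDimensional K (C ⧸ A.submoduleOf C) :=
    Module.Finite.of_surjective ((A.submoduleOf C).mkQ.restrictScalars K)
      (A.submoduleOf C).mkQ_surjective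
  have hzC : ∀ e : C, zz K (PX x) • e = ζ • e := fun e => Subtype.ext (hz e)
  have hzQ : ∀ e : C ⧸ A.submoduleOf C, zz K (PX x) • e = ζ • e := by
    intro e
    obtain ⟨c, rfl⟩ := Submodule.Quotient.mk_surjective _ e
    rw [← Submodule.Quotient.mk_smul, hzC, Submodule.Quotient.mk_smul]
  set N : Submodule (HA K (PX x)) (C ⧸ A.submoduleOf C) :=
    (B.submoduleOf C).map (A.submoduleOf C).mkQ with hN
  have hle : A.submoduleOf C ≤ B.submoduleOf C := Submodule.comap_mono hAB.le
  have sQ : IsSimpleModule (HA K (PX x)) ((C ⧸ A.submoduleOf C) ⧸ N) :=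
    IsSimpleModule.congr (Submodule.quotientQuotientEquivQuotient _ _ hle)
  have sN : IsSimpleModule (HA K (PX x)) N := by
    let f : B →ₗ[HA K (PX x)] (C ⧸ A.submoduleOf C) :=
      (A.submoduleOf C).mkQ ∘ₗ Submodule.inclusion hBC.le
    have k1 : LinearMap.ker f = A.submoduleOf B := by
      ext b
      rw [LinearMap.mem_ker]
      change (A.submoduleOf C).mkQ (Submodule.inclusion hBC.le b) = 0 ↔ (b : E) ∈ A
      rw [Submodule.mkQ_apply, Submodule.Quotient.mk_eq_zero]
      rfl
    have k2 : LinearMap.range f = N := by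
      ext q
      rw [hN]
      constructor
      · rintro ⟨b, rfl⟩
        exact ⟨Submodule.inclusion hBC.le b, b.2, rfl⟩
      · rintro ⟨c, hc, rfl⟩
        exact ⟨⟨c.1, hc⟩, rfl⟩
    have e := (Submodule.quotEquivOfEq _ _ k1.symm).trans
      (f.quotKerEquivRange.trans (LinearEquiv.ofEq _ _ k2))
    exact IsSimpleModule.congr e.symm
  have fN : FiniteDimensional K N :=
    inferInstanceAs (FiniteDimensional K (N.restrictScalars K))
  have fQN : FiniteDimensional K ((C ⧸ A.submoduleOf C) ⧸ N) :=
    Module.Finite.of_surjective (N.mkQ.restrictScalars K) N.mkQ_surjective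
  have hzN : ∀ e : N, zz K (PX x) • e = ζ • e := fun e => Subtype.ext (hzQ e)
  have hzQN : ∀ e : (C ⧸ A.submoduleOf C) ⧸ N, zz K (PX x) • e = ζ • e := by
    intro e
    obtain ⟨c, rfl⟩ := Submodule.Quotient.mk_surjective _ e
    rw [← Submodule.Quotient.mk_smul, hzQ, Submodule.Quotient.mk_smul]
  have hiso := (unique_type hn x hx h1 N ((C ⧸ A.submoduleOf C) ⧸ N) ζ hzN hzQN).2
  exact semis_ext_scalar x (C ⧸ A.submoduleOf C) hn hx h2 ζ hzQ N hiso

/-- An irreducible representation with its type: `φ : H → M_d(K)` surjective with kernel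
`(z - ζ) H`, of dimension vector `α`, `d = lev α`. -/
structure IsRep (x : J n → K) (α : J n → ℤ) (ζ : K)
    (φ : HA K (PX x) →ₐ[K] Matrix (Fin (lev α).toNat) (Fin (lev α).toNat) K) : Prop where
  mem : α ∈ Rc n
  eq : ζ ^ (lev α) = mon x α
  surj : Function.Surjective φ
  ker : ∀ u, φ u = 0 ↔ ∃ v, u = (zz K (PX x) - algebraMap K (HA K (PX x)) ζ) * v
  type : dimv x (fun l => Matrix.toLin' (φ (gen K (PX x) l))) = α

theorem exists_rep [IsAlgClosed K] (hn : n = 3 ∨ n = 4 ∨ n = 5) (x : J n → K)
    (hx : ∀ j, x j ≠ 0) (h1 : Gen1 x) (h2 : Gen2 x) [Module.Finite K (HA K (PX x))] (ζ : K)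
    (hζ : blk (PX x) ζ ≠ ⊥) :
    ∃ (α : J n → ℤ) (φ : HA K (PX x) →ₐ[K] Matrix (Fin (lev α).toNat) (Fin (lev α).toNat) K),
      IsRep x α ζ φ := by
  classical
  obtain ⟨t, ht⟩ : ∃ t, t = zz K (PX x) - algebraMap K (HA K (PX x)) ζ := ⟨_, rfl⟩
  have htc : ∀ u, u * t = t * u := by
    intro u
    rw [ht, mul_sub, sub_mul, zz_comm, Algebra.commutes ζ u]
  let I : Submodule (HA K (PX x)) (HA K (PX x)) :=
    { carrier := {u | ∃ v, u = t * v}
      add_mem' := by
        rintro u v ⟨a, rfl⟩ ⟨b, rfl⟩
        exact ⟨a + b, (mul_add _ _ _).symm⟩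
      zero_mem' := ⟨0, (mul_zero _).symm⟩
      smul_mem' := by
        rintro c u ⟨a, rfl⟩
        exact ⟨c * a, by rw [smul_eq_mul, ← mul_assoc, htc, mul_assoc]⟩ }
  have hI : ∀ u, u ∈ I ↔ ∃ v, u = t * v := fun u => Iff.rfl
  have fE : FiniteDimensional K (HA K (PX x) ⧸ I) :=
    Module.Finite.of_surjective (I.mkQ.restrictScalars K) I.mkQ_surjective
  have hzE : ∀ e : HA K (PX x) ⧸ I, zz K (PX x) • e = ζ • e := by
    intro e
    obtain ⟨c, rfl⟩ := Submodule.Quotient.mk_surjective _ e
    rw [← Submodule.Quotient.mk_smul, ← Submodule.Quotient.mk_smul, Submodule.Quotient.eq, hI]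
    refine ⟨c, ?_⟩
    rw [ht, sub_mul, smul_eq_mul, Algebra.smul_def]
  have sE : IsSemisimpleModule (HA K (PX x)) (HA K (PX x) ⧸ I) :=
    semis_scalar hn x hx h1 h2 (HA K (PX x) ⧸ I) ζ hzE
  have nE : Nontrivial (HA K (PX x) ⧸ I) := by
    rw [Submodule.Quotient.nontrivial_iff]
    intro hT
    apply hζ
    rw [eq_bot_iff]
    rintro u ⟨k, hk⟩
    rw [← ht] at hk
    have hs : Function.Surjective (LinearMap.mulLeft K t) := by
      intro u
      have : u ∈ I := by rw [hT]; trivial
      obtain ⟨v, hv⟩ := this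
      exact ⟨v, hv.symm⟩
    have hinj : Function.Injective (LinearMap.mulLeft K t) :=
      LinearMap.injective_iff_surjective.2 hs
    have : ∀ k : ℕ, ∀ u, t ^ k * u = 0 → u = 0 := by
      intro k
      induction k with
      | zero => intro u hu; simpa using hu
      | succ k ih =>
        intro u hu
        rw [pow_succ', mul_assoc] at hu
        apply ih
        apply hinj
        simpa using hu
    exact this k u hk
  obtain ⟨X, sX⟩ := IsSemisimpleModule.exists_simple_submodule (HA K (PX x)) (HA K (PX x) ⧸ I)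
  have := sX
  have hfin : ∀ Y : Submodule (HA K (PX x)) (HA K (PX x) ⧸ I), FiniteDimensional K Y :=
    fun Y => inferInstanceAs (FiniteDimensional K (Y.restrictScalars K))
  have fX : FiniteDimensional K X := hfin X
  have hzY : ∀ Y : Submodule (HA K (PX x)) (HA K (PX x) ⧸ I), ∀ e : Y,
      zz K (PX x) • e = ζ • e := fun Y e => Subtype.ext (hzE e)
  have hr := simple_root x X hn hx
  have hf := dimv_facts x X hx ζ (hzY X)
  have hd : Module.finrank K X = (lev (dimv x (gop (PX x) X))).toNat := by
    rw [hf.2.2.1]; rfl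
  have hz1 : ζ ^ lev (dimv x (gop (PX x) X)) = mon x (dimv x (gop (PX x) X)) := by
    rw [hf.2.2.1, ← hf.2.2.2, zpow_natCast]
  let b : Module.Basis (Fin (lev (dimv x (gop (PX x) X))).toNat) K X :=
    (Module.finBasis K X).reindex (finCongr hd)
  let φ : HA K (PX x) →ₐ[K] Matrix (Fin (lev (dimv x (gop (PX x) X))).toNat)
      (Fin (lev (dimv x (gop (PX x) X))).toNat) K :=
    (LinearMap.toMatrixAlgEquiv b).toAlgHom.comp (Algebra.lsmul K K X)
  have hφ : ∀ u, φ u = LinearMap.toMatrix b b (Algebra.lsmul K K X u) := fun u => rfl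
  have hφ0 : ∀ u, φ u = 0 ↔ ∀ m : X, u • m = 0 := by
    intro u
    rw [hφ, LinearEquiv.map_eq_zero_iff]
    constructor
    · intro h m
      exact LinearMap.congr_fun h m
    · intro h
      ext m
      exact congrArg Subtype.val (h m)
  refine ⟨dimv x (gop (PX x) X), φ, ?_⟩
  constructor
  · exact hr
  · exact hz1
  · intro M
    obtain ⟨f, hfM⟩ := (LinearMap.toMatrix b b).surjective M
    have hlin : ∀ (g : Module.End (HA K (PX x)) X) (m : X), f (g m) = g (f m) := by
      intro g m
      obtain ⟨c, hc⟩ := schur (P := PX x) (g.restrictScalars K)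
        ((mem_Hom3_iff _).2 (fun u m => g.map_smul u m))
      have hc' : ∀ m, g m = c • m := hc
      rw [hc', hc', map_smul]
    let F : Module.End (Module.End (HA K (PX x)) X) X :=
      { toFun := f
        map_add' := f.map_add
        map_smul' := hlin }
    obtain ⟨r, hr⟩ := jacobson_density F (Finset.univ.image b)
    refine ⟨r, ?_⟩
    rw [hφ, ← hfM]
    congr 1
    apply b.ext
    intro i
    have := hr (b i) (Finset.mem_image_of_mem _ (Finset.mem_univ i))
    exact this.symm
  · intro u
    rw [hφ0, ← ht]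
    constructor
    · intro h
      have hkill : ∀ e : HA K (PX x) ⧸ I, u • e = 0 := by
        intro e
        have he : e ∈ (⨆ Y : {m : Submodule (HA K (PX x)) (HA K (PX x) ⧸ I) |
            IsSimpleModule (HA K (PX x)) m}, (Y : Submodule (HA K (PX x)) (HA K (PX x) ⧸ I))) := by
          rw [← sSup_eq_iSup', IsSemisimpleModule.sSup_simples_eq_top]
          trivial
        refine Submodule.iSup_induction _ (motive := fun e => u • e = 0) he ?_ ?_ ?_
        · rintro ⟨Y, hY⟩ y hy
          have : IsSimpleModule (HA K (PX x)) Y := hY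
          have := hfin Y
          obtain ⟨e⟩ := (unique_type hn x hx h1 X Y ζ (hzY X) (hzY Y)).2
          have h3 : u • (⟨y, hy⟩ : Y) = 0 := by
            rw [← e.apply_symm_apply (⟨y, hy⟩ : Y), ← map_smul, h, map_zero]
          exact congrArg Subtype.val h3
        · exact smul_zero u
        · intro a b ha hb
          rw [smul_add, ha, hb, add_zero]
      have h4 := hkill (Submodule.Quotient.mk 1)
      rw [← Submodule.Quotient.mk_smul, Submodule.Quotient.mk_eq_zero, smul_eq_mul, mul_one,
        hI] at h4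
      exact h4
    · rintro ⟨v, rfl⟩ m
      rw [mul_smul, ht, sub_smul, algebraMap_smul, hzY, sub_self]
  · apply dimv_conj b.equivFun
    intro l m
    rw [Matrix.toLin'_apply, hφ]
    exact LinearMap.toMatrix_mulVec_repr b b _ m

end BMM
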