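/-
MP_b1ea0f_al, library BMM, module RootB (about 150 lines, integer arithmetic).  Root appendix, 0.
PROOFS.
bil_add_left etc: expand, lev is additive.
bil_even: bil v v = Σ_j v_j² - lev² ≡ Σ_j v_j - lev = 3 lev - lev = 0 mod 2 (v_j² ≡ v_j; Σ_j over the
three legs, each leg has sum lev by InQ).
bil_pos: Cauchy-Schwarz on each leg: pp * Σ_i v_i² ≥ (Σ_i v_i)² = lev² (`sq_sum_le_card_mul_sum_sq`).
With p = (2,3,n): Σ_j v_j² ≥ lev² (1/2 + 1/3 + 1/n) and 1/2+1/3+1/n - 1 = (6-n)/(6n) > 0 for n ≤ 5.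
If bil v v ≤ 0 then lev² ≤ 0, lev = 0, Σ v_j² ≤ 0, so v = 0.
bil_roots: bil (a-b) (a-b) = 4 - 2 bil a b > 0 if a ≠ b (a - b is in Q), so bil a b ≤ 1; the same
with a + b: bil a b ≥ -1.
root_of_le_two: 0 < bil v v ≤ 2 and even gives 2 (v ≠ 0 as lev v ≥ 1).
sub_root / add_root / refl_root: expand bil.
-/
import Pool.Agent.Lib.BMM.Ops

namespace BMM

variable {n : ℕ}

theorem lev_add (v w : J n → ℤ) : lev (v + w) = lev v + lev w := by
  simp [lev, Finset.sum_add_distrib]

theorem lev_smul (c : ℤ) (v : J n → ℤ) : lev (c • v) = c * lev v := by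
  simp [lev, Finset.mul_sum]

theorem inQ_add {v w : J n → ℤ} (hv : InQ v) (hw : InQ w) : InQ (v + w) := by
  intro x
  rw [lev_add, ← hv x, ← hw x, ← Finset.sum_add_distrib]
  rfl

theorem inQ_smul (c : ℤ) {v : J n → ℤ} (hv : InQ v) : InQ (c • v) := by
  intro x
  rw [lev_smul, ← hv x, Finset.mul_sum]
  rfl

theorem bil_comm (v w : J n → ℤ) : bil v w = bil w v := by
  simp only [bil, mul_comm]

theorem bil_add_left (u v w : J n → ℤ) : bil (u + v) w = bil u w + bil v w := by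
  simp only [bil, lev_add, Pi.add_apply, add_mul, Finset.sum_add_distrib]
  ring

theorem bil_smul_left (c : ℤ) (v w : J n → ℤ) : bil (c • v) w = c * bil v w := by
  simp only [bil, lev_smul, Pi.smul_apply, smul_eq_mul, mul_assoc, ← Finset.mul_sum]
  ring

private theorem bil_add_right (u v w : J n → ℤ) : bil u (v + w) = bil u v + bil u w := by
  rw [bil_comm, bil_add_left, bil_comm v, bil_comm w]

private theorem bil_smul_right (c : ℤ) (v w : J n → ℤ) : bil v (c • w) = c * bil v w := by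
  rw [bil_comm, bil_smul_left, bil_comm]

private theorem bil_neg_left (v w : J n → ℤ) : bil (-v) w = - bil v w := by
  have h := bil_smul_left (-1) v w
  rw [neg_one_smul] at h
  rw [h]; ring

private theorem bil_neg_right (v w : J n → ℤ) : bil v (-w) = - bil v w := by
  rw [bil_comm, bil_neg_left, bil_comm]

private theorem bil_sub_left (u v w : J n → ℤ) : bil (u - v) w = bil u w - bil v w := by
  rw [sub_eq_add_neg, bil_add_left, bil_neg_left]; ring

private theorem bil_sub_right (u v w : J n → ℤ) : bil u (v - w) = bil u v - bil u w := by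
  rw [sub_eq_add_neg, bil_add_right, bil_neg_right]; ring

private theorem inQ_neg {v : J n → ℤ} (hv : InQ v) : InQ (-v) := by
  have h := inQ_smul (-1) hv
  rwa [neg_one_smul] at h

private theorem inQ_sub {v w : J n → ℤ} (hv : InQ v) (hw : InQ w) : InQ (v - w) := by
  rw [sub_eq_add_neg]
  exact inQ_add hv (inQ_neg hw)

theorem bil_even {v : J n → ℤ} (hv : InQ v) : Even (bil v v) := by
  have h1 : ∀ m : ℤ, Even (m * m - m) := by
    intro m
    have : m * m - m = (m - 1) * m := by ring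
    rw [this]
    rcases Int.even_or_odd m with h | h
    · exact h.mul_left _
    · exact (h.sub_odd odd_one).mul_right _
  have h2 : Even (∑ j : J n, (v j * v j - v j)) := by
    apply Finset.even_sum
    intro j _
    exact h1 (v j)
  have h3 : ∑ j : J n, v j = 3 * lev v := by
    rw [Fintype.sum_sigma]
    have : ∀ x : Fin 3, ∑ i : Fin (pp n x), v ⟨x, i⟩ = lev v := hv
    rw [Finset.sum_congr rfl (fun x _ => this x)]
    simp
  have h4 : bil v v = ∑ j : J n, (v j * v j - v j) + (2 * lev v - (lev v * lev v - lev v)) := by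
    rw [Finset.sum_sub_distrib, h3, bil]
    ring
  rw [h4]
  exact h2.add ((even_two_mul _).sub (h1 _))

theorem bil_pos (hn : n = 3 ∨ n = 4 ∨ n = 5) {v : J n → ℤ} (hv : InQ v) (h0 : v ≠ 0) :
    0 < bil v v := by
  by_contra hc
  push Not at hc
  have hcs : ∀ x : Fin 3, lev v ^ 2 ≤ (pp n x : ℤ) * ∑ i : Fin (pp n x), v ⟨x, i⟩ ^ 2 := by
    intro x
    have h := sq_sum_le_card_mul_sum_sq (s := (Finset.univ : Finset (Fin (pp n x))))
      (f := fun i => v ⟨x, i⟩)
    rw [hv x] at h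
    simpa using h
  have h0' := hcs 0
  have h1' := hcs 1
  have h2' := hcs 2
  have hb : bil v v = (∑ i : Fin (pp n 0), v ⟨0, i⟩ ^ 2) + (∑ i : Fin (pp n 1), v ⟨1, i⟩ ^ 2)
      + (∑ i : Fin (pp n 2), v ⟨2, i⟩ ^ 2) - lev v ^ 2 := by
    rw [bil, Fintype.sum_sigma, Fin.sum_univ_three]
    simp only [sq]
  have hp0 : (pp n 0 : ℤ) = 2 := by simp [pp]
  have hp1 : (pp n 1 : ℤ) = 3 := by simp [pp]
  have hp2 : (pp n 2 : ℤ) = n := by simp [pp]
  rw [hp0] at h0'
  rw [hp1] at h1'
  rw [hp2] at h2'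
  set S0 := ∑ i : Fin (pp n 0), v ⟨0, i⟩ ^ 2 with hS0
  set S1 := ∑ i : Fin (pp n 1), v ⟨1, i⟩ ^ 2 with hS1
  set S2 := ∑ i : Fin (pp n 2), v ⟨2, i⟩ ^ 2 with hS2
  have hl : lev v ^ 2 ≤ 0 := by
    rw [hb] at hc
    rcases hn with rfl | rfl | rfl
    · push_cast at h2'
      linarith
    · push_cast at h2'
      linarith
    · push_cast at h2'
      linarith
  have hz : ∑ j : J n, v j ^ 2 ≤ 0 := by
    rw [Fintype.sum_sigma, Fin.sum_univ_three]
    rw [hb] at hc
    have : 0 ≤ lev v ^ 2 := sq_nonneg _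
    linarith
  apply h0
  funext j
  have h5 : v j ^ 2 ≤ ∑ j : J n, v j ^ 2 :=
    Finset.single_le_sum (f := fun j => v j ^ 2) (fun _ _ => sq_nonneg _) (Finset.mem_univ j)
  have h6 : v j ^ 2 = 0 := le_antisymm (h5.trans hz) (sq_nonneg _)
  simpa using h6

private theorem lev_zero : lev (0 : J n → ℤ) = 0 := by simp [lev]

theorem root_of_le_two (hn : n = 3 ∨ n = 4 ∨ n = 5) {v : J n → ℤ} (hv : InQ v)
    (hd : 1 ≤ lev v) (h2 : bil v v ≤ 2) : v ∈ Rc n := by
  have h0 : v ≠ 0 := by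
    rintro rfl
    rw [lev_zero] at hd
    omega
  have h1 := bil_pos hn hv h0
  obtain ⟨r, hr⟩ := bil_even hv
  exact ⟨⟨hv, by omega⟩, hd⟩

theorem bil_roots (hn : n = 3 ∨ n = 4 ∨ n = 5) {a b : J n → ℤ} (ha : IsRoot a) (hb : IsRoot b)
    (h1 : a ≠ b) (h2 : a ≠ -b) : bil a b = -1 ∨ bil a b = 0 ∨ bil a b = 1 := by
  have h3 := bil_pos hn (inQ_sub ha.1 hb.1) (sub_ne_zero.2 h1)
  have h4 := bil_pos hn (inQ_add ha.1 hb.1) (fun h => h2 (eq_neg_of_add_eq_zero_left h))
  rw [bil_sub_left, bil_sub_right, bil_sub_right, ha.2, hb.2, bil_comm b a] at h3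
  rw [bil_add_left, bil_add_right, bil_add_right, ha.2, hb.2, bil_comm b a] at h4
  omega

theorem neg_root {a : J n → ℤ} (ha : IsRoot a) : IsRoot (-a) := by
  refine ⟨inQ_neg ha.1, ?_⟩
  rw [bil_neg_left, bil_neg_right, neg_neg, ha.2]

theorem sub_root {a b : J n → ℤ} (ha : IsRoot a) (hb : IsRoot b) (h : bil a b = 1) :
    IsRoot (a - b) := by
  refine ⟨inQ_sub ha.1 hb.1, ?_⟩
  rw [bil_sub_left, bil_sub_right, bil_sub_right, ha.2, hb.2, bil_comm b a, h]
  norm_num

theorem add_root {a b : J n → ℤ} (ha : IsRoot a) (hb : IsRoot b) (h : bil a b = -1) :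
    IsRoot (a + b) := by
  refine ⟨inQ_add ha.1 hb.1, ?_⟩
  rw [bil_add_left, bil_add_right, bil_add_right, ha.2, hb.2, bil_comm b a, h]
  norm_num

/-- The reflection of `v` in `b`. -/
def refl (b v : J n → ℤ) : J n → ℤ := v - bil v b • b

theorem bil_refl {b : J n → ℤ} (hb : IsRoot b) (v w : J n → ℤ) :
    bil (refl b v) (refl b w) = bil v w := by
  unfold refl
  rw [bil_sub_left, bil_sub_right, bil_sub_right, bil_smul_left, bil_smul_left, bil_smul_right,
    bil_smul_right, hb.2, bil_comm b w]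
  ring

theorem refl_root {a b : J n → ℤ} (ha : IsRoot a) (hb : IsRoot b) : IsRoot (refl b a) := by
  refine ⟨?_, ?_⟩
  · exact inQ_sub ha.1 (inQ_smul _ hb.1)
  · rw [bil_refl hb, ha.2]

theorem refl_refl {b : J n → ℤ} (hb : IsRoot b) (v : J n → ℤ) : refl b (refl b v) = v := by
  unfold refl
  rw [bil_sub_left, bil_smul_left, hb.2]
  funext j
  simp only [Pi.sub_apply, Pi.smul_apply, smul_eq_mul]
  ring

/-- Two roots that are proportional with levels: `lev b • a = lev a • b`, both levels ≥ 1. -/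
theorem eq_of_prop (hn : n = 3 ∨ n = 4 ∨ n = 5) {a b : J n → ℤ} (ha : a ∈ Rc n) (hb : b ∈ Rc n)
    (h : lev b • a = lev a • b) : a = b := by
  obtain ⟨ha1, ha2⟩ := ha
  obtain ⟨hb1, hb2⟩ := hb
  have h1 : bil (lev b • a) (lev b • a) = bil (lev a • b) (lev a • b) := by rw [h]
  rw [bil_smul_left, bil_smul_right, bil_smul_left, bil_smul_right, ha1.2, hb1.2] at h1
  have h2 : lev b = lev a := by nlinarith
  rw [h2] at h
  funext j
  have h3 := congrFun h j
  simp only [Pi.smul_apply, smul_eq_mul] at h3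
  have h4 : lev a ≠ 0 := by omega
  exact mul_left_cancel₀ h4 h3

/-- No proportionality between `c` and `a` when `(c, a) = 1`. -/
theorem not_prop (hn : n = 3 ∨ n = 4 ∨ n = 5) {a c : J n → ℤ} (ha : a ∈ Rc n) (hc : IsRoot c)
    (h1 : bil c a = 1) : lev a • c ≠ lev c • a := by
  intro h
  obtain ⟨ha1, ha2⟩ := ha
  have h2 : bil (lev a • c) a = bil (lev c • a) a := by rw [h]
  have h3 : bil (lev a • c) c = bil (lev c • a) c := by rw [h]
  rw [bil_smul_left, bil_smul_left, h1, ha1.2] at h2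
  rw [bil_smul_left, bil_smul_left, hc.2, bil_comm a c, h1] at h3
  omega

end BMM
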