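/-
MP_b1ea0f_al, library BMM, module RootA (about 200 lines, integer arithmetic and finite checks).
Root appendix L0.2, L0.4: the list of the roots of level ≥ 1.
PROOFS.
Rc_iff: v ∈ Q with bil v v = 2 and d = lev v ≥ 1: by Cauchy-Schwarz (as in bil_pos) 2 ≥ d²(1/2+1/3+1/n-1)
= 2 d²/N, so d² ≤ N, d ≤ 3, 4, 7 for n = 3, 4, 5. On a leg of length p put d = p k + r, 0 ≤ r < p; then
Σ_i (v_i - k)(v_i - k - 1) ≥ 0 with equality iff all v_i ∈ {k, k+1}, and otherwise ≥ 2; it equals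
Σ v_i² - (2k+1) d + p k(k+1). So Σ_j v_j² = Σ_legs ((2k+1)d - p k(k+1)) + (even number ≥ 0), the
number being 0 iff v is balanced: |p v_j - d| < p for all j. For d = 1..dmax the base value minus d² is 2
(see the table L0.2), for n = 5, d = 7 it is 4. So bil v v = 2 iff balanced and d ≤ dmax. (interval_cases d)
Rc_one: d ≤ dmax and balanced: d = 1: every leg; d = 2: leg 0 (entries 1,1); d = 3: leg 1 (1,1,1);
d = 4: leg 2 (entries 0/1 for n = 5 with sum 4, for n = 4 all 1); d = 5: leg 2 all 1; d = 6: leg 2 has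
entries 2,1,1,1,1.
rootsL: explicit computable list; mem_rootsL from Rc_iff. Rc_sum: Rset is the image of the list (without
duplicates) and the sum is computed (`decide +kernel` or `rfl`): 18·1+9·8+2·27 = 144,
24·1+18·8+8·27+3·64 = 576, 30+30·8+20·27+15·64+6·125+5·216 = 3600.
-/
import Pool.Agent.Lib.BMM.RootB

namespace BMM

variable {n : ℕ}

/-- maximal level of a root -/
def dmax (n : ℕ) : ℕ := if n = 3 then 3 else if n = 4 then 4 else 6

private theorem ra_bil (v : J n → ℤ) : bil v v =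
    (∑ i : Fin 2, v ⟨0, i⟩ * v ⟨0, i⟩ + ∑ i : Fin 3, v ⟨1, i⟩ * v ⟨1, i⟩
      + ∑ i : Fin n, v ⟨2, i⟩ * v ⟨2, i⟩) - lev v * lev v := by
  unfold bil
  rw [Fintype.sum_sigma, Fin.sum_univ_three]
  rfl

private theorem ra_leg_id {p : ℕ} (u : Fin p → ℤ) (k d : ℤ) (h : ∑ i, u i = d) :
    ∑ i, u i * u i = ∑ i, (u i - k) * (u i - k - 1) + ((2 * k + 1) * d - p * (k * (k + 1))) := by
  have h1 : ∀ i, u i * u i = (u i - k) * (u i - k - 1) + ((2 * k + 1) * u i - k * (k + 1)) := by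
    intro i; ring
  rw [Finset.sum_congr rfl (fun i _ => h1 i), Finset.sum_add_distrib, Finset.sum_sub_distrib,
    ← Finset.mul_sum, h]
  simp

private theorem ra_prod_nonneg (a : ℤ) : 0 ≤ a * (a - 1) := by
  rcases le_or_gt a 0 with h | h
  · nlinarith
  · have : 1 ≤ a := h
    nlinarith

private theorem ra_leg_nonneg {p : ℕ} (u : Fin p → ℤ) (k : ℤ) :
    0 ≤ ∑ i, (u i - k) * (u i - k - 1) :=
  Finset.sum_nonneg (fun i _ => ra_prod_nonneg (u i - k))

private theorem ra_leg_zero {p : ℕ} (u : Fin p → ℤ) (k : ℤ) :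
    ∑ i, (u i - k) * (u i - k - 1) = 0 ↔ ∀ i, u i = k ∨ u i = k + 1 := by
  rw [Finset.sum_eq_zero_iff_of_nonneg (fun i _ => ra_prod_nonneg (u i - k))]
  constructor
  · intro h i
    rcases mul_eq_zero.1 (h i (Finset.mem_univ i)) with h1 | h1
    · left; omega
    · right; omega
  · intro h i _
    rcases h i with h1 | h1
    · rw [h1]; ring
    · rw [h1]; ring

private theorem ra_leg_bal {p : ℕ} (hp : 0 < p) (u : Fin p → ℤ) (k d : ℤ) (h : ∑ i, u i = d)
    (h1 : p * k ≤ d) (h2 : d < p * (k + 1)) :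
    (∀ i, u i = k ∨ u i = k + 1) ↔ ∀ i, |(p : ℤ) * u i - d| < p := by
  have hp' : (0 : ℤ) < p := by exact_mod_cast hp
  constructor
  · intro hu i
    rcases eq_or_lt_of_le h1 with h3 | h3
    · have h4 : ∑ i, (u i - k) = 0 := by
        rw [Finset.sum_sub_distrib, h, ← h3]
        simp
      have h5 : ∀ i ∈ Finset.univ, 0 ≤ u i - k := by
        intro i _
        rcases hu i with h | h <;> omega
      have h6 := (Finset.sum_eq_zero_iff_of_nonneg h5).1 h4 i (Finset.mem_univ i)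
      have h7 : u i = k := by omega
      rw [h7, h3]
      simpa using hp'
    · rcases hu i with h4 | h4
      · rw [h4, abs_lt]
        constructor <;> nlinarith
      · rw [h4, abs_lt]
        constructor <;> nlinarith
  · intro hu i
    have h3 := hu i
    rw [abs_lt] at h3
    have h4 : k - 1 < u i := by
      by_contra hc
      have : u i ≤ k - 1 := by omega
      nlinarith
    have h5 : u i < k + 2 := by
      by_contra hc
      have : k + 2 ≤ u i := by omega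
      nlinarith
    omega

private theorem ra_cs {p : ℕ} (u : Fin p → ℤ) (d : ℤ) (h : ∑ i, u i = d) :
    d * d ≤ p * ∑ i, u i * u i := by
  have h1 := sq_sum_le_card_mul_sum_sq (s := (Finset.univ : Finset (Fin p))) (f := u)
  rw [h] at h1
  simpa [pow_two] using h1

private theorem ra_key (hn : n = 3 ∨ n = 4 ∨ n = 5) (v : J n → ℤ) (hQ : InQ v)
    (h1 : 1 ≤ lev v) (h2 : lev v ≤ dmax n) :
    bil v v = 2 ↔ ∀ j : J n, |(pp n j.1 : ℤ) * v j - lev v| < pp n j.1 := by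
  have e0 : ∑ i : Fin 2, v ⟨0, i⟩ = lev v := hQ 0
  have e1 : ∑ i : Fin 3, v ⟨1, i⟩ = lev v := hQ 1
  have e2 : ∑ i : Fin n, v ⟨2, i⟩ = lev v := hQ 2
  obtain ⟨d, hd⟩ : ∃ d, d = lev v := ⟨_, rfl⟩
  rw [ra_bil]
  rw [← hd] at h1 h2 e0 e1 e2 ⊢
  obtain ⟨k0, hk0⟩ : ∃ k0 : ℤ, k0 = d / 2 := ⟨_, rfl⟩
  obtain ⟨k1, hk1⟩ : ∃ k1 : ℤ, k1 = d / 3 := ⟨_, rfl⟩
  obtain ⟨k2, hk2⟩ : ∃ k2 : ℤ, k2 = d / n := ⟨_, rfl⟩
  have hn0 : 0 < n := by omega
  have b0 := ra_leg_bal (p := 2) (by norm_num) (fun i => v ⟨0, i⟩) k0 d e0 (by push_cast; omega)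
    (by push_cast; omega)
  have b1 := ra_leg_bal (p := 3) (by norm_num) (fun i => v ⟨1, i⟩) k1 d e1 (by push_cast; omega)
    (by push_cast; omega)
  have b2 := ra_leg_bal (p := n) hn0 (fun i => v ⟨2, i⟩) k2 d e2
    (by rcases hn with rfl | rfl | rfl <;> push_cast at hk2 ⊢ <;> omega)
    (by rcases hn with rfl | rfl | rfl <;> push_cast at hk2 ⊢ <;> omega)
  rw [ra_leg_id (fun i : Fin 2 => v ⟨0, i⟩) k0 d e0, ra_leg_id (fun i : Fin 3 => v ⟨1, i⟩) k1 d e1,
    ra_leg_id (fun i : Fin n => v ⟨2, i⟩) k2 d e2]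
  have n0 := ra_leg_nonneg (fun i : Fin 2 => v ⟨0, i⟩) k0
  have n1 := ra_leg_nonneg (fun i : Fin 3 => v ⟨1, i⟩) k1
  have n2 := ra_leg_nonneg (fun i : Fin n => v ⟨2, i⟩) k2
  have z0 := ra_leg_zero (fun i : Fin 2 => v ⟨0, i⟩) k0
  have z1 := ra_leg_zero (fun i : Fin 3 => v ⟨1, i⟩) k1
  have z2 := ra_leg_zero (fun i : Fin n => v ⟨2, i⟩) k2
  have hbase : ((2 * k0 + 1) * d - (2 : ℕ) * (k0 * (k0 + 1)))
      + ((2 * k1 + 1) * d - (3 : ℕ) * (k1 * (k1 + 1)))
      + ((2 * k2 + 1) * d - (n : ℕ) * (k2 * (k2 + 1))) - d * d = 2 := by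
    rcases hn with rfl | rfl | rfl
    · have h3 : d ≤ 3 := h2
      interval_cases d <;> subst hk0 hk1 hk2 <;> norm_num
    · have h3 : d ≤ 4 := h2
      interval_cases d <;> subst hk0 hk1 hk2 <;> norm_num
    · have h3 : d ≤ 6 := h2
      interval_cases d <;> subst hk0 hk1 hk2 <;> norm_num
  constructor
  · intro h
    have w0 : ∑ i : Fin 2, (v ⟨0, i⟩ - k0) * (v ⟨0, i⟩ - k0 - 1) = 0 := by linarith
    have w1 : ∑ i : Fin 3, (v ⟨1, i⟩ - k1) * (v ⟨1, i⟩ - k1 - 1) = 0 := by linarith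
    have w2 : ∑ i : Fin n, (v ⟨2, i⟩ - k2) * (v ⟨2, i⟩ - k2 - 1) = 0 := by linarith
    rintro ⟨x, i⟩
    fin_cases x
    · exact b0.1 (z0.1 w0) i
    · exact b1.1 (z1.1 w1) i
    · exact b2.1 (z2.1 w2) i
  · intro h
    have w0 := z0.2 (b0.2 (fun i => h ⟨0, i⟩))
    have w1 := z1.2 (b1.2 (fun i => h ⟨1, i⟩))
    have w2 := z2.2 (b2.2 (fun i => h ⟨2, i⟩))
    linarith

theorem Rc_iff (hn : n = 3 ∨ n = 4 ∨ n = 5) (v : J n → ℤ) :
    v ∈ Rc n ↔ InQ v ∧ 1 ≤ lev v ∧ lev v ≤ dmax n ∧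
      ∀ j : J n, |(pp n j.1 : ℤ) * v j - lev v| < pp n j.1 := by
  constructor
  · rintro ⟨⟨hQ, h2⟩, h1⟩
    have hd : lev v ≤ dmax n := by
      have e0 : ∑ i : Fin 2, v ⟨0, i⟩ = lev v := hQ 0
      have e1 : ∑ i : Fin 3, v ⟨1, i⟩ = lev v := hQ 1
      have e2 : ∑ i : Fin n, v ⟨2, i⟩ = lev v := hQ 2
      have c0 := ra_cs (fun i : Fin 2 => v ⟨0, i⟩) _ e0
      have c1 := ra_cs (fun i : Fin 3 => v ⟨1, i⟩) _ e1
      have c2 := ra_cs (fun i : Fin n => v ⟨2, i⟩) _ e2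
      rw [ra_bil] at h2
      rcases hn with rfl | rfl | rfl
      · show lev v ≤ 3
        by_contra hc
        have : 4 ≤ lev v := by omega
        push_cast at c0 c1 c2
        nlinarith
      · show lev v ≤ 4
        by_contra hc
        have : 5 ≤ lev v := by omega
        push_cast at c0 c1 c2
        nlinarith
      · show lev v ≤ 6
        by_contra hc
        have h8 : lev v ≤ 7 := by
          by_contra hc2
          have : 8 ≤ lev v := by omega
          push_cast at c0 c1 c2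
          nlinarith
        have h7 : lev v = 7 := by omega
        rw [ra_leg_id (fun i : Fin 2 => v ⟨0, i⟩) 3 _ e0,
          ra_leg_id (fun i : Fin 3 => v ⟨1, i⟩) 2 _ e1,
          ra_leg_id (fun i : Fin 5 => v ⟨2, i⟩) 1 _ e2, h7] at h2
        have n0 := ra_leg_nonneg (fun i : Fin 2 => v ⟨0, i⟩) 3
        have n1 := ra_leg_nonneg (fun i : Fin 3 => v ⟨1, i⟩) 2
        have n2 := ra_leg_nonneg (fun i : Fin 5 => v ⟨2, i⟩) 1
        push_cast at h2
        linarith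
    exact ⟨hQ, h1, hd, (ra_key hn v hQ h1 hd).1 h2⟩
  · rintro ⟨hQ, h1, hd, hb⟩
    exact ⟨⟨hQ, (ra_key hn v hQ h1 hd).2 hb⟩, h1⟩

theorem Rc_nonneg (hn : n = 3 ∨ n = 4 ∨ n = 5) {v : J n → ℤ} (hv : v ∈ Rc n) (j : J n) :
    0 ≤ v j ∧ v j ≤ 3 := by
  obtain ⟨_, h1, h2, h3⟩ := (Rc_iff hn v).1 hv
  have h4 := h3 j
  have h5 : lev v ≤ 6 := by
    refine le_trans h2 ?_
    rcases hn with rfl | rfl | rfl <;> decide
  obtain ⟨p, hp⟩ : ∃ p, p = pp n j.1 := ⟨_, rfl⟩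
  have h6 : p = 2 ∨ p = 3 ∨ p = 4 ∨ p = 5 := by
    rw [hp]
    obtain ⟨x, i⟩ := j
    fin_cases x
    · left; rfl
    · right; left; rfl
    · show n = 2 ∨ n = 3 ∨ n = 4 ∨ n = 5
      omega
  rw [← hp, abs_lt] at h4
  rcases h6 with rfl | rfl | rfl | rfl <;> push_cast at h4 <;> omega

theorem Rc_one (hn : n = 3 ∨ n = 4 ∨ n = 5) {v : J n → ℤ} (hv : v ∈ Rc n) : ∃ j, v j = 1 := by
  obtain ⟨hQ, h1, h2, h3⟩ := (Rc_iff hn v).1 hv
  have e0 : ∑ i : Fin 2, v ⟨0, i⟩ = lev v := hQ 0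
  have e2 : ∑ i : Fin n, v ⟨2, i⟩ = lev v := hQ 2
  have g0 : ∀ i : Fin 2, |(2 : ℤ) * v ⟨0, i⟩ - lev v| < 2 := fun i => h3 ⟨0, i⟩
  have g1 : ∀ i : Fin 3, |(3 : ℤ) * v ⟨1, i⟩ - lev v| < 3 := fun i => h3 ⟨1, i⟩
  have g2 : ∀ i : Fin n, |(n : ℤ) * v ⟨2, i⟩ - lev v| < n := fun i => h3 ⟨2, i⟩
  have h5 : lev v ≤ 6 := by
    refine le_trans h2 ?_
    rcases hn with rfl | rfl | rfl <;> decide
  simp only [abs_lt] at g0 g1 g2
  rw [Fin.sum_univ_two] at e0
  have h6 : lev v = 1 ∨ lev v = 2 ∨ lev v = 3 ∨ lev v = 4 ∨ lev v = 5 ∨ lev v = 6 := by omega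
  rcases h6 with h | h | h | h | h | h
  · have a0 := g0 0
    have a1 := g0 1
    rw [h] at a0 a1 e0
    by_cases hc : v ⟨0, (0 : Fin 2)⟩ = 1
    · exact ⟨_, hc⟩
    · exact ⟨⟨0, (1 : Fin 2)⟩, by omega⟩
  · have a0 := g0 0
    rw [h] at a0
    exact ⟨⟨0, (0 : Fin 2)⟩, by omega⟩
  · have a0 := g1 0
    rw [h] at a0
    exact ⟨⟨1, (0 : Fin 3)⟩, by omega⟩
  · rcases hn with rfl | rfl | rfl
    · have : lev v ≤ 3 := h2
      omega
    · have a0 := g2 0
      rw [h] at a0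
      push_cast at a0
      exact ⟨⟨2, (0 : Fin 4)⟩, by omega⟩
    · by_contra hc
      push Not at hc
      have a : ∀ i : Fin 5, v ⟨2, i⟩ ≤ 0 := by
        intro i
        have a0 := g2 i
        have a1 := hc ⟨2, i⟩
        rw [h] at a0
        push_cast at a0
        omega
      have : ∑ i : Fin 5, v ⟨2, i⟩ ≤ 0 := Finset.sum_nonpos (fun i _ => a i)
      omega
  · rcases hn with rfl | rfl | rfl
    · have : lev v ≤ 3 := h2
      omega
    · have : lev v ≤ 4 := h2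
      omega
    · have a0 := g2 0
      rw [h] at a0
      push_cast at a0
      exact ⟨⟨2, (0 : Fin 5)⟩, by omega⟩
  · rcases hn with rfl | rfl | rfl
    · have : lev v ≤ 3 := h2
      omega
    · have : lev v ≤ 4 := h2
      omega
    · by_contra hc
      push Not at hc
      have a : ∀ i : Fin 5, 2 ≤ v ⟨2, i⟩ := by
        intro i
        have a0 := g2 i
        have a1 := hc ⟨2, i⟩
        rw [h] at a0
        push_cast at a0
        omega
      have b : ∑ i : Fin 5, (2 : ℤ) ≤ ∑ i : Fin 5, v ⟨2, i⟩ := Finset.sum_le_sum (fun i _ => a i)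
      simp only [Finset.sum_const, Finset.card_univ, Fintype.card_fin] at b
      rw [e2, h] at b
      norm_num at b

open Classical in
/-- The roots of level `≥ 1` as a finite set. -/
noncomputable def Rset (n : ℕ) : Finset (J n → ℤ) :=
  (Fintype.piFinset (fun _ : J n => Finset.Icc (0 : ℤ) 3)).filter (fun v => v ∈ Rc n)

theorem mem_Rset (hn : n = 3 ∨ n = 4 ∨ n = 5) (v : J n → ℤ) : v ∈ Rset n ↔ v ∈ Rc n := by
  classical
  unfold Rset
  rw [Finset.mem_filter, Fintype.mem_piFinset]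
  constructor
  · exact fun h => h.2
  · exact fun h => ⟨fun j => Finset.mem_Icc.2 (Rc_nonneg hn h j), h⟩

/-- Vectors from lists of integers. -/
def toJ (n : ℕ) (l : List ℤ) : J n → ℤ :=
  fun j => l.getD ((if j.1 = 0 then 0 else if j.1 = 1 then 2 else 5) + j.2) 0

/-- All balanced lists of length `p` with sum `d`. -/
def blockL (p d : ℕ) : List (List ℤ) :=
  ((List.replicate p [((d / p : ℕ) : ℤ), ((d / p : ℕ) : ℤ) + 1]).sections).filter
    (fun l => l.sum = (d : ℤ))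

/-- The roots of level `≥ 1` as an explicit list of lists. -/
def rootsL (n : ℕ) : List (List ℤ) :=
  (List.range (dmax n)).flatMap fun d =>
    (blockL 2 (d + 1)).flatMap fun a =>
      (blockL 3 (d + 1)).flatMap fun b => (blockL n (d + 1)).map fun c => a ++ b ++ c

private theorem ra_forall₂ (q : List ℤ) : ∀ (p : ℕ) (l : List ℤ), l.length = p →
    (∀ x ∈ l, x ∈ q) → List.Forall₂ (· ∈ ·) l (List.replicate p q) := by
  intro p
  induction p with
  | zero =>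
    intro l hl _
    rw [List.length_eq_zero_iff] at hl
    subst hl
    exact List.Forall₂.nil
  | succ p ih =>
    intro l hl h
    cases l with
    | nil => simp at hl
    | cons a l =>
      rw [List.replicate_succ]
      refine List.Forall₂.cons (h a (by simp)) (ih l (by simpa using hl) ?_)
      intro x hx
      exact h x (by simp [hx])

private theorem ra_mem_block (p d : ℕ) (u : Fin p → ℤ)
    (h : ∀ i, u i = ((d / p : ℕ) : ℤ) ∨ u i = ((d / p : ℕ) : ℤ) + 1) (hs : ∑ i, u i = d) :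
    List.ofFn u ∈ blockL p d := by
  unfold blockL
  rw [List.mem_filter, List.mem_sections]
  refine ⟨ra_forall₂ _ p _ (by simp) ?_, ?_⟩
  · intro x hx
    rw [List.mem_ofFn] at hx
    obtain ⟨i, rfl⟩ := hx
    rcases h i with h1 | h1 <;> simp [h1]
  · rw [List.sum_ofFn, hs]
    simp

private theorem ra_mem_roots (d : ℕ) (hd : d < dmax n) (a b c : List ℤ)
    (ha : a ∈ blockL 2 (d + 1)) (hb : b ∈ blockL 3 (d + 1)) (hc : c ∈ blockL n (d + 1)) :
    a ++ b ++ c ∈ rootsL n := by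
  unfold rootsL
  rw [List.mem_flatMap]
  refine ⟨d, List.mem_range.2 hd, ?_⟩
  rw [List.mem_flatMap]
  refine ⟨a, ha, ?_⟩
  rw [List.mem_flatMap]
  refine ⟨b, hb, ?_⟩
  rw [List.mem_map]
  exact ⟨c, hc, rfl⟩

private theorem ra_toJ (hn : n = 3 ∨ n = 4 ∨ n = 5) (v : J n → ℤ) :
    v = toJ n (List.ofFn (fun i : Fin 2 => v ⟨0, i⟩) ++ List.ofFn (fun i : Fin 3 => v ⟨1, i⟩)
      ++ List.ofFn (fun i : Fin n => v ⟨2, i⟩)) := by
  funext j
  obtain ⟨x, i⟩ := j
  rcases hn with rfl | rfl | rfl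
  · fin_cases x
    · change Fin 2 at i
      fin_cases i <;> rfl
    · change Fin 3 at i
      fin_cases i <;> rfl
    · change Fin 3 at i
      fin_cases i <;> rfl
  · fin_cases x
    · change Fin 2 at i
      fin_cases i <;> rfl
    · change Fin 3 at i
      fin_cases i <;> rfl
    · change Fin 4 at i
      fin_cases i <;> rfl
  · fin_cases x
    · change Fin 2 at i
      fin_cases i <;> rfl
    · change Fin 3 at i
      fin_cases i <;> rfl
    · change Fin 5 at i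
      fin_cases i <;> rfl

private theorem ra_check : (∀ l ∈ rootsL 3, IsRoot (toJ 3 l) ∧ 1 ≤ lev (toJ 3 l)) ∧
    (∀ l ∈ rootsL 4, IsRoot (toJ 4 l) ∧ 1 ≤ lev (toJ 4 l)) ∧
    (∀ l ∈ rootsL 5, IsRoot (toJ 5 l) ∧ 1 ≤ lev (toJ 5 l)) := by
  unfold IsRoot InQ
  decide +kernel

theorem mem_rootsL (hn : n = 3 ∨ n = 4 ∨ n = 5) (v : J n → ℤ) :
    v ∈ Rc n ↔ ∃ l ∈ rootsL n, v = toJ n l := by
  constructor
  · intro hv
    obtain ⟨hQ, h1, h2, h3⟩ := (Rc_iff hn v).1 hv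
    have e0 : ∑ i : Fin 2, v ⟨0, i⟩ = lev v := hQ 0
    have e1 : ∑ i : Fin 3, v ⟨1, i⟩ = lev v := hQ 1
    have e2 : ∑ i : Fin n, v ⟨2, i⟩ = lev v := hQ 2
    obtain ⟨d, hd⟩ : ∃ d : ℕ, lev v = ((d + 1 : ℕ) : ℤ) :=
      ⟨(lev v - 1).toNat, by push_cast; omega⟩
    have hd' : d < dmax n := by omega
    refine ⟨_, ra_mem_roots d hd' _ _ _
      (ra_mem_block 2 (d + 1) (fun i : Fin 2 => v ⟨0, i⟩) ?_ (by rw [← hd]; exact e0))
      (ra_mem_block 3 (d + 1) (fun i : Fin 3 => v ⟨1, i⟩) ?_ (by rw [← hd]; exact e1))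
      (ra_mem_block n (d + 1) (fun i : Fin n => v ⟨2, i⟩) ?_ (by rw [← hd]; exact e2)),
      ra_toJ hn v⟩
    · exact (ra_leg_bal (p := 2) (by norm_num) (fun i => v ⟨0, i⟩) _ _ e0
        (by rw [hd]; push_cast; omega) (by rw [hd]; push_cast; omega)).2 (fun i => h3 ⟨0, i⟩)
    · exact (ra_leg_bal (p := 3) (by norm_num) (fun i => v ⟨1, i⟩) _ _ e1
        (by rw [hd]; push_cast; omega) (by rw [hd]; push_cast; omega)).2 (fun i => h3 ⟨1, i⟩)
    · refine (ra_leg_bal (p := n) (by omega) (fun i => v ⟨2, i⟩) _ _ e2 ?_ ?_).2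
        (fun i => h3 ⟨2, i⟩)
      · rw [hd]
        rcases hn with rfl | rfl | rfl <;> push_cast <;> omega
      · rw [hd]
        rcases hn with rfl | rfl | rfl <;> push_cast <;> omega
  · rintro ⟨l, hl, rfl⟩
    rcases hn with rfl | rfl | rfl
    · exact ra_check.1 l hl
    · exact ra_check.2.1 l hl
    · exact ra_check.2.2 l hl

private theorem ra_nodup : ((rootsL 3).map (toJ 3)).Nodup ∧ ((rootsL 4).map (toJ 4)).Nodup ∧
    ((rootsL 5).map (toJ 5)).Nodup := by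
  decide +kernel

private theorem ra_sum : (((rootsL 3).map (toJ 3)).map (fun v => (lev v) ^ 3)).sum = 144 ∧
    (((rootsL 4).map (toJ 4)).map (fun v => (lev v) ^ 3)).sum = 576 ∧
    (((rootsL 5).map (toJ 5)).map (fun v => (lev v) ^ 3)).sum = 3600 := by
  decide +kernel

theorem Rc_sum (hn : n = 3 ∨ n = 4 ∨ n = 5) : ∑ v ∈ Rset n, (lev v) ^ 3 = ((NN n : ℤ)) ^ 2 := by
  have h1 : Rset n = ((rootsL n).map (toJ n)).toFinset := by
    ext v
    rw [mem_Rset hn, mem_rootsL hn, List.mem_toFinset, List.mem_map]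
    constructor
    · rintro ⟨l, hl, h⟩
      exact ⟨l, hl, h.symm⟩
    · rintro ⟨l, hl, h⟩
      exact ⟨l, hl, h.symm⟩
  rw [h1]
  rcases hn with rfl | rfl | rfl
  · rw [List.sum_toFinset _ ra_nodup.1, ra_sum.1]
    rfl
  · rw [List.sum_toFinset _ ra_nodup.2.1, ra_sum.2.1]
    rfl
  · rw [List.sum_toFinset _ ra_nodup.2.2, ra_sum.2.2]
    rfl

end BMM
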