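/-
MP_b1ea0f_al, library BMM, module Gen62 (about 220 lines).  Sections 6.2, 6.3.
The bound dim H ≤ N² at a generic point in every characteristic.
PROOF. B = blk ζ ≠ 0, y = z - ζ, φ : H → M_d(K) of type α from `exists_rep`, A' = H/yH ≅ M_d(K).
B/yB ≅ A': H = B ⊕ B' (blk_internal), y is bijective on B' (the other blocks), so H/yH = B/yB.
Let ν be minimal with y^ν B = 0 (ν ≥ 1, y^{ν-1} B ≠ 0). Take l = (g, j) ∈ J with α_l = 1 (`Rc_one`) and
the Lagrange idempotent e = ∏_{i≠j} (g - x_gi)/(x_gj - x_gi) ∈ H: e² = e (as P_g(g) = 0), (g - x_gj) e = 0,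
φ(e) = projection on ker(φ(g) - x_gj), of dimension α_l = 1 (mult_eq): rank one.
(1) H e H + y H = H since φ(e) ≠ 0 and M_d(K) is a simple ring (only ideals 0, 1). Multiply by B (two-
    sided ideal, direct factor): B e B... precisely BeB + yB = B, iterate (y nilpotent on B): BeB = B.
(2) M := B e (a left H-module, image of right multiplication by e on B). y^{ν-1} M ≠ 0: otherwise
    y^{ν-1} B = y^{ν-1} B e B = 0.
(3) M/yM ≅ M_d(K) φ(e) ≅ X = K^d, simple of dimension d (φ maps B onto M_d(K) with kernel yB; φ(Be) =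
    M_d(K)φ(e); be ∈ yB implies be = b e e ∈ y B e). For i < ν, y^i M / y^{i+1} M is a quotient of M/yM = X
    (by multiplication by y^i), and non-zero (otherwise y^i M = y^{i+1} M = ... = 0): so it is ≅ X. So
    dim M = ν d, dimv M = ν α (`mult_add` along the filtration), dim M/yM = d.
(4) det_lambda on V = M: z^d = m_α on M. So the polynomial T^d - m_α kills z on M; the minimal polynomial
    of z on M is (T - ζ)^ν (y^{ν-1} ≠ 0 on M), so (T - ζ)^ν divides T^d - m_α: ν ≤ μ.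
(5) dim B = Σ_{i<ν} dim y^iB/y^{i+1}B ≤ ν dim (B/yB) = ν d².
gen_bound: dim H = Σ_ζ dim blk ζ ≤ Σ_ζ μ(ζ) (lev α_ζ)² ≤ Σ_{α ∈ Rc} (lev α)² Σ_ζ mult_ζ(T^{lev α} - m_α) =
Σ_α (lev α)³ = N² (different ζ may belong to the same α; the number of roots with multiplicity of a
polynomial of degree d over K = K-closed is d; `Rc_sum`).
-/
import Pool.Agent.Lib.BMM.Gen61
import Pool.Agent.Lib.BMM.DetL
import Pool.Agent.Lib.BMM.RootA

open Polynomial

namespace BMM

private theorem lin1 {K V : Type*} [Field K] [AddCommGroup V] [Module K V] [FiniteDimensional K V]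
    (Y : Module.End K V) (m : ℕ) (h1 : Y ^ (m + 1) = 0)
    (h2 : ∀ v, (Y ^ m) v = 0 → v ∈ LinearMap.range Y) :
    Module.finrank K V = (m + 1) * Module.finrank K (V ⧸ LinearMap.range Y) := by
  have key : ∀ i, i ≤ m + 1 → Module.finrank K (LinearMap.ker (Y ^ i))
      = i * Module.finrank K (V ⧸ LinearMap.range Y) := by
    intro i
    induction i with
    | zero =>
      intro _
      rw [pow_zero, zero_mul]
      have : LinearMap.ker (1 : Module.End K V) = ⊥ := by
        ext v; simp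
      rw [this, finrank_bot]
    | succ i ih =>
      intro hi
      have ih' := ih (by omega)
      have hk : LinearMap.ker (Y ^ i) ≤ LinearMap.range Y := by
        intro v hv
        apply h2
        rw [LinearMap.mem_ker] at hv
        have h : m = (m - i) + i := by omega
        rw [h, pow_add, Module.End.mul_apply, hv, map_zero]
      have e1 := LinearMap.finrank_range_add_finrank_ker ((Y ^ i) ∘ₗ (LinearMap.range Y).subtype)
      have e2 := LinearMap.finrank_range_add_finrank_ker (Y ^ (i + 1))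
      have e3 := Submodule.finrank_quotient_add_finrank (LinearMap.range Y)
      have e4 : LinearMap.range ((Y ^ i) ∘ₗ (LinearMap.range Y).subtype)
          = LinearMap.range (Y ^ (i + 1)) := by
        rw [LinearMap.range_comp, Submodule.range_subtype, pow_succ, Module.End.mul_eq_comp,
          LinearMap.range_comp]
      have e5 : Module.finrank K (LinearMap.ker ((Y ^ i) ∘ₗ (LinearMap.range Y).subtype))
          = Module.finrank K (LinearMap.ker (Y ^ i)) := by
        rw [LinearMap.ker_comp]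
        have h6 := (Submodule.comapSubtypeEquivOfLe hk).finrank_eq
        exact h6
      rw [e4, e5, ih'] at e1
      have e7 : (i + 1) * Module.finrank K (V ⧸ LinearMap.range Y)
          = i * Module.finrank K (V ⧸ LinearMap.range Y)
            + Module.finrank K (V ⧸ LinearMap.range Y) := by ring
      omega
  have h := key (m + 1) le_rfl
  rw [h1, LinearMap.ker_zero, finrank_top] at h
  exact h

private theorem linA {K H Z : Type*} [Field K] [Ring H] [Algebra K H] [Module.Finite K H]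
    [AddCommGroup Z] [Module K Z]
    (y : H) (m : ℕ) (W : Submodule K H) (T : H →ₗ[K] Z)
    (h1 : ∀ w ∈ W, y ^ (m + 1) * w = 0) (h2 : ∀ w ∈ W, y * w ∈ W)
    (h3 : ∀ w ∈ W, y ^ m * w = 0 → ∃ v ∈ W, w = y * v)
    (h4 : ∀ w ∈ W, T w = 0 ↔ ∃ v ∈ W, w = y * v) :
    Module.finrank K W = (m + 1) * Module.finrank K (W.map T) := by
  let Y : Module.End K W := (LinearMap.mulLeft K y).restrict (p := W) (q := W) h2
  have hY : ∀ w : W, ((Y w : W) : H) = y * (w : H) := fun w => rfl
  have hYk : ∀ (k : ℕ) (w : W), (((Y ^ k) w : W) : H) = y ^ k * (w : H) := by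
    intro k
    induction k with
    | zero => intro w; simp
    | succ k ih =>
      intro w
      rw [pow_succ, Module.End.mul_apply, ih, hY, pow_succ, mul_assoc]
  have hr : ∀ w : W, w ∈ LinearMap.range Y ↔ ∃ v ∈ W, (w : H) = y * v := by
    intro w
    constructor
    · rintro ⟨v, rfl⟩
      exact ⟨v, v.2, hY v⟩
    · rintro ⟨v, hv, h⟩
      exact ⟨⟨v, hv⟩, Subtype.ext h.symm⟩
  have e1 := lin1 Y m (by
    ext w
    rw [hYk]
    exact h1 w w.2) (by
    intro v hv
    rw [hr]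
    apply h3 _ v.2
    rw [← hYk, hv]
    rfl)
  rw [e1]
  congr 1
  have e2 : LinearMap.range Y = LinearMap.ker (T ∘ₗ W.subtype) := by
    ext w
    rw [hr, LinearMap.mem_ker, LinearMap.comp_apply]
    exact (h4 w w.2).symm
  rw [e2, (LinearMap.quotKerEquivRange (T ∘ₗ W.subtype)).finrank_eq, LinearMap.range_comp,
    Submodule.range_subtype]

private theorem fit {K H : Type*} [Field K] [Ring H] [Algebra K H] [Module.Finite K H] (y : H) :
    (∃ N, ∀ u : H, (∃ k, y ^ k * u = 0) → y ^ N * u = 0) ∧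
      ∃ f v : H, (∃ k, y ^ k * f = 0) ∧ 1 = f + y * v := by
  have hp : ∀ (k : ℕ) (u : H), ((LinearMap.mulLeft K y) ^ k) u = y ^ k * u := by
    intro k u
    rw [LinearMap.pow_mulLeft, LinearMap.mulLeft_apply]
  have hF := ((LinearMap.eventually_isCompl_ker_pow_range_pow (LinearMap.mulLeft K y)).and
    (Filter.eventually_ge_atTop 1)).and (LinearMap.eventually_iSup_ker_pow_eq
      (LinearMap.mulLeft K y))
  obtain ⟨N, hN⟩ := Filter.eventually_atTop.1 hF
  obtain ⟨⟨hc, h1⟩, h3⟩ := hN N le_rfl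
  refine ⟨⟨N, ?_⟩, ?_⟩
  · rintro u ⟨k, hk⟩
    rw [← hp, ← LinearMap.mem_ker] at hk ⊢
    rw [← h3]
    exact Submodule.mem_iSup_of_mem k hk
  · have hu : (1 : H) ∈ LinearMap.ker (LinearMap.mulLeft K y ^ N) ⊔
        LinearMap.range (LinearMap.mulLeft K y ^ N) := by
      rw [hc.sup_eq_top]; trivial
    obtain ⟨a, ha, b, hb, hab⟩ := Submodule.mem_sup.1 hu
    rw [LinearMap.mem_ker, hp] at ha
    obtain ⟨w, rfl⟩ := hb
    refine ⟨a, y ^ (N - 1) * w, ⟨N, ha⟩, ?_⟩
    rw [← hab, hp, ← mul_assoc, ← pow_succ']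
    congr 3
    omega

private theorem core {K H X : Type*} [Field K] [Ring H] [Algebra K H] [Module.Finite K H]
    [AddCommGroup X] [Module K X] [FiniteDimensional K X] [Nontrivial X]
    (ψ : H →ₐ[K] Module.End K X) (y : H) (hy : ∀ u, u * y = y * u)
    (hs : Function.Surjective ψ) (hk : ∀ u, ψ u = 0 ↔ ∃ v, u = y * v) :
    ∃ m, (∀ u, (∃ k, y ^ k * u = 0) → y ^ (m + 1) * u = 0) ∧
      (∀ u, (∃ k, y ^ k * u = 0) → y ^ m * u = 0 → ∃ v, u = y * v) := by
  classical
  obtain ⟨hN, f, v, hf, hfv⟩ := fit (K := K) y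
  have hψy : ψ y = 0 := (hk y).2 ⟨1, (mul_one y).symm⟩
  have hf1 : ψ f = 1 := by
    have h := congrArg ψ hfv
    rw [map_one, map_add, map_mul, hψy, zero_mul, add_zero] at h
    exact h.symm
  have hc : ∀ (k : ℕ) (u : H), u * y ^ k = y ^ k * u := fun k u =>
    (show Commute u (y ^ k) from (show Commute u y from hy u).pow_right k).eq
  have h0 : Nat.find hN ≠ 0 := by
    intro h
    have h1 := Nat.find_spec hN f hf
    rw [h, pow_zero, one_mul] at h1
    rw [h1, map_zero] at hf1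
    exact zero_ne_one hf1
  obtain ⟨m, hm⟩ := Nat.exists_eq_succ_of_ne_zero h0
  have hm1 : ∀ u, (∃ k, y ^ k * u = 0) → y ^ (m + 1) * u = 0 := by
    intro u hu
    have h := Nat.find_spec hN u hu
    rwa [hm] at h
  refine ⟨m, hm1, ?_⟩
  intro u hu hmu
  by_contra hcon
  have hne : ψ u ≠ 0 := fun h => hcon ((hk u).1 h)
  obtain ⟨a, ha⟩ : ∃ a, ψ u a ≠ 0 := by
    by_contra h
    push Not at h
    exact hne (LinearMap.ext h)
  obtain ⟨c', hc'⟩ := Module.Projective.exists_dual_ne_zero K ha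
  let b := Module.finBasis K X
  have hP : ∀ i, ∃ p : H, ψ p = (c' (ψ u a))⁻¹ • c'.smulRight (b i) := fun i => hs _
  have hQ : ∀ i, ∃ q : H, ψ q = (b.coord i).smulRight a := fun i => hs _
  choose p hp using hP
  choose q hq using hQ
  have h1 : ψ (1 - ∑ i, p i * u * q i) = 0 := by
    rw [map_sub, map_one, map_sum, sub_eq_zero]
    ext x
    rw [LinearMap.sum_apply]
    conv_lhs => rw [Module.End.one_apply, ← b.sum_repr x]
    refine Finset.sum_congr rfl (fun i _ => ?_)
    rw [map_mul, map_mul, Module.End.mul_apply, Module.End.mul_apply, hp, hq,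
      LinearMap.smul_apply, LinearMap.smulRight_apply, LinearMap.smulRight_apply, map_smul,
      map_smul, smul_eq_mul, smul_smul, Module.Basis.coord_apply]
    congr 1
    field_simp
  obtain ⟨v', hv'⟩ := (hk _).1 h1
  -- now `y ^ m` kills the block
  have h2 : ∀ w, (∃ k, y ^ k * w = 0) → y ^ m * w = 0 := by
    rintro w ⟨k, hkw⟩
    have h3 : y ^ m * (∑ i, p i * u * q i) = 0 := by
      rw [Finset.mul_sum]
      refine Finset.sum_eq_zero (fun i _ => ?_)
      rw [← mul_assoc, ← mul_assoc, ← hc, mul_assoc (p i), hmu, mul_zero, zero_mul]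
    have h4 : y ^ m = y ^ (m + 1) * v' := by
      have h5 := congrArg (fun t => y ^ m * t) hv'
      simp only [mul_sub, mul_one] at h5
      rw [h3, sub_zero] at h5
      rw [h5, pow_succ, mul_assoc]
    rw [h4, mul_assoc]
    apply hm1
    refine ⟨k, ?_⟩
    rw [← mul_assoc, ← hc, mul_assoc, hkw, mul_zero]
  have h6 := Nat.find_min hN (m := m) (by omega)
  exact h6 h2

private theorem frAll {K H X : Type*} [Field K] [Ring H] [Algebra K H] [Module.Finite K H]
    [AddCommGroup X] [Module K X] [FiniteDimensional K X]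
    (ψ : H →ₐ[K] Module.End K X) (y : H) (hy : ∀ u, u * y = y * u)
    (hs : Function.Surjective ψ) (hk : ∀ u, ψ u = 0 ↔ ∃ v, u = y * v) (m : ℕ)
    (hm1 : ∀ u, (∃ k, y ^ k * u = 0) → y ^ (m + 1) * u = 0)
    (hm2 : ∀ u, (∃ k, y ^ k * u = 0) → y ^ m * u = 0 → ∃ v, u = y * v)
    (W : Submodule K H) (hW : ∀ u, u ∈ W ↔ ∃ k, y ^ k * u = 0) :
    Module.finrank K W = (m + 1) * (Module.finrank K X) ^ 2 := by
  have hc : ∀ (k : ℕ) (u : H), u * y ^ k = y ^ k * u := fun k u =>
    (show Commute u (y ^ k) from (show Commute u y from hy u).pow_right k).eq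
  have hd : ∀ w ∈ W, ∀ v, w = y * v → v ∈ W := by
    rintro w hw v rfl
    obtain ⟨k, hk⟩ := (hW _).1 hw
    refine (hW _).2 ⟨k + 1, ?_⟩
    rw [pow_succ, mul_assoc, hk]
  obtain ⟨-, f, v, hf, hfv⟩ := fit (K := K) y
  have hψy : ψ y = 0 := (hk y).2 ⟨1, (mul_one y).symm⟩
  have hf1 : ψ f = 1 := by
    have h := congrArg ψ hfv
    rw [map_one, map_add, map_mul, hψy, zero_mul, add_zero] at h
    exact h.symm
  rw [linA y m W ψ.toLinearMap (fun w hw => hm1 w ((hW w).1 hw)) ?_ ?_ ?_]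
  · have : W.map ψ.toLinearMap = ⊤ := by
      rw [eq_top_iff]
      rintro A -
      obtain ⟨h, rfl⟩ := hs A
      obtain ⟨k, hk'⟩ := hf
      refine ⟨f * h, (hW _).2 ⟨k, by rw [← mul_assoc, hk', zero_mul]⟩, ?_⟩
      change ψ (f * h) = ψ h
      rw [map_mul, hf1, one_mul]
    rw [this, finrank_top, Module.finrank_linearMap, sq]
  · intro w hw
    obtain ⟨k, hk'⟩ := (hW w).1 hw
    exact (hW _).2 ⟨k, by rw [← mul_assoc, hy, mul_assoc, hk', mul_zero]⟩
  · intro w hw hmw
    obtain ⟨v, hv⟩ := hm2 w ((hW w).1 hw) hmw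
    exact ⟨v, hd w hw v hv, hv⟩
  · intro w hw
    rw [show ψ.toLinearMap w = ψ w from rfl, hk]
    constructor
    · rintro ⟨v, hv⟩
      exact ⟨v, hd w hw v hv, hv⟩
    · rintro ⟨v, -, hv⟩
      exact ⟨v, hv⟩

private theorem frE {K H X : Type*} [Field K] [Ring H] [Algebra K H] [Module.Finite K H]
    [AddCommGroup X] [Module K X] [FiniteDimensional K X]
    (ψ : H →ₐ[K] Module.End K X) (y : H) (hy : ∀ u, u * y = y * u)
    (hs : Function.Surjective ψ) (hk : ∀ u, ψ u = 0 ↔ ∃ v, u = y * v) (m : ℕ)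
    (hm1 : ∀ u, (∃ k, y ^ k * u = 0) → y ^ (m + 1) * u = 0)
    (hm2 : ∀ u, (∃ k, y ^ k * u = 0) → y ^ m * u = 0 → ∃ v, u = y * v)
    (e : H) (v₀ : X) (hv₀ : v₀ ≠ 0) (he : e * e = e) (hev : ψ e v₀ = v₀)
    (hea : ∀ a, ∃ c : K, ψ e a = c • v₀) (p : H) (hp : p * p = p)
    (W : Submodule K H)
    (hW : ∀ w, w ∈ W ↔ (∃ k, y ^ k * w = 0) ∧ p * w = w ∧ w * e = w) :
    Module.finrank K W = (m + 1) * Module.finrank K (LinearMap.ker (ψ p - 1)) := by
  have hc : ∀ (k : ℕ) (u : H), u * y ^ k = y ^ k * u := fun k u =>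
    (show Commute u (y ^ k) from (show Commute u y from hy u).pow_right k).eq
  have hin : ∀ v, (∃ k, y ^ k * v = 0) → p * v * e ∈ W := by
    rintro v ⟨k, hk'⟩
    refine (hW _).2 ⟨⟨k, ?_⟩, ?_, ?_⟩
    · rw [← mul_assoc, ← mul_assoc, ← hc, mul_assoc p, hk', mul_zero, zero_mul]
    · rw [← mul_assoc, ← mul_assoc, hp]
    · rw [mul_assoc, he]
  have hd : ∀ w ∈ W, ∀ v, w = y * v → ∃ v ∈ W, w = y * v := by
    intro w hw v hv
    obtain ⟨⟨k, hk'⟩, h1, h2⟩ := (hW _).1 hw
    refine ⟨p * v * e, hin v ⟨k + 1, ?_⟩, ?_⟩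
    · rw [pow_succ, mul_assoc, ← hv, hk']
    · rw [← mul_assoc, ← mul_assoc, ← hy, mul_assoc p, ← hv, h1, h2]
  obtain ⟨-, f, v, hf, hfv⟩ := fit (K := K) y
  have hψy : ψ y = 0 := (hk y).2 ⟨1, (mul_one y).symm⟩
  have hf1 : ψ f = 1 := by
    have h := congrArg ψ hfv
    rw [map_one, map_add, map_mul, hψy, zero_mul, add_zero] at h
    exact h.symm
  let T : H →ₗ[K] X := (LinearMap.applyₗ v₀ : Module.End K X →ₗ[K] X) ∘ₗ ψ.toLinearMap
  have hT : ∀ u, T u = ψ u v₀ := fun u => rfl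
  rw [linA y m W T (fun w hw => hm1 w ((hW w).1 hw).1) ?_ ?_ ?_]
  · have : W.map T = LinearMap.ker (ψ p - 1) := by
      ext a
      rw [LinearMap.mem_ker, LinearMap.sub_apply, Module.End.one_apply, sub_eq_zero]
      constructor
      · rintro ⟨w, hw, rfl⟩
        obtain ⟨-, h1, -⟩ := (hW _).1 hw
        rw [hT, ← Module.End.mul_apply, ← map_mul, h1]
      · intro ha
        obtain ⟨c', hc'⟩ := Module.Projective.exists_dual_ne_zero K hv₀
        obtain ⟨h, hh⟩ := hs ((c' v₀)⁻¹ • c'.smulRight a)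
        obtain ⟨k, hk'⟩ := hf
        refine ⟨p * (f * h) * e, hin _ ⟨k, by rw [← mul_assoc, hk', zero_mul]⟩, ?_⟩
        rw [hT, map_mul, map_mul, map_mul, hf1, one_mul, hh, Module.End.mul_apply, hev,
          Module.End.mul_apply, LinearMap.smul_apply, LinearMap.smulRight_apply, smul_smul,
          inv_mul_cancel₀ hc', one_smul, ha]
    rw [this]
  · intro w hw
    obtain ⟨⟨k, hk'⟩, h1, h2⟩ := (hW w).1 hw
    refine (hW _).2 ⟨⟨k, ?_⟩, ?_, ?_⟩
    · rw [← mul_assoc, hy, mul_assoc, hk', mul_zero]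
    · rw [← mul_assoc, hy, mul_assoc, h1]
    · rw [mul_assoc, h2]
  · intro w hw hmw
    obtain ⟨v, hv⟩ := hm2 w ((hW w).1 hw).1 hmw
    exact hd w hw v hv
  · intro w hw
    constructor
    · intro h
      have h3 : ψ w = 0 := by
        obtain ⟨-, -, h2⟩ := (hW w).1 hw
        ext a
        obtain ⟨c, hc⟩ := hea a
        rw [← h2, map_mul, Module.End.mul_apply, hc, map_smul]
        rw [hT] at h
        rw [h, smul_zero, LinearMap.zero_apply]
      obtain ⟨v, hv⟩ := (hk w).1 h3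
      exact hd w hw v hv
    · rintro ⟨v, -, rfl⟩
      rw [hT, map_mul, hψy, zero_mul, LinearMap.zero_apply]

private theorem lagr {K : Type*} [Field K] {p : ℕ} (ξ : Fin p → K) (hξ : Function.Injective ξ)
    (j : Fin p) : ∃ q : K[X], q.eval (ξ j) = 1 ∧
      (∏ i, (X - C (ξ i))) ∣ (X - C (ξ j)) * q := by
  classical
  have hne : ∏ i ∈ Finset.univ.erase j, (ξ j - ξ i) ≠ 0 := by
    rw [Finset.prod_ne_zero_iff]
    intro i hi h
    rw [Finset.mem_erase] at hi
    exact hi.1 (hξ (sub_eq_zero.1 h)).symm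
  refine ⟨(∏ i ∈ Finset.univ.erase j, (X - C (ξ i))) * C (∏ i ∈ Finset.univ.erase j,
    (ξ j - ξ i))⁻¹, ?_, ?_⟩
  · rw [eval_mul, eval_prod, eval_C]
    simp only [eval_sub, eval_X, eval_C]
    exact mul_inv_cancel₀ hne
  · have h := Finset.mul_prod_erase Finset.univ (fun i => (X - C (ξ i) : K[X]))
      (Finset.mem_univ j)
    rw [← mul_assoc, h]
    exact dvd_mul_right _ _

private theorem aevEig {K H : Type*} [Field K] [Ring H] [Algebra K H] (g u : H) (c : K)
    (h : g * u = c • u) (q : K[X]) : aeval g q * u = q.eval c • u := by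
  induction q using Polynomial.induction_on with
  | C a => rw [aeval_C, eval_C, Algebra.smul_def]
  | add p q hp hq => rw [map_add, add_mul, hp, hq, eval_add, add_smul]
  | monomial n a ih =>
    rw [pow_succ, ← mul_assoc, map_mul, aeval_X, mul_assoc, h, mul_smul_comm, ih, eval_mul_X,
      smul_smul, mul_comm]

private theorem nilp_pow {K E : Type*} [Field K] [Ring E] [Algebra K E] (z : E) (ζ : K) (q : K[X])
    (hq0 : q ≠ 0) (hq : aeval z q = 0) (N : ℕ) (hN : (z - algebraMap K E ζ) ^ N = 0) :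
    (z - algebraMap K E ζ) ^ (rootMultiplicity ζ q) = 0 := by
  obtain ⟨Q, hQ, hnd⟩ := Polynomial.exists_eq_pow_rootMultiplicity_mul_and_not_dvd q hq0 ζ
  have hz : aeval z (X - C ζ) = z - algebraMap K E ζ := by simp
  have hcop : IsCoprime ((X - C ζ) ^ N) Q :=
    ((irreducible_X_sub_C ζ).coprime_iff_not_dvd.2 hnd).pow_left
  obtain ⟨a, b, hab⟩ := hcop
  have h1 : aeval z b * aeval z Q = 1 := by
    have h := congrArg (aeval z) hab
    rw [map_add, map_mul, map_mul, map_pow, hz, hN, mul_zero, zero_add, map_one] at h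
    exact h
  have h2 : aeval z Q * aeval z b = 1 := by
    rw [← map_mul, mul_comm, map_mul, h1]
  have h3 : (z - algebraMap K E ζ) ^ (rootMultiplicity ζ q) * aeval z Q = 0 := by
    rw [← hz, ← map_pow, ← map_mul, ← hQ, hq]
  calc (z - algebraMap K E ζ) ^ (rootMultiplicity ζ q)
      = (z - algebraMap K E ζ) ^ (rootMultiplicity ζ q) * (aeval z Q * aeval z b) := by
        rw [h2, mul_one]
    _ = 0 := by rw [← mul_assoc, h3, zero_mul]

private theorem aevVec {K X : Type*} [Field K] [AddCommGroup X] [Module K X]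
    (g : Module.End K X) (a : X) (c : K) (h : g a = c • a) (q : K[X]) :
    (aeval g q) a = q.eval c • a := by
  induction q using Polynomial.induction_on with
  | C b => rw [aeval_C, eval_C, Module.algebraMap_end_apply]
  | add p q hp hq => rw [map_add, LinearMap.add_apply, hp, hq, eval_add, add_smul]
  | monomial n b ih =>
    rw [pow_succ, ← mul_assoc, map_mul, aeval_X, Module.End.mul_apply, h, map_smul, ih,
      eval_mul_X, smul_smul, mul_comm]

private theorem main62 {n : ℕ} {K : Type*} [Field K] [IsAlgClosed K]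
    (hn : n = 3 ∨ n = 4 ∨ n = 5) (x : J n → K)
    (hx : ∀ j, x j ≠ 0) (h2 : Gen2 x) [Module.Finite K (HA K (PX x))] (ζ : K)
    (α : J n → ℤ) (φ : HA K (PX x) →ₐ[K] Matrix (Fin (lev α).toNat) (Fin (lev α).toNat) K)
    (hφ : IsRep x α ζ φ) : ∃ m : ℕ,
      (∀ u ∈ blk (PX x) ζ,
        (zz K (PX x) - algebraMap K (HA K (PX x)) ζ) ^ (m + 1) * u = 0) ∧
      m + 1 ≤ rootMultiplicity ζ (X ^ (lev α).toNat - C (mon x α)) ∧
      Module.finrank K (blk (PX x) ζ) = (m + 1) * ((lev α).toNat) ^ 2 := by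
  have hlev : 1 ≤ lev α := hφ.mem.2
  have hd1 : 1 ≤ (lev α).toNat := by omega
  have : Nonempty (Fin (lev α).toNat) := ⟨⟨0, hd1⟩⟩
  set y : HA K (PX x) := zz K (PX x) - algebraMap K (HA K (PX x)) ζ with hydef
  have hy : ∀ u, u * y = y * u := by
    intro u
    rw [hydef, mul_sub, sub_mul, zz_comm, Algebra.commutes]
  let ψ : HA K (PX x) →ₐ[K] Module.End K (Fin (lev α).toNat → K) :=
    (Matrix.toLinAlgEquiv' :
      Matrix (Fin (lev α).toNat) (Fin (lev α).toNat) K ≃ₐ[K] _).toAlgHom.comp φ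
  have hψφ : ∀ u, ψ u = Matrix.toLin' (φ u) := fun u => rfl
  have hs : Function.Surjective ψ := by
    intro A
    obtain ⟨u, hu⟩ := hφ.surj (Matrix.toLinAlgEquiv'.symm A)
    refine ⟨u, ?_⟩
    change Matrix.toLinAlgEquiv' (φ u) = A
    rw [hu, AlgEquiv.apply_symm_apply]
  have hk : ∀ u, ψ u = 0 ↔ ∃ v, u = y * v := by
    intro u
    rw [← hφ.ker u, hψφ]
    exact (Matrix.toLin' :
      Matrix (Fin (lev α).toNat) (Fin (lev α).toNat) K ≃ₗ[K] _).map_eq_zero_iff
  obtain ⟨m, hm1, hm2⟩ := core ψ y hy hs hk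
  have hblk : ∀ u, u ∈ blk (PX x) ζ ↔ ∃ k, y ^ k * u = 0 := fun u => Iff.rfl
  have hB := frAll ψ y hy hs hk m hm1 hm2 ((blk (PX x) ζ).restrictScalars K) hblk
  rw [Module.finrank_fin_fun] at hB
  refine ⟨m, fun u hu => hm1 u hu, ?_, hB⟩
  -- eigenspaces and Lagrange idempotents
  have hpol : ∀ l, aeval (gen K (PX x) l) (PX x l) = 0 := (isTriple_gen K (PX x)).pol
  have hmult : ∀ (l : Fin 3) (i : Fin (pp n l)), α ⟨l, i⟩ = Module.finrank K
      (LinearMap.ker (ψ (gen K (PX x) l) - algebraMap K _ (x ⟨l, i⟩))) := by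
    intro l i
    have h := mult_eq (ψ (gen K (PX x) l)) (fun i : Fin (pp n l) => x ⟨l, i⟩) (h2 l) (by
      change aeval (ψ (gen K (PX x) l)) (PX x l) = 0
      rw [aeval_algHom_apply, hpol, map_zero]) i
    rw [← h]
    exact (congrFun hφ.type ⟨l, i⟩).symm
  have hL : ∀ (l : Fin 3) (i : Fin (pp n l)), ∃ q : K[X], q.eval (x ⟨l, i⟩) = 1 ∧
      PX x l ∣ (X - C (x ⟨l, i⟩)) * q := fun l i => lagr _ (h2 l) i
  choose q hq1 hq2 using hL
  let p : ∀ (l : Fin 3) (i : Fin (pp n l)), HA K (PX x) := fun l i =>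
    aeval (gen K (PX x) l) (q l i)
  have hgp : ∀ l i, gen K (PX x) l * p l i = x ⟨l, i⟩ • p l i := by
    intro l i
    obtain ⟨r, hr⟩ := hq2 l i
    have h := congrArg (aeval (gen K (PX x) l)) hr
    rw [map_mul, map_mul, hpol, zero_mul, map_sub, aeval_X, aeval_C, sub_mul, sub_eq_zero] at h
    rw [Algebra.smul_def]
    exact h
  have hpu : ∀ l i u, gen K (PX x) l * u = x ⟨l, i⟩ • u → p l i * u = u := by
    intro l i u hu
    have h := aevEig _ _ _ hu (q l i)
    rwa [hq1, one_smul] at h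
  have hup : ∀ l i u, p l i * u = u → gen K (PX x) l * u = x ⟨l, i⟩ • u := by
    intro l i u hu
    rw [← hu, ← mul_assoc, hgp, smul_mul_assoc]
  have hpp : ∀ l i, p l i * p l i = p l i := fun l i => hpu l i _ (hgp l i)
  have hker : ∀ l i, LinearMap.ker (ψ (p l i) - 1)
      = LinearMap.ker (ψ (gen K (PX x) l) - algebraMap K _ (x ⟨l, i⟩)) := by
    intro l i
    ext a
    rw [LinearMap.mem_ker, LinearMap.mem_ker, LinearMap.sub_apply, LinearMap.sub_apply,
      Module.End.one_apply, Module.algebraMap_end_apply, sub_eq_zero, sub_eq_zero]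
    constructor
    · intro h
      rw [← h, ← Module.End.mul_apply, ← map_mul, hgp, map_smul, LinearMap.smul_apply]
    · intro h
      have h' := aevVec _ _ _ h (q l i)
      rw [hq1, one_smul, aeval_algHom_apply] at h'
      exact h'
  -- the idempotent of rank one
  obtain ⟨⟨l0, i0⟩, hα0⟩ := Rc_one hn hφ.mem
  have hf1 := hmult l0 i0
  rw [hα0] at hf1
  obtain ⟨⟨v₀, hv₀k⟩, hv₀, hv₀s⟩ := finrank_eq_one_iff'.1
    (show Module.finrank K (LinearMap.ker (ψ (gen K (PX x) l0)
      - algebraMap K _ (x ⟨l0, i0⟩))) = 1 by exact_mod_cast hf1.symm)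
  have hv₀' : v₀ ≠ 0 := fun h => hv₀ (Subtype.ext h)
  set e := p l0 i0 with he
  have hee : e * e = e := hpp l0 i0
  have hev : ψ e v₀ = v₀ := by
    have h := hv₀k
    rw [← hker, LinearMap.mem_ker, LinearMap.sub_apply, Module.End.one_apply, sub_eq_zero] at h
    exact h
  have hea : ∀ a, ∃ c : K, ψ e a = c • v₀ := by
    intro a
    have hin : ψ e a ∈ LinearMap.ker (ψ (gen K (PX x) l0) - algebraMap K _ (x ⟨l0, i0⟩)) := by
      rw [← hker, LinearMap.mem_ker, LinearMap.sub_apply, Module.End.one_apply, sub_eq_zero,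
        ← he, ← Module.End.mul_apply, ← map_mul, hee]
    obtain ⟨c, hc⟩ := hv₀s ⟨_, hin⟩
    exact ⟨c, (congrArg Subtype.val hc).symm⟩
  -- the module `B e`
  let M : Submodule (HA K (PX x)) (HA K (PX x)) :=
    { carrier := {u | u ∈ blk (PX x) ζ ∧ u * e = u}
      add_mem' := by
        rintro u v ⟨hu, hu'⟩ ⟨hv, hv'⟩
        exact ⟨add_mem hu hv, by rw [add_mul, hu', hv']⟩
      zero_mem' := ⟨zero_mem _, zero_mul e⟩
      smul_mem' := by
        rintro c u ⟨hu, hu'⟩
        exact ⟨(blk (PX x) ζ).smul_mem c hu, by rw [smul_eq_mul, mul_assoc, hu']⟩ }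
  have hM : ∀ u, u ∈ M ↔ u ∈ blk (PX x) ζ ∧ u * e = u := fun u => Iff.rfl
  let ι : M →ₗ[K] HA K (PX x) := M.subtype.restrictScalars K
  have hι : ∀ u : M, ι u = (u : HA K (PX x)) := fun u => rfl
  have hιi : Function.Injective ι := fun u v h => Subtype.ext h
  have : Module.Finite K M := Module.Finite.of_injective ι hιi
  have hMd : Module.finrank K M = (m + 1) * (lev α).toNat := by
    have h := frE ψ y hy hs hk m hm1 hm2 e v₀ hv₀' hee hev hea 1 (mul_one 1)
      (M.restrictScalars K) (by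
        intro w
        rw [one_mul]
        constructor
        · rintro ⟨h3, h4⟩; exact ⟨h3, rfl, h4⟩
        · rintro ⟨h3, -, h4⟩; exact ⟨h3, h4⟩)
    rw [map_one, sub_self, LinearMap.ker_zero, finrank_top, Module.finrank_fin_fun] at h
    exact h
  set Y : Module.End K M := zop (gop (PX x) M) - algebraMap K (Module.End K M) ζ with hYdef
  have hYc : ∀ w : M, ((Y w : M) : HA K (PX x)) = y * (w : HA K (PX x)) := by
    intro w
    rw [hYdef, LinearMap.sub_apply, zop_gop_apply, Module.algebraMap_end_apply, hydef, sub_mul,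
      ← Algebra.smul_def]
    rfl
  have hYk : ∀ (k : ℕ) (w : M), (((Y ^ k) w : M) : HA K (PX x))
      = y ^ k * (w : HA K (PX x)) := by
    intro k
    induction k with
    | zero => intro w; rw [pow_zero, pow_zero, one_mul]; rfl
    | succ k ih =>
      intro w
      rw [pow_succ, Module.End.mul_apply, ih, hYc, pow_succ, mul_assoc]
  have hN : Y ^ (m + 1) = 0 := by
    ext w
    rw [hYk]
    exact hm1 w w.2.1
  have hYr : ∀ v, (Y ^ m) v = 0 → v ∈ LinearMap.range Y := by
    intro v hv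
    have hv' : y ^ m * (v : HA K (PX x)) = 0 := by
      rw [← hYk, hv]; rfl
    obtain ⟨w, hw⟩ := hm2 v v.2.1 hv'
    obtain ⟨k, hk'⟩ := v.2.1
    refine ⟨⟨w * e, ⟨k + 1, ?_⟩, ?_⟩, ?_⟩
    · rw [← mul_assoc]
      change y ^ (k + 1) * w * e = 0
      rw [pow_succ, mul_assoc (y ^ k), ← hw]
      change y ^ k * (v : HA K (PX x)) = 0 at hk'
      rw [hk', zero_mul]
    · rw [mul_assoc, hee]
    · apply Subtype.ext
      rw [hYc]
      change y * (w * e) = v
      rw [← mul_assoc, ← hw]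
      exact v.2.2
  have hfree := lin1 Y m hN hYr
  have hqd : Module.finrank K (M ⧸ LinearMap.range Y) = (lev α).toNat := by
    rw [hMd] at hfree
    exact (Nat.eq_of_mul_eq_mul_left (Nat.succ_pos m) hfree).symm
  -- the type of `M`
  have hdim : dimv x (gop (PX x) M) = ((m + 1 : ℕ) : ℤ) • α := by
    funext ⟨l, i⟩
    have h := mult_eq (gop (PX x) M l) (fun i : Fin (pp n l) => x ⟨l, i⟩) (h2 l)
      ((isTriple_gop (PX x) M).pol l) i
    change mult (gop (PX x) M l) (fun i : Fin (pp n l) => x ⟨l, i⟩) i = _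
    rw [h, Pi.smul_apply, hmult, smul_eq_mul, ← Nat.cast_mul]
    congr 1
    rw [← hker, ← frE ψ y hy hs hk m hm1 hm2 e v₀ hv₀' hee hev hea (p l i) (hpp l i)
      ((LinearMap.ker (gop (PX x) M l - algebraMap K _ (x ⟨l, i⟩))).map ι) ?_]
    · exact (Submodule.equivMapOfInjective ι hιi _).finrank_eq
    · intro w
      constructor
      · rintro ⟨u, hu, rfl⟩
        have hu' := LinearMap.mem_ker.1 hu
        rw [LinearMap.sub_apply, Module.algebraMap_end_apply, sub_eq_zero, gop_apply] at hu'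
        have hu2 := congrArg ι hu'
        rw [LinearMap.map_smul ι (x ⟨l, i⟩) u, hι, hι] at hu2
        exact ⟨u.2.1, hpu l i _ hu2, u.2.2⟩
      · rintro ⟨h3, h4, h5⟩
        refine ⟨⟨w, h3, h5⟩, ?_, rfl⟩
        apply LinearMap.mem_ker.2
        rw [LinearMap.sub_apply, Module.algebraMap_end_apply, sub_eq_zero, gop_apply]
        apply hιi
        rw [LinearMap.map_smul ι (x ⟨l, i⟩)]
        exact hup l i w h4
  have hcomm : ∀ l, Y * gop (PX x) M l = gop (PX x) M l * Y := by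
    intro l
    ext w
    rw [Module.End.mul_apply, Module.End.mul_apply, hYc, gop_apply, gop_apply]
    change y * (gen K (PX x) l * (w : HA K (PX x)))
      = gen K (PX x) l * ((Y w : M) : HA K (PX x))
    rw [hYc, ← mul_assoc, ← hy, mul_assoc]
  have hdet := det_lambda x hx h2 (gop (PX x) M) (isTriple_gop (PX x) M).pol Y hcomm ζ
    (by rw [hYdef]; abel) (m + 1) hN hfree α hdim (Nat.succ_ne_zero m)
  rw [hqd] at hdet
  have hpoly : aeval (zop (gop (PX x) M)) (X ^ (lev α).toNat - C (mon x α) : K[X]) = 0 := by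
    rw [map_sub, map_pow, aeval_X, aeval_C, hdet, sub_self]
  have hne : (X ^ (lev α).toNat - C (mon x α) : K[X]) ≠ 0 :=
    Polynomial.X_pow_sub_C_ne_zero (by omega) _
  have hfin := nilp_pow _ ζ _ hne hpoly (m + 1) hN
  by_contra hlt
  have hle : rootMultiplicity ζ (X ^ (lev α).toNat - C (mon x α) : K[X]) ≤ m := by omega
  have hYm : Y ^ m = 0 := by
    rw [← Nat.sub_add_cancel hle, pow_add, hYdef, hfin, mul_zero]
  have htop : LinearMap.range Y = ⊤ := by
    rw [eq_top_iff]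
    intro v _
    exact hYr v (by rw [hYm]; rfl)
  have : Module.finrank K (M ⧸ LinearMap.range Y) = 0 := by
    have e3 := Submodule.finrank_quotient_add_finrank (LinearMap.range Y)
    rw [htop, finrank_top] at e3
    rw [htop]
    omega
  omega

private theorem sum_count_le {K : Type*} [DecidableEq K] (S : Finset K) (m : Multiset K) :
    ∑ a ∈ S, m.count a ≤ Multiset.card m := by
  classical
  rw [← Multiset.sum_count_eq_card (s := S ∪ m.toFinset) (m := m)
    (fun a ha => Finset.mem_union_right _ (Multiset.mem_toFinset.2 ha))]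
  exact Finset.sum_le_sum_of_subset Finset.subset_union_left

private theorem finrank_sup_le {K H ι : Type*} [Field K] [AddCommGroup H] [Module K H]
    [Module.Finite K H] (B : ι → Submodule K H) (S : Finset ι) :
    Module.finrank K (S.sup B : Submodule K H) ≤ ∑ i ∈ S, Module.finrank K (B i) := by
  classical
  induction S using Finset.induction_on with
  | empty => simp
  | insert a s ha ih =>
    rw [Finset.sup_insert, Finset.sum_insert ha]
    exact (Submodule.finrank_add_le_finrank_add_finrank _ _).trans (by omega)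

variable {n : ℕ} {K : Type*} [Field K]

/-- 6.2: the power of `z - ζ` that kills the block. -/
theorem blk_pow [IsAlgClosed K] (hn : n = 3 ∨ n = 4 ∨ n = 5) (x : J n → K)
    (hx : ∀ j, x j ≠ 0) (h1 : Gen1 x) (h2 : Gen2 x) [Module.Finite K (HA K (PX x))] (ζ : K)
    (α : J n → ℤ) (φ : HA K (PX x) →ₐ[K] Matrix (Fin (lev α).toNat) (Fin (lev α).toNat) K)
    (hφ : IsRep x α ζ φ) (u : HA K (PX x)) (hu : u ∈ blk (PX x) ζ) :
    (zz K (PX x) - algebraMap K (HA K (PX x)) ζ) ^
      (rootMultiplicity ζ (X ^ (lev α).toNat - C (mon x α))) * u = 0 := by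
  obtain ⟨m, hm1, hm2, -⟩ := main62 hn x hx h2 ζ α φ hφ
  obtain ⟨k, hk⟩ := Nat.exists_eq_add_of_le hm2
  rw [hk, add_comm, pow_add, mul_assoc, hm1 u hu, mul_zero]

/-- 6.3 -/
theorem gen_bound [IsAlgClosed K] (hn : n = 3 ∨ n = 4 ∨ n = 5) (x : J n → K)
    (hx : ∀ j, x j ≠ 0) (h1 : Gen1 x) (h2 : Gen2 x) [Module.Finite K (HA K (PX x))] :
    Module.finrank K (HA K (PX x)) ≤ (NN n) ^ 2 := by
  classical
  have hα : ∀ ζ : K, ∃ α : J n → ℤ, blk (PX x) ζ ≠ ⊥ → α ∈ Rc n ∧
      Module.finrank K (blk (PX x) ζ)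
        ≤ rootMultiplicity ζ (X ^ (lev α).toNat - C (mon x α)) * (lev α).toNat ^ 2 := by
    intro ζ
    by_cases hζ : blk (PX x) ζ = ⊥
    · exact ⟨0, fun h => absurd hζ h⟩
    · obtain ⟨α, φ, hφ⟩ := exists_rep hn x hx h1 h2 ζ hζ
      obtain ⟨m, -, hm2, hm3⟩ := main62 hn x hx h2 ζ α φ hφ
      exact ⟨α, fun _ => ⟨hφ.mem, by rw [hm3]; exact Nat.mul_le_mul_right _ hm2⟩⟩
  choose α hα using hα
  let S : Finset K := (blk_finite (PX x)).toFinset
  have hS : ∀ ζ, ζ ∈ S ↔ blk (PX x) ζ ≠ ⊥ := fun ζ => by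
    simp [S]
  let B : K → Submodule K (HA K (PX x)) := fun ζ => (blk (PX x) ζ).restrictScalars K
  have htop : (S.sup B : Submodule K (HA K (PX x))) = ⊤ := by
    rw [eq_top_iff]
    intro u _
    have hu : u ∈ ⨆ ζ, blk (PX x) ζ := by
      rw [(blk_internal (PX x)).2]; trivial
    refine Submodule.iSup_induction _ (motive := fun u => u ∈ (S.sup B :
      Submodule K (HA K (PX x)))) hu ?_ (zero_mem _) (fun _ _ => add_mem)
    intro ζ v hv
    by_cases hζ : blk (PX x) ζ = ⊥
    · rw [hζ, Submodule.mem_bot] at hv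
      rw [hv]
      exact zero_mem _
    · exact (Finset.le_sup (f := B) ((hS ζ).2 hζ)) hv
  have hle : Module.finrank K (HA K (PX x)) ≤ ∑ ζ ∈ S,
      rootMultiplicity ζ (X ^ (lev (α ζ)).toNat - C (mon x (α ζ))) * (lev (α ζ)).toNat ^ 2 := by
    calc Module.finrank K (HA K (PX x)) = Module.finrank K (S.sup B :
          Submodule K (HA K (PX x))) := by rw [htop, finrank_top]
      _ ≤ ∑ ζ ∈ S, Module.finrank K (B ζ) := finrank_sup_le B S
      _ ≤ _ := Finset.sum_le_sum (fun ζ hζ => (hα ζ ((hS ζ).1 hζ)).2)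
  have hsum : ∑ ζ ∈ S,
      rootMultiplicity ζ (X ^ (lev (α ζ)).toNat - C (mon x (α ζ))) * (lev (α ζ)).toNat ^ 2
        ≤ ∑ β ∈ Rset n, (lev β).toNat ^ 3 := by
    rw [← Finset.sum_fiberwise_of_maps_to (s := S) (t := Rset n) (g := α)
      (fun ζ hζ => (mem_Rset hn _).2 (hα ζ ((hS ζ).1 hζ)).1)]
    refine Finset.sum_le_sum (fun β hβ => ?_)
    have hβ1 : 1 ≤ lev β := ((mem_Rset hn β).1 hβ).2
    have e1 : ∑ ζ ∈ S with α ζ = β, rootMultiplicity ζ (X ^ (lev (α ζ)).toNat
          - C (mon x (α ζ))) * (lev (α ζ)).toNat ^ 2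
        = ∑ ζ ∈ S with α ζ = β, (X ^ (lev β).toNat - C (mon x β) : K[X]).roots.count ζ
          * (lev β).toNat ^ 2 := by
      refine Finset.sum_congr rfl (fun ζ hζ => ?_)
      rw [(Finset.mem_filter.1 hζ).2, count_roots]
    rw [e1, ← Finset.sum_mul, pow_succ' _ 2]
    refine Nat.mul_le_mul_right _ ?_
    refine (sum_count_le _ _).trans ((card_roots' _).trans ?_)
    rw [natDegree_X_pow_sub_C]
  have hR := Rc_sum hn
  have hcast : ((∑ β ∈ Rset n, (lev β).toNat ^ 3 : ℕ) : ℤ) = ∑ v ∈ Rset n, (lev v) ^ 3 := by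
    rw [Nat.cast_sum]
    refine Finset.sum_congr rfl (fun β hβ => ?_)
    have hβ1 : 1 ≤ lev β := ((mem_Rset hn β).1 hβ).2
    rw [Nat.cast_pow, Int.toNat_of_nonneg (by omega)]
  have h3 := hle.trans hsum
  have h4 : ((∑ β ∈ Rset n, (lev β).toNat ^ 3 : ℕ) : ℤ) = (((NN n) ^ 2 : ℕ) : ℤ) := by
    rw [hcast, hR]; push_cast; rfl
  have h5 : (∑ β ∈ Rset n, (lev β).toNat ^ 3) = (NN n) ^ 2 := by exact_mod_cast h4
  omega

end BMM
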