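/-
MP_b1ea0f_al, library BMM, module Glue58 (about 200 lines).  Section 5.8.
THE FLATNESS INEQUALITY (equal characteristic).
PROOF. O = K[[X]], f = constantCoeff, P = (Pt x).map f, H = HA K P finite-dimensional.
(1) For each ζ with blk ζ ≠ 0 (finitely many) take a K-basis of blk ζ; together (the sum is direct,
    `blk_internal`) they form a basis b of H indexed by a Sigma type ι; |ι| = finrank K H. By
    `lift_triple` and `unob_blk` each block has matrices over O; the block diagonal matrices
    (`Matrix.blockDiagonal'`) give G : Fin 3 → Matrix ι ι O with IsTriple Pt G and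
    (G x).map f = LinearMap.toMatrix b b (gop P H x) (left multiplication by gen x on H).
(2) F = ι → O is a module over HA O Pt via `lift G` and `Matrix.mulVecLin`. The reduction
    F → H, u ↦ Σ f(u_i) b_i is surjective, semilinear for the ring homomorphism HA O Pt → H
    (mapH; check on generators with HA.induction). Choose u₁ ∈ F over 1 ∈ H. The O-linear map
    θ : HA O Pt → F, h ↦ h u₁ has the property: θ(HA O Pt) + X F = F (H is generated by 1 over
    the image of HA O Pt, mapH is surjective because f is). Nakayama (F finite over the local ring O,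
    X in the maximal ideal; `Submodule.le_of_le_smul_of_le_jacobson_bot`): θ is surjective.
(3) Over L = Frac O: the triple G mapped to Matrix ι ι L satisfies the relations for mapP Pt, and the
    L-linear map θ_L : HA L (mapP Pt) → (ι → L), h ↦ h u₁ has the image spanned by θ(HA O Pt) = O^ι, so
    it is surjective. HA L is finite-dimensional because it is spanned over L by the image of HA O Pt
    (HA.induction) which is finitely generated. So |ι| ≤ finrank L (HA L ...).
-/
import Pool.Agent.Lib.BMM.GenEig
import Pool.Agent.Lib.BMM.Lim57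

open Polynomial

namespace BMM

section glue

/-- The constant coefficient. -/
private noncomputable abbrev glc (K : Type*) [Field K] : PowerSeries K →+* K :=
  PowerSeries.constantCoeff (R := K)

variable {K : Type*} [Field K] (Pt : Fin 3 → (PowerSeries K)[X])

/-- reduction of a vector -/
private noncomputable def glr {ι : Type*} [Fintype ι] {M : Type*} [AddCommGroup M] [Module K M]
    (b : Module.Basis ι K M) (u : ι → PowerSeries K) : M :=
  b.equivFun.symm (fun i => glc K (u i))

private theorem glr_add {ι : Type*} [Fintype ι] {M : Type*} [AddCommGroup M] [Module K M]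
    (b : Module.Basis ι K M) (u v : ι → PowerSeries K) : glr b (u + v) = glr b u + glr b v := by
  unfold glr
  rw [← map_add]
  congr 1

private theorem glr_smul {ι : Type*} [Fintype ι] {M : Type*} [AddCommGroup M] [Module K M]
    (b : Module.Basis ι K M) (r : PowerSeries K) (u : ι → PowerSeries K) :
    glr b (r • u) = glc K r • glr b u := by
  unfold glr
  rw [← map_smul]
  congr 1
  funext i
  simp

private theorem glr_zero {ι : Type*} [Fintype ι] {M : Type*} [AddCommGroup M] [Module K M]
    (b : Module.Basis ι K M) (u : ι → PowerSeries K) (h : glr b u = 0) (i : ι) :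
    glc K (u i) = 0 := by
  unfold glr at h
  rw [LinearEquiv.map_eq_zero_iff] at h
  exact congrFun h i

private theorem glr_surj {ι : Type*} [Fintype ι] {M : Type*} [AddCommGroup M] [Module K M]
    (b : Module.Basis ι K M) (m : M) : ∃ u, glr b u = m := by
  refine ⟨fun i => PowerSeries.C (b.equivFun m i), ?_⟩
  unfold glr
  rw [LinearEquiv.symm_apply_eq]
  funext i
  simp

private theorem gl_comp {ι : Type*} [Fintype ι] [DecidableEq ι] {M : Type*} [AddCommGroup M]
    [Module K M] [Module (HA K (mapP Pt (glc K))) M]
    [IsScalarTower K (HA K (mapP Pt (glc K))) M]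
    (b : Module.Basis ι K M) {G : Fin 3 → Matrix ι ι (PowerSeries K)} (hG : IsTriple Pt G)
    (hr : ∀ x, (G x).map (glc K) = LinearMap.toMatrix b b (gop (mapP Pt (glc K)) M x))
    (h : HA (PowerSeries K) Pt) (u : ι → PowerSeries K) :
    glr b ((lift G hG h).mulVec u) = mapH Pt (glc K) h • glr b u := by
  induction h using HA.induction generalizing u with
  | h1 r =>
    have h1 : (lift G hG (algebraMap (PowerSeries K) _ r))
        = algebraMap (PowerSeries K) (Matrix ι ι (PowerSeries K)) r := AlgHom.commutes _ _
    rw [h1, mapH_algebraMap, algebraMap_smul, Algebra.algebraMap_eq_smul_one, Matrix.smul_mulVec,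
      Matrix.one_mulVec, glr_smul]
  | hg x =>
    rw [lift_gen, mapH_gen]
    have h1 : glr b ((G x).mulVec u) = gop (mapP Pt (glc K)) M x (glr b u) := by
      have h2 : (fun i => glc K ((G x).mulVec u i)) = ((G x).map (glc K)).mulVec
          (b.repr (glr b u)) := by
        funext i
        rw [RingHom.map_mulVec]
        congr 1
        funext j
        show glc K (u j) = b.equivFun (glr b u) j
        unfold glr
        rw [LinearEquiv.apply_symm_apply]
      rw [hr x, LinearMap.toMatrix_mulVec_repr] at h2
      show b.equivFun.symm (fun i => glc K ((G x).mulVec u i)) = _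
      rw [h2, LinearEquiv.symm_apply_eq]
      rfl
    rw [h1]
    rfl
  | hadd p q hp hq =>
    rw [map_add, Matrix.add_mulVec, glr_add, hp, hq, map_add, add_smul]
  | hmul p q hp hq =>
    rw [map_mul, ← Matrix.mulVec_mulVec, hp, hq, map_mul, mul_smul]

private theorem gl_mapH_surj : Function.Surjective (mapH Pt (glc K)) := by
  intro y
  induction y using HA.induction with
  | h1 r =>
    refine ⟨algebraMap _ _ (PowerSeries.C r), ?_⟩
    rw [mapH_algebraMap]
    simp
  | hg x => exact ⟨gen _ _ x, mapH_gen _ _ x⟩
  | hadd p q hp hq =>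
    obtain ⟨a, rfl⟩ := hp
    obtain ⟨c, rfl⟩ := hq
    exact ⟨a + c, map_add _ _ _⟩
  | hmul p q hp hq =>
    obtain ⟨a, rfl⟩ := hp
    obtain ⟨c, rfl⟩ := hq
    exact ⟨a * c, map_mul _ _ _⟩

/-- `IsTriple` over the fraction field. -/
private theorem gl_triple {L : Type*} [Field L] (f : PowerSeries K →+* L) {ι : Type*} [Fintype ι]
    [DecidableEq ι] {G : Fin 3 → Matrix ι ι (PowerSeries K)} (hG : IsTriple Pt G) :
    IsTriple (mapP Pt f) (fun x => f.mapMatrix (G x)) where
  cyc₁ := by
    have h := congrArg f.mapMatrix hG.cyc₁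
    simpa only [map_mul] using h
  cyc₂ := by
    have h := congrArg f.mapMatrix hG.cyc₂
    simpa only [map_mul] using h
  pol x := by
    have h := congrArg f.mapMatrix (hG.pol x)
    rw [map_zero] at h
    rw [← h]
    symm
    apply Polynomial.map_aeval_eq_aeval_map
    ext r i j
    simp only [RingHom.comp_apply, Matrix.algebraMap_matrix_apply, RingHom.mapMatrix_apply,
      Matrix.map_apply]
    split_ifs <;> simp

private theorem gl_lift {L : Type*} [Field L] (f : PowerSeries K →+* L) {ι : Type*} [Fintype ι]
    [DecidableEq ι] {G : Fin 3 → Matrix ι ι (PowerSeries K)} (hG : IsTriple Pt G)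
    (h : HA (PowerSeries K) Pt) :
    lift _ (gl_triple Pt f hG) (mapH Pt f h) = f.mapMatrix (lift G hG h) := by
  induction h using HA.induction with
  | h1 r =>
    rw [mapH_algebraMap, AlgHom.commutes, AlgHom.commutes]
    ext i j
    simp only [Matrix.algebraMap_matrix_apply, RingHom.mapMatrix_apply, Matrix.map_apply]
    split_ifs <;> simp
  | hg x => rw [mapH_gen, lift_gen, lift_gen]
  | hadd p q hp hq => rw [map_add, map_add, hp, hq, map_add, map_add]
  | hmul p q hp hq => rw [map_mul, map_mul, hp, hq, map_mul, map_mul]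

private theorem gl_span {L : Type*} [Field L] (f : PowerSeries K →+* L) :
    Submodule.span L (Set.range (mapH Pt f)) = ⊤ := by
  rw [eq_top_iff]
  intro y _
  induction y using HA.induction with
  | h1 r =>
    rw [Algebra.algebraMap_eq_smul_one]
    exact Submodule.smul_mem _ _ (Submodule.subset_span ⟨1, map_one _⟩)
  | hg x => exact Submodule.subset_span ⟨gen _ _ x, mapH_gen _ _ x⟩
  | hadd p q hp hq => exact Submodule.add_mem _ (hp trivial) (hq trivial)
  | hmul p q hp hq =>
    have hp := hp trivial
    have hq := hq trivial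
    have h1 : p * q ∈ Submodule.span L (Set.range (mapH Pt f)) *
        Submodule.span L (Set.range (mapH Pt f)) := Submodule.mul_mem_mul hp hq
    rw [Submodule.span_mul_span] at h1
    refine Submodule.span_mono ?_ h1
    rintro _ ⟨_, ⟨a, rfl⟩, _, ⟨c, rfl⟩, rfl⟩
    exact ⟨a * c, map_mul _ _ _⟩

private theorem gl_fin [Module.Finite (PowerSeries K) (HA (PowerSeries K) Pt)]
    {L : Type*} [Field L] (f : PowerSeries K →+* L) : Module.Finite L (HA L (mapP Pt f)) := by
  classical
  obtain ⟨T, hT⟩ := (Module.Finite.fg_top :
    (⊤ : Submodule (PowerSeries K) (HA (PowerSeries K) Pt)).FG)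
  refine ⟨⟨T.image (mapH Pt f), ?_⟩⟩
  rw [← gl_span Pt f]
  apply le_antisymm
  · apply Submodule.span_mono
    intro y hy
    rw [Finset.coe_image] at hy
    obtain ⟨a, _, rfl⟩ := hy
    exact ⟨a, rfl⟩
  · rw [Submodule.span_le]
    rintro _ ⟨h, rfl⟩
    have hh : h ∈ Submodule.span (PowerSeries K) (T : Set (HA (PowerSeries K) Pt)) := by
      rw [hT]; trivial
    induction hh using Submodule.span_induction with
    | mem x hx =>
      apply Submodule.subset_span
      rw [Finset.coe_image]
      exact ⟨x, hx, rfl⟩
    | zero => rw [map_zero]; exact Submodule.zero_mem _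
    | add x y _ _ hx hy => rw [map_add]; exact Submodule.add_mem _ hx hy
    | smul r x _ hx => rw [mapH_smul]; exact Submodule.smul_mem _ _ hx

private theorem gl_core {S : Type*} [Fintype S] {ι : S → Type*} [∀ s, Fintype (ι s)]
    [∀ s, DecidableEq (ι s)] {M : S → Type*} [∀ s, AddCommGroup (M s)] [∀ s, Module K (M s)]
    [∀ s, Module (HA K (mapP Pt (glc K))) (M s)]
    [∀ s, IsScalarTower K (HA K (mapP Pt (glc K))) (M s)]
    (b : ∀ s, Module.Basis (ι s) K (M s)) (G : ∀ s, Fin 3 → Matrix (ι s) (ι s) (PowerSeries K))
    (hG : ∀ s, IsTriple Pt (G s))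
    (hr : ∀ s x, (G s x).map (glc K)
      = LinearMap.toMatrix (b s) (b s) (gop (mapP Pt (glc K)) (M s) x))
    (e : (∀ s, M s) ≃ₗ[HA K (mapP Pt (glc K))] HA K (mapP Pt (glc K)))
    [Module.Finite (PowerSeries K) (HA (PowerSeries K) Pt)]
    {L : Type*} [Field L] (f : PowerSeries K →+* L) :
    ∑ s, Fintype.card (ι s) ≤ Module.finrank L (HA L (mapP Pt f)) := by
  classical
  choose u1 hu1 using fun s => glr_surj (b s) ((e.symm 1) s)
  let θ : HA (PowerSeries K) Pt →ₗ[PowerSeries K] (∀ s, ι s → PowerSeries K) :=
    { toFun := fun h s => (lift (G s) (hG s) h).mulVec (u1 s)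
      map_add' := by
        intro p q
        funext s
        rw [map_add, Matrix.add_mulVec]
        rfl
      map_smul' := by
        intro r p
        funext s
        rw [map_smul, Matrix.smul_mulVec]
        rfl }
  have hθ : ∀ h s, θ h s = (lift (G s) (hG s) h).mulVec (u1 s) := fun _ _ => rfl
  have hred : ∀ h s, glr (b s) (θ h s) = (e.symm (mapH Pt (glc K) h)) s := by
    intro h s
    rw [hθ, gl_comp Pt (b s) (hG s) (hr s), hu1]
    have h1 : mapH Pt (glc K) h = mapH Pt (glc K) h • (1 : HA K (mapP Pt (glc K))) := by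
      rw [smul_eq_mul, mul_one]
    conv_rhs => rw [h1, map_smul]
    rfl
  have hsurj : LinearMap.range θ = ⊤ := by
    rw [eq_top_iff]
    refine Submodule.le_of_le_smul_of_le_jacobson_bot (I := Ideal.span {PowerSeries.X})
      (N := LinearMap.range θ) (N' := ⊤) Module.Finite.fg_top ?_ ?_
    · rw [← PowerSeries.maximalIdeal_eq_span_X]
      exact IsLocalRing.maximalIdeal_le_jacobson _
    · intro w _
      obtain ⟨h, hh⟩ := gl_mapH_surj Pt (e (fun s => glr (b s) (w s)))
      have h1 : ∀ s i, PowerSeries.X ∣ (w s i - θ h s i) := by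
        intro s i
        rw [PowerSeries.X_dvd_iff]
        have h2 : glr (b s) (w s - θ h s) = 0 := by
          have h3 : glr (b s) (θ h s) = glr (b s) (w s) := by
            rw [hred, hh, e.symm_apply_apply]
          have h4 : glr (b s) (w s - θ h s) + glr (b s) (θ h s) = glr (b s) (w s) := by
            rw [← glr_add, sub_add_cancel]
          rw [h3] at h4
          exact add_eq_right.1 h4
        exact glr_zero (b s) _ h2 i
      choose q hq using h1
      have h2 : w = θ h + (PowerSeries.X : PowerSeries K) • (fun s i => q s i) := by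
        funext s i
        have := hq s i
        show w s i = θ h s i + PowerSeries.X * q s i
        rw [← this]
        ring
      rw [h2]
      refine Submodule.add_mem_sup ⟨h, rfl⟩ ?_
      exact Submodule.smul_mem_smul (Ideal.mem_span_singleton_self _) trivial
  -- over `L`
  let θL : HA L (mapP Pt f) →ₗ[L] (∀ s, ι s → L) :=
    { toFun := fun h s => (lift _ (gl_triple Pt f (hG s)) h).mulVec (fun i => f (u1 s i))
      map_add' := by
        intro p q
        funext s
        rw [map_add, Matrix.add_mulVec]
        rfl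
      map_smul' := by
        intro r p
        funext s
        rw [map_smul, Matrix.smul_mulVec]
        rfl }
  have hθL : ∀ h s, θL (mapH Pt f h) s = fun i => f (θ h s i) := by
    intro h s
    show (lift _ (gl_triple Pt f (hG s)) (mapH Pt f h)).mulVec (fun i => f (u1 s i)) = _
    rw [gl_lift]
    funext i
    rw [hθ, RingHom.map_mulVec]
    rfl
  have hLs : Function.Surjective θL := by
    intro v
    have h1 : ∀ w : (∀ s, ι s → PowerSeries K), (fun s i => f (w s i)) ∈ LinearMap.range θL := by
      intro w
      have hw : w ∈ LinearMap.range θ := by rw [hsurj]; trivial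
      obtain ⟨h, rfl⟩ := hw
      refine ⟨mapH Pt f h, ?_⟩
      funext s
      exact hθL h s
    have h2 : v = ∑ p : (Σ s, ι s), v p.1 p.2 •
        (fun s i => f ((Pi.single p.1 (Pi.single p.2 (1 : PowerSeries K)) :
          ∀ s, ι s → PowerSeries K) s i)) := by
      funext s i
      rw [Finset.sum_apply, Finset.sum_apply, Finset.sum_eq_single (⟨s, i⟩ : Σ s, ι s)]
      · simp
      · rintro ⟨s', i'⟩ _ hne
        by_cases hs : s = s'
        · subst hs
          have hi : i ≠ i' := by
            rintro rfl
            exact hne rfl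
          simp [Pi.single_apply, hi]
        · simp [hs]
      · intro h
        exact absurd (Finset.mem_univ _) h
    rw [h2]
    exact Submodule.sum_mem _ (fun p _ => Submodule.smul_mem _ _ (h1 _))
  have hfin := gl_fin Pt f
  have h3 := LinearMap.finrank_le_finrank_of_surjective hLs
  rw [Module.finrank_pi_fintype] at h3
  simpa only [Module.finrank_fintype_fun_eq_card] using h3

end glue

theorem flat_ineq {K : Type*} [Field K] [IsAlgClosed K] (Pt : Fin 3 → (PowerSeries K)[X])
    (hP : ∀ x, ((Pt x).map (PowerSeries.constantCoeff (R := K))).coeff 0 ≠ 0)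
    [Module.Finite K (HA K (fun x => (Pt x).map (PowerSeries.constantCoeff (R := K))))]
    [Module.Finite (PowerSeries K) (HA (PowerSeries K) Pt)]
    {L : Type*} [Field L] [Algebra (PowerSeries K) L] [IsFractionRing (PowerSeries K) L] :
    Module.finrank K (HA K (fun x => (Pt x).map (PowerSeries.constantCoeff (R := K))))
      ≤ Module.finrank L (HA L (mapP Pt (algebraMap (PowerSeries K) L))) := by
  classical
  obtain ⟨P, hPdef⟩ : ∃ P : Fin 3 → K[X],
      P = fun x => (Pt x).map (PowerSeries.constantCoeff (R := K)) := ⟨_, rfl⟩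
  subst hPdef
  set P : Fin 3 → K[X] := fun x => (Pt x).map (PowerSeries.constantCoeff (R := K)) with hPdef
  have hfinS := blk_finite P
  let S : Type _ := {ζ : K // blk P ζ ≠ ⊥}
  have : Fintype S := hfinS.fintype
  have hbf : ∀ s : S, Module.Finite K (blk P s.1) := fun s =>
    Module.Finite.of_injective ((blk P s.1).subtype.restrictScalars K)
      (Submodule.injective_subtype _)
  let b : ∀ s : S, Module.Basis (Fin (Module.finrank K (blk P s.1))) K (blk P s.1) :=
    fun s => Module.finBasis K (blk P s.1)
  choose G hG hr using fun s : S => lift_triple (b s) Pt (unob_blk P hP s.1)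
  obtain ⟨hind, htop⟩ := blk_internal P
  -- the direct sum decomposition
  let e0 : (∀ s : S, blk P s.1) →ₗ[HA K P] HA K P :=
    ∑ s : S, (blk P s.1).subtype ∘ₗ LinearMap.proj s
  have he0 : ∀ u, e0 u = ∑ s : S, (u s : HA K P) := by
    intro u
    simp [e0]
  have hinj : Function.Injective e0 := by
    rw [injective_iff_map_eq_zero]
    intro u hu
    rw [he0] at hu
    funext s
    apply Subtype.ext
    show (u s : HA K P) = 0
    have h1 : (u s : HA K P) = - ∑ s' ∈ Finset.univ.erase s, (u s' : HA K P) := by
      rw [← Finset.add_sum_erase _ _ (Finset.mem_univ s)] at hu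
      exact eq_neg_of_add_eq_zero_left hu
    have h2 : (u s : HA K P) ∈ ⨆ (ζ : K) (_ : ζ ≠ s.1), blk P ζ := by
      rw [h1]
      refine Submodule.neg_mem _ (Submodule.sum_mem _ (fun s' hs' => ?_))
      have h3 : s'.1 ≠ s.1 := fun h => (Finset.mem_erase.1 hs').1 (Subtype.ext h)
      exact Submodule.mem_iSup_of_mem s'.1 (Submodule.mem_iSup_of_mem h3 (u s').2)
    exact Submodule.disjoint_def.1 (hind s.1) _ (u s).2 h2
  have hsur : Function.Surjective e0 := by
    intro y
    have hy : y ∈ ⨆ ζ, blk P ζ := by rw [htop]; trivial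
    rw [Submodule.mem_iSup_iff_exists_finsupp] at hy
    obtain ⟨g, hg1, hg2⟩ := hy
    refine ⟨fun s => ⟨g s.1, hg1 s.1⟩, ?_⟩
    rw [he0, ← hg2]
    show ∑ s : S, g s.1 = _
    rw [Finsupp.sum]
    have h1 : ∀ ζ ∈ g.support, blk P ζ ≠ ⊥ := by
      intro ζ hζ h
      have h2 := hg1 ζ
      rw [h] at h2
      exact Finsupp.mem_support_iff.1 hζ ((Submodule.mem_bot _).1 h2)
    symm
    have h3 : ∑ s : S, g s.1 = ∑ ζ ∈ (Finset.univ : Finset S).image (fun s => s.1), g ζ := by
      rw [Finset.sum_image]
      intro a _ c _ h
      exact Subtype.ext h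
    rw [h3]
    refine Finset.sum_subset ?_ ?_
    · intro ζ hζ
      exact Finset.mem_image.2 ⟨⟨ζ, h1 ζ hζ⟩, Finset.mem_univ _, rfl⟩
    · intro ζ _ hζ
      exact Finsupp.notMem_support_iff.1 hζ
  let e := LinearEquiv.ofBijective e0 ⟨hinj, hsur⟩
  have hcore := gl_core Pt b G hG hr e (algebraMap (PowerSeries K) L)
  refine le_trans (le_of_eq ?_) hcore
  have h1 : Module.finrank K (HA K P) = Module.finrank K (∀ s : S, blk P s.1) :=
    (LinearEquiv.finrank_eq (e.restrictScalars K)).symm
  rw [h1, Module.finrank_pi_fintype]
  simp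

end BMM
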