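/-
MP_b1ea0f_al, library BMM, module QCh (about 90 lines, easy).
The character q^v is multiplicative.  All by `zpow_add₀`, `zpow_neg`, `Finset.prod_mul_distrib`,
additivity of lev (lev_add, lev_smul of RootB).
pow_lev: (q^c)^{lev α} = mon x (lev α • c - lev c • α) when z^{lev α} = mon x α.
-/
import Pool.Agent.Lib.BMM.RootB

namespace BMM

variable {n : ℕ} {K : Type*} [Field K]

theorem mon_ne {x : J n → K} (hx : ∀ j, x j ≠ 0) (v : J n → ℤ) : mon x v ≠ 0 := by
  unfold mon
  exact Finset.prod_ne_zero_iff.2 (fun j _ => zpow_ne_zero _ (hx j))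

theorem mon_add {x : J n → K} (hx : ∀ j, x j ≠ 0) (v w : J n → ℤ) :
    mon x (v + w) = mon x v * mon x w := by
  unfold mon
  rw [← Finset.prod_mul_distrib]
  exact Finset.prod_congr rfl (fun j _ => by rw [Pi.add_apply, zpow_add₀ (hx j)])

theorem mon_smul (x : J n → K) (c : ℤ) (v : J n → ℤ) : mon x (c • v) = mon x v ^ c := by
  unfold mon
  rw [← Finset.prod_zpow]
  exact Finset.prod_congr rfl
    (fun j _ => by rw [Pi.smul_apply, smul_eq_mul, mul_comm, zpow_mul])

theorem qch_ne {x : J n → K} {z : K} (hx : ∀ j, x j ≠ 0) (hz : z ≠ 0) (v : J n → ℤ) :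
    qch x z v ≠ 0 :=
  mul_ne_zero (zpow_ne_zero _ hz) (mon_ne hx v)

theorem qch_add {x : J n → K} {z : K} (hx : ∀ j, x j ≠ 0) (hz : z ≠ 0) (v w : J n → ℤ) :
    qch x z (v + w) = qch x z v * qch x z w := by
  unfold qch
  rw [lev_add, mon_add hx, neg_add, zpow_add₀ hz]
  ring

theorem qch_smul (x : J n → K) (z : K) (c : ℤ) (v : J n → ℤ) :
    qch x z (c • v) = qch x z v ^ c := by
  unfold qch
  rw [lev_smul, mon_smul, mul_zpow, ← zpow_mul]
  congr 2
  ring

theorem qch_neg {x : J n → K} {z : K} (v : J n → ℤ) :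
    qch x z (-v) = (qch x z v)⁻¹ := by
  have h : -v = (-1 : ℤ) • v := by simp
  rw [h, qch_smul, zpow_neg_one]

private theorem qch_zero {x : J n → K} {z : K} : qch x z (0 : J n → ℤ) = 1 := by
  have h : (0 : J n → ℤ) = (0 : ℤ) • (0 : J n → ℤ) := by simp
  rw [h, qch_smul, zpow_zero]

theorem qch_sum {x : J n → K} {z : K} (hx : ∀ j, x j ≠ 0) (hz : z ≠ 0) {ι : Type*}
    (s : Finset ι) (f : ι → J n → ℤ) : qch x z (∑ i ∈ s, f i) = ∏ i ∈ s, qch x z (f i) := by
  classical
  induction s using Finset.induction_on with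
  | empty => rw [Finset.sum_empty, Finset.prod_empty, qch_zero]
  | insert a s ha ih => rw [Finset.sum_insert ha, Finset.prod_insert ha, qch_add hx hz, ih]

/-- `q^α = 1` iff `z^{lev α} = m_α`. -/
theorem qch_eq_one {x : J n → K} {z : K} (hz : z ≠ 0) (v : J n → ℤ) :
    qch x z v = 1 ↔ z ^ (lev v) = mon x v := by
  unfold qch
  rw [zpow_neg, inv_mul_eq_one₀ (zpow_ne_zero _ hz)]

theorem qch_pow_lev {x : J n → K} {z : K} (hx : ∀ j, x j ≠ 0) (hz : z ≠ 0) {α : J n → ℤ}
    (hα : z ^ (lev α) = mon x α) (c : J n → ℤ) :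
    qch x z c ^ (lev α) = mon x (lev α • c - lev c • α) := by
  have h : lev α • c - lev c • α = lev α • c + (-lev c) • α := by
    rw [neg_smul, sub_eq_add_neg]
  rw [h, mon_add hx, mon_smul, mon_smul, ← hα]
  unfold qch
  rw [mul_zpow, ← zpow_mul, ← zpow_mul, mul_comm, mul_comm (lev α) (-lev c)]

/-- If `q^b = 1` then the reflection in `b` does not change `q`. -/
theorem qch_refl {x : J n → K} {z : K} (hx : ∀ j, x j ≠ 0) (hz : z ≠ 0) {b : J n → ℤ}
    (hb : qch x z b = 1) (v : J n → ℤ) : qch x z (refl b v) = qch x z v := by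
  unfold refl
  rw [sub_eq_add_neg, ← neg_smul, qch_add hx hz, qch_smul, hb, one_zpow, mul_one]

/-- Naturality under field homomorphisms. -/
theorem map_qch {L : Type*} [Field L] (f : K →+* L) (x : J n → K) (z : K) (v : J n → ℤ) :
    f (qch x z v) = qch (fun j => f (x j)) (f z) v := by
  unfold qch mon
  rw [map_mul, map_zpow₀, map_prod]
  simp only [map_zpow₀]

theorem map_mon {L : Type*} [Field L] (f : K →+* L) (x : J n → K) (v : J n → ℤ) :
    f (mon x v) = mon (fun j => f (x j)) v := by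
  unfold mon
  rw [map_prod]
  simp only [map_zpow₀]

/-- Inversion of all variables. -/
theorem qch_inv (x : J n → K) (z : K) (v : J n → ℤ) :
    qch (fun j => (x j)⁻¹) z⁻¹ v = (qch x z v)⁻¹ := by
  unfold qch mon
  rw [mul_inv, ← Finset.prod_inv_distrib, inv_zpow]
  simp only [inv_zpow]

end BMM
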