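/-
MP_b1ea0f_al, library BMM, module HalfInd (about 200 lines).  Root appendix L1.1, L1.2, section 3.
The element D(α; q) does not depend on the half; transport by reflections; inversion; permutations.
PROOFS.
D_indep: h, h' two halves of α, q^α = 1. Let S = h.L \ h'.L. By the half property h'.L =
(h.L ∩ h'.L) ∪ {α - c : c ∈ S}: c ∈ S ⊂ Γ_α is not in h'.L, so α - c ∈ h'.L; conversely d ∈ h'.L, d ∉ h.L
gives α - d ∈ h.L and α - d ∉ h'.L (α - (α - d) = d ∈ h'.L). (c ≠ α - c because bil c α = 1 and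
bil (α-c) (α-c) = 2; not even needed.) With k = |S|: Σ_{h'.L} = Σ_{h.L} + k α - 2 Σ_S c, so
2 (μ' - μ + Σ_S c) = (ε + k - ε') α, and as α is not in 2Q [if α = 2 β then bil α α = 4 bil β β, but it is
2] the integer ε + k - ε' is even = 2 m, μ' = μ - Σ_S c + m α. So q^{-μ'} = q^{-μ} q^{Σ_S c} and
∏_{h'.L} (q^c - 1) = ∏_{h.L ∩ h'.L} (q^c - 1) ∏_S (q^{α-c} - 1), q^{α-c} - 1 = q^{-c} - 1 = -q^{-c} (q^c - 1).
Signs: (-1)^{ε'} (-1)^k = (-1)^ε. The punctured version: the same with the factor c0 removed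
(c0 ∈ h.L ∩ h'.L is not in S).
refl: c ↦ refl b c is a bijection of roots preserving bil; image of the half, μ ↦ refl b μ, ε same
(refl b is additive). D_refl: q^{refl b v} = q^v if q^b = 1 (qch_refl).
D_inv: D at q⁻¹: (-1)^ε q^{μ} ∏ (q^{-c} - 1) = (-1)^ε q^{μ} ∏ (- q^{-c}) (q^c - 1) =
(-1)^{ε + |L|} q^{μ - ΣL} ∏(q^c - 1) and ΣL = 2μ + εα: q^{μ - ΣL} = q^{-μ}. |L| even by hypothesis.
permJ: σ permutes the indices inside each leg.
-/
import Pool.Agent.Lib.BMM.QCh

namespace BMM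

variable {n : ℕ} {K : Type*} [Field K]


private theorem hi_bil_add_right (u v w : J n → ℤ) : bil u (v + w) = bil u v + bil u w := by
  rw [bil_comm, bil_add_left, bil_comm v, bil_comm w]

private theorem hi_bil_smul_right (c : ℤ) (v w : J n → ℤ) : bil v (c • w) = c * bil v w := by
  rw [bil_comm, bil_smul_left, bil_comm]

private theorem hi_qch_zero {x : J n → K} {z : K} : qch x z (0 : J n → ℤ) = 1 := by
  have h : (0 : J n → ℤ) = (0 : ℤ) • (0 : J n → ℤ) := by simp
  rw [h, qch_smul, zpow_zero]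

open Classical in
private theorem hi_sdiff {α : J n → ℤ} (h h' : Half α) :
    h'.L \ h.L = (h.L \ h'.L).image (fun c => α - c) := by
  ext d
  simp only [Finset.mem_sdiff, Finset.mem_image]
  constructor
  · rintro ⟨h1, h2⟩
    obtain ⟨hr, hb⟩ := h'.mem d h1
    refine ⟨α - d, ⟨?_, (h'.half d hr hb).1 h1⟩, by abel⟩
    by_contra h3
    exact h2 ((h.half d hr hb).2 h3)
  · rintro ⟨c, ⟨h1, h2⟩, rfl⟩
    obtain ⟨hr, hb⟩ := h.mem c h1
    refine ⟨?_, (h.half c hr hb).1 h1⟩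
    by_contra h3
    exact h2 ((h'.half c hr hb).2 h3)

open Classical in
private theorem hi_core {α : J n → ℤ} (hα : IsRoot α) (h h' : Half α) {x : J n → K} {z : K}
    (hx : ∀ j, x j ≠ 0) (hz : z ≠ 0) (hq : qch x z α = 1) (F : (J n → ℤ) → K)
    (hF : ∀ c ∈ h.L, c ∉ h'.L → qch x z c * F (α - c) = - F c) :
    (-1) ^ h.ε * qch x z (-h.μ) * ∏ c ∈ h.L, F c =
      (-1) ^ h'.ε * qch x z (-h'.μ) * ∏ c ∈ h'.L, F c := by
  set S := h.L \ h'.L with hS
  have hinj : Set.InjOn (fun c : J n → ℤ => α - c) S := by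
    intro a _ b _ hab
    simpa using hab
  have e1 : ∑ c ∈ h'.L \ h.L, c = (S.card : ℤ) • α - ∑ c ∈ S, c := by
    rw [hi_sdiff, Finset.sum_image hinj, Finset.sum_sub_distrib, Finset.sum_const]
    simp
  have e2 : ∑ c ∈ h.L ∩ h'.L, c + ∑ c ∈ S, c = ∑ c ∈ h.L, c :=
    Finset.sum_inter_add_sum_sdiff h.L h'.L _
  have e3 : ∑ c ∈ h.L ∩ h'.L, c + ∑ c ∈ h'.L \ h.L, c = ∑ c ∈ h'.L, c := by
    rw [Finset.inter_comm]
    exact Finset.sum_inter_add_sum_sdiff h'.L h.L _
  rw [h.sum] at e2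
  rw [e1, h'.sum] at e3
  set w := h.μ - h'.μ - ∑ c ∈ S, c with hw
  set N : ℤ := (h'.ε : ℤ) - h.ε - S.card with hN
  have e4 : N • α = (2 : ℤ) • w := by
    have e5 : ∑ c ∈ h.L ∩ h'.L, c = (2 : ℤ) • h.μ + (h.ε : ℤ) • α - ∑ c ∈ S, c := by
      rw [← e2]; abel
    rw [e5] at e3
    have e6 : N • α - (2 : ℤ) • w = ((2 : ℤ) • h'.μ + (h'.ε : ℤ) • α) -
        ((2 : ℤ) • h.μ + (h.ε : ℤ) • α - ∑ c ∈ S, c + ((S.card : ℤ) • α - ∑ c ∈ S, c)) := by
      rw [hN, hw]
      simp only [sub_smul, smul_sub, two_smul]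
      abel
    rw [e3, sub_self] at e6
    exact sub_eq_zero.1 e6
  have e7 : N * N = 2 * bil w w := by
    have h1 : bil (N • α) (N • α) = bil ((2 : ℤ) • w) ((2 : ℤ) • w) := by rw [e4]
    rw [bil_smul_left, hi_bil_smul_right, bil_smul_left, hi_bil_smul_right, hα.2] at h1
    linarith
  have e8 : Even N := by
    have h1 : Even (N * N) := ⟨bil w w, by rw [e7]; ring⟩
    rcases Int.even_mul.1 h1 with h | h <;> exact h
  obtain ⟨m, hm⟩ := e8
  have e9 : m • α = w := by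
    funext j
    have h1 := congrFun e4 j
    simp only [Pi.smul_apply, smul_eq_mul] at h1
    rw [Pi.smul_apply, smul_eq_mul]
    rw [hm] at h1
    linarith
  have e10 : -h'.μ = -h.μ + (∑ c ∈ S, c) + m • α := by
    rw [e9, hw]; abel
  have e11 : qch x z (-h'.μ) = qch x z (-h.μ) * ∏ c ∈ S, qch x z c := by
    rw [e10, qch_add hx hz, qch_add hx hz, qch_smul, hq, one_zpow, mul_one, qch_sum hx hz]
  have p1 : ∏ c ∈ h'.L \ h.L, F c = ∏ c ∈ S, F (α - c) := by
    rw [hi_sdiff, Finset.prod_image hinj]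
  have p2 : (∏ c ∈ h.L ∩ h'.L, F c) * ∏ c ∈ S, F c = ∏ c ∈ h.L, F c :=
    Finset.prod_inter_mul_prod_sdiff h.L h'.L _
  have p3 : (∏ c ∈ h.L ∩ h'.L, F c) * ∏ c ∈ h'.L \ h.L, F c = ∏ c ∈ h'.L, F c := by
    rw [Finset.inter_comm]
    exact Finset.prod_inter_mul_prod_sdiff h'.L h.L _
  have p4 : (∏ c ∈ S, qch x z c) * ∏ c ∈ S, F (α - c) = (-1) ^ S.card * ∏ c ∈ S, F c := by
    rw [← Finset.prod_mul_distrib, Finset.prod_congr rfl (fun c hc => hF c
      (Finset.mem_sdiff.1 hc).1 (Finset.mem_sdiff.1 hc).2), Finset.prod_neg]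
  have s1 : ((-1 : K)) ^ h'.ε * (-1) ^ S.card = (-1) ^ h.ε := by
    have h1 : (h'.ε : ℤ) = 2 * m + h.ε + S.card := by omega
    have h2 : ((-1 : K)) ^ (h'.ε : ℤ) * (-1) ^ (S.card : ℤ) = (-1) ^ (h.ε : ℤ) := by
      have hne : (-1 : K) ≠ 0 := neg_ne_zero.2 one_ne_zero
      rw [h1, ← zpow_add₀ hne]
      have h3 : (2 : ℤ) * m + h.ε + S.card + S.card = 2 * (m + S.card) + h.ε := by ring
      rw [h3, zpow_add₀ hne, zpow_mul]
      simp
    exact_mod_cast h2
  rw [← p2, ← p3, p1, e11, ← s1]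
  calc (-1) ^ h'.ε * (-1) ^ S.card * qch x z (-h.μ) *
        ((∏ c ∈ h.L ∩ h'.L, F c) * ∏ c ∈ S, F c)
      = (-1) ^ h'.ε * qch x z (-h.μ) * (∏ c ∈ h.L ∩ h'.L, F c) *
        ((-1) ^ S.card * ∏ c ∈ S, F c) := by ring
    _ = _ := by rw [← p4]; ring

private theorem hi_key {x : J n → K} {z : K} (hx : ∀ j, x j ≠ 0) (hz : z ≠ 0) {α : J n → ℤ}
    (hq : qch x z α = 1) (c : J n → ℤ) :
    qch x z c * (qch x z (α - c) - 1) = -(qch x z c - 1) := by
  have h1 : qch x z (α - c) = (qch x z c)⁻¹ := by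
    rw [sub_eq_add_neg, qch_add hx hz, hq, one_mul, qch_neg]
  have h2 := qch_ne (z := z) hx hz c
  rw [h1, mul_sub, mul_inv_cancel₀ h2]
  ring

private theorem refl_add (b v w : J n → ℤ) : refl b (v + w) = refl b v + refl b w := by
  unfold refl
  rw [bil_add_left, add_smul]
  abel

private theorem refl_smul (b : J n → ℤ) (c : ℤ) (v : J n → ℤ) : refl b (c • v) = c • refl b v := by
  unfold refl
  rw [bil_smul_left, smul_sub, mul_smul]

private theorem refl_neg (b v : J n → ℤ) : refl b (-v) = -refl b v := by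
  have h := refl_smul b (-1) v
  rw [neg_one_smul, neg_one_smul] at h
  exact h

private theorem refl_sub (b v w : J n → ℤ) : refl b (v - w) = refl b v - refl b w := by
  rw [sub_eq_add_neg, refl_add, refl_neg, ← sub_eq_add_neg]

private theorem refl_zero (b : J n → ℤ) : refl b (0 : J n → ℤ) = 0 := by
  have h := refl_smul b 0 0
  rw [zero_smul, zero_smul] at h
  exact h

private theorem refl_sum (b : J n → ℤ) (s : Finset (J n → ℤ)) :
    ∑ c ∈ s, refl b c = refl b (∑ c ∈ s, c) := by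
  classical
  induction s using Finset.induction_on with
  | empty => rw [Finset.sum_empty, Finset.sum_empty, refl_zero]
  | insert a s ha ih => rw [Finset.sum_insert ha, Finset.sum_insert ha, refl_add, ih]

private theorem refl_inj {b : J n → ℤ} (hb : IsRoot b) : Function.Injective (refl b) := by
  intro v w h
  rw [← refl_refl hb v, h, refl_refl hb]

theorem D_indep {α : J n → ℤ} (hα : IsRoot α) (h h' : Half α) {x : J n → K} {z : K}
    (hx : ∀ j, x j ≠ 0) (hz : z ≠ 0) (hq : qch x z α = 1) : h.D x z = h'.D x z := by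
  unfold Half.D
  exact hi_core hα h h' hx hz hq (fun c => qch x z c - 1) (fun c _ _ => hi_key hx hz hq c)

/-- The punctured product: the factor of `c0` is left out. -/
noncomputable def Half.Dp {α : J n → ℤ} (h : Half α) (c0 : J n → ℤ) (x : J n → K) (z : K) : K :=
  open Classical in
  (-1) ^ h.ε * qch x z (-h.μ) * ∏ c ∈ h.L.erase c0, (qch x z c - 1)

theorem D_eq_Dp {α : J n → ℤ} (h : Half α) {c0 : J n → ℤ} (hc : c0 ∈ h.L) (x : J n → K)
    (z : K) : h.D x z = h.Dp c0 x z * (qch x z c0 - 1) := by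
  classical
  unfold Half.D Half.Dp
  rw [← Finset.mul_prod_erase h.L (fun c => qch x z c - 1) hc]
  have hE : ∏ c ∈ h.L.erase c0, (qch x z c - 1) = ∏ c ∈ h.L.erase c0, (qch x z c - 1) := rfl
  ring

theorem Dp_indep {α : J n → ℤ} (hα : IsRoot α) (h h' : Half α) {c0 : J n → ℤ} (hc : c0 ∈ h.L)
    (hc' : c0 ∈ h'.L) {x : J n → K} {z : K} (hx : ∀ j, x j ≠ 0) (hz : z ≠ 0)
    (hq : qch x z α = 1) : h.Dp c0 x z = h'.Dp c0 x z := by
  classical
  have key : ∀ g : Half α, c0 ∈ g.L → ∏ c ∈ g.L, (if c = c0 then (1 : K) else qch x z c - 1) =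
      ∏ c ∈ g.L.erase c0, (qch x z c - 1) := by
    intro g hg
    rw [← Finset.mul_prod_erase g.L _ hg, if_pos rfl, one_mul]
    refine Finset.prod_congr rfl (fun c hc => ?_)
    rw [if_neg (Finset.ne_of_mem_erase hc)]
  have h1 := hi_core hα h h' hx hz hq (fun c => if c = c0 then (1 : K) else qch x z c - 1) (by
    intro c hc1 hc2
    have n1 : c ≠ c0 := by rintro rfl; exact hc2 hc'
    have n2 : α - c ≠ c0 := by
      intro he
      obtain ⟨hr, hb⟩ := h.mem c hc1
      exact (h.half c hr hb).1 hc1 (he ▸ hc)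
    simp only [if_neg n1, if_neg n2]
    exact hi_key hx hz hq c)
  rw [key h hc, key h' hc'] at h1
  unfold Half.Dp
  convert h1 using 2

open Classical in
/-- Transport of a half by the reflection in a root `b`. -/
noncomputable def Half.refl {α : J n → ℤ} (h : Half α) {b : J n → ℤ} (hb : IsRoot b) :
    Half (BMM.refl b α) where
  L := h.L.image (BMM.refl b)
  mem := by
    intro c hc
    obtain ⟨d, hd, rfl⟩ := Finset.mem_image.1 hc
    exact ⟨refl_root (h.mem d hd).1 hb, by rw [bil_refl hb]; exact (h.mem d hd).2⟩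
  half := by
    intro c hc1 hc2
    have hr : IsRoot (BMM.refl b c) := refl_root hc1 hb
    have hbil : bil (BMM.refl b c) α = 1 := by
      rw [← refl_refl hb α, bil_refl hb]; exact hc2
    have hmem : ∀ d, d ∈ h.L.image (BMM.refl b) ↔ BMM.refl b d ∈ h.L := by
      intro d
      constructor
      · intro hd
        obtain ⟨e, he, rfl⟩ := Finset.mem_image.1 hd
        rw [refl_refl hb]; exact he
      · intro hd
        exact Finset.mem_image.2 ⟨_, hd, refl_refl hb d⟩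
    rw [hmem, hmem, refl_sub, refl_refl hb]
    exact h.half _ hr hbil
  ε := h.ε
  μ := BMM.refl b h.μ
  hμ := by
    have h1 : BMM.refl b h.μ = h.μ + (-(bil h.μ b)) • b := by
      unfold BMM.refl
      rw [neg_smul, ← sub_eq_add_neg]
    rw [h1]
    exact inQ_add h.hμ (inQ_smul _ hb.1)
  hε := h.hε
  sum := by
    rw [Finset.sum_image (fun v _ w _ hvw => refl_inj hb hvw), refl_sum, h.sum, refl_add,
      refl_smul, refl_smul]

theorem D_refl {α : J n → ℤ} (h : Half α) {b : J n → ℤ} (hb : IsRoot b) {x : J n → K} {z : K}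
    (hx : ∀ j, x j ≠ 0) (hz : z ≠ 0) (hq : qch x z b = 1) : (h.refl hb).D x z = h.D x z := by
  unfold Half.D
  have h1 : (h.refl hb).L = h.L.image (BMM.refl b) := rfl
  have h2 : (h.refl hb).μ = BMM.refl b h.μ := rfl
  have h3 : (h.refl hb).ε = h.ε := rfl
  rw [h1, h2, h3, ← refl_neg, qch_refl hx hz hq,
    Finset.prod_image (fun v _ w _ hvw => refl_inj hb hvw)]
  congr 1
  exact Finset.prod_congr rfl (fun c _ => by rw [qch_refl hx hz hq])

theorem Dp_refl {α : J n → ℤ} (h : Half α) {b : J n → ℤ} (hb : IsRoot b) (c0 : J n → ℤ)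
    {x : J n → K} {z : K} (hx : ∀ j, x j ≠ 0) (hz : z ≠ 0) (hq : qch x z b = 1) :
    (h.refl hb).Dp (BMM.refl b c0) x z = h.Dp c0 x z := by
  classical
  unfold Half.Dp
  have h1 : (h.refl hb).L = h.L.image (BMM.refl b) := rfl
  have h2 : (h.refl hb).μ = BMM.refl b h.μ := rfl
  have h3 : (h.refl hb).ε = h.ε := rfl
  rw [h1, h2, h3, ← refl_neg, qch_refl hx hz hq]
  congr 1
  rw [← Finset.image_erase (refl_inj hb),
    Finset.prod_image (fun v _ w _ hvw => refl_inj hb hvw)]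
  exact Finset.prod_congr rfl (fun c _ => by rw [qch_refl hx hz hq])

theorem D_inv {α : J n → ℤ} (h : Half α) (hL : Even h.L.card) {x : J n → K} {z : K}
    (hx : ∀ j, x j ≠ 0) (hz : z ≠ 0) (hq : qch x z α = 1) :
    h.D (fun j => (x j)⁻¹) z⁻¹ = h.D x z := by
  unfold Half.D
  rw [qch_inv]
  have hp : ∏ c ∈ h.L, (qch (fun j => (x j)⁻¹) z⁻¹ c - 1) =
      (∏ c ∈ h.L, qch x z c)⁻¹ * ∏ c ∈ h.L, (qch x z c - 1) := by
    have h1 : ∀ c ∈ h.L, qch (fun j => (x j)⁻¹) z⁻¹ c - 1 =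
        -((qch x z c)⁻¹ * (qch x z c - 1)) := by
      intro c _
      rw [qch_inv, mul_sub, inv_mul_cancel₀ (qch_ne hx hz c)]
      ring
    rw [Finset.prod_congr rfl h1, Finset.prod_neg, hL.neg_one_pow, one_mul,
      Finset.prod_mul_distrib, Finset.prod_inv_distrib]
  have hs : ∏ c ∈ h.L, qch x z c = qch x z h.μ * qch x z h.μ := by
    rw [← qch_sum hx hz, h.sum, qch_add hx hz, qch_smul, qch_smul, hq, one_zpow, mul_one]
    exact zpow_two _
  have hne := qch_ne (z := z) hx hz h.μ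
  rw [hp, hs, qch_neg, inv_inv]
  field_simp

/-- The permutation of the index set given by permutations of each leg. -/
def permJ (σ : ∀ l : Fin 3, Equiv.Perm (Fin (pp n l))) : Equiv.Perm (J n) :=
  Equiv.sigmaCongrRight σ

private theorem permJ_apply (σ : ∀ l : Fin 3, Equiv.Perm (Fin (pp n l))) (l : Fin 3)
    (i : Fin (pp n l)) : permJ σ ⟨l, i⟩ = ⟨l, σ l i⟩ := rfl

private theorem lev_perm (σ : ∀ l : Fin 3, Equiv.Perm (Fin (pp n l))) (v : J n → ℤ) :
    lev (v ∘ permJ σ) = lev v := by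
  unfold lev
  exact Equiv.sum_comp (σ 0) (fun i => v ⟨0, i⟩)

private theorem bil_perm (σ : ∀ l : Fin 3, Equiv.Perm (Fin (pp n l))) (v w : J n → ℤ) :
    bil (v ∘ permJ σ) (w ∘ permJ σ) = bil v w := by
  unfold bil
  rw [lev_perm, lev_perm]
  congr 1
  exact Equiv.sum_comp (permJ σ) (fun j => v j * w j)

private theorem inQ_perm (σ : ∀ l : Fin 3, Equiv.Perm (Fin (pp n l))) {v : J n → ℤ}
    (hv : InQ v) : InQ (v ∘ permJ σ) := by
  intro l
  rw [lev_perm, ← hv l]
  exact Equiv.sum_comp (σ l) (fun i => v ⟨l, i⟩)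

private theorem root_perm (σ : ∀ l : Fin 3, Equiv.Perm (Fin (pp n l))) {v : J n → ℤ}
    (hv : IsRoot v) : IsRoot (v ∘ permJ σ) :=
  ⟨inQ_perm σ hv.1, by rw [bil_perm]; exact hv.2⟩

private theorem permJ_symm (σ : ∀ l : Fin 3, Equiv.Perm (Fin (pp n l))) (v : J n → ℤ) :
    (v ∘ permJ (fun l => (σ l).symm)) ∘ permJ σ = v := by
  funext j
  obtain ⟨l, i⟩ := j
  simp only [Function.comp_apply, permJ_apply, Equiv.symm_apply_apply]

private theorem permJ_symm' (σ : ∀ l : Fin 3, Equiv.Perm (Fin (pp n l))) (v : J n → ℤ) :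
    (v ∘ permJ σ) ∘ permJ (fun l => (σ l).symm) = v := by
  funext j
  obtain ⟨l, i⟩ := j
  simp only [Function.comp_apply, permJ_apply, Equiv.apply_symm_apply]

private theorem perm_inj (σ : ∀ l : Fin 3, Equiv.Perm (Fin (pp n l))) :
    Function.Injective (fun c : J n → ℤ => c ∘ permJ σ) := by
  intro v w h
  simp only at h
  rw [← permJ_symm' σ v, h, permJ_symm']

open Classical in
/-- Transport of a half by a permutation: `v ↦ v ∘ (permJ σ)`. -/
noncomputable def Half.perm {α : J n → ℤ} (h : Half α)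
    (σ : ∀ l : Fin 3, Equiv.Perm (Fin (pp n l))) : Half (α ∘ permJ σ) where
  L := h.L.image (fun c => c ∘ permJ σ)
  mem := by
    intro c hc
    obtain ⟨d, hd, rfl⟩ := Finset.mem_image.1 hc
    exact ⟨root_perm σ (h.mem d hd).1, by rw [bil_perm]; exact (h.mem d hd).2⟩
  half := by
    intro c hc1 hc2
    have hr : IsRoot (c ∘ permJ (fun l => (σ l).symm)) := root_perm _ hc1
    have hbil : bil (c ∘ permJ (fun l => (σ l).symm)) α = 1 := by
      rw [← permJ_symm' σ α, bil_perm]; exact hc2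
    have hmem : ∀ d, d ∈ h.L.image (fun c => c ∘ permJ σ) ↔
        d ∘ permJ (fun l => (σ l).symm) ∈ h.L := by
      intro d
      constructor
      · intro hd
        obtain ⟨e, he, rfl⟩ := Finset.mem_image.1 hd
        rw [permJ_symm']; exact he
      · intro hd
        exact Finset.mem_image.2 ⟨_, hd, permJ_symm σ d⟩
    rw [hmem, hmem]
    have h1 : (α ∘ permJ σ - c) ∘ permJ (fun l => (σ l).symm) =
        α - c ∘ permJ (fun l => (σ l).symm) := by
      have h2 : (α ∘ permJ σ - c) ∘ permJ (fun l => (σ l).symm) =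
          (α ∘ permJ σ) ∘ permJ (fun l => (σ l).symm) - c ∘ permJ (fun l => (σ l).symm) := rfl
      rw [h2, permJ_symm']
    rw [h1]
    exact h.half _ hr hbil
  ε := h.ε
  μ := h.μ ∘ permJ σ
  hμ := inQ_perm σ h.hμ
  hε := h.hε
  sum := by
    rw [Finset.sum_image (fun v _ w _ hvw => perm_inj σ hvw)]
    have h1 : ∑ c ∈ h.L, c ∘ permJ σ = (∑ c ∈ h.L, c) ∘ permJ σ := by
      funext j
      simp only [Finset.sum_apply, Function.comp_apply]
    rw [h1, h.sum]
    rfl

theorem D_perm {α : J n → ℤ} (h : Half α) (σ : ∀ l : Fin 3, Equiv.Perm (Fin (pp n l)))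
    (x : J n → K) (z : K) : (h.perm σ).D (x ∘ permJ σ) z = h.D x z := by
  unfold Half.D
  have h1 : (h.perm σ).L = h.L.image (fun c => c ∘ permJ σ) := rfl
  have h2 : (h.perm σ).μ = h.μ ∘ permJ σ := rfl
  have h3 : (h.perm σ).ε = h.ε := rfl
  have hq : ∀ v : J n → ℤ, qch (x ∘ permJ σ) z (v ∘ permJ σ) = qch x z v := by
    intro v
    unfold qch mon
    rw [lev_perm]
    congr 1
    exact Equiv.prod_comp (permJ σ) (fun j => x j ^ v j)
  have h4 : -(h.μ ∘ permJ σ) = (-h.μ) ∘ permJ σ := rfl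
  rw [h1, h2, h3, h4, hq, Finset.prod_image (fun v _ w _ hvw => perm_inj σ hvw)]
  congr 1
  exact Finset.prod_congr rfl (fun c _ => by rw [hq])

end BMM
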