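/-
MP_b1ea0f_al, library BMM, module HalfEx (finite check).  Root appendix L1.3, (R5).
Existence of halves, their cardinality, the growth inequality.
-/
import Pool.Agent.Lib.BMM.RootA
import Pool.Agent.Lib.BMM.HalfInd

namespace BMM

variable {n : ℕ}

/-! ### lists -/

private def dotL : List ℤ → List ℤ → ℤ
  | a :: l, b :: m => a * b + dotL l m
  | _, _ => 0

private def levL (l : List ℤ) : ℤ := l.getD 0 0 + l.getD 1 0

private def bilL (a b : List ℤ) : ℤ := dotL a b - levL a * levL b

private def varL (n i : ℕ) : ℤ :=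
  (NN n : ℤ) / (2 * ((if i < 2 then 2 else if i < 5 then 3 else n : ℕ) : ℤ))

private def kkL (n : ℕ) : ℤ := if n = 3 then 4 else if n = 4 then 7 else 13

private def chkLen (n : ℕ) : Bool := (rootsL n).all fun a => a.length == 5 + n

private def chkA (n : ℕ) : Bool :=
  (rootsL n).all fun a => if levL a = 1 then
    (List.range (5 + n)).all fun i =>
      ((rootsL n).map (fun c => if bilL c a = 1 then c.getD i 0 else 0)).sum ==
        2 * varL n i + kkL n * a.getD i 0 else true

private def chkB (n : ℕ) : Bool :=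
  (rootsL n).all fun a => if 2 ≤ levL a then
    (rootsL n).any fun b => levL b == 1 && bilL a b == 1 else true

private def chkC (n : ℕ) : Bool :=
  (rootsL n).all fun a =>
    ((rootsL n).map (fun c => if bilL c a = 1 then (if levL c < levL a then 1 else 2) else 0)).sum
      % 4 == 0

private def chkG (n : ℕ) : Bool :=
  (rootsL n).all fun a => (List.range (5 + n)).all fun i =>
    decide (2 * (2 * varL n i * levL a - (NN n : ℤ) * a.getD i 0).natAbs ≤
      ((rootsL n).map (fun c => if bilL c a = 1 then (if levL c < levL a then 1 else 2) *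
        (c.getD i 0 * levL a - levL c * a.getD i 0).natAbs else 0)).sum)

set_option maxRecDepth 100000

private theorem chkLen_true (hn : n = 3 ∨ n = 4 ∨ n = 5) : chkLen n = true := by
  rcases hn with rfl | rfl | rfl <;> decide +kernel

private theorem nodup_rootsL (hn : n = 3 ∨ n = 4 ∨ n = 5) : (rootsL n).Nodup := by
  rcases hn with rfl | rfl | rfl <;> decide +kernel

private theorem chkA_true (hn : n = 3 ∨ n = 4 ∨ n = 5) : chkA n = true := by
  rcases hn with rfl | rfl | rfl <;> decide +kernel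

private theorem chkB_true (hn : n = 3 ∨ n = 4 ∨ n = 5) : chkB n = true := by
  rcases hn with rfl | rfl | rfl <;> decide +kernel

private theorem chkC_true (hn : n = 3 ∨ n = 4 ∨ n = 5) : chkC n = true := by
  rcases hn with rfl | rfl | rfl <;> decide +kernel

private theorem chkG_true (hn : n = 3 ∨ n = 4 ∨ n = 5) : chkG n = true := by
  rcases hn with rfl | rfl | rfl <;> decide +kernel

private theorem len_rootsL (hn : n = 3 ∨ n = 4 ∨ n = 5) {l : List ℤ} (hl : l ∈ rootsL n) :
    l.length = 5 + n := by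
  have h := chkLen_true hn
  unfold chkLen at h
  rw [List.all_eq_true] at h
  exact beq_iff_eq.1 (h l hl)

/-! ### transfer -/

private theorem lev_toJ (l : List ℤ) : lev (toJ n l) = levL l := by
  unfold lev
  exact Fin.sum_univ_two (fun i : Fin 2 => toJ n l ⟨0, i⟩)

private theorem dot_sum (a b : List ℤ) (m : ℕ) (ha : a.length = m) (hb : b.length = m) :
    ∑ i : Fin m, a.getD i 0 * b.getD i 0 = dotL a b := by
  induction m generalizing a b with
  | zero =>
    have h1 := List.length_eq_zero_iff.1 ha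
    subst h1
    simp [dotL]
  | succ m ih =>
    rcases a with _ | ⟨x, a⟩
    · simp at ha
    rcases b with _ | ⟨y, b⟩
    · simp at hb
    rw [Fin.sum_univ_succ]
    have h2 := ih a b (by simpa using ha) (by simpa using hb)
    simp only [dotL]
    rw [← h2]
    simp

private theorem sum_J (f : J n → ℤ) : ∑ j, f j =
    (f ⟨0, (0 : Fin 2)⟩ + f ⟨0, (1 : Fin 2)⟩) +
      (f ⟨1, (0 : Fin 3)⟩ + f ⟨1, (1 : Fin 3)⟩ + f ⟨1, (2 : Fin 3)⟩) +
      ∑ i : Fin n, f ⟨2, i⟩ := by
  rw [Fintype.sum_sigma, Fin.sum_univ_three]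
  congr 1
  congr 1
  · exact Fin.sum_univ_two (fun i : Fin 2 => f ⟨0, i⟩)
  · exact Fin.sum_univ_three (fun i : Fin 3 => f ⟨1, i⟩)

private theorem bil_toJ (a b : List ℤ) (ha : a.length = 5 + n) (hb : b.length = 5 + n) :
    bil (toJ n a) (toJ n b) = bilL a b := by
  unfold bil bilL
  rw [lev_toJ, lev_toJ, sum_J]
  congr 1
  rcases a with _ | ⟨a0, a⟩
  · simp at ha; omega
  rcases a with _ | ⟨a1, a⟩
  · simp at ha; omega
  rcases a with _ | ⟨a2, a⟩
  · simp at ha; omega
  rcases a with _ | ⟨a3, a⟩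
  · simp at ha; omega
  rcases a with _ | ⟨a4, a⟩
  · simp at ha; omega
  rcases b with _ | ⟨b0, b⟩
  · simp at hb; omega
  rcases b with _ | ⟨b1, b⟩
  · simp at hb; omega
  rcases b with _ | ⟨b2, b⟩
  · simp at hb; omega
  rcases b with _ | ⟨b3, b⟩
  · simp at hb; omega
  rcases b with _ | ⟨b4, b⟩
  · simp at hb; omega
  have ha' : a.length = n := by simp only [List.length_cons] at ha; omega
  have hb' : b.length = n := by simp only [List.length_cons] at hb; omega
  have h1 : ∑ i : Fin n, toJ n (a0 :: a1 :: a2 :: a3 :: a4 :: a) ⟨2, i⟩ *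
      toJ n (b0 :: b1 :: b2 :: b3 :: b4 :: b) ⟨2, i⟩ = dotL a b := by
    rw [← dot_sum a b n ha' hb']
    refine Finset.sum_congr rfl fun i _ => ?_
    have h2 : ∀ (l0 l1 l2 l3 l4 : ℤ) (l : List ℤ),
        toJ n (l0 :: l1 :: l2 :: l3 :: l4 :: l) ⟨2, i⟩ = l.getD i 0 := by
      intro l0 l1 l2 l3 l4 l
      show (l0 :: l1 :: l2 :: l3 :: l4 :: l).getD (5 + (i : ℕ)) 0 = l.getD i 0
      rw [Nat.add_comm]
      rfl
    rw [h2, h2]
  rw [h1]
  simp only [dotL]
  show (a0 * b0 + a1 * b1) + (a2 * b2 + a3 * b3 + a4 * b4) + dotL a b = _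
  ring

/-- the index of a coordinate in a list -/
private def off (k : J n) : ℕ := (if k.1 = 0 then 0 else if k.1 = 1 then 2 else 5) + k.2

private theorem off_lt (k : J n) : off k < 5 + n := by
  obtain ⟨x, i⟩ := k
  have hi := i.2
  unfold off
  match x, i, hi with
  | 0, i, hi =>
    have : (i : ℕ) < 2 := hi
    show 0 + (i : ℕ) < 5 + n
    omega
  | 1, i, hi =>
    have : (i : ℕ) < 3 := hi
    show 2 + (i : ℕ) < 5 + n
    omega
  | 2, i, hi =>
    have : (i : ℕ) < n := hi
    show 5 + (i : ℕ) < 5 + n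
    omega

private theorem varpi_off (k : J n) : varpi n k = varL n (off k) := by
  obtain ⟨x, i⟩ := k
  have hi := i.2
  match x, i, hi with
  | 0, i, hi =>
    have h1 : (i : ℕ) < 2 := hi
    show (NN n : ℤ) / (2 * ((2 : ℕ) : ℤ)) = varL n (0 + (i : ℕ))
    unfold varL
    rw [if_pos (by omega)]
  | 1, i, hi =>
    have h1 : (i : ℕ) < 3 := hi
    show (NN n : ℤ) / (2 * ((3 : ℕ) : ℤ)) = varL n (2 + (i : ℕ))
    unfold varL
    rw [if_neg (by omega), if_pos (by omega)]
  | 2, i, hi =>
    have h1 : (i : ℕ) < n := hi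
    show (NN n : ℤ) / (2 * ((n : ℕ) : ℤ)) = varL n (5 + (i : ℕ))
    unfold varL
    rw [if_neg (by omega), if_neg (by omega)]

private theorem toJ_off (l : List ℤ) (k : J n) : toJ n l k = l.getD (off k) 0 := rfl

private theorem toJ_inj {l m : List ℤ} (hl : l.length = 5 + n) (hm : m.length = 5 + n)
    (h : toJ n l = toJ n m) : l = m := by
  apply List.ext_getElem (by rw [hl, hm])
  intro i h1 h2
  have h3 : ∃ k : J n, off k = i := by
    by_cases hi : i < 2
    · exact ⟨⟨0, (⟨i, hi⟩ : Fin 2)⟩, Nat.zero_add i⟩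
    · by_cases hi2 : i < 5
      · refine ⟨⟨1, (⟨i - 2, by omega⟩ : Fin 3)⟩, ?_⟩
        show 2 + (i - 2) = i
        omega
      · refine ⟨⟨2, (⟨i - 5, by omega⟩ : Fin n)⟩, ?_⟩
        show 5 + (i - 5) = i
        omega
  obtain ⟨k, hk⟩ := h3
  have h4 := congrFun h k
  rw [toJ_off, toJ_off, hk, List.getD_eq_getElem _ _ h1, List.getD_eq_getElem _ _ h2] at h4
  exact h4

private theorem sum_Rset (hn : n = 3 ∨ n = 4 ∨ n = 5) {M : Type*} [AddCommMonoid M]
    (F : (J n → ℤ) → M) : ∑ c ∈ Rset n, F c = ((rootsL n).map (fun l => F (toJ n l))).sum := by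
  classical
  have h1 : ((rootsL n).map (toJ n)).Nodup := by
    refine List.Nodup.map_on ?_ (nodup_rootsL hn)
    intro l hl m hm h
    exact toJ_inj (len_rootsL hn hl) (len_rootsL hn hm) h
  have h2 : Rset n = ((rootsL n).map (toJ n)).toFinset := by
    ext v
    rw [mem_Rset hn, mem_rootsL hn, List.mem_toFinset, List.mem_map]
    constructor
    · rintro ⟨l, hl, rfl⟩
      exact ⟨l, hl, rfl⟩
    · rintro ⟨l, hl, rfl⟩
      exact ⟨l, hl, rfl⟩
  rw [h2, List.sum_toFinset _ h1, List.map_map]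
  rfl

/-! ### varpi -/

theorem varpi_facts (hn : n = 3 ∨ n = 4 ∨ n = 5) :
    InQ (varpi n) ∧ 2 * lev (varpi n) = NN n ∧ ∀ j, 2 * (pp n j.1 : ℤ) * varpi n j = NN n := by
  rcases hn with rfl | rfl | rfl <;> (unfold InQ lev; decide +kernel)

/-! ### existence -/

private theorem lev_sub (v w : J n → ℤ) : lev (v - w) = lev v - lev w := by
  have h := lev_add (v - w) w
  rw [sub_add_cancel] at h
  linarith

/-- the half of a root of level one -/
private theorem half_one (hn : n = 3 ∨ n = 4 ∨ n = 5) {α : J n → ℤ} (hα : α ∈ Rc n)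
    (h1 : lev α = 1) : Nonempty (Half α) := by
  classical
  obtain ⟨a, ha, rfl⟩ := (mem_rootsL hn α).1 hα
  have hla : levL a = 1 := by rw [← lev_toJ (n := n)]; exact h1
  have hchk : ∀ i < 5 + n,
      ((rootsL n).map (fun c => if bilL c a = 1 then c.getD i 0 else 0)).sum =
        2 * varL n i + kkL n * a.getD i 0 := by
    have h := chkA_true hn
    unfold chkA at h
    rw [List.all_eq_true] at h
    have h2 := h a ha
    rw [if_pos hla, List.all_eq_true] at h2
    intro i hi
    exact beq_iff_eq.1 (h2 i (List.mem_range.2 hi))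
  have hsum : ∑ c ∈ (Rset n).filter (fun c => bil c (toJ n a) = 1), c =
      (2 : ℤ) • varpi n + kkL n • toJ n a := by
    rw [Finset.sum_filter]
    funext k
    rw [Finset.sum_apply]
    have h3 := sum_Rset hn (fun c : J n → ℤ => if bil c (toJ n a) = 1 then c k else 0)
    have h4 : ∀ c : J n → ℤ, (if bil c (toJ n a) = 1 then c else 0) k =
        if bil c (toJ n a) = 1 then c k else 0 := by
      intro c
      split_ifs <;> rfl
    rw [Finset.sum_congr rfl fun c _ => h4 c, h3]
    have h5 : (rootsL n).map (fun l => if bil (toJ n l) (toJ n a) = 1 then toJ n l k else 0) =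
        (rootsL n).map (fun c => if bilL c a = 1 then c.getD (off k) 0 else 0) := by
      apply List.map_congr_left
      intro l hl
      rw [bil_toJ l a (len_rootsL hn hl) (len_rootsL hn ha), toJ_off]
    rw [h5, hchk _ (off_lt k)]
    show _ = 2 * varpi n k + kkL n * toJ n a k
    rw [varpi_off, toJ_off]
  have hmem : ∀ c ∈ (Rset n).filter (fun c => bil c (toJ n a) = 1),
      IsRoot c ∧ bil c (toJ n a) = 1 := by
    intro c hc
    rw [Finset.mem_filter, mem_Rset hn] at hc
    exact ⟨hc.1.1, hc.2⟩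
  have hhalf : ∀ c, IsRoot c → bil c (toJ n a) = 1 →
      (c ∈ (Rset n).filter (fun c => bil c (toJ n a) = 1) ↔
        toJ n a - c ∉ (Rset n).filter (fun c => bil c (toJ n a) = 1)) := by
    intro c hc hb
    have hb' : bil (toJ n a - c) (toJ n a) = 1 := by
      have h2 := bil_add_left (toJ n a - c) c (toJ n a)
      rw [sub_add_cancel, hb, hα.1.2] at h2
      linarith
    have hr : IsRoot (toJ n a - c) := sub_root hα.1 hc (by rw [bil_comm]; exact hb)
    rw [Finset.mem_filter, Finset.mem_filter, mem_Rset hn, mem_Rset hn]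
    have hl := lev_sub (toJ n a) c
    rw [h1] at hl
    constructor
    · rintro ⟨⟨_, h2⟩, _⟩ ⟨⟨_, h3⟩, _⟩
      omega
    · intro h2
      refine ⟨⟨hc, ?_⟩, hb⟩
      by_contra h3
      exact h2 ⟨⟨hr, by omega⟩, hb'⟩
  have hvq := (varpi_facts hn).1
  have haq : InQ (toJ n a) := hα.1.1
  rcases hn with rfl | rfl | rfl
  · exact ⟨⟨_, hmem, hhalf, 0, varpi 3 + (2 : ℤ) • toJ 3 a, inQ_add hvq (inQ_smul 2 haq),
      Or.inl rfl, by
        rw [hsum]
        show (2 : ℤ) • varpi 3 + (4 : ℤ) • toJ 3 a = _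
        module⟩⟩
  · exact ⟨⟨_, hmem, hhalf, 1, varpi 4 + (3 : ℤ) • toJ 4 a, inQ_add hvq (inQ_smul 3 haq),
      Or.inr rfl, by
        rw [hsum]
        show (2 : ℤ) • varpi 4 + (7 : ℤ) • toJ 4 a = _
        push_cast
        module⟩⟩
  · exact ⟨⟨_, hmem, hhalf, 1, varpi 5 + (6 : ℤ) • toJ 5 a, inQ_add hvq (inQ_smul 6 haq),
      Or.inr rfl, by
        rw [hsum]
        show (2 : ℤ) • varpi 5 + (13 : ℤ) • toJ 5 a = _
        push_cast
        module⟩⟩

theorem half_exists (hn : n = 3 ∨ n = 4 ∨ n = 5) {α : J n → ℤ} (hα : α ∈ Rc n) :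
    Nonempty (Half α) := by
  classical
  by_cases h1 : lev α = 1
  · exact half_one hn hα h1
  · have h2 : 2 ≤ lev α := by
      have := hα.2
      omega
    obtain ⟨a, ha, rfl⟩ := (mem_rootsL hn α).1 hα
    have h := chkB_true hn
    unfold chkB at h
    rw [List.all_eq_true] at h
    have h3 := h a ha
    rw [if_pos (by rw [← lev_toJ (n := n)]; exact h2), List.any_eq_true] at h3
    obtain ⟨b, hb, hb2⟩ := h3
    rw [Bool.and_eq_true, beq_iff_eq, beq_iff_eq] at hb2
    obtain ⟨hb1, hb3⟩ := hb2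
    have hbR : toJ n b ∈ Rc n := (mem_rootsL hn _).2 ⟨b, hb, rfl⟩
    obtain ⟨hh⟩ := half_one hn hbR (by rw [lev_toJ]; exact hb1)
    have hbil : bil (toJ n a) (toJ n b) = 1 := by
      rw [bil_toJ a b (len_rootsL hn ha) (len_rootsL hn hb)]
      exact hb3
    have hr : IsRoot (toJ n a - toJ n b) := sub_root hα.1 hbR.1 hbil
    have hb4 : bil (toJ n b) (toJ n a - toJ n b) = -1 := by
      have h5 := bil_add_left (toJ n a - toJ n b) (toJ n b) (toJ n b)
      rw [sub_add_cancel, hbil, hbR.1.2] at h5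
      rw [bil_comm]
      linarith
    have hrefl : refl (toJ n a - toJ n b) (toJ n b) = toJ n a := by
      unfold refl
      rw [hb4]
      module
    have h6 := hh.refl hr
    rw [hrefl] at h6
    exact ⟨h6⟩

/-! ### sums over halves -/

/-- the sum over a half in terms of the roots of level at least one -/
private theorem sum_half (hn : n = 3 ∨ n = 4 ∨ n = 5) {α : J n → ℤ} (hα : α ∈ Rc n)
    (h : Half α) (f : (J n → ℤ) → ℕ) (hf : ∀ c, f (α - c) = f c) :
    2 * ∑ c ∈ h.L, f c =
      ∑ c ∈ Rset n, if bil c α = 1 then (if lev c < lev α then 1 else 2) * f c else 0 := by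
  classical
  have hb' : ∀ c, bil c α = 1 → bil (α - c) α = 1 := by
    intro c hb
    have h2 := bil_add_left (α - c) c α
    rw [sub_add_cancel, hb, hα.1.2] at h2
    linarith
  have hr' : ∀ c, IsRoot c → bil c α = 1 → IsRoot (α - c) := fun c hc hb =>
    sub_root hα.1 hc (by rw [bil_comm]; exact hb)
  have hinj : Function.Injective (fun c : J n → ℤ => α - c) := fun c d hcd =>
    sub_right_injective hcd
  set G : Finset (J n → ℤ) := h.L ∪ h.L.image (fun c => α - c) with hG
  have hGmem : ∀ c, c ∈ G ↔ IsRoot c ∧ bil c α = 1 := by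
    intro c
    rw [hG, Finset.mem_union, Finset.mem_image]
    constructor
    · rintro (hc | ⟨d, hd, rfl⟩)
      · exact h.mem c hc
      · obtain ⟨h1, h2⟩ := h.mem d hd
        exact ⟨hr' d h1 h2, hb' d h2⟩
    · rintro ⟨h1, h2⟩
      by_cases hc : c ∈ h.L
      · exact Or.inl hc
      · right
        refine ⟨α - c, ?_, sub_sub_cancel α c⟩
        by_contra hc2
        exact hc ((h.half c h1 h2).2 hc2)
  have hdisj : Disjoint h.L (h.L.image (fun c => α - c)) := by
    rw [Finset.disjoint_left]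
    intro c hc hc2
    obtain ⟨d, hd, rfl⟩ := Finset.mem_image.1 hc2
    obtain ⟨h1, h2⟩ := h.mem d hd
    exact (h.half d h1 h2).1 hd hc
  have e1 : ∑ c ∈ G, f c = 2 * ∑ c ∈ h.L, f c := by
    rw [hG, Finset.sum_union hdisj, Finset.sum_image (fun c _ d _ hcd => hinj hcd),
      Finset.sum_congr rfl fun c _ => hf c, two_mul]
  have e2 : ∑ c ∈ G, f c = ∑ c ∈ G.filter (fun c => 1 ≤ lev c), f c +
      ∑ c ∈ G.filter (fun c => lev α ≤ lev c), f c := by
    rw [← Finset.sum_filter_add_sum_filter_not G (fun c => 1 ≤ lev c)]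
    congr 1
    refine Finset.sum_bij' (fun c _ => α - c) (fun c _ => α - c) ?_ ?_ ?_ ?_ ?_
    · intro c hc
      rw [Finset.mem_filter, hGmem] at hc ⊢
      obtain ⟨⟨h1, h2⟩, h3⟩ := hc
      refine ⟨⟨hr' c h1 h2, hb' c h2⟩, ?_⟩
      rw [lev_sub]
      omega
    · intro c hc
      rw [Finset.mem_filter, hGmem] at hc ⊢
      obtain ⟨⟨h1, h2⟩, h3⟩ := hc
      refine ⟨⟨hr' c h1 h2, hb' c h2⟩, ?_⟩
      rw [lev_sub]
      omega
    · intro c _
      exact sub_sub_cancel α c
    · intro c _
      exact sub_sub_cancel α c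
    · intro c _
      exact (hf c).symm
  have e3 : G.filter (fun c => 1 ≤ lev c) = (Rset n).filter (fun c => bil c α = 1) := by
    ext c
    rw [Finset.mem_filter, hGmem, Finset.mem_filter, mem_Rset hn]
    constructor
    · rintro ⟨⟨h1, h2⟩, h3⟩
      exact ⟨⟨h1, h3⟩, h2⟩
    · rintro ⟨⟨h1, h3⟩, h2⟩
      exact ⟨⟨h1, h2⟩, h3⟩
  have e4 : G.filter (fun c => lev α ≤ lev c) =
      ((Rset n).filter (fun c => bil c α = 1)).filter (fun c => lev α ≤ lev c) := by
    ext c
    rw [Finset.mem_filter, hGmem, Finset.mem_filter, Finset.mem_filter, mem_Rset hn]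
    have hα1 := hα.2
    constructor
    · rintro ⟨⟨h1, h2⟩, h3⟩
      exact ⟨⟨⟨h1, by omega⟩, h2⟩, h3⟩
    · rintro ⟨⟨⟨h1, h3⟩, h2⟩, h4⟩
      exact ⟨⟨h1, h2⟩, h4⟩
  rw [← e1, e2, e3, e4, Finset.sum_filter (s := (Rset n).filter (fun c => bil c α = 1)),
    ← Finset.sum_add_distrib, Finset.sum_filter]
  refine Finset.sum_congr rfl fun c _ => ?_
  by_cases hc : bil c α = 1
  · rw [if_pos hc, if_pos hc]
    by_cases hc2 : lev α ≤ lev c
    · rw [if_pos hc2, if_neg (not_lt.2 hc2)]
      ring
    · rw [if_neg hc2, if_pos (not_le.1 hc2)]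
      ring
  · rw [if_neg hc, if_neg hc]

theorem half_card_even (hn : n = 3 ∨ n = 4 ∨ n = 5) {α : J n → ℤ} (hα : α ∈ Rc n)
    (h : Half α) : Even h.L.card := by
  classical
  have h1 := sum_half hn hα h (fun _ => 1) (fun _ => rfl)
  rw [Finset.sum_const, smul_eq_mul, mul_one, sum_Rset hn] at h1
  obtain ⟨a, ha, rfl⟩ := (mem_rootsL hn α).1 hα
  have h2 : (rootsL n).map (fun l => if bil (toJ n l) (toJ n a) = 1 then
      (if lev (toJ n l) < lev (toJ n a) then 1 else 2) * 1 else 0) =
      (rootsL n).map (fun c => if bilL c a = 1 then (if levL c < levL a then 1 else 2) else 0) := by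
    apply List.map_congr_left
    intro l hl
    rw [bil_toJ l a (len_rootsL hn hl) (len_rootsL hn ha), lev_toJ, lev_toJ, mul_one]
  rw [h2] at h1
  have h3 := chkC_true hn
  unfold chkC at h3
  rw [List.all_eq_true] at h3
  have h4 := beq_iff_eq.1 (h3 a ha)
  rw [← h1] at h4
  rw [Nat.even_iff]
  omega

/-- A half containing a prescribed element. -/
theorem half_exists_mem (hn : n = 3 ∨ n = 4 ∨ n = 5) {α : J n → ℤ} (hα : α ∈ Rc n)
    {c : J n → ℤ} (hc : IsRoot c) (h1 : bil c α = 1) : ∃ h : Half α, c ∈ h.L := by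
  classical
  obtain ⟨h⟩ := half_exists hn hα
  by_cases hcL : c ∈ h.L
  · exact ⟨h, hcL⟩
  have hb' : ∀ c, bil c α = 1 → bil (α - c) α = 1 := by
    intro c hb
    have h2 := bil_add_left (α - c) c α
    rw [sub_add_cancel, hb, hα.1.2] at h2
    linarith
  have hr' : ∀ c, IsRoot c → bil c α = 1 → IsRoot (α - c) := fun c hc hb =>
    sub_root hα.1 hc (by rw [bil_comm]; exact hb)
  have hacL : α - c ∈ h.L := by
    by_contra h2
    exact hcL ((h.half c hc h1).2 h2)
  have hne : c ≠ α - c := fun h2 => hcL (h2 ▸ hacL)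
  have hmem : ∀ d ∈ insert c (h.L.erase (α - c)), IsRoot d ∧ bil d α = 1 := by
    intro d hd
    rcases Finset.mem_insert.1 hd with rfl | hd
    · exact ⟨hc, h1⟩
    · exact h.mem d (Finset.mem_of_mem_erase hd)
  have hhalf : ∀ d, IsRoot d → bil d α = 1 →
      (d ∈ insert c (h.L.erase (α - c)) ↔ α - d ∉ insert c (h.L.erase (α - c))) := by
    intro d hd hd1
    rw [Finset.mem_insert, Finset.mem_erase, Finset.mem_insert, Finset.mem_erase]
    by_cases e1 : d = c
    · subst e1
      refine ⟨fun _ => ?_, fun _ => Or.inl rfl⟩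
      rintro (h2 | h2)
      · exact hne h2.symm
      · exact h2.1 rfl
    · by_cases e2 : d = α - c
      · subst e2
        rw [sub_sub_cancel]
        constructor
        · rintro (h2 | h2)
          · exact absurd h2 e1
          · exact absurd rfl h2.1
        · intro h2
          exact absurd (Or.inl rfl) h2
      · have e3 : α - d ≠ c := fun h2 => e2 (by rw [← h2, sub_sub_cancel])
        have e4 : α - d ≠ α - c := fun h2 => e1 (sub_right_injective h2)
        have h5 := h.half d hd hd1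
        constructor
        · rintro (h2 | h2)
          · exact absurd h2 e1
          · rintro (h3 | h3)
            · exact e3 h3
            · exact h5.1 h2.2 h3.2
        · intro h2
          right
          refine ⟨e2, h5.2 fun h3 => h2 (Or.inr ⟨e4, h3⟩)⟩
  have hsum : ∑ d ∈ insert c (h.L.erase (α - c)), d =
      (2 : ℤ) • h.μ + (h.ε : ℤ) • α + (2 : ℤ) • c - α := by
    rw [Finset.sum_insert (fun h2 => hcL (Finset.mem_of_mem_erase h2))]
    have h2 := Finset.add_sum_erase h.L (fun d => d) hacL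
    rw [h.sum] at h2
    have h3 : ∑ d ∈ h.L.erase (α - c), d = (2 : ℤ) • h.μ + (h.ε : ℤ) • α - (α - c) := by
      rw [← h2]
      simp
    rw [h3]
    module
  have hcq : InQ c := hc.1
  have haq : InQ α := hα.1.1
  rcases h.hε with he | he
  · refine ⟨⟨insert c (h.L.erase (α - c)), hmem, hhalf, 1, h.μ + c + (-1 : ℤ) • α,
      inQ_add (inQ_add h.hμ hcq) (inQ_smul (-1) haq), Or.inr rfl, ?_⟩,
      Finset.mem_insert_self _ _⟩
    rw [hsum, he]
    push_cast
    module
  · refine ⟨⟨insert c (h.L.erase (α - c)), hmem, hhalf, 0, h.μ + c,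
      inQ_add h.hμ hcq, Or.inl rfl, ?_⟩, Finset.mem_insert_self _ _⟩
    rw [hsum, he]
    push_cast
    module

/-- (R5) -/
theorem growth (hn : n = 3 ∨ n = 4 ∨ n = 5) {α : J n → ℤ} (hα : α ∈ Rc n) (h : Half α)
    (k : J n) :
    |2 * (varpi n k * lev α - lev (varpi n) * α k)| ≤ ∑ c ∈ h.L, |c k * lev α - lev c * α k| := by
  classical
  have h1 := sum_half hn hα h (fun c => (c k * lev α - lev c * α k).natAbs) (by
    intro c
    show ((α - c) k * lev α - lev (α - c) * α k).natAbs = (c k * lev α - lev c * α k).natAbs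
    rw [lev_sub, Pi.sub_apply]
    have h2 : (α k - c k) * lev α - (lev α - lev c) * α k = -(c k * lev α - lev c * α k) := by
      ring
    rw [h2, Int.natAbs_neg])
  rw [sum_Rset hn] at h1
  have h5 : 2 * (varpi n k * lev α - lev (varpi n) * α k) =
      2 * varL n (off k) * lev α - (NN n : ℤ) * α k := by
    rw [← (varpi_facts hn).2.1, ← varpi_off]
    ring
  have h6 : ∑ c ∈ h.L, |c k * lev α - lev c * α k| =
      ((∑ c ∈ h.L, (c k * lev α - lev c * α k).natAbs : ℕ) : ℤ) := by
    rw [Nat.cast_sum]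
    refine Finset.sum_congr rfl fun c _ => ?_
    rw [Int.natCast_natAbs]
  rw [h5, h6, ← Int.natCast_natAbs]
  have key : 2 * (2 * varL n (off k) * lev α - (NN n : ℤ) * α k).natAbs ≤
      2 * ∑ c ∈ h.L, (c k * lev α - lev c * α k).natAbs := by
    rw [h1]
    obtain ⟨a, ha, rfl⟩ := (mem_rootsL hn α).1 hα
    have h2 : (rootsL n).map (fun l => if bil (toJ n l) (toJ n a) = 1 then
        (if lev (toJ n l) < lev (toJ n a) then 1 else 2) *
          (toJ n l k * lev (toJ n a) - lev (toJ n l) * toJ n a k).natAbs else 0) =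
        (rootsL n).map (fun c => if bilL c a = 1 then (if levL c < levL a then 1 else 2) *
          (c.getD (off k) 0 * levL a - levL c * a.getD (off k) 0).natAbs else 0) := by
      apply List.map_congr_left
      intro l hl
      rw [bil_toJ l a (len_rootsL hn hl) (len_rootsL hn ha), lev_toJ, lev_toJ, toJ_off, toJ_off]
    rw [h2, lev_toJ, toJ_off]
    have h3 := chkG_true hn
    unfold chkG at h3
    rw [List.all_eq_true] at h3
    have h4 := h3 a ha
    rw [List.all_eq_true] at h4
    exact of_decide_eq_true (h4 (off k) (List.mem_range.2 (off_lt k)))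
  exact_mod_cast Nat.le_of_mul_le_mul_left key (by norm_num)

end BMM
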