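/-
MP_b1ea0f_al, library BMM, module GroupPt (about 200 lines, finite check).  (R6), root appendix 5.
The Schur elements at the group point.
PROOF / ORGANISATION (you may change it; it can be split by n). By D_indep it is enough to treat one half
for each α. ω is a primitive N-th root of unity. ζ^{lev α} = mon x α = ω^E; so ζ^{N lev α} = 1 ... in fact
all solutions are powers of ω: mon x α = ω^{E(α)} and the check shows that lev α divides E(α) modulo
N: there are lev α solutions ζ = ω^e, e mod N with lev α * e ≡ E(α) mod N, and a polynomial of degree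
lev α has no more roots (or: 29+53+106 roots α; for each the list of the e's has length lev α). So 42 + 96 +
270 pairs (α, e). For each: q^c = ω^{E(c)}, E(c) = Σ_j c_j (N/p_j)(j.2+1) - lev c * e, and the identity
κ ω^{-E(ϖ)} (-1)^ε ω^{-E(μ)} ∏_{c ∈ L} (ω^{E(c)} - 1) * (lev α)² = N² in Z[ω].
Computation in Z[X]/(X^N - 1) (lists of N integers; multiplication by X^k - 1 is a shift and a
subtraction), final comparison modulo Φ_N: for f ∈ Z[X] with f ≡ c mod Φ_N; for N = 12: Φ = X⁴ - X² + 1,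
N = 24: X⁸ - X⁴ + 1, N = 60: X¹⁶ + X¹⁴ - X¹⁰ - X⁸ - X⁶ + X² + 1 (`Polynomial.cyclotomic`; that ω is a root of
these: IsPrimitiveRoot, or from X^{N/2} + 1 etc.: for N = 12: ω⁶ = -1, ω⁴ - ω² + 1 = 0 as
(ω²)³ = -1, ω² ≠ -1; N = 24: same with ω⁴; N = 60: prod formulas). Alternatively multiply directly in
Z[X]/Φ_N with φ(N) = 4, 8, 16 coefficients (28 multiplications by X^k - 1).
REDUCTION by folding (optional): ω^E - 1 = - ω^E (ω^{N-E} - 1), and Galois conjugation ω ↦ ω^u: only
3 / 5 / 7 essentially different products occur (table in the appendix); this keeps the kernel check small.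
The whole computation takes 0.2 seconds in Python: script /team-store/MP_b1ea0f_grp2.py and
MP_b1ea0f_roots.py.
-/
import Pool.Agent.Lib.BMM.HalfEx

namespace BMM

variable {n : ℕ}

/-- The parameters at the group point. -/
noncomputable def xgp {K : Type*} [Field K] (n : ℕ) (ω : K) : J n → K :=
  fun j => ω ^ ((NN n / pp n j.1) * (j.2.val + 1))

/-! ### Elements of `Z[ω]` by their value at a large integer (Kronecker substitution) -/

section kron

variable {K : Type*} [Field K]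

/-- `a = R(ω)` and `A ≡ R(x)` modulo `x^m + 1` for one polynomial `R` of degree `< m` with
sum of the absolute values of the coefficients at most `s`. -/
private def Rep (ω : K) (x m : ℕ) (a : K) (A : ℤ) (s : ℕ) : Prop :=
  ∃ R : ℕ → ℤ, ∑ i ∈ Finset.range m, (R i : K) * ω ^ i = a ∧
    ((x : ℤ) ^ m + 1) ∣ (∑ i ∈ Finset.range m, R i * (x : ℤ) ^ i) - A ∧
    ∑ i ∈ Finset.range m, |R i| ≤ (s : ℤ)

private theorem Rep.one (ω : K) (x : ℕ) {m : ℕ} (hm : 0 < m) : Rep ω x m 1 1 1 := by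
  refine ⟨fun i => if i = 0 then 1 else 0, ?_, ?_, ?_⟩
  · obtain ⟨k, rfl⟩ : ∃ k, m = k + 1 := ⟨m - 1, by omega⟩
    rw [Finset.sum_range_succ']
    simp
  · obtain ⟨k, rfl⟩ : ∃ k, m = k + 1 := ⟨m - 1, by omega⟩
    rw [Finset.sum_range_succ']
    simp
  · obtain ⟨k, rfl⟩ : ∃ k, m = k + 1 := ⟨m - 1, by omega⟩
    rw [Finset.sum_range_succ']
    simp

private theorem Rep.shift {ω : K} {x m : ℕ} (hm : 0 < m) (hω : ω ^ m = -1) {a : K} {A : ℤ}
    {s : ℕ} (h : Rep ω x m a A s) : Rep ω x m (a * ω) (A * x) s := by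
  obtain ⟨R, h1, h2, h3⟩ := h
  obtain ⟨k, rfl⟩ : ∃ k, m = k + 1 := ⟨m - 1, by omega⟩
  refine ⟨fun i => if i = 0 then - R k else R (i - 1), ?_, ?_, ?_⟩
  · rw [Finset.sum_range_succ']
    rw [← h1, Finset.sum_range_succ, add_mul, Finset.sum_mul]
    have e1 : ∀ i ∈ Finset.range k, (((if i + 1 = 0 then - R k else R (i + 1 - 1) : ℤ) : K)
        * ω ^ (i + 1)) = (R i : K) * ω ^ i * ω := by
      intro i _
      simp [pow_succ, mul_assoc]
    rw [Finset.sum_congr rfl e1]
    have e2 : (R k : K) * ω ^ k * ω = - (R k : K) := by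
      rw [mul_assoc, ← pow_succ, hω]; ring
    rw [e2]
    simp
  · obtain ⟨c, hc⟩ := h2
    refine ⟨c * x - R k, ?_⟩
    rw [Finset.sum_range_succ']
    rw [Finset.sum_range_succ] at hc
    have e1 : ∀ i ∈ Finset.range k, ((if i + 1 = 0 then - R k else R (i + 1 - 1) : ℤ)
        * (x : ℤ) ^ (i + 1)) = R i * (x : ℤ) ^ i * x := by
      intro i _
      simp [pow_succ, mul_assoc]
    rw [Finset.sum_congr rfl e1, ← Finset.sum_mul]
    have e3 : (∑ i ∈ Finset.range k, R i * (x : ℤ) ^ i)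
        = ((x : ℤ) ^ (k + 1) + 1) * c - R k * (x : ℤ) ^ k + A := by linarith
    rw [e3]
    simp only [if_true, pow_zero, mul_one]
    ring
  · rw [Finset.sum_range_succ']
    rw [Finset.sum_range_succ] at h3
    simpa using h3

private theorem Rep.mulpow {ω : K} {x m : ℕ} (hm : 0 < m) (hω : ω ^ m = -1) {a : K} {A : ℤ}
    {s : ℕ} (h : Rep ω x m a A s) (k : ℕ) : Rep ω x m (a * ω ^ k) (A * (x : ℤ) ^ k) s := by
  induction k with
  | zero => simpa using h
  | succ k ih =>
    have := ih.shift hm hω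
    rwa [mul_assoc, ← pow_succ, mul_assoc, ← pow_succ] at this

private theorem Rep.add {ω : K} {x m : ℕ} {a b : K} {A B : ℤ} {s t : ℕ}
    (h : Rep ω x m a A s) (h' : Rep ω x m b B t) : Rep ω x m (a + b) (A + B) (s + t) := by
  obtain ⟨R, h1, h2, h3⟩ := h
  obtain ⟨S, g1, g2, g3⟩ := h'
  refine ⟨fun i => R i + S i, ?_, ?_, ?_⟩
  · rw [← h1, ← g1, ← Finset.sum_add_distrib]
    refine Finset.sum_congr rfl fun i _ => ?_
    push_cast; ring
  · have : (∑ i ∈ Finset.range m, (R i + S i) * (x : ℤ) ^ i) - (A + B)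
      = ((∑ i ∈ Finset.range m, R i * (x : ℤ) ^ i) - A)
        + ((∑ i ∈ Finset.range m, S i * (x : ℤ) ^ i) - B) := by
      simp only [add_mul, Finset.sum_add_distrib]; ring
    rw [this]
    exact dvd_add h2 g2
  · calc ∑ i ∈ Finset.range m, |R i + S i| ≤ ∑ i ∈ Finset.range m, (|R i| + |S i|) :=
        Finset.sum_le_sum fun i _ => abs_add_le _ _
      _ = ∑ i ∈ Finset.range m, |R i| + ∑ i ∈ Finset.range m, |S i| :=
        Finset.sum_add_distrib
      _ ≤ ((s + t : ℕ) : ℤ) := by push_cast; linarith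

private theorem Rep.smul {ω : K} {x m : ℕ} {a : K} {A : ℤ} {s : ℕ}
    (h : Rep ω x m a A s) (c : ℤ) : Rep ω x m (c * a) (c * A) (c.natAbs * s) := by
  obtain ⟨R, h1, h2, h3⟩ := h
  refine ⟨fun i => c * R i, ?_, ?_, ?_⟩
  · rw [← h1, Finset.mul_sum]
    refine Finset.sum_congr rfl fun i _ => ?_
    push_cast; ring
  · have : (∑ i ∈ Finset.range m, (c * R i) * (x : ℤ) ^ i) - c * A
      = c * ((∑ i ∈ Finset.range m, R i * (x : ℤ) ^ i) - A) := by
      rw [mul_sub, Finset.mul_sum]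
      congr 1
      exact Finset.sum_congr rfl fun i _ => by ring
    rw [this]
    exact Dvd.dvd.mul_left h2 c
  · simp only [abs_mul, ← Finset.mul_sum]
    push_cast
    exact mul_le_mul_of_nonneg_left h3 (abs_nonneg c)

private theorem digits_zero (x : ℤ) : ∀ (m : ℕ) (R : ℕ → ℤ),
    ∑ i ∈ Finset.range m, R i * x ^ i = 0 → (∀ i < m, |R i| < x) → ∀ i < m, R i = 0 := by
  intro m
  induction m with
  | zero => intro R _ _ i hi; omega
  | succ m ih =>
    intro R h hb
    rw [Finset.sum_range_succ'] at h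
    have e1 : ∑ i ∈ Finset.range m, R (i + 1) * x ^ (i + 1)
        = x * ∑ i ∈ Finset.range m, R (i + 1) * x ^ i := by
      rw [Finset.mul_sum]
      exact Finset.sum_congr rfl fun i _ => by ring
    rw [e1] at h
    simp only [pow_zero, mul_one] at h
    have h0 : x ∣ R 0 := ⟨- ∑ i ∈ Finset.range m, R (i + 1) * x ^ i, by linarith⟩
    have hR0 : R 0 = 0 := Int.eq_zero_of_abs_lt_dvd h0 (hb 0 (by omega))
    have hx : x ≠ 0 := by
      intro hx
      have := hb 0 (by omega)
      rw [hx] at this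
      exact absurd this (not_lt.2 (abs_nonneg _))
    rw [hR0, add_zero] at h
    have h1 := (mul_eq_zero.1 h).resolve_left hx
    have h2 := ih (fun i => R (i + 1)) h1 (fun i hi => hb (i + 1) (by omega))
    intro i hi
    rcases i with _ | i
    · exact hR0
    · exact h2 i (by omega)

private theorem Rep.eq_zero {ω : K} {x m : ℕ} (hm : 0 < m) {a : K} {A : ℤ} {s : ℕ}
    (h : Rep ω x m a A s) (hs : s < x) (hA : ((x : ℤ) ^ m + 1) ∣ A) : a = 0 := by
  obtain ⟨R, h1, h2, h3⟩ := h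
  have hle : ∀ i ∈ Finset.range m, |R i| ≤ ∑ i ∈ Finset.range m, |R i| := fun i hi =>
    Finset.single_le_sum (f := fun i => |R i|) (fun _ _ => abs_nonneg _) hi
  have hx : (1 : ℤ) ≤ x := by
    have : 0 < x := by omega
    exact_mod_cast this
  have hd : ((x : ℤ) ^ m + 1) ∣ (∑ i ∈ Finset.range m, R i * (x : ℤ) ^ i) := by
    have := dvd_add h2 hA
    simpa using this
  have hb : |∑ i ∈ Finset.range m, R i * (x : ℤ) ^ i| < (x : ℤ) ^ m + 1 := by
    calc |∑ i ∈ Finset.range m, R i * (x : ℤ) ^ i|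
        ≤ ∑ i ∈ Finset.range m, |R i * (x : ℤ) ^ i| := Finset.abs_sum_le_sum_abs _ _
      _ ≤ ∑ i ∈ Finset.range m, |R i| * (x : ℤ) ^ (m - 1) := by
          refine Finset.sum_le_sum fun i hi => ?_
          rw [abs_mul, abs_of_nonneg (pow_nonneg (by linarith) i : (0 : ℤ) ≤ (x : ℤ) ^ i)]
          have hi' := Finset.mem_range.1 hi
          exact mul_le_mul_of_nonneg_left (pow_le_pow_right₀ hx (by omega)) (abs_nonneg _)
      _ = (∑ i ∈ Finset.range m, |R i|) * (x : ℤ) ^ (m - 1) := by rw [Finset.sum_mul]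
      _ ≤ (s : ℤ) * (x : ℤ) ^ (m - 1) :=
          mul_le_mul_of_nonneg_right h3 (pow_nonneg (by linarith) _)
      _ ≤ (x : ℤ) * (x : ℤ) ^ (m - 1) := by
          refine mul_le_mul_of_nonneg_right ?_ (pow_nonneg (by linarith) _)
          exact_mod_cast hs.le
      _ = (x : ℤ) ^ m := by rw [← pow_succ']; congr 1; omega
      _ < (x : ℤ) ^ m + 1 := by linarith
  have h0 := Int.eq_zero_of_abs_lt_dvd hd hb
  have hz := digits_zero (x : ℤ) m R h0 (fun i hi => by
    have := hle i (Finset.mem_range.2 hi)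
    have hs' : (s : ℤ) < x := by exact_mod_cast hs
    linarith)
  rw [← h1]
  refine Finset.sum_eq_zero fun i hi => ?_
  rw [hz i (Finset.mem_range.1 hi)]
  simp

/-- `∏ (x^k - 1)` -/
private def prodk (x : ℕ) : List ℕ → ℕ
  | [] => 1
  | k :: ks => (x ^ k - 1) * prodk x ks

private theorem Rep.prodk {ω : K} {x m : ℕ} (hm : 0 < m) (hx : 0 < x) (hω : ω ^ m = -1) {a : K}
    {A : ℤ} {s : ℕ} (h : Rep ω x m a A s) (ks : List ℕ) :
    Rep ω x m (a * (ks.map (fun k => ω ^ k - 1)).prod) (A * (BMM.prodk x ks : ℕ))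
      (s * 2 ^ ks.length) := by
  induction ks with
  | nil => simpa [BMM.prodk] using h
  | cons k ks ih =>
    have h1 := ih.mulpow hm hω k
    have h2 := ih.smul (-1)
    have h3 := h1.add h2
    have e1 : a * (List.map (fun k => ω ^ k - 1) ks).prod * ω ^ k +
        ((-1 : ℤ) : K) * (a * (List.map (fun k => ω ^ k - 1) ks).prod)
        = a * (List.map (fun k => ω ^ k - 1) (k :: ks)).prod := by
      rw [List.map_cons, List.prod_cons]
      push_cast
      ring
    have e2 : A * (BMM.prodk x ks : ℕ) * (x : ℤ) ^ k + -1 * (A * (BMM.prodk x ks : ℕ))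
        = A * (BMM.prodk x (k :: ks) : ℕ) := by
      rw [BMM.prodk, Nat.cast_mul, Nat.cast_sub (Nat.one_le_pow _ _ hx)]
      push_cast
      ring
    have e3 : s * 2 ^ ks.length + Int.natAbs (-1) * (s * 2 ^ ks.length)
        = s * 2 ^ (k :: ks).length := by
      rw [List.length_cons, pow_succ]
      simp
      ring
    rw [e1, e2, e3] at h3
    exact h3

private theorem Rep.mulbin {ω : K} {x m : ℕ} (hm : 0 < m) (hω : ω ^ m = -1) {a : K} {A : ℤ}
    {s : ℕ} (h : Rep ω x m a A s) (k : ℕ) :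
    Rep ω x m ((ω ^ k + 1) * a) (((x : ℤ) ^ k + 1) * A) (2 * s) := by
  have h3 := (h.mulpow hm hω k).add h
  have e1 : a * ω ^ k + a = (ω ^ k + 1) * a := by ring
  have e2 : A * (x : ℤ) ^ k + A = ((x : ℤ) ^ k + 1) * A := by ring
  rw [e1, e2, ← two_mul] at h3
  exact h3

/-- The comparison of two elements. -/
private theorem kron_eq {ω : K} {x m : ℕ} (hm : 0 < m) (hx : 0 < x) (hω : ω ^ m = -1)
    (p q : ℕ) (hp : ω ^ p + 1 ≠ 0) (hq : ω ^ q + 1 ≠ 0) (d N f : ℕ) (ks : List ℕ)
    (hs : 4 * d ^ 2 * 2 ^ ks.length + 4 * N ^ 2 < x)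
    (h : ((x ^ p + 1) * (x ^ q + 1) * d ^ 2 * BMM.prodk x ks) % (x ^ m + 1)
      = ((x ^ p + 1) * (x ^ q + 1) * N ^ 2 * x ^ f) % (x ^ m + 1)) :
    (d : K) ^ 2 * (ks.map (fun k => ω ^ k - 1)).prod = (N : K) ^ 2 * ω ^ f := by
  have h0 : Rep ω x m ((ω ^ p + 1) * ((ω ^ q + 1) * 1))
      (((x : ℤ) ^ p + 1) * (((x : ℤ) ^ q + 1) * 1)) (2 * (2 * 1)) :=
    ((Rep.one ω x hm).mulbin hm hω q).mulbin hm hω p
  have h1 := (h0.smul ((d : ℤ) ^ 2)).prodk hm hx hω ks
  have h2 := (h0.smul (-(N : ℤ) ^ 2)).mulpow hm hω f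
  have h3 := h1.add h2
  have hz := h3.eq_zero hm ?_ ?_
  · push_cast at hz
    have hz2 : (ω ^ p + 1) * (ω ^ q + 1) * ((d : K) ^ 2 * (ks.map (fun k => ω ^ k - 1)).prod
        - (N : K) ^ 2 * ω ^ f) = 0 := by
      rw [← hz]; ring
    have := (mul_eq_zero.1 hz2).resolve_left (mul_ne_zero hp hq)
    exact sub_eq_zero.1 this
  · have e1 : ((d : ℤ) ^ 2).natAbs = d ^ 2 := by
      rw [Int.natAbs_pow, Int.natAbs_natCast]
    have e2 : (-(N : ℤ) ^ 2).natAbs = N ^ 2 := by
      rw [Int.natAbs_neg, Int.natAbs_pow, Int.natAbs_natCast]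
    rw [e1, e2]
    calc d ^ 2 * (2 * (2 * 1)) * 2 ^ ks.length + N ^ 2 * (2 * (2 * 1))
        = 4 * d ^ 2 * 2 ^ ks.length + 4 * N ^ 2 := by ring
      _ < x := hs
  · have h4 : (((x ^ p + 1) * (x ^ q + 1) * d ^ 2 * BMM.prodk x ks : ℕ) : ℤ)
        ≡ (((x ^ p + 1) * (x ^ q + 1) * N ^ 2 * x ^ f : ℕ) : ℤ) [ZMOD ((x ^ m + 1 : ℕ) : ℤ)] := by
      rw [Int.natCast_modEq_iff]
      exact h
    have h5 := h4.symm.dvd
    push_cast at h5
    have e4 : ((d : ℤ) ^ 2 * (((x : ℤ) ^ p + 1) * (((x : ℤ) ^ q + 1) * 1))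
        * (BMM.prodk x ks : ℕ)) + (-(N : ℤ) ^ 2 * (((x : ℤ) ^ p + 1) * (((x : ℤ) ^ q + 1) * 1))
        * (x : ℤ) ^ f) = ((x : ℤ) ^ p + 1) * ((x : ℤ) ^ q + 1) * (d : ℤ) ^ 2 * (BMM.prodk x ks : ℕ)
        - ((x : ℤ) ^ p + 1) * ((x : ℤ) ^ q + 1) * (N : ℤ) ^ 2 * (x : ℤ) ^ f := by ring
    rw [e4]
    exact h5

end kron

/-! ### Roots as lists of natural numbers -/

/-- dot product -/
private def dotN : List ℕ → List ℕ → ℕ
  | a :: as, b :: bs => a * b + dotN as bs
  | _, _ => 0

private def levN : List ℕ → ℕ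
  | a :: b :: _ => a + b
  | _ => 0

private def addL : List ℕ → List ℕ → List ℕ
  | a :: as, b :: bs => (a + b) :: addL as bs
  | _, _ => []

private def sumL (m : ℕ) : List (List ℕ) → List ℕ
  | [] => List.replicate m 0
  | c :: cs => addL c (sumL m cs)

/-- weights -/
private def wN (n : ℕ) : List ℕ :=
  [NN n / 2 * 1, NN n / 2 * 2, NN n / 3 * 1, NN n / 3 * 2, NN n / 3 * 3] ++
    (List.range n).map (fun i => NN n / n * (i + 1))

/-- a generic functional that dominates the level -/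
private def fW : List ℕ := [100000, 100001, 1, 4, 16, 64, 256, 1024, 4096, 16384]

private def rootsN (n : ℕ) : List (List ℕ) := (rootsL n).map (fun l => l.map Int.toNat)

private def halfN (n : ℕ) (l : List ℕ) : List (List ℕ) :=
  (rootsN n).filter (fun c => (dotN c l == 1 + levN c * levN l) &&
    Nat.blt (dotN fW l) (2 * dotN fW c))

private def kexp (n e : ℕ) (c : List ℕ) : ℕ :=
  (dotN (wN n) c + levN c * (NN n - e)) % NN n

/-- structure check for one root -/
private def chk1 (n : ℕ) (l : List ℕ) : Bool :=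
  (rootsN n).all (fun c => !(dotN c l == 1 + levN c * levN l) ||
    (!(2 * dotN fW c == dotN fW l) &&
      (Nat.blt (dotN fW l) (2 * dotN fW c) || Nat.blt (levN c) (levN l))))

private def halfL (ep : ℕ) : List ℕ → List ℕ → List ℕ
  | s :: ss, a :: as => ((s - ep * a) / 2) :: halfL ep ss as
  | _, _ => []

private def evenL : List ℕ → Bool
  | s :: ss => (s % 2 == 0) && evenL ss
  | _ => true

/-- check `s = 2 m + ep a` -/
private def chkS (ep : ℕ) : List ℕ → List ℕ → List ℕ → Bool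
  | s :: ss, m :: ms, a :: as => (s == 2 * m + ep * a) && chkS ep ss ms as
  | [], [], [] => true
  | _, _, _ => false

private def varpiL (n : ℕ) : List ℕ :=
  [NN n / 4, NN n / 4, NN n / 6, NN n / 6, NN n / 6] ++ List.replicate n (NN n / (2 * n))

private def th1 (n : ℕ) : ℕ := if n = 3 then 2 else if n = 4 then 4 else 10

private def th2 (n : ℕ) : ℕ := if n = 3 then 2 else if n = 4 then 4 else 6

private def ke (n : ℕ) : ℕ := if n = 3 then 0 else 1

private def chkV (n d : ℕ) (hl : List (List ℕ)) (mu : List ℕ) (ep e : ℕ) : Bool :=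
  ((((2 ^ 64) ^ th1 n + 1) * ((2 ^ 64) ^ th2 n + 1) * d ^ 2 * prodk (2 ^ 64) (hl.map (kexp n e)))
    % ((2 ^ 64) ^ (NN n / 2) + 1) ==
  (((2 ^ 64) ^ th1 n + 1) * ((2 ^ 64) ^ th2 n + 1) * NN n ^ 2 *
    (2 ^ 64) ^ ((kexp n e (varpiL n) + kexp n e mu + NN n / 2 * (ke n + ep)) % NN n))
    % ((2 ^ 64) ^ (NN n / 2) + 1))

private def chk2 (n : ℕ) (l : List ℕ) (hl : List (List ℕ)) (S mu : List ℕ) (ep : ℕ) : Bool :=
  chkS ep S mu l && mu.length == 5 + n && Nat.ble ep 1 &&
  Nat.blt (4 * levN l ^ 2 * 2 ^ hl.length + 4 * NN n ^ 2) (2 ^ 64) &&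
  NN n == NN n / levN l * levN l && dotN (wN n) l == dotN (wN n) l / levN l * levN l &&
  (List.range (levN l)).all (fun j => chkV n (levN l) hl mu ep
    ((dotN (wN n) l / levN l + NN n / levN l * j) % NN n))

private def chk (n : ℕ) (l : List ℕ) : Bool :=
  chk1 n l && chk2 n l (halfN n l) (sumL (5 + n) (halfN n l))
    (halfL (bif evenL (sumL (5 + n) (halfN n l)) then 0 else 1)
      (sumL (5 + n) (halfN n l)) l)
    (bif evenL (sumL (5 + n) (halfN n l)) then 0 else 1)

private theorem chk_three : (rootsN 3).all (chk 3) = true := by decide +kernel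

private theorem chk_four : (rootsN 4).all (chk 4) = true := by decide +kernel

private theorem chk_five : (rootsN 5).all (chk 5) = true := by decide +kernel

private theorem chk_all (hn : n = 3 ∨ n = 4 ∨ n = 5) {l : List ℕ} (hl : l ∈ rootsN n) :
    chk n l = true := by
  rcases hn with rfl | rfl | rfl
  · exact List.all_eq_true.1 chk_three l hl
  · exact List.all_eq_true.1 chk_four l hl
  · exact List.all_eq_true.1 chk_five l hl

private def okL (n : ℕ) : Bool :=
  (rootsL n).all (fun L => (L.map Int.toNat).map (fun a : ℕ => (a : ℤ)) == L) &&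
    (rootsN n).all (fun l => l.length == 5 + n)

private theorem okL_all (hn : n = 3 ∨ n = 4 ∨ n = 5) : okL n = true := by
  rcases hn with rfl | rfl | rfl <;> decide +kernel

/-- position in a list -/
private def off (j : J n) : ℕ := (if j.1 = 0 then 0 else if j.1 = 1 then 2 else 5) + j.2

private def toN (n : ℕ) (l : List ℕ) : J n → ℤ := fun j => ((l.getD (off j) 0 : ℕ) : ℤ)

private theorem toJ_map (l : List ℕ) : toJ n (l.map (fun a : ℕ => (a : ℤ))) = toN n l := by
  funext j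
  unfold toJ toN off
  rw [List.getD_eq_getElem?_getD, List.getD_eq_getElem?_getD, List.getElem?_map]
  cases h : l[(if j.1 = 0 then 0 else if j.1 = 1 then 2 else 5) + j.2.val]? <;> simp

private theorem mem_rootsN (hn : n = 3 ∨ n = 4 ∨ n = 5) (v : J n → ℤ) :
    v ∈ Rc n ↔ ∃ l ∈ rootsN n, v = toN n l := by
  rw [mem_rootsL hn]
  have h := okL_all hn
  unfold okL at h
  rw [Bool.and_eq_true, List.all_eq_true] at h
  constructor
  · rintro ⟨L, hL, rfl⟩
    refine ⟨L.map Int.toNat, List.mem_map.2 ⟨L, hL, rfl⟩, ?_⟩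
    rw [← toJ_map]
    have := h.1 L hL
    rw [beq_iff_eq] at this
    rw [this]
  · rintro ⟨l, hl, rfl⟩
    obtain ⟨L, hL, rfl⟩ := List.mem_map.1 hl
    refine ⟨L, hL, ?_⟩
    rw [← toJ_map]
    have := h.1 L hL
    rw [beq_iff_eq] at this
    rw [this]

private theorem length_rootsN (hn : n = 3 ∨ n = 4 ∨ n = 5) {l : List ℕ} (hl : l ∈ rootsN n) :
    l.length = 5 + n := by
  have h := okL_all hn
  unfold okL at h
  rw [Bool.and_eq_true, List.all_eq_true, List.all_eq_true] at h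
  simpa using h.2 l hl

private theorem sum_off (g : ℕ → ℤ) : ∑ j : J n, g (off j) = ∑ i ∈ Finset.range (5 + n), g i := by
  rw [Fintype.sum_sigma, Fin.sum_univ_three]
  have h0 : ∑ i : Fin (pp n 0), g (off (⟨0, i⟩ : J n)) = ∑ i ∈ Finset.range 2, g i := by
    rw [← Fin.sum_univ_eq_sum_range]
    refine Finset.sum_congr rfl fun i _ => ?_
    unfold off; simp
  have h1 : ∑ i : Fin (pp n 1), g (off (⟨1, i⟩ : J n)) = ∑ i ∈ Finset.range 3, g (2 + i) := by
    rw [← Fin.sum_univ_eq_sum_range (fun i => g (2 + i))]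
    refine Finset.sum_congr rfl fun i _ => ?_
    unfold off; simp
  have h2 : ∑ i : Fin (pp n 2), g (off (⟨2, i⟩ : J n)) = ∑ i ∈ Finset.range n, g (5 + i) := by
    rw [← Fin.sum_univ_eq_sum_range (fun i => g (5 + i))]
    refine Finset.sum_congr rfl fun i _ => ?_
    unfold off; simp
  rw [h0, h1, h2, Finset.sum_range_add g 5 n, Finset.sum_range_add g 2 3]

private theorem dotN_sum : ∀ (m : ℕ) (a b : List ℕ), a.length ≤ m →
    dotN a b = ∑ i ∈ Finset.range m, a.getD i 0 * b.getD i 0 := by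
  intro m
  induction m with
  | zero =>
    intro a b h
    have : a = [] := List.length_eq_zero_iff.1 (by omega)
    subst this
    simp [dotN]
  | succ m ih =>
    intro a b h
    rcases a with _ | ⟨x, a⟩
    · simp [dotN]
    · rcases b with _ | ⟨y, b⟩
      · simp [dotN]
      · rw [Finset.sum_range_succ', dotN, ih a b (by simpa using h)]
        simp [add_comm]

private theorem dot_toN (a b : List ℕ) (ha : a.length ≤ 5 + n) :
    ∑ j, toN n a j * toN n b j = (dotN a b : ℤ) := by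
  rw [dotN_sum (5 + n) a b ha]
  push_cast
  rw [← sum_off (fun i => ((a.getD i 0 : ℕ) : ℤ) * ((b.getD i 0 : ℕ) : ℤ))]
  rfl

private theorem lev_toN (a : List ℕ) (ha : 2 ≤ a.length) : lev (toN n a) = (levN a : ℤ) := by
  unfold lev
  have h : ∑ i : Fin (pp n 0), toN n a ⟨0, i⟩ = toN n a ⟨0, (0 : Fin 2)⟩ + toN n a ⟨0, (1 : Fin 2)⟩ :=
    Fin.sum_univ_two (fun i : Fin 2 => toN n a ⟨0, i⟩)
  rw [h]
  rcases a with _ | ⟨x, _ | ⟨y, a⟩⟩
  · simp at ha
  · simp at ha
  · simp [toN, off, levN]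

private theorem bil_toN (hn : n = 3 ∨ n = 4 ∨ n = 5) {a b : List ℕ} (ha : a ∈ rootsN n)
    (hb : b ∈ rootsN n) :
    bil (toN n a) (toN n b) = (dotN a b : ℤ) - (levN a : ℤ) * (levN b : ℤ) := by
  unfold bil
  rw [dot_toN a b (length_rootsN hn ha).le, lev_toN a (by rw [length_rootsN hn ha]; omega),
    lev_toN b (by rw [length_rootsN hn hb]; omega)]

private theorem toN_inj {a b : List ℕ} (ha : a.length = 5 + n) (hb : b.length = 5 + n)
    (h : toN n a = toN n b) : a = b := by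
  have h2 : ∀ i < 5 + n, a.getD i 0 = b.getD i 0 := by
    intro i hi
    have key : ∀ j : J n, off j = i → a.getD i 0 = b.getD i 0 := by
      intro j hj
      have := congrFun h j
      unfold toN at this
      rw [hj] at this
      exact_mod_cast this
    by_cases h2 : i < 2
    · exact key ⟨0, (⟨i, h2⟩ : Fin 2)⟩ (by unfold off; simp)
    · by_cases h5 : i < 5
      · exact key ⟨1, (⟨i - 2, by omega⟩ : Fin 3)⟩ (by unfold off; simp; omega)
      · exact key ⟨2, (⟨i - 5, by omega⟩ : Fin n)⟩ (by unfold off; simp; omega)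
  apply List.ext_getElem (by rw [ha, hb])
  intro i h1 h3
  have := h2 i (by omega)
  rwa [List.getD_eq_getElem a 0 h1, List.getD_eq_getElem b 0 h3] at this

private theorem length_addL : ∀ (a b : List ℕ), a.length = b.length →
    (addL a b).length = a.length
  | [], [], _ => rfl
  | a :: as, b :: bs, h => by
    simp only [addL, List.length_cons]
    rw [length_addL as bs (by simpa using h)]
  | [], _ :: _, h => by simp at h
  | _ :: _, [], h => by simp at h

private theorem getD_addL : ∀ (a b : List ℕ), a.length = b.length → ∀ i,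
    (addL a b).getD i 0 = a.getD i 0 + b.getD i 0
  | [], [], _, i => by simp [addL]
  | a :: as, b :: bs, h, i => by
    rcases i with _ | i
    · simp [addL]
    · have := getD_addL as bs (by simpa using h) i
      simpa [addL] using this
  | [], _ :: _, h, _ => by simp at h
  | _ :: _, [], h, _ => by simp at h

private theorem sumL_spec (m : ℕ) : ∀ (cs : List (List ℕ)), (∀ c ∈ cs, c.length = m) →
    (sumL m cs).length = m ∧ ∀ i, (sumL m cs).getD i 0 = (cs.map (fun c => c.getD i 0)).sum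
  | [], _ => by
    refine ⟨by simp [sumL], fun i => ?_⟩
    simp only [sumL, List.map_nil, List.sum_nil]
    rw [List.getD_eq_getElem?_getD]
    by_cases h : i < m
    · simp [h]
    · simp [h]
  | c :: cs, h => by
    have ih := sumL_spec m cs (fun c hc => h c (by simp [hc]))
    have hc := h c (by simp)
    have e : c.length = (sumL m cs).length := by rw [hc, ih.1]
    refine ⟨?_, fun i => ?_⟩
    · rw [sumL, length_addL _ _ e, hc]
    · rw [sumL, getD_addL _ _ e, ih.2 i, List.map_cons, List.sum_cons]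

private theorem chkS_spec (ep : ℕ) : ∀ (S mu l : List ℕ), chkS ep S mu l = true → ∀ i,
    S.getD i 0 = 2 * mu.getD i 0 + ep * l.getD i 0
  | [], [], [], _, i => by simp
  | s :: ss, m :: ms, a :: as, h, i => by
    simp only [chkS, Bool.and_eq_true, beq_iff_eq] at h
    rcases i with _ | i
    · simpa using h.1
    · simpa using chkS_spec ep ss ms as h.2 i
  | [], [], _ :: _, h, _ => by simp [chkS] at h
  | [], _ :: _, _, h, _ => by simp [chkS] at h
  | _ :: _, [], _, h, _ => by simp [chkS] at h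
  | _ :: _, _ :: _, [], h, _ => by simp [chkS] at h

private theorem dotN_comm : ∀ (a b : List ℕ), dotN a b = dotN b a
  | [], [] => rfl
  | [], _ :: _ => rfl
  | _ :: _, [] => rfl
  | a :: as, b :: bs => by rw [dotN, dotN, dotN_comm as bs, mul_comm]

/-- The generic functional on vectors. -/
private def FF (v : J n → ℤ) : ℤ := ∑ j, v j * toN n fW j

private theorem FF_toN (hn : n = 3 ∨ n = 4 ∨ n = 5) {c : List ℕ} (hc : c ∈ rootsN n) :
    FF (toN n c) = (dotN fW c : ℤ) := by
  unfold FF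
  rw [dot_toN c fW (length_rootsN hn hc).le, dotN_comm]

private theorem FF_sub (v w : J n → ℤ) : FF (v - w) = FF v - FF w := by
  unfold FF
  rw [← Finset.sum_sub_distrib]
  exact Finset.sum_congr rfl fun j _ => by rw [Pi.sub_apply]; ring

private theorem mem_half (hn : n = 3 ∨ n = 4 ∨ n = 5) {l : List ℕ} (hl : l ∈ rootsN n)
    (v : J n → ℤ) : v ∈ ((halfN n l).map (toN n)).toFinset ↔
      v ∈ Rc n ∧ bil v (toN n l) = 1 ∧ FF (toN n l) < 2 * FF v := by
  have key : ∀ c ∈ rootsN n, ((dotN c l == 1 + levN c * levN l) &&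
      Nat.blt (dotN fW l) (2 * dotN fW c)) = true ↔
      bil (toN n c) (toN n l) = 1 ∧ FF (toN n l) < 2 * FF (toN n c) := by
    intro c hc
    rw [bil_toN hn hc hl, FF_toN hn hc, FF_toN hn hl, Bool.and_eq_true, beq_iff_eq,
      Nat.blt_eq]
    constructor
    · rintro ⟨h1, h2⟩
      exact ⟨by rw [h1]; push_cast; ring, by exact_mod_cast h2⟩
    · rintro ⟨h1, h2⟩
      refine ⟨?_, by exact_mod_cast h2⟩
      have : (dotN c l : ℤ) = ((1 + levN c * levN l : ℕ) : ℤ) := by push_cast; linarith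
      exact_mod_cast this
  rw [List.mem_toFinset, List.mem_map]
  constructor
  · rintro ⟨c, hc, rfl⟩
    unfold halfN at hc
    obtain ⟨hc1, hc2⟩ := List.mem_filter.1 hc
    have h := (key c hc1).1 hc2
    exact ⟨(mem_rootsN hn _).2 ⟨c, hc1, rfl⟩, h.1, h.2⟩
  · rintro ⟨h1, h2, h3⟩
    obtain ⟨c, hc, rfl⟩ := (mem_rootsN hn _).1 h1
    exact ⟨c, List.mem_filter.2 ⟨hc, (key c hc).2 ⟨h2, h3⟩⟩, rfl⟩

private theorem chk1_spec (hn : n = 3 ∨ n = 4 ∨ n = 5) {l : List ℕ} (hl : l ∈ rootsN n)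
    {v : J n → ℤ} (hv : v ∈ Rc n) (h1 : bil v (toN n l) = 1) :
    2 * FF v ≠ FF (toN n l) ∧ (FF (toN n l) < 2 * FF v ∨ lev v < lev (toN n l)) := by
  have h := chk_all hn hl
  unfold chk at h
  have h2 := (Bool.and_eq_true _ _ ▸ h : _ ∧ _).1
  unfold chk1 at h2
  obtain ⟨c, hc, rfl⟩ := (mem_rootsN hn _).1 hv
  have h3 := List.all_eq_true.1 h2 c hc
  rw [bil_toN hn hc hl] at h1
  have h4 : (dotN c l == 1 + levN c * levN l) = true := by
    rw [beq_iff_eq]
    have : (dotN c l : ℤ) = ((1 + levN c * levN l : ℕ) : ℤ) := by push_cast; linarith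
    exact_mod_cast this
  rw [h4] at h3
  simp only [Bool.not_true, Bool.false_or, Bool.and_eq_true, Bool.not_eq_true', Bool.or_eq_true,
    beq_eq_false_iff_ne, ne_eq, Nat.blt_eq] at h3
  rw [FF_toN hn hc, FF_toN hn hl, lev_toN c (by rw [length_rootsN hn hc]; omega),
    lev_toN l (by rw [length_rootsN hn hl]; omega)]
  refine ⟨fun h5 => h3.1 (by exact_mod_cast h5), ?_⟩
  rcases h3.2 with h5 | h5
  · left; exact_mod_cast h5
  · right; exact_mod_cast h5

private def epN (n : ℕ) (l : List ℕ) : ℕ := bif evenL (sumL (5 + n) (halfN n l)) then 0 else 1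

private def muN (n : ℕ) (l : List ℕ) : List ℕ :=
  halfL (epN n l) (sumL (5 + n) (halfN n l)) l

private theorem chk2_spec (hn : n = 3 ∨ n = 4 ∨ n = 5) {l : List ℕ} (hl : l ∈ rootsN n) :
    (chkS (epN n l) (sumL (5 + n) (halfN n l)) (muN n l) l = true ∧
      (muN n l).length = 5 + n ∧ epN n l ≤ 1) ∧
    4 * levN l ^ 2 * 2 ^ (halfN n l).length + 4 * NN n ^ 2 < 2 ^ 64 ∧
    NN n = NN n / levN l * levN l ∧ dotN (wN n) l = dotN (wN n) l / levN l * levN l ∧
    ∀ j < levN l, chkV n (levN l) (halfN n l) (muN n l) (epN n l)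
      ((dotN (wN n) l / levN l + NN n / levN l * j) % NN n) = true := by
  have h := chk_all hn hl
  unfold chk at h
  have h2 := (Bool.and_eq_true _ _ ▸ h : _ ∧ _).2
  unfold chk2 at h2
  simp only [Bool.and_eq_true, beq_iff_eq, Nat.ble_eq, Nat.blt_eq, List.all_eq_true,
    List.mem_range] at h2
  obtain ⟨⟨⟨⟨⟨⟨h3, h4⟩, h5⟩, h6⟩, h7⟩, h8⟩, h9⟩ := h2
  exact ⟨⟨h3, h4, h5⟩, h6, h7, h8, h9⟩

private theorem inQ_sum {s : Finset (J n → ℤ)} (hs : ∀ c ∈ s, InQ c) : InQ (∑ c ∈ s, c) := by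
  refine Finset.sum_induction (fun c => c) (InQ (n := n)) (fun a b => inQ_add) ?_ hs
  intro x
  simp [lev]

private theorem inQ_half {μ : J n → ℤ} (h : InQ ((2 : ℤ) • μ)) : InQ μ := by
  intro x
  have h1 := h x
  rw [lev_smul] at h1
  have h2 : ∑ i : Fin (pp n x), ((2 : ℤ) • μ) ⟨x, i⟩ = 2 * ∑ i : Fin (pp n x), μ ⟨x, i⟩ := by
    rw [Finset.mul_sum]
    exact Finset.sum_congr rfl fun i _ => by simp
  rw [h2] at h1
  linarith

private theorem nodup_rootsN (hn : n = 3 ∨ n = 4 ∨ n = 5) : (rootsN n).Nodup := by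
  rcases hn with rfl | rfl | rfl <;> decide +kernel

private theorem nodup_half (hn : n = 3 ∨ n = 4 ∨ n = 5) (l : List ℕ) :
    ((halfN n l).map (toN n)).Nodup := by
  refine List.Nodup.map_on ?_ ((nodup_rootsN hn).filter _)
  intro a ha b hb h
  exact toN_inj (length_rootsN hn (List.mem_filter.1 ha).1)
    (length_rootsN hn (List.mem_filter.1 hb).1) h

private theorem sum_half (hn : n = 3 ∨ n = 4 ∨ n = 5) {l : List ℕ} (hl : l ∈ rootsN n) :
    ∑ c ∈ ((halfN n l).map (toN n)).toFinset, c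
      = (2 : ℤ) • toN n (muN n l) + (epN n l : ℤ) • toN n l := by
  rw [List.sum_toFinset (fun c => c) (nodup_half hn l)]
  funext j
  have h1 := sumL_spec (5 + n) (halfN n l)
    (fun c hc => length_rootsN hn (List.mem_filter.1 hc).1)
  have h2 := chkS_spec _ _ _ _ (chk2_spec hn hl).1.1 (off j)
  rw [h1.2] at h2
  have h3 : (List.map (fun c => c) (List.map (toN n) (halfN n l))).sum j
      = (((halfN n l).map (fun c => c.getD (off j) 0)).sum : ℕ) := by
    generalize halfN n l = L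
    induction L with
    | nil => simp
    | cons c L ih =>
      simp only [List.map_cons, List.sum_cons, Pi.add_apply, Nat.cast_add] at ih ⊢
      rw [ih]
      rfl
  rw [h3, h2]
  simp [toN]

private theorem exists_half (hn : n = 3 ∨ n = 4 ∨ n = 5) {l : List ℕ} (hl : l ∈ rootsN n) :
    ∃ h : Half (toN n l), h.L = ((halfN n l).map (toN n)).toFinset ∧ h.ε = epN n l ∧
      h.μ = toN n (muN n l) := by
  have hα : toN n l ∈ Rc n := (mem_rootsN hn _).2 ⟨l, hl, rfl⟩
  refine ⟨⟨((halfN n l).map (toN n)).toFinset, ?_, ?_, epN n l, toN n (muN n l), ?_, ?_, ?_⟩,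
    rfl, rfl, rfl⟩
  · intro c hc
    have := (mem_half hn hl c).1 hc
    exact ⟨this.1.1, this.2.1⟩
  · intro c hc h1
    have hb : bil (toN n l) c = 1 := by rw [bil_comm]; exact h1
    have hc' : IsRoot (toN n l - c) := sub_root hα.1 hc hb
    have e0 : toN n l - c = toN n l + (-1 : ℤ) • c := by
      rw [neg_one_smul, sub_eq_add_neg]
    have h1' : bil (toN n l - c) (toN n l) = 1 := by
      rw [e0, bil_add_left, bil_smul_left, h1]
      have := hα.1.2
      rw [this]; norm_num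
    have hlev : lev (toN n l - c) = lev (toN n l) - lev c := by
      rw [e0, lev_add, lev_smul]; ring
    have hF := FF_sub (toN n l) c
    have hl1 := hα.2
    rw [mem_half hn hl, mem_half hn hl]
    by_cases g1 : 1 ≤ lev c
    · have k1 := chk1_spec hn hl (v := c) ⟨hc, g1⟩ h1
      by_cases g2 : 1 ≤ lev (toN n l - c)
      · constructor
        · rintro ⟨_, _, k3⟩ ⟨_, _, k4⟩
          omega
        · intro k
          refine ⟨⟨hc, g1⟩, h1, ?_⟩
          by_contra k5
          exact k ⟨⟨hc', g2⟩, h1', by omega⟩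
      · constructor
        · rintro _ ⟨k3, _, _⟩
          exact g2 k3.2
        · intro _
          refine ⟨⟨hc, g1⟩, h1, ?_⟩
          rcases k1.2 with k | k
          · exact k
          · omega
    · have g2 : 1 ≤ lev (toN n l - c) := by omega
      have k1 := chk1_spec hn hl (v := toN n l - c) ⟨hc', g2⟩ h1'
      constructor
      · rintro ⟨k3, _, _⟩
        exact absurd k3.2 g1
      · intro k
        exfalso
        refine k ⟨⟨hc', g2⟩, h1', ?_⟩
        rcases k1.2 with k | k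
        · exact k
        · omega
  · apply inQ_half
    have h2 := sum_half hn hl
    have h3 : (2 : ℤ) • toN n (muN n l) = (∑ c ∈ ((halfN n l).map (toN n)).toFinset, c)
        + (-(epN n l : ℤ)) • toN n l := by
      rw [h2]; module
    rw [h3]
    refine inQ_add (inQ_sum fun c hc => ((mem_half hn hl c).1 hc).1.1.1) (inQ_smul _ hα.1.1)
  · have := (chk2_spec hn hl).1.2.2
    omega
  · exact sum_half hn hl

/-! ### The values -/

section vals

variable {K : Type*} [Field K]

private theorem toN_wN (hn : n = 3 ∨ n = 4 ∨ n = 5) (j : J n) :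
    (wN n).getD (off j) 0 = NN n / pp n j.1 * (j.2.val + 1) := by
  revert j
  rcases hn with rfl | rfl | rfl <;> decide +kernel

private theorem varpi_toN (hn : n = 3 ∨ n = 4 ∨ n = 5) : varpi n = toN n (varpiL n) := by
  funext j
  revert j
  unfold varpi toN
  rcases hn with rfl | rfl | rfl <;> decide +kernel

private theorem mon_pt (hn : n = 3 ∨ n = 4 ∨ n = 5) (ω : K) (c : List ℕ) :
    mon (xgp n ω) (toN n c) = ω ^ dotN (wN n) c := by
  unfold mon
  have h1 : ∀ j : J n, xgp n ω j ^ toN n c j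
      = ω ^ ((wN n).getD (off j) 0 * c.getD (off j) 0) := by
    intro j
    unfold xgp toN
    rw [zpow_natCast, ← pow_mul, toN_wN hn]
  rw [Finset.prod_congr rfl (fun j _ => h1 j), Finset.prod_pow_eq_pow_sum]
  congr 1
  have h2 : (wN n).length ≤ 5 + n := by simp [wN]; omega
  have h3 := dot_toN (n := n) (wN n) c h2
  have h4 : ((∑ j : J n, (wN n).getD (off j) 0 * c.getD (off j) 0 : ℕ) : ℤ)
      = (dotN (wN n) c : ℤ) := by
    rw [← h3]
    push_cast
    rfl
  exact_mod_cast h4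

private theorem qch_pt (hn : n = 3 ∨ n = 4 ∨ n = 5) {ω : K} (hω : ω ^ NN n = 1) {e : ℕ}
    (he : e < NN n) {c : List ℕ} (hc : c.length = 5 + n) :
    qch (xgp n ω) (ω ^ e) (toN n c) = ω ^ kexp n e c := by
  unfold qch
  rw [mon_pt hn, lev_toN c (by omega), kexp, ← pow_eq_pow_mod _ hω, pow_add, mul_comm]
  congr 1
  have h1 : ω ^ e * ω ^ (NN n - e) = 1 := by
    rw [← pow_add, ← hω]; congr 1; omega
  have h2 : (ω ^ e)⁻¹ = ω ^ (NN n - e) := inv_eq_of_mul_eq_one_right h1
  rw [zpow_neg, zpow_natCast, ← inv_pow, h2, ← pow_mul, mul_comm]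

end vals

theorem group_point (hn : n = 3 ∨ n = 4 ∨ n = 5) {K : Type*} [Field K] [CharZero K] (ω : K)
    (hω : IsPrimitiveRoot ω (NN n)) {α : J n → ℤ} (hα : α ∈ Rc n) (ζ : K)
    (hζ : ζ ^ (lev α) = mon (xgp n ω) α) (h : Half α) :
    (kap n : K) * qch (xgp n ω) ζ (-varpi n) * h.D (xgp n ω) ζ * (lev α : K) ^ 2
      = (NN n : K) ^ 2 := by
  obtain ⟨l, hl, rfl⟩ := (mem_rootsN hn _).1 hα
  have hNpos : 0 < NN n := by rcases hn with rfl | rfl | rfl <;> decide
  have hω0 : ω ≠ 0 := hω.ne_zero (by omega)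
  have hx : ∀ j, xgp n ω j ≠ 0 := fun j => pow_ne_zero _ hω0
  have hlen := length_rootsN hn hl
  have hlev : lev (toN n l) = (levN l : ℤ) := lev_toN l (by omega)
  have hd1 : 1 ≤ levN l := by
    have := hα.2
    rw [hlev] at this
    exact_mod_cast this
  obtain ⟨⟨_, hmu, _⟩, hsz, hdN, hdE, hval⟩ := chk2_spec hn hl
  -- `ζ` is a power of `ω`
  rw [hlev, mon_pt hn, zpow_natCast] at hζ
  obtain ⟨j, hj, hζj⟩ : ∃ j < levN l, ζ = ω ^ (dotN (wN n) l / levN l + NN n / levN l * j) := by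
    have hp : IsPrimitiveRoot (ω ^ (NN n / levN l)) (levN l) := hω.pow hNpos hdN
    have h1 : (ζ * (ω ^ (dotN (wN n) l / levN l))⁻¹) ^ levN l = 1 := by
      rw [mul_pow, hζ, inv_pow, ← pow_mul, ← hdE]
      exact mul_inv_cancel₀ (pow_ne_zero _ hω0)
    have : NeZero (levN l) := ⟨by omega⟩
    obtain ⟨j, hj, h2⟩ := hp.eq_pow_of_pow_eq_one h1
    refine ⟨j, hj, ?_⟩
    rw [pow_add, pow_mul, h2, mul_comm ζ, ← mul_assoc, mul_inv_cancel₀ (pow_ne_zero _ hω0),
      one_mul]
  obtain ⟨e, he, hζe, hv⟩ : ∃ e < NN n, ζ = ω ^ e ∧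
      chkV n (levN l) (halfN n l) (muN n l) (epN n l) e = true :=
    ⟨_, Nat.mod_lt _ hNpos, by rw [hζj]; exact pow_eq_pow_mod _ hω.pow_eq_one, hval j hj⟩
  have hz : ζ ≠ 0 := by rw [hζe]; exact pow_ne_zero _ hω0
  obtain ⟨h', hL, hε, hμ⟩ := exists_half hn hl
  have hq : qch (xgp n ω) ζ (toN n l) = 1 := by
    rw [qch_eq_one hz, hlev, mon_pt hn, zpow_natCast, hζ]
  rw [D_indep hα.1 h h' hx hz hq]
  unfold Half.D
  rw [hL, hε, hμ, qch_neg, qch_neg, varpi_toN hn, hζe,
    qch_pt hn hω.pow_eq_one he (by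
      rcases hn with rfl | rfl | rfl <;> rfl),
    qch_pt hn hω.pow_eq_one he hmu]
  have hprod : ∏ c ∈ ((halfN n l).map (toN n)).toFinset, (qch (xgp n ω) (ω ^ e) c - 1)
      = (((halfN n l).map (kexp n e)).map (fun k => ω ^ k - 1)).prod := by
    rw [List.prod_toFinset _ (nodup_half hn l), List.map_map, List.map_map]
    congr 1
    apply List.map_congr_left
    intro c hc
    simp only [Function.comp]
    rw [qch_pt hn hω.pow_eq_one he (length_rootsN hn (List.mem_filter.1 hc).1)]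
  rw [hprod, hlev]
  have hm : 0 < NN n / 2 := by rcases hn with rfl | rfl | rfl <;> decide
  have hm2 : NN n / 2 * 2 = NN n := by rcases hn with rfl | rfl | rfl <;> decide
  have hne : ∀ k, 0 < k → k < NN n → ω ^ k ≠ 1 := fun k h1 h2 => hω.pow_ne_one_of_pos_of_lt
    (by omega) h2
  have hωm : ω ^ (NN n / 2) = -1 := by
    have h1 : (ω ^ (NN n / 2)) * (ω ^ (NN n / 2)) = 1 := by
      rw [← pow_two, ← pow_mul, hm2, hω.pow_eq_one]
    rcases mul_self_eq_one_iff.1 h1 with h2 | h2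
    · exact absurd h2 (hne _ hm (by omega))
    · exact h2
  have hbin : ∀ k, 0 < k → 2 * k < NN n → ω ^ k + 1 ≠ 0 := by
    intro k h1 h2 h3
    have h4 : ω ^ k = -1 := by linear_combination h3
    apply hne (2 * k) (by omega) h2
    rw [mul_comm, pow_mul, h4]; norm_num
  have hp : ω ^ th1 n + 1 ≠ 0 := hbin _
    (by rcases hn with rfl | rfl | rfl <;> decide) (by rcases hn with rfl | rfl | rfl <;> decide)
  have hqq : ω ^ th2 n + 1 ≠ 0 := hbin _
    (by rcases hn with rfl | rfl | rfl <;> decide) (by rcases hn with rfl | rfl | rfl <;> decide)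
  unfold chkV at hv
  rw [beq_iff_eq] at hv
  have hfin := kron_eq hm (by norm_num : 0 < 2 ^ 64) hωm (th1 n) (th2 n) hp hqq (levN l) (NN n)
    _ ((halfN n l).map (kexp n e)) (by rw [List.length_map]; exact hsz) hv
  rw [← pow_eq_pow_mod _ hω.pow_eq_one, pow_add, pow_add, pow_mul, hωm, pow_add] at hfin
  have hk : (kap n : K) = (-1) ^ ke n := by
    rcases hn with rfl | rfl | rfl <;> norm_num [kap, ke]
  rw [hk]
  have hA : ω ^ kexp n e (varpiL n) ≠ 0 := pow_ne_zero _ hω0
  have hB : ω ^ kexp n e (muN n l) ≠ 0 := pow_ne_zero _ hω0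
  have s1 : ((-1 : K) ^ ke n) * (-1) ^ ke n = 1 := by rw [← mul_pow]; norm_num
  have s2 : ((-1 : K) ^ epN n l) * (-1) ^ epN n l = 1 := by rw [← mul_pow]; norm_num
  have hcast : (((levN l : ℕ) : ℤ) : K) = (levN l : K) := by push_cast; rfl
  rw [hcast]
  calc (-1) ^ ke n * (ω ^ kexp n e (varpiL n))⁻¹ *
        ((-1) ^ epN n l * (ω ^ kexp n e (muN n l))⁻¹ *
          (List.map (fun k => ω ^ k - 1) (List.map (kexp n e) (halfN n l))).prod) *
        (levN l : K) ^ 2
      = (-1) ^ ke n * (-1) ^ epN n l * ((ω ^ kexp n e (varpiL n))⁻¹ *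
        (ω ^ kexp n e (muN n l))⁻¹) * ((levN l : K) ^ 2 *
          (List.map (fun k => ω ^ k - 1) (List.map (kexp n e) (halfN n l))).prod) := by ring
    _ = (NN n : K) ^ 2 * (((-1) ^ ke n * (-1) ^ ke n) * ((-1) ^ epN n l * (-1) ^ epN n l)) *
        ((ω ^ kexp n e (varpiL n))⁻¹ * ω ^ kexp n e (varpiL n)) *
        ((ω ^ kexp n e (muN n l))⁻¹ * ω ^ kexp n e (muN n l)) := by rw [hfin]; ring
    _ = (NN n : K) ^ 2 := by
        rw [s1, s2, inv_mul_cancel₀ hA, inv_mul_cancel₀ hB]; ring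

end BMM
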