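/-
MP_b1ea0f_al, library BMM, module Step57 (about 180 lines, algebra).  Section 5.7, one step.
Abstract form: O a commutative ring, t ∈ O, B an O-algebra, ρ : B → End M a surjective ring
homomorphism with kernel t B, t a non-zero-divisor on B, f : O → K with ρ(algebraMap r) = f r.
(Later: O = K[[t]], B = matrices over O.)
PROOF. r ≥ 1, G satisfies the relations modulo t^r:
   aeval (G x) (Pt x) = t^r u_x,   G x * Z - Z * G x = t^r v_x,  Z = zop G.
(i) Make the polynomials vanish mod t^{r+1}. aeval (G x) (Pt x) commutes with G x, so t^r (u_x G - G u_x)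
    = 0, so u_x commutes with G x and ρ(u_x) commutes with g x = ρ(G x). By `hU.img` there is η with
    dP (P x) (g x) η = ρ(u_x). Take η' ∈ B with ρ(η') = η, G' x = G x - t^r η'. By dP_expand
    aeval (G' x) (Pt x) = t^r (u_x - dP (Pt x) (G x) η') + t^{2r} ρ', and ρ(u_x - dP ...) = 0 by dP_map,
    so it is in t B; 2r ≥ r+1. The commutators G' Z' - Z' G' are still ≡ 0 mod t^r (G' ≡ G mod t^r).
(ii) Now aeval (G x) (Pt x) = t^{r+1} u_x and G x * Z - Z * G x = t^r v_x. Let z = ρ(Z) = zop g (invertible;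
    w its inverse). Put σ_x := - ρ(v_x) w, i.e. Z G x - G x Z = t^r (σ_x z + ...) with ρ-part σ_x z.
    (a) dP (P x) (g x) σ_x = 0: choose W ∈ B with ρ(W) = w. From (Z G - G Z) = - t^r v_x:
        Z^k-free argument: for a polynomial Q, Z * aeval G Q - aeval G Q * Z = dP Q G (Z G - G Z)
        (this is dP_ad with s = Z). With Q = Pt x: the left side is in t^{r+1} B, the right side is
        - t^r dP (Pt x) (G x) v_x. So dP (Pt x) (G x) v_x ∈ t B, i.e. dP (P x) (g x) (ρ v_x) = 0, and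
        dP is right-linear for w (w commutes with g x): dP (P x) (g x) (σ_x) = 0.
    (b) L σ = 0: the identity [Z,A]BC + A[Z,B]C + AB[Z,C] = Z ABC - ABC Z = 0 gives
        t^r (v_0 B C + A v_1 C + A B v_2) = 0, so ρ(v_0) b c + a ρ(v_1) c + a b ρ(v_2) = 0; multiply
        by w on the right (w commutes with a, b, c).
    By hU.ker σ_x = s g x - g x s, so σ ∈ I3; by hU.exact there is δ ∈ I3 with d1 g w δ = σ. Take
    Δ x ∈ B over δ x and G' x = G x - t^r Δ x. δ ∈ I3 gives dP (P x) (g x) (δ x) = 0 (dP_ad), so the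
    polynomials are still 0 mod t^{r+1} (dP_expand). Z' = zop G' = Z - t^r (Δ_0 BC + A Δ_1 C + AB Δ_2)
    mod t^{2r}. G' Z' - Z' G' = t^r v_x - t^r [Δ_x Z - Z Δ_x + G L(Δ) - L(Δ) G] mod t^{r+1}; its
    ρ-part is ρ(v_x) - (δ_x z - z δ_x + g L(δ) - L(δ) g) = - σ_x z + (z δ_x w - δ_x + [L(δ) w, g]) z
    = (- σ_x + d1 δ x) z = 0. So G' Z' - Z' G' ∈ t^{r+1} B.
-/
import Pool.Agent.Lib.BMM.DPl

open Polynomial

namespace BMM

/-- Relations modulo `t^r`. -/
def RelMod {O : Type*} [CommRing O] {B : Type*} [Ring B] [Algebra O B] (t : O)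
    (Pt : Fin 3 → O[X]) (r : ℕ) (G : Fin 3 → B) : Prop :=
  (∀ x, ∃ u, aeval (G x) (Pt x) = t ^ r • u) ∧ ∀ x, ∃ v, G x * zop G - zop G * G x = t ^ r • v

section aux57

variable {O : Type*} [CommRing O] {B : Type*} [Ring B] [Algebra O B]

theorem dP_mul_right57 (P : O[X]) (g η w : B) (hw : w * g = g * w) :
    dP P g (η * w) = dP P g η * w := by
  have hc : Commute w g := hw
  change P.sum (fun k p => p • ∑ i ∈ Finset.range k, g ^ i * (η * w) * g ^ (k - 1 - i))
    = P.sum (fun k p => p • ∑ i ∈ Finset.range k, g ^ i * η * g ^ (k - 1 - i)) * w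
  simp only [Polynomial.sum, Finset.sum_mul, smul_mul_assoc]
  refine Finset.sum_congr rfl fun k _ => ?_
  congr 1
  refine Finset.sum_congr rfl fun i _ => ?_
  rw [mul_assoc (g ^ i) η (g ^ (k - 1 - i)), mul_assoc (g ^ i) _ w, mul_assoc η _ w,
    ← (hc.pow_right (k - 1 - i)).eq, mul_assoc (g ^ i), mul_assoc η]

theorem zop_expand57 (G b : Fin 3 → B) (s : O) :
    ∃ R, zop (fun x => G x + s • b x) = zop G
      + s • (b 0 * G 1 * G 2 + G 0 * b 1 * G 2 + G 0 * G 1 * b 2) + s ^ 2 • R := by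
  refine ⟨b 0 * b 1 * G 2 + b 0 * G 1 * b 2 + G 0 * b 1 * b 2 + s • (b 0 * b 1 * b 2), ?_⟩
  simp only [zop, mul_add, add_mul, smul_mul_assoc, mul_smul_comm, smul_add, smul_smul, pow_two,
    mul_assoc]
  module

theorem comm_expand57 (G b : Fin 3 → B) (s : O) (x : Fin 3) :
    ∃ R, (G x + s • b x) * zop (fun x => G x + s • b x)
        - zop (fun x => G x + s • b x) * (G x + s • b x)
      = (G x * zop G - zop G * G x)
        + s • (b x * zop G - zop G * b x
          + (G x * (b 0 * G 1 * G 2 + G 0 * b 1 * G 2 + G 0 * G 1 * b 2)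
            - (b 0 * G 1 * G 2 + G 0 * b 1 * G 2 + G 0 * G 1 * b 2) * G x)) + s ^ 2 • R := by
  obtain ⟨R, hR⟩ := zop_expand57 G b s
  rw [hR]
  set L := b 0 * G 1 * G 2 + G 0 * b 1 * G 2 + G 0 * G 1 * b 2
  refine ⟨b x * L - L * b x + (G x * R - R * G x) + s • (b x * R - R * b x), ?_⟩
  simp only [mul_add, add_mul, smul_mul_assoc, mul_smul_comm, smul_add, smul_sub, smul_smul,
    pow_two]
  module

theorem reg_pow57 {t : O} (hreg : ∀ b : B, t • b = 0 → b = 0) (r : ℕ) (b : B)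
    (h : t ^ r • b = 0) : b = 0 := by
  induction r with
  | zero => simpa using h
  | succ r ih =>
    apply ih
    apply hreg
    rw [smul_smul, ← pow_succ']
    exact h

end aux57

theorem step57 {K : Type*} [Field K] {M : Type*} [AddCommGroup M] [Module K M]
    {O : Type*} [CommRing O] {B : Type*} [Ring B] [Algebra O B] (t : O)
    (f : O →+* K) (ρ : B →+* Module.End K M)
    (hρ : ∀ r, ρ (algebraMap O B r) = algebraMap K (Module.End K M) (f r))
    (hsurj : Function.Surjective ρ) (hker : ∀ b, ρ b = 0 ↔ ∃ b', b = t • b')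
    (hreg : ∀ b : B, t • b = 0 → b = 0)
    (Pt : Fin 3 → O[X]) {g : Fin 3 → Module.End K M}
    (hU : Unob (fun x => (Pt x).map f) g) (r : ℕ) (hr : 1 ≤ r)
    (G : Fin 3 → B) (hG : ∀ x, ρ (G x) = g x) (hrel : RelMod t Pt r G) :
    ∃ G' : Fin 3 → B, (∀ x, ∃ b, G' x = G x + t ^ r • b) ∧ RelMod t Pt (r + 1) G' := by
  have hρt : ∀ b, ρ (t • b) = 0 := fun b => (hker _).2 ⟨b, rfl⟩
  have hρtr : ∀ b, ρ (t ^ r • b) = 0 := by
    intro b
    obtain ⟨m, rfl⟩ : ∃ m, r = m + 1 := ⟨r - 1, by omega⟩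
    rw [pow_succ', mul_smul]
    exact hρt _
  have hregr : ∀ b : B, t ^ r • b = 0 → b = 0 := reg_pow57 hreg r
  have h2r : ∀ b : B, (t ^ r) ^ 2 • b = t ^ (r + 1) • (t ^ (r - 1) • b) := by
    intro b
    rw [smul_smul, ← pow_add, ← pow_mul]
    congr 2
    omega
  have htr1 : ∀ b : B, t ^ r • (t • b) = t ^ (r + 1) • b := by
    intro b
    rw [smul_smul, ← pow_succ]
  obtain ⟨hpol, hcom⟩ := hrel
  choose u hu using hpol
  choose v hv using hcom
  -- step (i)
  have hucomm : ∀ x, u x * G x = G x * u x := by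
    intro x
    have h1 : aeval (G x) (Pt x) * G x = G x * aeval (G x) (Pt x) := by
      have h3 := map_mul (Polynomial.aeval (R := O) (G x)) (Pt x) X
      have h2 := map_mul (Polynomial.aeval (R := O) (G x)) X (Pt x)
      rw [mul_comm X (Pt x), h3, aeval_X] at h2
      exact h2
    have h2 : t ^ r • (u x * G x - G x * u x) = 0 := by
      rw [smul_sub, ← smul_mul_assoc, ← mul_smul_comm, ← hu x, h1, sub_self]
    exact sub_eq_zero.1 (hregr _ h2)
  have hη : ∀ x, ∃ η, dP ((Pt x).map f) (g x) η = ρ (u x) := by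
    intro x
    apply hU.img x
    rw [← hG x, ← map_mul, ← map_mul, hucomm x]
  choose η hη using hη
  choose η' hη' using fun x => hsurj (η x)
  have hPi : ∀ x, ∃ c, aeval (G x + t ^ r • (-η' x)) (Pt x) = t ^ (r + 1) • c := by
    intro x
    obtain ⟨R, hR⟩ := dP_expand (Pt x) (G x) (-η' x) (t ^ r)
    have h1 : ρ (u x + dP (Pt x) (G x) (-η' x)) = 0 := by
      rw [map_add, dP_map f ρ hρ, hG, map_neg ρ, map_neg (dP _ _), hη', hη, add_neg_cancel]
    obtain ⟨c, hc⟩ := (hker _).1 h1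
    refine ⟨c + t ^ (r - 1) • R, ?_⟩
    rw [hR, hu, ← smul_add, hc, htr1, h2r, ← smul_add]
  set G1 : Fin 3 → B := fun x => G x + t ^ r • (-η' x) with hG1
  have hG1ρ : ∀ x, ρ (G1 x) = g x := by
    intro x
    rw [hG1]
    simp only [map_add, hρtr, add_zero, hG]
  have hC1 : ∀ x, ∃ v', G1 x * zop G1 - zop G1 * G1 x = t ^ r • v' := by
    intro x
    obtain ⟨R, hR⟩ := comm_expand57 G (fun x => -η' x) (t ^ r) x
    rw [hv] at hR
    rw [pow_two, mul_smul, ← smul_add, ← smul_add] at hR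
    exact ⟨_, hR⟩
  choose u1 hu1 using hPi
  choose v1 hv1 using hC1
  -- step (ii)
  have hρZ : ρ (zop G1) = zop g := by
    simp only [zop, map_mul, hG1ρ]
  have hzu : IsUnit (zop g) := ((hU.unit 0).mul (hU.unit 1)).mul (hU.unit 2)
  obtain ⟨w, hw1, hw2⟩ : ∃ w, w * zop g = 1 ∧ zop g * w = 1 := by
    obtain ⟨z, hz⟩ := hzu
    exact ⟨↑z⁻¹, by rw [← hz]; simp, by rw [← hz]; simp⟩
  have hzg : ∀ x, g x * zop g = zop g * g x := fun x => hU.tri.comm_z x
  have hwg : ∀ x, w * g x = g x * w := by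
    intro x
    calc w * g x = w * (g x * (zop g * w)) := by rw [hw2, mul_one]
      _ = w * (zop g * g x) * w := by rw [← mul_assoc (g x), hzg]; simp only [mul_assoc]
      _ = g x * w := by rw [← mul_assoc w, hw1, one_mul]
  have ha : ∀ x, dP ((Pt x).map f) (g x) (ρ (v1 x)) = 0 := by
    intro x
    have h1 := dP_ad (Pt x) (G1 x) (zop G1)
    have h2 : zop G1 * G1 x - G1 x * zop G1 = t ^ r • (-v1 x) := by
      rw [smul_neg, ← hv1 x, neg_sub]
    rw [h2, (show aeval (G1 x) (Pt x) = _ from hu1 x), map_smul, mul_smul_comm, smul_mul_assoc,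
      ← smul_sub, ← htr1] at h1
    have h3 : dP (Pt x) (G1 x) (-v1 x) = t • (zop G1 * u1 x - u1 x * zop G1) := by
      have h4 : t ^ r • (dP (Pt x) (G1 x) (-v1 x) - t • (zop G1 * u1 x - u1 x * zop G1)) = 0 := by
        rw [smul_sub, h1, sub_self]
      exact sub_eq_zero.1 (hregr _ h4)
    have h5 := congrArg ρ h3
    rw [hρt, dP_map f ρ hρ, hG1ρ, map_neg ρ, map_neg (dP _ _), neg_eq_zero] at h5
    exact h5
  set σ : Fin 3 → Module.End K M := fun x => -(ρ (v1 x) * w) with hσ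
  have hσd : ∀ x, dP ((Pt x).map f) (g x) (σ x) = 0 := by
    intro x
    rw [hσ]
    simp only [map_neg]
    rw [dP_mul_right57 _ _ _ _ (hwg x), ha, zero_mul, neg_zero]
  have hσI : σ ∈ I3 g g := by
    rw [I3, Submodule.mem_pi]
    intro x _
    obtain ⟨s, hs⟩ := hU.ker x (σ x) (hσd x)
    exact ⟨s, hs.symm⟩
  have hLv : v1 0 * G1 1 * G1 2 + G1 0 * v1 1 * G1 2 + G1 0 * G1 1 * v1 2 = 0 := by
    apply hregr
    have e : t ^ r • (v1 0 * G1 1 * G1 2 + G1 0 * v1 1 * G1 2 + G1 0 * G1 1 * v1 2)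
        = (t ^ r • v1 0) * G1 1 * G1 2 + G1 0 * (t ^ r • v1 1) * G1 2
          + G1 0 * G1 1 * (t ^ r • v1 2) := by
      simp only [smul_add, smul_mul_assoc, mul_smul_comm]
    rw [e, ← hv1, ← hv1, ← hv1]
    simp only [zop]
    noncomm_ring
  have hLσ : LL g g σ = 0 := by
    have h1 := congrArg ρ hLv
    simp only [map_add, map_mul, hG1ρ, map_zero] at h1
    have h2 : LL g g σ = -((ρ (v1 0) * g 1 * g 2 + g 0 * ρ (v1 1) * g 2 + g 0 * g 1 * ρ (v1 2))
        * w) := by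
      change σ 0 * (g 1 * g 2) + g 0 * (σ 1 * g 2) + g 0 * (g 1 * σ 2) = _
      simp only [hσ]
      have e1 : -(ρ (v1 0) * w) * (g 1 * g 2) = -(ρ (v1 0) * g 1 * g 2 * w) := by
        rw [neg_mul, mul_assoc (ρ (v1 0)) w, ← mul_assoc w, hwg, mul_assoc (g 1) w, hwg]
        simp only [mul_assoc]
      have e2 : g 0 * (-(ρ (v1 1) * w) * g 2) = -(g 0 * ρ (v1 1) * g 2 * w) := by
        rw [neg_mul, mul_assoc (ρ (v1 1)) w, hwg]
        simp only [mul_assoc, mul_neg]
      have e3 : g 0 * (g 1 * -(ρ (v1 2) * w)) = -(g 0 * g 1 * ρ (v1 2) * w) := by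
        simp only [mul_assoc, mul_neg]
      rw [e1, e2, e3]
      simp only [add_mul]
      abel
    rw [h2, h1, zero_mul, neg_zero]
  obtain ⟨δ, hδI, hδ⟩ := hU.exact w hw1 σ hσI hLσ
  choose Δ hΔ using fun x => hsurj (δ x)
  refine ⟨fun x => G1 x + t ^ r • (-Δ x), fun x => ⟨-η' x + -Δ x, ?_⟩, fun x => ?_, fun x => ?_⟩
  · simp only [hG1]
    rw [smul_add, add_assoc]
  · obtain ⟨R, hR⟩ := dP_expand (Pt x) (G1 x) (-Δ x) (t ^ r)
    have hδx : δ x ∈ LinearMap.range (ad (g x) (g x)) := by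
      rw [I3, Submodule.mem_pi] at hδI
      exact hδI x trivial
    obtain ⟨s, hs⟩ := hδx
    have hs' : δ x = s * g x - g x * s := hs.symm
    have h0 : dP ((Pt x).map f) (g x) (δ x) = 0 := by
      rw [hs', dP_ad, hU.tri.pol x, mul_zero, zero_mul, sub_zero]
    have h1 : ρ (dP (Pt x) (G1 x) (-Δ x)) = 0 := by
      rw [dP_map f ρ hρ, hG1ρ, map_neg ρ, map_neg (dP _ _), hΔ, h0, neg_zero]
    obtain ⟨c, hc⟩ := (hker _).1 h1
    refine ⟨u1 x + c + t ^ (r - 1) • R, ?_⟩
    rw [hR, (show aeval (G1 x) (Pt x) = _ from hu1 x), hc, htr1, h2r, ← smul_add, ← smul_add]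
  · obtain ⟨R, hR⟩ := comm_expand57 G1 (fun x => -Δ x) (t ^ r) x
    rw [hv1, h2r, ← smul_add] at hR
    set L : B := -Δ 0 * G1 1 * G1 2 + G1 0 * -Δ 1 * G1 2 + G1 0 * G1 1 * -Δ 2 with hL
    have hLρ : ρ L = -(LL g g δ) := by
      change ρ L = -(δ 0 * (g 1 * g 2) + g 0 * (δ 1 * g 2) + g 0 * (g 1 * δ 2))
      rw [hL]
      simp only [map_add, map_mul, map_neg, hG1ρ, hΔ]
      noncomm_ring
    have hkey : ρ (v1 x) = δ x * zop g - zop g * δ x + (g x * LL g g δ - LL g g δ * g x) := by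
      have h1 := congrFun hδ x
      rw [d1_apply] at h1
      have h2 := congrArg (fun y => y * zop g) h1
      simp only [hσ] at h2
      have e1 : -(ρ (v1 x) * w) * zop g = -ρ (v1 x) := by
        rw [neg_mul, mul_assoc, hw1, mul_one]
      have e2 : (zop g * δ x * w - δ x + (LL g g δ * w * g x - g x * (LL g g δ * w))) * zop g
          = zop g * δ x - δ x * zop g + (LL g g δ * g x - g x * LL g g δ) := by
        have e3 : zop g * δ x * w * zop g = zop g * δ x := by rw [mul_assoc, hw1, mul_one]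
        have e4 : LL g g δ * w * g x * zop g = LL g g δ * g x := by
          rw [mul_assoc, hzg, ← mul_assoc, mul_assoc (LL g g δ) w, hw1, mul_one]
        have e5 : g x * (LL g g δ * w) * zop g = g x * LL g g δ := by
          rw [mul_assoc, mul_assoc, hw1, mul_one]
        rw [add_mul, sub_mul, sub_mul, e3, e4, e5]
      rw [e1, e2] at h2
      rw [← neg_neg (ρ (v1 x)), ← h2]
      abel
    have h0 : ρ (v1 x + (-Δ x * zop G1 - zop G1 * -Δ x + (G1 x * L - L * G1 x))) = 0 := by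
      simp only [map_add, map_sub, map_mul, map_neg, hG1ρ, hΔ, hρZ, hLρ, hkey]
      noncomm_ring
    obtain ⟨c, hc⟩ := (hker _).1 h0
    refine ⟨c + t ^ (r - 1) • R, ?_⟩
    rw [hR, hc, htr1, ← smul_add]

end BMM
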