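/-
MP_b1ea0f_al, library BMM, module Lim57 (about 130 lines).  Section 5.7, the limit.
PROOF. O = K[[X]], B = Matrix ι ι O, t = X, f = constantCoeff,
ρ = (Matrix.toLinAlgEquiv b) ∘ (Matrix.map constantCoeff) : B → End M (a ring homomorphism, surjective
because constantCoeff is; kernel: all entries divisible by X (`PowerSeries.X_dvd_iff`)), X is a
non-zero-divisor on B. Start: G_1 = the constant matrices of g (satisfies the relations mod X^1 since
ρ(relation) = 0; `hU.tri`). By step57 and recursion a sequence G_r (r ≥ 1) with G_{r+1} ≡ G_r mod X^r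
and RelMod X Pt r G_r. Limit: the coefficient of X^m of the entries of G is that of G_{m+1}
(`PowerSeries.mk`). Then G ≡ G_r mod X^r for every r, hence RelMod X Pt r G for every r (a polynomial
expression in matrices congruent mod X^r), and an element divisible by X^r for all r is 0. So
aeval (G x) (Pt x) = 0 and G x commutes with Z = zop G. Finally IsTriple: Z = G0 G1 G2; from
G0 Z = Z G0 = G0 (G1 G2 G0) and G0 cancellable (its reduction g 0 is invertible, so G0 is invertible
over O: determinant is a unit `Matrix.isUnit_iff_isUnit_det`, `PowerSeries.isUnit_iff_constantCoeff`):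
Z = G1 G2 G0; from Z G2 = G2 Z: (G0 G1) G2 G2... precisely G2 Z = Z G2 means (G2 G0 G1) G2 = Z G2, so
Z = G2 G0 G1.
-/
import Pool.Agent.Lib.BMM.Step57

open Polynomial

namespace BMM

section lim

variable {K : Type*} [Field K] {M : Type*} [AddCommGroup M] [Module K M]
  {ι : Type*} [Fintype ι] [DecidableEq ι]

/-- Reduction modulo `X`, as operators. -/
private noncomputable def rho (b : Module.Basis ι K M) :
    Matrix ι ι (PowerSeries K) →+* Module.End K M :=
  ((Matrix.toLinAlgEquiv b : Matrix ι ι K ≃ₐ[K] (M →ₗ[K] M)) :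
    Matrix ι ι K →+* Module.End K M).comp (PowerSeries.constantCoeff (R := K)).mapMatrix

private theorem rho_apply (b : Module.Basis ι K M) (A : Matrix ι ι (PowerSeries K)) :
    rho b A = Matrix.toLinAlgEquiv b (A.map (PowerSeries.constantCoeff (R := K))) := rfl

private theorem rho_eq_iff (b : Module.Basis ι K M) (A : Matrix ι ι (PowerSeries K))
    (g : Module.End K M) :
    rho b A = g ↔ A.map (PowerSeries.constantCoeff (R := K)) = LinearMap.toMatrix b b g := by
  rw [rho_apply]
  constructor
  · intro h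
    rw [← h]
    exact (LinearMap.toMatrix_toLin b b _).symm
  · intro h
    rw [h]
    exact Matrix.toLin_toMatrix b b g

private theorem rho_algebraMap (b : Module.Basis ι K M) (r : PowerSeries K) :
    rho b (algebraMap (PowerSeries K) (Matrix ι ι (PowerSeries K)) r) =
      algebraMap K (Module.End K M) (PowerSeries.constantCoeff (R := K) r) := by
  have h : (algebraMap (PowerSeries K) (Matrix ι ι (PowerSeries K)) r).map
      (PowerSeries.constantCoeff (R := K)) =
      algebraMap K (Matrix ι ι K) (PowerSeries.constantCoeff (R := K) r) := by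
    ext i j
    rw [Matrix.map_apply, Matrix.algebraMap_matrix_apply, Matrix.algebraMap_matrix_apply]
    split_ifs
    · rfl
    · exact map_zero _
  rw [rho_apply, h]
  exact (Matrix.toLinAlgEquiv b : Matrix ι ι K ≃ₐ[K] (M →ₗ[K] M)).commutes _

private theorem rho_surjective (b : Module.Basis ι K M) : Function.Surjective (rho b) := by
  intro g
  refine ⟨(LinearMap.toMatrix b b g).map (PowerSeries.C (R := K)), ?_⟩
  rw [rho_eq_iff]
  ext i j
  simp

private theorem rho_ker (b : Module.Basis ι K M) (A : Matrix ι ι (PowerSeries K)) :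
    rho b A = 0 ↔ ∃ A', A = (PowerSeries.X : PowerSeries K) • A' := by
  rw [rho_eq_iff, map_zero]
  constructor
  · intro h
    have h2 : ∀ i j, ∃ c, A i j = PowerSeries.X * c := by
      intro i j
      apply PowerSeries.X_dvd_iff.2
      have := congrFun (congrFun h i) j
      simpa using this
    choose c hc using h2
    refine ⟨Matrix.of c, ?_⟩
    ext1 i j
    rw [Matrix.smul_apply, smul_eq_mul]
    exact hc i j
  · rintro ⟨A', rfl⟩
    ext i j
    simp

private theorem X_reg (A : Matrix ι ι (PowerSeries K))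
    (h : (PowerSeries.X : PowerSeries K) • A = 0) : A = 0 := by
  ext1 i j
  have h2 : PowerSeries.X * A i j = 0 := by
    have := congrFun (congrFun h i) j
    rwa [Matrix.smul_apply, smul_eq_mul] at this
  rcases mul_eq_zero.1 h2 with h3 | h3
  · exact absurd h3 PowerSeries.X_ne_zero
  · exact h3

/-- Reduction modulo `X^r`. -/
private noncomputable def qr (K : Type*) [Field K] (ι : Type*) [Fintype ι] [DecidableEq ι] (r : ℕ) :
    Matrix ι ι (PowerSeries K) →+*
      Matrix ι ι (PowerSeries K ⧸ Ideal.span {(PowerSeries.X : PowerSeries K) ^ r}) :=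
  (Ideal.Quotient.mk (Ideal.span {(PowerSeries.X : PowerSeries K) ^ r})).mapMatrix

private theorem qr_eq_iff (r : ℕ) (A A' : Matrix ι ι (PowerSeries K)) :
    qr K ι r A = qr K ι r A' ↔
      ∀ i j, ∀ m < r, PowerSeries.coeff m (A i j) = PowerSeries.coeff m (A' i j) := by
  constructor
  · intro h i j m hm
    have h2 := congrFun (congrFun h i) j
    have h3 : Ideal.Quotient.mk (Ideal.span {(PowerSeries.X : PowerSeries K) ^ r}) (A i j) =
      Ideal.Quotient.mk (Ideal.span {(PowerSeries.X : PowerSeries K) ^ r}) (A' i j) := h2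
    rw [Ideal.Quotient.eq, Ideal.mem_span_singleton, PowerSeries.X_pow_dvd_iff] at h3
    have h4 := h3 m hm
    rw [map_sub, sub_eq_zero] at h4
    exact h4
  · intro h
    ext1 i j
    change Ideal.Quotient.mk (Ideal.span {(PowerSeries.X : PowerSeries K) ^ r}) (A i j) =
      Ideal.Quotient.mk (Ideal.span {(PowerSeries.X : PowerSeries K) ^ r}) (A' i j)
    rw [Ideal.Quotient.eq, Ideal.mem_span_singleton, PowerSeries.X_pow_dvd_iff]
    intro m hm
    rw [map_sub, sub_eq_zero]
    exact h i j m hm

private theorem qr_smul (r : ℕ) (A : Matrix ι ι (PowerSeries K)) :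
    qr K ι r ((PowerSeries.X : PowerSeries K) ^ r • A) = 0 := by
  rw [← map_zero (qr K ι r), qr_eq_iff]
  intro i j m hm
  rw [Matrix.smul_apply, smul_eq_mul, PowerSeries.coeff_X_pow_mul', if_neg (by omega)]
  simp

private theorem qr_aeval (r : ℕ) (P : (PowerSeries K)[X]) (A A' : Matrix ι ι (PowerSeries K))
    (h : qr K ι r A = qr K ι r A') : qr K ι r (aeval A P) = qr K ι r (aeval A' P) := by
  rw [aeval_def, aeval_def, hom_eval₂, hom_eval₂, h]

private theorem eq_zero_of_qr (A : Matrix ι ι (PowerSeries K)) (h : ∀ r, qr K ι (r + 1) A = 0) :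
    A = 0 := by
  ext i j m
  have h2 := h m
  rw [← map_zero (qr K ι (m + 1)), qr_eq_iff] at h2
  exact h2 i j m (Nat.lt_succ_self m)

end lim

theorem lift_triple {K : Type*} [Field K] {M : Type*} [AddCommGroup M] [Module K M]
    {ι : Type*} [Fintype ι] [DecidableEq ι] (b : Module.Basis ι K M)
    (Pt : Fin 3 → (PowerSeries K)[X]) {g : Fin 3 → Module.End K M}
    (hU : Unob (fun x => (Pt x).map (PowerSeries.constantCoeff (R := K))) g) :
    ∃ G : Fin 3 → Matrix ι ι (PowerSeries K), IsTriple Pt G ∧
      ∀ x, (G x).map (PowerSeries.constantCoeff (R := K)) = LinearMap.toMatrix b b (g x) := by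
  classical
  set X' : PowerSeries K := PowerSeries.X with hX'
  -- the sequence
  let P : ℕ → (Fin 3 → Matrix ι ι (PowerSeries K)) → Prop := fun r G =>
    (∀ x, rho b (G x) = g x) ∧ RelMod X' Pt (r + 1) G
  have hstep : ∀ r G, P r G → ∃ G', P (r + 1) G' ∧ ∀ x, ∃ B, G' x = G x + X' ^ (r + 1) • B := by
    intro r G hG
    obtain ⟨G', h1, h2⟩ := step57 X' (PowerSeries.constantCoeff (R := K)) (rho b)
      (rho_algebraMap b) (rho_surjective b) (rho_ker b) (fun A hA => X_reg A hA) Pt hU (r + 1)
      (by omega) G hG.1 hG.2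
    refine ⟨G', ⟨fun x => ?_, h2⟩, h1⟩
    obtain ⟨B, hB⟩ := h1 x
    rw [hB, map_add, hG.1 x, pow_succ', mul_smul, (rho_ker b _).2 ⟨_, rfl⟩, add_zero]
  have hstart : ∃ G, P 0 G := by
    choose G hG using fun x => rho_surjective b (g x)
    refine ⟨G, hG, ?_, ?_⟩
    · intro x
      have h : rho b (aeval (G x) (Pt x)) = 0 := by
        rw [aeval_def, hom_eval₂, hG x]
        have h2 := hU.tri.pol x
        rw [aeval_def, eval₂_map] at h2
        rw [← h2]
        congr 1
        ext1 r
        exact rho_algebraMap b r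
      obtain ⟨u, hu⟩ := (rho_ker b _).1 h
      exact ⟨u, by rw [zero_add, pow_one]; exact hu⟩
    · intro x
      have h : rho b (G x * zop G - zop G * G x) = 0 := by
        rw [map_sub, map_mul, map_mul, hG x]
        have h3 : rho b (zop G) = g 0 * g 1 * g 2 := by
          rw [zop, map_mul, map_mul, hG, hG, hG]
        rw [h3, hU.tri.comm_z x, sub_self]
      obtain ⟨u, hu⟩ := (rho_ker b _).1 h
      exact ⟨u, by rw [zero_add, pow_one]; exact hu⟩
  obtain ⟨G₀, hG₀⟩ := hstart
  choose! F hF1 hF2 using hstep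
  let s : ℕ → (Fin 3 → Matrix ι ι (PowerSeries K)) := fun n => Nat.rec G₀ (fun r G => F r G) n
  have hs0 : s 0 = G₀ := rfl
  have hs1 : ∀ n, s (n + 1) = F n (s n) := fun n => rfl
  have hs : ∀ n, P n (s n) := by
    intro n
    induction n with
    | zero => exact hG₀
    | succ n ih => rw [hs1]; exact hF1 n _ ih
  have hstab1 : ∀ n x i j, ∀ m ≤ n, PowerSeries.coeff m (s (n + 1) x i j) =
      PowerSeries.coeff m (s n x i j) := by
    intro n x i j m hm
    rw [hs1]
    obtain ⟨B, hB⟩ := hF2 n _ (hs n) x
    rw [hB, Matrix.add_apply, Matrix.smul_apply, smul_eq_mul, map_add,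
      PowerSeries.coeff_X_pow_mul', if_neg (by omega), add_zero]
  have hstab : ∀ m k x i j, PowerSeries.coeff m (s (m + k) x i j) =
      PowerSeries.coeff m (s m x i j) := by
    intro m k x i j
    induction k with
    | zero => rfl
    | succ k ih => rw [← add_assoc, hstab1 (m + k) x i j m (by omega), ih]
  -- the limit
  let G : Fin 3 → Matrix ι ι (PowerSeries K) := fun x => Matrix.of fun i j =>
    PowerSeries.mk fun m => PowerSeries.coeff m (s m x i j)
  have hG : ∀ r x, qr K ι (r + 1) (G x) = qr K ι (r + 1) (s r x) := by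
    intro r x
    rw [qr_eq_iff]
    intro i j m hm
    obtain ⟨k, rfl⟩ := Nat.exists_eq_add_of_le (Nat.lt_succ_iff.1 hm)
    rw [hstab m k x i j]
    simp [G]
  have hpol : ∀ x, aeval (G x) (Pt x) = 0 := by
    intro x
    apply eq_zero_of_qr
    intro r
    rw [qr_aeval (r + 1) (Pt x) _ _ (hG r x)]
    obtain ⟨u, hu⟩ := (hs r).2.1 x
    rw [hu]
    exact qr_smul _ _
  have hcom : ∀ x, G x * zop G = zop G * G x := by
    intro x
    rw [← sub_eq_zero]
    apply eq_zero_of_qr
    intro r
    obtain ⟨v, hv⟩ := (hs r).2.2 x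
    have h3 : qr K ι (r + 1) (zop G) = qr K ι (r + 1) (zop (s r)) := by
      simp only [zop, map_mul, hG]
    rw [map_sub, map_mul, map_mul, h3, hG r x, ← map_mul, ← map_mul, ← map_sub, hv]
    exact qr_smul _ _
  have hred : ∀ x, rho b (G x) = g x := by
    intro x
    rw [rho_eq_iff, ← (rho_eq_iff b (s 0 x) (g x)).1 ((hs 0).1 x)]
    ext i j
    have h2 := (qr_eq_iff 1 _ _).1 (hG 0 x) i j 0 (by omega)
    rw [PowerSeries.coeff_zero_eq_constantCoeff_apply,
      PowerSeries.coeff_zero_eq_constantCoeff_apply] at h2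
    exact h2
  have hunit : ∀ x, IsUnit (G x) := by
    intro x
    rw [Matrix.isUnit_iff_isUnit_det, PowerSeries.isUnit_iff_constantCoeff, RingHom.map_det,
      ← Matrix.isUnit_iff_isUnit_det]
    have h2 : (PowerSeries.constantCoeff (R := K)).mapMatrix (G x) =
        LinearMap.toMatrixAlgEquiv b (g x) := (rho_eq_iff b _ _).1 (hred x)
    rw [h2]
    exact (hU.unit x).map (LinearMap.toMatrixAlgEquiv b)
  refine ⟨G, ⟨?_, ?_, hpol⟩, fun x => (rho_eq_iff b _ _).1 (hred x)⟩
  · have h := hcom 0
    rw [zop] at h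
    apply (hunit 0).mul_left_cancel
    rw [h]
    simp only [mul_assoc]
  · have h := hcom 2
    rw [zop] at h
    apply (hunit 2).mul_right_cancel
    rw [← h]
    simp only [mul_assoc]

end BMM
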