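/-
MP_b1ea0f_al, library BMM, module Mul (about 150 lines, linear algebra only).  Section 3.2.
The dimension of the space of maps commuting with one operator, in terms of flags.
PROOF. Induction on p (X, Y generalised). p = 0: the hypotheses say that the identity is 0, so X = Y
= 0 and both sides are 0. Step: u = g - ξ_0 on X and on Y, X' = uX, Y' = uY (invariant subspaces,
killed by ∏_{i ≥ 1} (g - ξ_i)). Restriction φ ↦ φ|X' maps Hom_g(X, Y) to Hom_g(X', Y')
(φ (u x) = u φ(x)).
 * It is surjective: for ψ : X' → Y' commuting with g, take a complement C of X' in X with basis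
   (c_k), put φ = ψ on X' and φ(c_k) = y_k where u y_k = ψ(u c_k) (possible as ψ(u c_k) ∈ Y' = uY).
   Then u φ(x) = φ(u x) for x ∈ X' and for x = c_k.
 * Its kernel is {φ : φ|X' = 0, φ(X) ⊂ ker (u|Y)} ≅ Hom(X/X', ker (u|Y)), of dimension
   (dim X - dim X') (dim Y - dim Y') = mult g ξ 0 * mult h ξ 0.
 * mult (g|X') (ξ ∘ succ) j = mult g ξ (j+1) because the image of (g - ξ_1)...(g - ξ_j) on X' = uX is
   the image of (g - ξ_0)(g - ξ_1)...(g - ξ_j) on X (the factors commute), and likewise for Y.
-/
import Pool.Agent.Lib.BMM.Ops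

open Polynomial

namespace BMM

variable {K : Type*} [Field K] {X Y : Type*} [AddCommGroup X] [Module K X]
  [AddCommGroup Y] [Module K Y]

/-- the product of the shifted operators over a list -/
private def mulW {Z : Type*} [AddCommGroup Z] [Module K Z] (g : Module.End K Z) (l : List K) :
    Module.End K Z :=
  (l.map (fun c => g - algebraMap K (Module.End K Z) c)).prod

private theorem mulW_cons {Z : Type*} [AddCommGroup Z] [Module K Z] (g : Module.End K Z) (c : K)
    (l : List K) :
    mulW g (c :: l) = (g - algebraMap K (Module.End K Z) c) * mulW g l := by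
  simp [mulW]

private theorem mul_aux_comm {Z : Type*} [AddCommGroup Z] [Module K Z] (g : Module.End K Z)
    (c d : K) :
    (g - algebraMap K (Module.End K Z) c) * (g - algebraMap K (Module.End K Z) d)
      = (g - algebraMap K (Module.End K Z) d) * (g - algebraMap K (Module.End K Z) c) := by
  rw [sub_mul, mul_sub, mul_sub, sub_mul, mul_sub, mul_sub, ← Algebra.commutes c g,
    ← Algebra.commutes d g, ← map_mul, ← map_mul, mul_comm c d]
  abel

private theorem mulW_comm {Z : Type*} [AddCommGroup Z] [Module K Z] (g : Module.End K Z) (c : K)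
    (l : List K) :
    (g - algebraMap K (Module.End K Z) c) * mulW g l
      = mulW g l * (g - algebraMap K (Module.End K Z) c) := by
  induction l with
  | nil => simp [mulW]
  | cons d l ih =>
    rw [mulW_cons, ← mul_assoc, mul_aux_comm g c d, mul_assoc, ih, mul_assoc]

private theorem mulW_intertwine (i : X →ₗ[K] Y) (g : Module.End K X) (h : Module.End K Y)
    (hi : ∀ x, i (g x) = h (i x)) (l : List K) (x : X) :
    i (mulW g l x) = mulW h l (i x) := by
  induction l generalizing x with
  | nil => simp [mulW]
  | cons c l ih =>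
    rw [mulW_cons, mulW_cons, Module.End.mul_apply, Module.End.mul_apply, ← ih,
      LinearMap.sub_apply, LinearMap.sub_apply, Module.algebraMap_end_apply,
      Module.algebraMap_end_apply, map_sub, map_smul, hi]

private theorem mulW_aeval {Z : Type*} [AddCommGroup Z] [Module K Z] (g : Module.End K Z) {p : ℕ}
    (ξ : Fin p → K) :
    aeval g (∏ i, (Polynomial.X - C (ξ i))) = mulW g (List.ofFn ξ) := by
  induction p with
  | zero => simp [mulW]
  | succ p ih =>
    rw [Fin.prod_univ_succ, map_mul, ih, List.ofFn_succ, mulW_cons]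
    congr 1
    simp

private theorem mul_fl_zero (g : Module.End K X) {p : ℕ} (ξ : Fin p → K) : fl g ξ 0 = ⊤ := by
  simp only [fl, List.take_zero, List.map_nil, List.prod_nil]
  exact LinearMap.range_id

private theorem mul_fl_succ (g : Module.End K X) {p : ℕ} (ξ : Fin (p + 1) → K)
    (g' : Module.End K (LinearMap.range (g - algebraMap K (Module.End K X) (ξ 0))))
    (hg' : ∀ x, ((g' x : LinearMap.range (g - algebraMap K (Module.End K X) (ξ 0))) : X)
      = g (x : X)) (j : ℕ) :
    fl g ξ (j + 1) = (fl g' (fun i => ξ i.succ) j).map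
      (LinearMap.range (g - algebraMap K (Module.End K X) (ξ 0))).subtype := by
  have e : fl g ξ (j + 1) = LinearMap.range ((g - algebraMap K (Module.End K X) (ξ 0)) *
      mulW g ((List.ofFn (fun i => ξ i.succ)).take j)) := by
    unfold fl mulW
    rw [List.ofFn_succ, List.take_succ_cons, List.map_cons, List.prod_cons]
  rw [e, mulW_comm g (ξ 0) _]
  have e2 : fl g' (fun i => ξ i.succ) j
      = LinearMap.range (mulW g' ((List.ofFn (fun i => ξ i.succ)).take j)) := rfl
  rw [e2]
  ext y
  simp only [LinearMap.mem_range, Submodule.mem_map, Module.End.mul_apply]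
  constructor
  · rintro ⟨x, rfl⟩
    refine ⟨mulW g' _ ⟨(g - algebraMap K (Module.End K X) (ξ 0)) x, ⟨x, rfl⟩⟩, ⟨_, rfl⟩, ?_⟩
    rw [mulW_intertwine (Submodule.subtype _) g' g hg']
    rfl
  · rintro ⟨_, ⟨⟨_, ⟨x, rfl⟩⟩, rfl⟩, rfl⟩
    refine ⟨x, ?_⟩
    rw [mulW_intertwine (Submodule.subtype _) g' g hg']
    rfl

private theorem mul_finrank_map {S T : Type*} [AddCommGroup S] [Module K S] [AddCommGroup T]
    [Module K T] (f : S →ₗ[K] T) (hf : Function.Injective f) (p : Submodule K S) :
    Module.finrank K (p.map f) = Module.finrank K p :=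
  (LinearEquiv.finrank_eq (Submodule.equivMapOfInjective f hf p)).symm

private theorem mul_fl_one (g : Module.End K X) {p : ℕ} (ξ : Fin (p + 1) → K) :
    fl g ξ 1 = LinearMap.range (g - algebraMap K (Module.End K X) (ξ 0)) := by
  unfold fl
  rw [List.ofFn_succ, List.take_succ_cons, List.map_cons, List.prod_cons, List.take_zero,
    List.map_nil, List.prod_nil, mul_one]

/-- the operator induced on the image of `g - ξ_0` -/
private theorem mul_exists_restrict (g : Module.End K X) {p : ℕ} (ξ : Fin (p + 1) → K)
    (hg : aeval g (∏ i, (Polynomial.X - C (ξ i))) = 0) :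
    ∃ g' : Module.End K (LinearMap.range (g - algebraMap K (Module.End K X) (ξ 0))),
      (∀ x, ((g' x : LinearMap.range (g - algebraMap K (Module.End K X) (ξ 0))) : X)
        = g (x : X)) ∧
      aeval g' (∏ i : Fin p, (Polynomial.X - C (ξ i.succ))) = 0 ∧
      (∀ j : Fin p, mult g' (fun i => ξ i.succ) j = mult g ξ j.succ) := by
  have hinv : ∀ x ∈ LinearMap.range (g - algebraMap K (Module.End K X) (ξ 0)),
      g x ∈ LinearMap.range (g - algebraMap K (Module.End K X) (ξ 0)) := by
    rintro _ ⟨x, rfl⟩
    refine ⟨g x, ?_⟩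
    have h := DFunLike.congr_fun (mul_aux_comm g (ξ 0) 0) x
    simpa using h
  refine ⟨g.restrict hinv, fun x => rfl, ?_, ?_⟩
  · rw [mulW_aeval]
    rw [mulW_aeval, List.ofFn_succ, mulW_cons, mulW_comm] at hg
    ext ⟨_, ⟨x, rfl⟩⟩
    have h1 := mulW_intertwine (Submodule.subtype _) (g.restrict hinv) g (fun x => rfl)
      (List.ofFn fun i => ξ i.succ) ⟨(g - algebraMap K (Module.End K X) (ξ 0)) x, ⟨x, rfl⟩⟩
    have h2 := DFunLike.congr_fun hg x
    rw [LinearMap.zero_apply, ZeroMemClass.coe_zero]
    refine Eq.trans h1 ?_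
    exact h2
  · intro j
    unfold mult
    rw [show ((j.succ : Fin (p + 1)) : ℕ) = (j : ℕ) + 1 from rfl,
      mul_fl_succ g ξ (g.restrict hinv) (fun x => rfl) j,
      mul_fl_succ g ξ (g.restrict hinv) (fun x => rfl) (j + 1),
      mul_finrank_map _ (Submodule.subtype_injective _),
      mul_finrank_map _ (Submodule.subtype_injective _)]

private theorem mul_step [FiniteDimensional K X] [FiniteDimensional K Y] (c : K)
    (g : Module.End K X) (h : Module.End K Y)
    (u : Module.End K X) (hu : u = g - algebraMap K (Module.End K X) c)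
    (v : Module.End K Y) (hv : v = h - algebraMap K (Module.End K Y) c)
    (g' : Module.End K (LinearMap.range u)) (h' : Module.End K (LinearMap.range v))
    (hg' : ∀ x, ((g' x : LinearMap.range u) : X) = g (x : X))
    (hh' : ∀ x, ((h' x : LinearMap.range v) : Y) = h (x : Y)) :
    Module.finrank K (LinearMap.ker (ad g h)) = Module.finrank K (LinearMap.ker (ad g' h'))
      + Module.finrank K (X ⧸ LinearMap.range u) * Module.finrank K (LinearMap.ker v) := by
  have hmem : ∀ φ : X →ₗ[K] Y, φ ∈ LinearMap.ker (ad g h) ↔ ∀ x, φ (u x) = v (φ x) := by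
    intro φ
    rw [LinearMap.mem_ker, ad_apply, sub_eq_zero, LinearMap.ext_iff]
    apply forall_congr'
    intro x
    simp only [hu, hv, LinearMap.comp_apply, LinearMap.sub_apply, Module.algebraMap_end_apply,
      map_sub, map_smul]
    constructor
    · intro h1; rw [h1]
    · intro h1; exact sub_left_injective h1
  have hmem' : ∀ φ : LinearMap.range u →ₗ[K] LinearMap.range v,
      φ ∈ LinearMap.ker (ad g' h') ↔ ∀ x, ((φ (g' x) : LinearMap.range v) : Y) = h (φ x) := by
    intro φ
    rw [LinearMap.mem_ker, ad_apply, sub_eq_zero, LinearMap.ext_iff]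
    apply forall_congr'
    intro x
    rw [LinearMap.comp_apply, LinearMap.comp_apply, ← hh', Subtype.ext_iff]
  -- restriction to the image
  let ρ : (X →ₗ[K] Y) →ₗ[K] (LinearMap.range u →ₗ[K] Y) :=
    LinearMap.lcomp K Y (LinearMap.range u).subtype
  let σ : (LinearMap.range u →ₗ[K] LinearMap.range v) →ₗ[K] (LinearMap.range u →ₗ[K] Y) :=
    { toFun := fun φ => (LinearMap.range v).subtype ∘ₗ φ
      map_add' := fun a b => by rw [LinearMap.comp_add]
      map_smul' := fun a b => by rw [LinearMap.comp_smul]; rfl }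
  have hσ : Function.Injective σ := by
    intro a b hab
    ext x
    exact DFunLike.congr_fun hab x
  have e1 : (LinearMap.ker (ad g h)).map ρ = (LinearMap.ker (ad g' h')).map σ := by
    ext ψ
    simp only [Submodule.mem_map]
    constructor
    · rintro ⟨φ, hφ, rfl⟩
      have hφ2 := (hmem φ).1 hφ
      have hr : ∀ x : LinearMap.range u, (φ ∘ₗ (LinearMap.range u).subtype) x ∈ LinearMap.range v := by
        rintro ⟨_, ⟨x, rfl⟩⟩
        exact ⟨φ x, (hφ2 x).symm⟩
      refine ⟨(φ ∘ₗ (LinearMap.range u).subtype).codRestrict _ hr, ?_, ?_⟩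
      · rw [hmem']
        intro x
        rw [LinearMap.codRestrict_apply, LinearMap.codRestrict_apply, LinearMap.comp_apply,
          LinearMap.comp_apply, Submodule.subtype_apply, Submodule.subtype_apply, hg']
        have h3 := LinearMap.mem_ker.1 hφ
        rw [ad_apply, sub_eq_zero] at h3
        exact DFunLike.congr_fun h3 (x : X)
      · ext x
        rfl
    · rintro ⟨ψ, hψ, rfl⟩
      have hψ2 := (hmem' ψ).1 hψ
      obtain ⟨π, hπ⟩ := LinearMap.exists_leftInverse_of_injective (LinearMap.range u).subtype
        (LinearMap.ker_eq_bot.2 (Submodule.subtype_injective _))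
      obtain ⟨s, hs⟩ := LinearMap.exists_rightInverse_of_surjective v.rangeRestrict
        v.range_rangeRestrict
      have hπ2 : ∀ x : LinearMap.range u, π x = x := fun x => DFunLike.congr_fun hπ x
      have hs2 : ∀ y : LinearMap.range v, v (s y) = y := fun y =>
        congrArg Subtype.val (DFunLike.congr_fun hs y)
      have hψ3 : ∀ x : LinearMap.range u, ((ψ (u.rangeRestrict x) : LinearMap.range v) : Y)
          = v (ψ x) := by
        intro x
        have h4 : u.rangeRestrict x = g' x - c • x := by
          ext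
          simp [hu, hg']
        rw [h4, map_sub, map_smul, Submodule.coe_sub, hψ2, Submodule.coe_smul]
        simp [hv]
      refine ⟨(LinearMap.range v).subtype ∘ₗ ψ ∘ₗ π + s ∘ₗ (ψ ∘ₗ u.rangeRestrict -
        v.rangeRestrict ∘ₗ (LinearMap.range v).subtype ∘ₗ ψ ∘ₗ π), ?_, ?_⟩
      · rw [hmem]
        have key : ∀ x : LinearMap.range u, ((LinearMap.range v).subtype ∘ₗ ψ ∘ₗ π + s ∘ₗ
            (ψ ∘ₗ u.rangeRestrict - v.rangeRestrict ∘ₗ (LinearMap.range v).subtype ∘ₗ ψ ∘ₗ π))
            (x : X) = ψ x := by
          intro x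
          have h5 : (ψ (u.rangeRestrict x) : LinearMap.range v) - v.rangeRestrict (ψ x) = 0 := by
            rw [sub_eq_zero]
            ext
            rw [hψ3]
            rfl
          simp only [LinearMap.add_apply, LinearMap.comp_apply, LinearMap.sub_apply,
            Submodule.subtype_apply, hπ2]
          rw [h5, map_zero, add_zero]
        intro x
        have h6 := key (u.rangeRestrict x)
        have h7 : ((u.rangeRestrict x : LinearMap.range u) : X) = u x := rfl
        rw [h7] at h6
        rw [h6]
        simp only [LinearMap.add_apply, LinearMap.comp_apply, LinearMap.sub_apply,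
          Submodule.subtype_apply, map_add, hs2]
        have h8 : ∀ y : Y, ((v.rangeRestrict y : LinearMap.range v) : Y) = v y := fun y => rfl
        rw [Submodule.coe_sub, h8]
        abel
      · ext x
        have h5 : (ψ (u.rangeRestrict x) : LinearMap.range v) - v.rangeRestrict (ψ x) = 0 := by
          rw [sub_eq_zero]
          ext
          rw [hψ3]
          rfl
        show ((LinearMap.range v).subtype ∘ₗ ψ ∘ₗ π + s ∘ₗ (ψ ∘ₗ u.rangeRestrict -
          v.rangeRestrict ∘ₗ (LinearMap.range v).subtype ∘ₗ ψ ∘ₗ π)) (x : X) = (ψ x : Y)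
        simp only [LinearMap.add_apply, LinearMap.comp_apply, LinearMap.sub_apply,
          Submodule.subtype_apply, hπ2]
        rw [h5, map_zero, add_zero]
  -- the kernel of the restriction
  let Θ : ((X ⧸ LinearMap.range u) →ₗ[K] LinearMap.ker v) →ₗ[K] (X →ₗ[K] Y) :=
    { toFun := fun θ => (LinearMap.ker v).subtype ∘ₗ θ ∘ₗ (LinearMap.range u).mkQ
      map_add' := fun a b => by ext; rfl
      map_smul' := fun a b => by ext; rfl }
  have hΘ : Function.Injective Θ := by
    intro a b hab
    apply Submodule.linearMap_qext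
    ext x
    exact DFunLike.congr_fun hab x
  have e2 : LinearMap.ker (ad g h) ⊓ LinearMap.ker ρ = LinearMap.range Θ := by
    ext φ
    constructor
    · rintro ⟨h1, h2⟩
      have h1' := (hmem φ).1 h1
      have h2' : ∀ x : LinearMap.range u, φ x = 0 := fun x =>
        DFunLike.congr_fun (LinearMap.mem_ker.1 h2) x
      have h3 : LinearMap.range u ≤ LinearMap.ker φ := fun x hx =>
        LinearMap.mem_ker.2 (h2' ⟨x, hx⟩)
      have h4 : ∀ q, (LinearMap.range u).liftQ φ h3 q ∈ LinearMap.ker v := by
        intro q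
        obtain ⟨x, rfl⟩ := Submodule.mkQ_surjective _ q
        rw [LinearMap.mem_ker]
        show v (φ x) = 0
        rw [← h1']
        exact h2' ⟨u x, ⟨x, rfl⟩⟩
      refine ⟨((LinearMap.range u).liftQ φ h3).codRestrict _ h4, ?_⟩
      ext x
      rfl
    · rintro ⟨θ, rfl⟩
      have h1 : ∀ x, Θ θ (u x) = 0 := by
        intro x
        show ((θ ((LinearMap.range u).mkQ (u x)) : LinearMap.ker v) : Y) = 0
        have : (LinearMap.range u).mkQ (u x) = 0 := by
          rw [Submodule.mkQ_apply, Submodule.Quotient.mk_eq_zero]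
          exact ⟨x, rfl⟩
        rw [this, map_zero]
        rfl
      refine ⟨?_, ?_⟩
      · show Θ θ ∈ LinearMap.ker (ad g h)
        rw [hmem]
        intro x
        rw [h1]
        exact (LinearMap.mem_ker.1 (θ ((LinearMap.range u).mkQ x)).2).symm
      · show Θ θ ∈ LinearMap.ker ρ
        rw [LinearMap.mem_ker]
        ext ⟨_, ⟨x, rfl⟩⟩
        exact h1 x
  -- counting
  have c1 := LinearMap.finrank_range_add_finrank_ker (ρ.domRestrict (LinearMap.ker (ad g h)))
  have c2 : LinearMap.range (ρ.domRestrict (LinearMap.ker (ad g h)))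
      = (LinearMap.ker (ad g h)).map ρ := LinearMap.range_domRestrict _ _
  have c3 : Module.finrank K (LinearMap.ker (ρ.domRestrict (LinearMap.ker (ad g h))))
      = Module.finrank K (LinearMap.range Θ) := by
    have e3 : (LinearMap.ker (ρ.domRestrict (LinearMap.ker (ad g h)))).map
        (LinearMap.ker (ad g h)).subtype = LinearMap.ker (ad g h) ⊓ LinearMap.ker ρ := by
      ext φ
      simp only [Submodule.mem_map, Submodule.mem_inf]
      constructor
      · rintro ⟨φ, hφ, rfl⟩
        exact ⟨φ.2, hφ⟩
      · rintro ⟨h1, h2⟩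
        exact ⟨⟨φ, h1⟩, h2, rfl⟩
    rw [← e2, ← e3, mul_finrank_map _ (Submodule.subtype_injective _)]
  rw [c2, e1, c3, mul_finrank_map σ hσ, LinearMap.finrank_range_of_inj hΘ,
    Module.finrank_linearMap] at c1
  rw [← c1]

theorem finrank_ker_ad [FiniteDimensional K X] [FiniteDimensional K Y] {p : ℕ} (ξ : Fin p → K)
    (g : Module.End K X) (h : Module.End K Y)
    (hg : aeval g (∏ i, (Polynomial.X - C (ξ i))) = 0)
    (hh : aeval h (∏ i, (Polynomial.X - C (ξ i))) = 0) :
    (Module.finrank K (LinearMap.ker (ad g h)) : ℤ) = ∑ j, mult g ξ j * mult h ξ j := by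
  induction p generalizing X Y with
  | zero =>
    have h0 : (1 : Module.End K X) = 0 := by simpa using hg
    have hX : ∀ x : X, x = 0 := fun x => DFunLike.congr_fun h0 x
    have : Subsingleton (X →ₗ[K] Y) := by
      constructor
      intro a b
      ext x
      rw [hX x, map_zero, map_zero]
    simp [Module.finrank_zero_of_subsingleton]
  | succ p ih =>
    obtain ⟨g', hg1, hg2, hg3⟩ := mul_exists_restrict g ξ hg
    obtain ⟨h', hh1, hh2, hh3⟩ := mul_exists_restrict h ξ hh
    have h1 := ih (fun i => ξ i.succ) g' h' hg2 hh2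
    rw [mul_step (ξ 0) g h _ rfl _ rfl g' h' hg1 hh1, Nat.cast_add, h1, Fin.sum_univ_succ, add_comm]
    have h2 : mult g ξ 0
        = (Module.finrank K (X ⧸ LinearMap.range (g - algebraMap K (Module.End K X) (ξ 0))) : ℤ) := by
      unfold mult
      have h3 := Submodule.finrank_quotient_add_finrank
        (LinearMap.range (g - algebraMap K (Module.End K X) (ξ 0)))
      rw [show ((0 : Fin (p + 1)) : ℕ) = 0 from rfl, mul_fl_zero, mul_fl_one, finrank_top, ← h3]
      push_cast
      ring
    have h4 : mult h ξ 0
        = (Module.finrank K (LinearMap.ker (h - algebraMap K (Module.End K Y) (ξ 0))) : ℤ) := by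
      unfold mult
      have h3 := LinearMap.finrank_range_add_finrank_ker
        (h - algebraMap K (Module.End K Y) (ξ 0))
      rw [show ((0 : Fin (p + 1)) : ℕ) = 0 from rfl, mul_fl_zero, mul_fl_one, finrank_top, ← h3]
      push_cast
      ring
    rw [h2, h4, Nat.cast_mul]
    congr 1
    apply Finset.sum_congr rfl
    intro j _
    rw [hg3, hh3]

end BMM
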