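/-
MP_b1ea0f_al, library BMM, module Tr (about 70 lines, Mathlib linear algebra only).
Trace duality between `Hom(X, Y)` and `Hom(Y, X)`.
PROOF. The pairing (t, s) ↦ tr_X (t ∘ s) on Hom(Y, X) × Hom(X, Y) is non-degenerate: if t ≠ 0, say
t y ≠ 0, take φ ∈ X* with φ (t y) = 1 and s = φ(·) y, then tr (t ∘ s) = φ (t y) = 1 (trace of the
rank one map x ↦ φ x • t y; `LinearMap.trace_eq_contract_apply` / `LinearMap.trace_smulRight`).
Symmetric in s and t by `LinearMap.trace_comp_comm'`.  So t ↦ (s ↦ tr (t ∘ s)) is an isomorphism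
e : Hom(Y, X) ≃ Dual (Hom(X, Y)) (injective, equal dimension), `trp W` is the preimage of the dual
annihilator of W, and `Subspace.finrank_add_finrank_dualAnnihilator_eq` gives the claim.
-/
import Pool.Agent.Lib.BMM.Ops

namespace BMM

variable {K : Type*} [Field K] {X Y : Type*} [AddCommGroup X] [Module K X]
  [AddCommGroup Y] [Module K Y]

/-- The orthogonal of `W ≤ Hom(X, Y)` in `Hom(Y, X)` for the trace pairing. -/
def trp (W : Submodule K (X →ₗ[K] Y)) : Submodule K (Y →ₗ[K] X) where
  carrier := {t | ∀ s ∈ W, LinearMap.trace K X (t ∘ₗ s) = 0}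
  add_mem' {t u} ht hu s hs := by
    rw [LinearMap.add_comp, map_add, ht s hs, hu s hs, add_zero]
  zero_mem' s _ := by rw [LinearMap.zero_comp, map_zero]
  smul_mem' c t ht s hs := by rw [LinearMap.smul_comp, map_smul, ht s hs, smul_zero]

theorem mem_trp {W : Submodule K (X →ₗ[K] Y)} {t : Y →ₗ[K] X} :
    t ∈ trp W ↔ ∀ s ∈ W, LinearMap.trace K X (t ∘ₗ s) = 0 := Iff.rfl

/-- The trace pairing as a map to the dual. -/
private noncomputable def pr (K : Type*) [Field K] (X Y : Type*) [AddCommGroup X] [Module K X]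
    [AddCommGroup Y] [Module K Y] : (Y →ₗ[K] X) →ₗ[K] Module.Dual K (X →ₗ[K] Y) :=
  LinearMap.mk₂ K (fun t s => LinearMap.trace K X (t ∘ₗ s))
    (fun t u s => by rw [LinearMap.add_comp, map_add])
    (fun c t s => by rw [LinearMap.smul_comp, map_smul])
    (fun t s r => by rw [LinearMap.comp_add, map_add])
    (fun c t s => by rw [LinearMap.comp_smul, map_smul])

private theorem pr_injective [FiniteDimensional K X] :
    Function.Injective (pr K X Y) := by
  rw [injective_iff_map_eq_zero]
  intro t ht
  ext y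
  rw [LinearMap.zero_apply, ← Module.forall_dual_apply_eq_zero_iff K]
  intro φ
  have h := LinearMap.congr_fun ht (φ.smulRight y)
  have h2 : t ∘ₗ φ.smulRight y = φ.smulRight (t y) := by
    ext x
    simp
  change LinearMap.trace K X (t ∘ₗ φ.smulRight y) = 0 at h
  rw [h2, LinearMap.trace_smulRight] at h
  exact h

/-- Dimension formula. -/
theorem finrank_trp [FiniteDimensional K X] [FiniteDimensional K Y]
    (W : Submodule K (X →ₗ[K] Y)) :
    Module.finrank K W + Module.finrank K (trp W) = Module.finrank K (X →ₗ[K] Y) := by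
  have hdim : Module.finrank K (Y →ₗ[K] X) = Module.finrank K (Module.Dual K (X →ₗ[K] Y)) := by
    rw [Subspace.dual_finrank_eq, Module.finrank_linearMap, Module.finrank_linearMap, mul_comm]
  let e := LinearMap.linearEquivOfInjective (pr K X Y) pr_injective hdim
  have h1 : trp W = W.dualAnnihilator.map (e.symm : Module.Dual K (X →ₗ[K] Y) →ₗ[K] _) := by
    ext t
    rw [Submodule.mem_map_equiv, LinearEquiv.symm_symm, Submodule.mem_dualAnnihilator, mem_trp]
    rfl
  rw [h1, LinearEquiv.finrank_map_eq]
  exact Subspace.finrank_add_finrank_dualAnnihilator_eq W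

end BMM
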