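/-
MP_b1ea0f_al, library BMM, module RkL (about 100 lines).  Section 3.3 / 5.2 of the paper.
The rank of `L` on `I_a × I_b × I_c`, and trivial dimension formulas.
PROOF of rk_LL. Put W = image of I3 under L. By `finrank_trp` it is enough to show
`trp W = Hom3 h g` (as subspaces of Hom(Y, X)). Let f : Y → X. Write a, b, c for the operators on X
(from g) and on Y (from h), z = abc central invertible on both. W is spanned by the L(δ) with one
component δ_x = s g_x - h_x s (s arbitrary) and the others 0; trace is cyclic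
(`LinearMap.trace_comp_comm'`).
 x = a: tr(f (s a - a s) b c) = tr(s (a b c f - b c f a)): it vanishes for all s iff
        a b c f = b c f a (on the X side left, on the Y side right), i.e. z f = b c f a; multiply by a
        on the left (a z = z a, a b c = z): z a f = z f a, so a f = f a.
 x = b: tr(f a (s b - b s) c) = tr(s (b c f a - c f a b)); vanishes for all s iff b c f a = c f a b.
        With a f = f a: b c a f = c a f b; b c a = z and c a = b⁻¹ z (from b c a = z), so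
        z f = b⁻¹ z f b, so b f = f b.
 x = c: tr(f a b (s c - c s)) = tr(s (c f a b - f a b c)); vanishes for all s iff c f a b = f z.
        With f a = a f, f b = b f: c a b f = z f on the left, so z f = f z; then
        a b (c f) = z f = f z = f a b c = a b f c, so c f = f c.
 Conversely if f is in Hom3 h g then f commutes with a, b, c and all three expressions vanish.
 Nondegeneracy used here: tr(s u) = 0 for all s : X → Y implies u = 0 (u : Y → X): this is
 `finrank_trp` for W = ⊤, or a direct rank one argument.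
NOTE on sides: an element of Hom(X, Y) composes with h on the left and with g on the right;
an element f of Hom(Y, X) composes with g on the left and with h on the right.
-/
import Pool.Agent.Lib.BMM.Tr

namespace BMM

variable {K : Type*} [Field K] {X Y : Type*} [AddCommGroup X] [Module K X]
  [AddCommGroup Y] [Module K Y]

private theorem rkl_inj {g : Module.End K X} (hg : IsUnit g) : Function.Injective g :=
  ((Module.End.isUnit_iff g).1 hg).1

private theorem rkl_nondeg [FiniteDimensional K X] {t : Y →ₗ[K] X}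
    (ht : ∀ s : X →ₗ[K] Y, LinearMap.trace K X (t ∘ₗ s) = 0) : t = 0 := by
  ext y
  rw [LinearMap.zero_apply, ← Module.forall_dual_apply_eq_zero_iff K]
  intro φ
  have h := ht (φ.smulRight y)
  have h2 : t ∘ₗ φ.smulRight y = φ.smulRight (t y) := by
    ext x
    simp
  rw [h2, LinearMap.trace_smulRight] at h
  exact h

private theorem rkl_single (g : Fin 3 → Module.End K X) (h : Fin 3 → Module.End K Y) (i : Fin 3)
    (s : X →ₗ[K] Y) : Pi.single i (ad (g i) (h i) s) ∈ I3 g h := by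
  rw [I3, Submodule.mem_pi]
  intro j _
  by_cases hj : j = i
  · subst hj
    rw [Pi.single_eq_same]
    exact LinearMap.mem_range_self _ _
  · rw [Pi.single_eq_of_ne hj]
    exact Submodule.zero_mem _

private theorem rkl_mem [FiniteDimensional K X] [FiniteDimensional K Y]
    (g : Fin 3 → Module.End K X) (h : Fin 3 → Module.End K Y) (f : Y →ₗ[K] X) :
    f ∈ trp ((I3 g h).map (LL g h)) ↔
      (g 0 ∘ₗ g 1 ∘ₗ g 2 ∘ₗ f = g 1 ∘ₗ g 2 ∘ₗ f ∘ₗ h 0) ∧
      (g 1 ∘ₗ g 2 ∘ₗ f ∘ₗ h 0 = g 2 ∘ₗ f ∘ₗ h 0 ∘ₗ h 1) ∧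
      (g 2 ∘ₗ f ∘ₗ h 0 ∘ₗ h 1 = f ∘ₗ h 0 ∘ₗ h 1 ∘ₗ h 2) := by
  have cyc : ∀ (A B : Module.End K X), LinearMap.trace K X (A * B) = LinearMap.trace K X (B * A) :=
    fun A B => LinearMap.trace_mul_comm K A B
  have t0 : ∀ s : X →ₗ[K] Y, LinearMap.trace K X (f ∘ₗ LL g h (Pi.single 0 (ad (g 0) (h 0) s)))
      = LinearMap.trace K X ((g 0 ∘ₗ g 1 ∘ₗ g 2 ∘ₗ f - g 1 ∘ₗ g 2 ∘ₗ f ∘ₗ h 0) ∘ₗ s) := by
    intro s
    have e : f ∘ₗ LL g h (Pi.single 0 (ad (g 0) (h 0) s))
        = (f ∘ₗ s : Module.End K X) * (g 0 * g 1 * g 2)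
          - (f ∘ₗ h 0 ∘ₗ s : Module.End K X) * (g 1 * g 2) := by
      ext x
      simp [LL_apply]
    rw [e, map_sub, cyc, cyc (f ∘ₗ h 0 ∘ₗ s), ← map_sub]
    congr 1
  have t1 : ∀ s : X →ₗ[K] Y, LinearMap.trace K X (f ∘ₗ LL g h (Pi.single 1 (ad (g 1) (h 1) s)))
      = LinearMap.trace K X ((g 1 ∘ₗ g 2 ∘ₗ f ∘ₗ h 0 - g 2 ∘ₗ f ∘ₗ h 0 ∘ₗ h 1) ∘ₗ s) := by
    intro s
    have e : f ∘ₗ LL g h (Pi.single 1 (ad (g 1) (h 1) s))
        = (f ∘ₗ h 0 ∘ₗ s : Module.End K X) * (g 1 * g 2)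
          - (f ∘ₗ h 0 ∘ₗ h 1 ∘ₗ s : Module.End K X) * (g 2) := by
      ext x
      simp [LL_apply]
    rw [e, map_sub, cyc, cyc (f ∘ₗ h 0 ∘ₗ h 1 ∘ₗ s), ← map_sub]
    congr 1
  have t2 : ∀ s : X →ₗ[K] Y, LinearMap.trace K X (f ∘ₗ LL g h (Pi.single 2 (ad (g 2) (h 2) s)))
      = LinearMap.trace K X ((g 2 ∘ₗ f ∘ₗ h 0 ∘ₗ h 1 - f ∘ₗ h 0 ∘ₗ h 1 ∘ₗ h 2) ∘ₗ s) := by
    intro s
    have e : f ∘ₗ LL g h (Pi.single 2 (ad (g 2) (h 2) s))
        = (f ∘ₗ h 0 ∘ₗ h 1 ∘ₗ s : Module.End K X) * (g 2)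
          - (f ∘ₗ h 0 ∘ₗ h 1 ∘ₗ h 2 ∘ₗ s : Module.End K X) := by
      ext x
      simp [LL_apply]
    rw [e, map_sub, cyc, ← map_sub]
    congr 1
  constructor
  · intro hf
    have key : ∀ i (s : X →ₗ[K] Y), LinearMap.trace K X
        (f ∘ₗ LL g h (Pi.single i (ad (g i) (h i) s))) = 0 := fun i s =>
      mem_trp.1 hf _ (Submodule.mem_map_of_mem (rkl_single g h i s))
    refine ⟨?_, ?_, ?_⟩
    · exact sub_eq_zero.1 (rkl_nondeg fun s => by rw [← t0]; exact key 0 s)
    · exact sub_eq_zero.1 (rkl_nondeg fun s => by rw [← t1]; exact key 1 s)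
    · exact sub_eq_zero.1 (rkl_nondeg fun s => by rw [← t2]; exact key 2 s)
  · rintro ⟨e0, e1, e2⟩
    rw [mem_trp]
    rintro _ ⟨δ, hδ, rfl⟩
    rw [SetLike.mem_coe, I3, Submodule.mem_pi] at hδ
    have hs : δ = ∑ i, Pi.single i (δ i) := (Finset.univ_sum_single δ).symm
    have hc : LinearMap.trace K X (f ∘ₗ LL g h (∑ i, Pi.single i (δ i)))
        = ∑ i, LinearMap.trace K X (f ∘ₗ LL g h (Pi.single i (δ i))) := by
      rw [map_sum]
      exact (map_sum ((LinearMap.trace K X) ∘ₗ (LinearMap.compRight K f))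
        (fun i => LL g h (Pi.single i (δ i))) Finset.univ)
    rw [hs, hc]
    refine Finset.sum_eq_zero fun i _ => ?_
    obtain ⟨s, hs⟩ := hδ i (Set.mem_univ i)
    rw [← hs]
    fin_cases i
    · change LinearMap.trace K X (f ∘ₗ LL g h (Pi.single 0 (ad (g 0) (h 0) s))) = 0
      rw [t0, e0, sub_self, LinearMap.zero_comp, map_zero]
    · change LinearMap.trace K X (f ∘ₗ LL g h (Pi.single 1 (ad (g 1) (h 1) s))) = 0
      rw [t1, e1, sub_self, LinearMap.zero_comp, map_zero]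
    · change LinearMap.trace K X (f ∘ₗ LL g h (Pi.single 2 (ad (g 2) (h 2) s))) = 0
      rw [t2, e2, sub_self, LinearMap.zero_comp, map_zero]

private theorem rkl_trp [FiniteDimensional K X] [FiniteDimensional K Y]
    {g : Fin 3 → Module.End K X} {h : Fin 3 → Module.End K Y} (hg : IsCyc g) :
    trp ((I3 g h).map (LL g h)) = Hom3 h g := by
  have c1 : ∀ x, g 0 (g 1 (g 2 x)) = g 1 (g 2 (g 0 x)) := fun x =>
    LinearMap.congr_fun hg.cyc₁ x
  have c2 : ∀ x, g 0 (g 1 (g 2 x)) = g 2 (g 0 (g 1 x)) := fun x =>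
    LinearMap.congr_fun hg.cyc₂ x
  ext f
  rw [rkl_mem]
  have hH : f ∈ Hom3 h g ↔ (∀ y, f (h 0 y) = g 0 (f y)) ∧ (∀ y, f (h 1 y) = g 1 (f y)) ∧
      (∀ y, f (h 2 y) = g 2 (f y)) := by
    rw [Hom3, Submodule.mem_iInf]
    simp only [LinearMap.mem_ker, ad_apply, sub_eq_zero, LinearMap.ext_iff, LinearMap.comp_apply,
      Fin.forall_fin_succ, Fin.succ_zero_eq_one, Fin.succ_one_eq_two, IsEmpty.forall_iff,
      and_true]
  rw [hH]
  simp only [LinearMap.ext_iff, LinearMap.comp_apply]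
  constructor
  · rintro ⟨e0, e1, e2⟩
    have k0 : ∀ y, f (h 0 y) = g 0 (f y) := by
      intro y
      apply rkl_inj (hg.unit 2)
      apply rkl_inj (hg.unit 1)
      rw [← e0 y, c1]
    have k1 : ∀ y, f (h 1 y) = g 1 (f y) := by
      intro y
      apply rkl_inj (hg.unit 0)
      apply rkl_inj (hg.unit 2)
      rw [← k0 (h 1 y), ← e1 y, k0 y, ← c1, c2]
    have k2 : ∀ y, f (h 2 y) = g 2 (f y) := by
      intro y
      apply rkl_inj (hg.unit 1)
      apply rkl_inj (hg.unit 0)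
      rw [← k1 (h 2 y), ← k0 (h 1 (h 2 y)), ← e2 y, k0, k1, ← c2]
    exact ⟨k0, k1, k2⟩
  · rintro ⟨k0, k1, k2⟩
    refine ⟨fun y => ?_, fun y => ?_, fun y => ?_⟩
    · rw [k0, c1]
    · rw [k0, k0, k1, ← c1, c2]
    · rw [k0, k1, k0, k1, k2, ← c2]

theorem rk_LL [FiniteDimensional K X] [FiniteDimensional K Y]
    {g : Fin 3 → Module.End K X} {h : Fin 3 → Module.End K Y} (hg : IsCyc g) (hh : IsCyc h) :
    Module.finrank K ((I3 g h).map (LL g h)) + Module.finrank K (Hom3 h g)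
      = Module.finrank K (X →ₗ[K] Y) := by
  rw [← rkl_trp hg]
  exact finrank_trp _

/-- rank-nullity for `d0` (its kernel is `Hom3 g h`). -/
theorem rk_d0 [FiniteDimensional K X] [FiniteDimensional K Y]
    (g : Fin 3 → Module.End K X) (h : Fin 3 → Module.End K Y) :
    Module.finrank K (LinearMap.range (d0 g h)) + Module.finrank K (Hom3 g h)
      = Module.finrank K (X →ₗ[K] Y) := by
  have e : Hom3 g h = LinearMap.ker (d0 g h) := by
    rw [d0, LinearMap.ker_pi, Hom3]
  rw [e]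
  exact LinearMap.finrank_range_add_finrank_ker _

/-- dimension of the product and rank-nullity for `ad`. -/
theorem finrank_I3 [FiniteDimensional K X] [FiniteDimensional K Y]
    (g : Fin 3 → Module.End K X) (h : Fin 3 → Module.End K Y) :
    Module.finrank K (I3 g h) + ∑ i, Module.finrank K (LinearMap.ker (ad (g i) (h i)))
      = 3 * Module.finrank K (X →ₗ[K] Y) := by
  let e : I3 g h ≃ₗ[K] (∀ i : Fin 3, LinearMap.range (ad (g i) (h i))) :=
    { toFun := fun δ i => ⟨δ.1 i, (Submodule.mem_pi.1 δ.2) i (Set.mem_univ i)⟩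
      map_add' := fun δ ε => rfl
      map_smul' := fun c δ => rfl
      invFun := fun δ => ⟨fun i => (δ i).1, Submodule.mem_pi.2 fun i _ => (δ i).2⟩
      left_inv := fun δ => rfl
      right_inv := fun δ => rfl }
  rw [e.finrank_eq, Module.finrank_pi_fintype, ← Finset.sum_add_distrib,
    Finset.sum_congr rfl fun i _ => LinearMap.finrank_range_add_finrank_ker (ad (g i) (h i)),
    Finset.sum_const, Finset.card_univ, Fintype.card_fin, smul_eq_mul]

end BMM
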