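/-
MP_b1ea0f_al, library BMM, module Scott (about 90 lines).  Sections 3.3, 3.4.
SCOTT'S INEQUALITY.
PROOF. V = Hom(X, Y), N = dim V = dim X * dim Y. L ∘ d0 = 0: L (d0 s) = s z_X - z_Y s (expand and
telescope, `LL`, `d0`) = ζ s - ζ s = 0. The image of d0 lies in I3. So
  N - hom(X,Y) = rk d0 ≤ dim (ker L ∩ I3) = dim I3 - dim L(I3) = dim I3 - (N - hom(Y,X))
by rk_d0, rk_LL (`LinearMap.finrank_range_add_finrank_ker` for the restriction of L to I3).
dim I3 = 3N - Σ_x dim ker ad_x (finrank_I3), and dim ker ad_x = Σ_j m_xj(X) m_xj(Y) (finrank_ker_ad).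
So Σ_x Σ_j m m' - N ≤ hom(X,Y) + hom(Y,X). Finally
bil (dimv X) (dimv Y) = Σ_{(x,j)} m m' - lev * lev with lev (dimv X) = Σ_j mult (g 0) = dim X
(sum_mult), and the sum over J n = Σ x, Fin (pp n x) is `Finset.sum_sigma` / `Fintype.sum_sigma`.
-/
import Pool.Agent.Lib.BMM.RkL
import Pool.Agent.Lib.BMM.Mul
import Pool.Agent.Lib.BMM.Flag

open Polynomial

namespace BMM

variable {n : ℕ} {K : Type*} [Field K] {X Y : Type*} [AddCommGroup X] [Module K X]
  [AddCommGroup Y] [Module K Y]

/-- The level of the dimension vector is the dimension. -/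
theorem lev_dimv [FiniteDimensional K X] (x : J n → K) (g : Fin 3 → Module.End K X)
    (hp : ∀ l, aeval (g l) (PX x l) = 0) :
    InQ (dimv x g) ∧ lev (dimv x g) = Module.finrank K X := by
  have h0 : ∀ l, ∑ i : Fin (pp n l), dimv x g ⟨l, i⟩ = (Module.finrank K X : ℤ) := fun l =>
    sum_mult (g l) (fun i => x ⟨l, i⟩) (hp l)
  refine ⟨fun l => ?_, h0 0⟩
  rw [h0 l]
  exact (h0 0).symm

/-- `L (d0 s) = s z - z s`. -/
private theorem LL_d0 (g : Fin 3 → Module.End K X) (h : Fin 3 → Module.End K Y)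
    (ζ : K) (hz : zop g = algebraMap K _ ζ) (hz' : zop h = algebraMap K _ ζ)
    (s : X →ₗ[K] Y) : LL g h (d0 g h s) = 0 := by
  have e1 : ∀ u : X, g 0 (g 1 (g 2 u)) = ζ • u := fun u => by
    have := LinearMap.congr_fun hz u
    simpa [zop, Module.algebraMap_end_apply] using this
  have e2 : ∀ u : Y, h 0 (h 1 (h 2 u)) = ζ • u := fun u => by
    have := LinearMap.congr_fun hz' u
    simpa [zop, Module.algebraMap_end_apply] using this
  ext u
  simp only [LL_apply, d0, LinearMap.pi_apply, ad_apply, LinearMap.add_apply,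
    LinearMap.comp_apply, LinearMap.sub_apply, map_sub, LinearMap.zero_apply, e1, e2, map_smul]
  abel

theorem scott [FiniteDimensional K X] [FiniteDimensional K Y] (x : J n → K)
    (g : Fin 3 → Module.End K X) (h : Fin 3 → Module.End K Y) (hg : IsCyc g) (hh : IsCyc h)
    (hp : ∀ l, aeval (g l) (PX x l) = 0) (hp' : ∀ l, aeval (h l) (PX x l) = 0)
    (ζ : K) (hz : zop g = algebraMap K _ ζ) (hz' : zop h = algebraMap K _ ζ) :
    bil (dimv x g) (dimv x h)
      ≤ (Module.finrank K (Hom3 g h) : ℤ) + (Module.finrank K (Hom3 h g) : ℤ) := by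
  -- the form
  have hb : bil (dimv x g) (dimv x h)
      = ∑ l, (Module.finrank K (LinearMap.ker (ad (g l) (h l))) : ℤ)
        - (Module.finrank K X : ℤ) * Module.finrank K Y := by
    rw [bil, (lev_dimv x g hp).2, (lev_dimv x h hp').2, Fintype.sum_sigma]
    congr 1
    refine Finset.sum_congr rfl fun l _ => ?_
    exact (finrank_ker_ad (fun i => x ⟨l, i⟩) (g l) (h l) (hp l) (hp' l)).symm
  -- the complex
  have hle : LinearMap.range (d0 g h) ≤ I3 g h := by
    rintro _ ⟨s, rfl⟩
    exact fun i _ => ⟨s, rfl⟩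
  have hker : (LinearMap.range (d0 g h)).comap (I3 g h).subtype
      ≤ LinearMap.ker ((LL g h).domRestrict (I3 g h)) := by
    rintro ⟨δ, hδ⟩ ⟨s, hs⟩
    rw [LinearMap.mem_ker, LinearMap.domRestrict_apply]
    change LL g h δ = 0
    have hs' : d0 g h s = δ := hs
    rw [← hs']
    exact LL_d0 g h ζ hz hz' s
  have h1 : Module.finrank K (LinearMap.range (d0 g h))
      ≤ Module.finrank K (LinearMap.ker ((LL g h).domRestrict (I3 g h))) := by
    rw [← (Submodule.comapSubtypeEquivOfLe hle).finrank_eq]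
    exact Submodule.finrank_mono hker
  have h2 := LinearMap.finrank_range_add_finrank_ker ((LL g h).domRestrict (I3 g h))
  rw [LinearMap.range_domRestrict] at h2
  have h3 := rk_LL hg hh
  have h4 := rk_d0 g h
  have h5 := finrank_I3 g h
  have h6 : Module.finrank K (X →ₗ[K] Y) = Module.finrank K X * Module.finrank K Y :=
    Module.finrank_linearMap K K X Y
  rw [hb]
  have h7 : (∑ l, (Module.finrank K (LinearMap.ker (ad (g l) (h l))) : ℤ))
      = ((∑ l, Module.finrank K (LinearMap.ker (ad (g l) (h l))) : ℕ) : ℤ) := by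
    push_cast
    rfl
  rw [h7]
  rw [h6] at h3 h4 h5
  have h8 : ((Module.finrank K X : ℤ) * Module.finrank K Y)
      = ((Module.finrank K X * Module.finrank K Y : ℕ) : ℤ) := by push_cast; rfl
  rw [h8]
  omega

end BMM
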