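/-
MP_b1ea0f_al, library BMM, module Simple (about 90 lines).  Section 3.5.
PROOF. M simple: z acts by a scalar ζ ≠ 0 (zz_scalar), hom(M, M) = 1 (finrank_Hom3_self), so by
`scott` bil v v ≤ 2 for v = dimv M; v in Q and lev v = dim M ≥ 1 by `lev_dimv`; so v is in Rc
(`root_of_le_two`). Determinants: det (zop) = ζ^d = ∏_x det (g x) = ∏_x ∏_j x_j^{m_j} = mon x v
(`det_eq`, `LinearMap.det_comp`/map_mul, det of a scalar = ζ^finrank).
simple_iso: if M, M' are not isomorphic then hom(M, M') = hom(M', M) = 0 (iso_of_hom), so scott gives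
bil ≤ 0.
The polynomials: (PX x l).coeff 0 = ∏ (- x_j) ≠ 0.
-/
import Pool.Agent.Lib.BMM.Scott
import Pool.Agent.Lib.BMM.Bridge
import Pool.Agent.Lib.BMM.RootB

open Polynomial

namespace BMM

variable {n : ℕ} {K : Type*} [Field K] [IsAlgClosed K] (x : J n → K)
  (M : Type*) [AddCommGroup M] [Module K M] [Module (HA K (PX x)) M]
  [IsScalarTower K (HA K (PX x)) M] [FiniteDimensional K M]
  (M' : Type*) [AddCommGroup M'] [Module K M'] [Module (HA K (PX x)) M']
  [IsScalarTower K (HA K (PX x)) M'] [FiniteDimensional K M']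

omit [IsAlgClosed K] in
theorem PX_coeff_ne (hx : ∀ j, x j ≠ 0) (l : Fin 3) : (PX x l).coeff 0 ≠ 0 := by
  unfold PX
  rw [Polynomial.coeff_zero_eq_eval_zero, Polynomial.eval_prod]
  refine Finset.prod_ne_zero_iff.2 fun i _ => ?_
  rw [Polynomial.eval_sub, Polynomial.eval_X, Polynomial.eval_C, zero_sub]
  exact neg_ne_zero.2 (hx _)

omit [IsAlgClosed K] in
/-- The dimension vector of a module: in `Q`, entries `≥ 0`, level = dimension; determinant. -/
theorem dimv_facts (hx : ∀ j, x j ≠ 0) (ζ : K) (hz : ∀ m : M, zz K (PX x) • m = ζ • m) :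
    InQ (dimv x (gop (PX x) M)) ∧ (∀ j, 0 ≤ dimv x (gop (PX x) M) j) ∧
      lev (dimv x (gop (PX x) M)) = Module.finrank K M ∧
      ζ ^ (Module.finrank K M) = mon x (dimv x (gop (PX x) M)) := by
  have hp : ∀ l, aeval (gop (PX x) M l) (PX x l) = 0 := (isTriple_gop (PX x) M).pol
  obtain ⟨h1, h2⟩ := lev_dimv x (gop (PX x) M) hp
  refine ⟨h1, fun j => mult_nonneg _ _ _, h2, ?_⟩
  have hdet : ∀ l, LinearMap.det (gop (PX x) M l)
      = ∏ i : Fin (pp n l), x ⟨l, i⟩ ^ (dimv x (gop (PX x) M) ⟨l, i⟩) := fun l =>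
    det_eq (gop (PX x) M l) (fun i => x ⟨l, i⟩) (fun i => hx _) (hp l)
  have hzop : zop (gop (PX x) M) = ζ • (1 : Module.End K M) := by
    ext m
    rw [zop_gop_apply, hz m]
    rfl
  have hd : LinearMap.det (zop (gop (PX x) M)) = ζ ^ (Module.finrank K M) := by
    rw [hzop, LinearMap.det_smul, map_one, mul_one]
  rw [← hd, zop, map_mul, map_mul, mon, Fintype.prod_sigma, Fin.prod_univ_three, hdet 0, hdet 1,
    hdet 2]

theorem simple_root (hn : n = 3 ∨ n = 4 ∨ n = 5) (hx : ∀ j, x j ≠ 0)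
    [IsSimpleModule (HA K (PX x)) M] : dimv x (gop (PX x) M) ∈ Rc n := by
  obtain ⟨ζ, hζ, hz⟩ := zz_scalar (P := PX x) (M := M) (PX_coeff_ne x hx)
  obtain ⟨h1, h2, h3, h4⟩ := dimv_facts x M hx ζ hz
  have : Nontrivial M := IsSimpleModule.nontrivial (HA K (PX x)) M
  have hpos : 0 < Module.finrank K M := Module.finrank_pos
  have hcyc : IsCyc (gop (PX x) M) := isCyc_gop (P := PX x) (M := M) (PX_coeff_ne x hx)
  have hzop : zop (gop (PX x) M) = algebraMap K (Module.End K M) ζ := by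
    ext m
    rw [zop_gop_apply, hz m, Module.algebraMap_end_apply]
  have hs := scott x (gop (PX x) M) (gop (PX x) M) hcyc hcyc (isTriple_gop (PX x) M).pol
    (isTriple_gop (PX x) M).pol ζ hzop hzop
  rw [finrank_Hom3_self] at hs
  refine root_of_le_two hn h1 ?_ ?_
  · rw [h3]
    exact_mod_cast hpos
  · exact_mod_cast hs

theorem simple_iso (hn : n = 3 ∨ n = 4 ∨ n = 5) (hx : ∀ j, x j ≠ 0)
    [IsSimpleModule (HA K (PX x)) M] [IsSimpleModule (HA K (PX x)) M'] (ζ : K)
    (hz : ∀ m : M, zz K (PX x) • m = ζ • m) (hz' : ∀ m : M', zz K (PX x) • m = ζ • m)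
    (hb : 1 ≤ bil (dimv x (gop (PX x) M)) (dimv x (gop (PX x) M'))) :
    Nonempty (M ≃ₗ[HA K (PX x)] M') := by
  have hcyc : IsCyc (gop (PX x) M) := isCyc_gop (P := PX x) (M := M) (PX_coeff_ne x hx)
  have hcyc' : IsCyc (gop (PX x) M') := isCyc_gop (P := PX x) (M := M') (PX_coeff_ne x hx)
  have hzop : zop (gop (PX x) M) = algebraMap K (Module.End K M) ζ := by
    ext m
    rw [zop_gop_apply, hz m, Module.algebraMap_end_apply]
  have hzop' : zop (gop (PX x) M') = algebraMap K (Module.End K M') ζ := by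
    ext m
    rw [zop_gop_apply, hz' m, Module.algebraMap_end_apply]
  have hs := scott x (gop (PX x) M) (gop (PX x) M') hcyc hcyc' (isTriple_gop (PX x) M).pol
    (isTriple_gop (PX x) M').pol ζ hzop hzop'
  by_contra hno
  have h0 : ∀ s ∈ Hom3 (gop (PX x) M) (gop (PX x) M'), s = 0 := by
    intro s hs1
    by_contra hne
    exact hno (iso_of_hom s hs1 hne)
  have h0' : ∀ s ∈ Hom3 (gop (PX x) M') (gop (PX x) M), s = 0 := by
    intro s hs1
    by_contra hne
    obtain ⟨e⟩ := iso_of_hom s hs1 hne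
    exact hno ⟨e.symm⟩
  have e1 : Hom3 (gop (PX x) M) (gop (PX x) M') = ⊥ := (Submodule.eq_bot_iff _).2 h0
  have e2 : Hom3 (gop (PX x) M') (gop (PX x) M) = ⊥ := (Submodule.eq_bot_iff _).2 h0'
  rw [e1, e2, finrank_bot, finrank_bot] at hs
  have hs2 : bil (dimv x (gop (PX x) M)) (dimv x (gop (PX x) M')) ≤ 0 := by exact_mod_cast hs
  omega

end BMM
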