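/-
MP_b1ea0f_al, library BMM, module SplitS (about 120 lines).  Section 3.6 by Scott's inequality.
An extension of a simple module S by itself on which z is a scalar is semisimple (x distinct on
each leg).
PROOF. v = dimv S, (v, v) = 2: v is a root (simple_root). dimv E = 2 v by `mult_add` for
0 → N → E → E/N → 0 and `dimv_congr` for N ≅ E/N. z acts on N, on E/N by the same scalar ζ as on E.
`scott` for (N, E): bil v (2 v) = 4 ≤ hom(N, E) + hom(E, N). Each of the two numbers is ≤ 2: the map
Hom3(N, E) → Hom3(N, E/N), s ↦ q ∘ s, has kernel Hom3(N, N) (maps into N), and hom(N, N) =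
hom(N, E/N) = 1 (finrank_Hom3_self and N ≅ E/N). Similarly hom(E, N) ≤ 2. So hom(N, E) = 2. The
inclusion i : N → E is one element of Hom3(N, E); take s in Hom3(N, E) not proportional to i. The
composite q ∘ s : N → E/N is non-zero (otherwise s maps to N and is a multiple of i by Schur), so it
is an isomorphism (simple modules), and s ∘ (q ∘ s)⁻¹ is an H-linear section of q : E → E/N. So
E = N ⊕ s(N), the sum of two simple submodules: semisimple.
-/
import Pool.Agent.Lib.BMM.Simple

open Polynomial

namespace BMM

/-- A space that maps to a line with kernel contained in a line has dimension at most two. -/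
private theorem finrank_le_two {K V W : Type*} [Field K] [AddCommGroup V] [Module K V]
    [AddCommGroup W] [Module K W] [FiniteDimensional K V] (f : V →ₗ[K] W) (v₀ : V) (w₀ : W)
    (hk : ∀ v, f v = 0 → ∃ c : K, v = c • v₀) (hr : ∀ v, ∃ c : K, f v = c • w₀) :
    Module.finrank K V ≤ 2 := by
  have h1 := LinearMap.finrank_range_add_finrank_ker f
  have h2 : Module.finrank K (LinearMap.range f) ≤ 1 := by
    refine le_trans (Submodule.finrank_mono (t := Submodule.span K {w₀}) ?_)
      ((finrank_span_le_card ({w₀} : Set W)).trans (by simp))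
    rintro _ ⟨v, rfl⟩
    obtain ⟨c, hc⟩ := hr v
    rw [hc]
    exact Submodule.smul_mem _ _ (Submodule.mem_span_singleton_self _)
  have h3 : Module.finrank K (LinearMap.ker f) ≤ 1 := by
    refine le_trans (Submodule.finrank_mono (t := Submodule.span K {v₀}) ?_)
      ((finrank_span_le_card ({v₀} : Set V)).trans (by simp))
    intro v hv
    obtain ⟨c, hc⟩ := hk v hv
    rw [hc]
    exact Submodule.smul_mem _ _ (Submodule.mem_span_singleton_self _)
  omega

/-- A space contained in a line has dimension at most one. -/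
private theorem finrank_le_one' {K V : Type*} [Field K] [AddCommGroup V] [Module K V]
    (v₀ : V) (hk : ∀ v : V, ∃ c : K, v = c • v₀) : Module.finrank K V ≤ 1 :=
  finrank_le_one v₀ (fun w => by obtain ⟨c, hc⟩ := hk w; exact ⟨c, hc.symm⟩)

section aux

variable {K : Type*} [Field K] [IsAlgClosed K] {P : Fin 3 → K[X]}
  {A : Type*} [AddCommGroup A] [Module K A] [Module (HA K P) A] [IsScalarTower K (HA K P) A]
  {B : Type*} [AddCommGroup B] [Module K B] [Module (HA K P) B] [IsScalarTower K (HA K P) B]

/-- All the maps between two isomorphic simple modules are proportional. -/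
private theorem hom_one [FiniteDimensional K A] [IsSimpleModule (HA K P) A]
    (e : A ≃ₗ[HA K P] B) (s : A →ₗ[K] B) (hs : ∀ (u : HA K P) (m : A), s (u • m) = u • s m) :
    ∃ c : K, ∀ m, s m = c • e m := by
  have h := schur (P := P) (M := A) ((e.symm.restrictScalars K).toLinearMap ∘ₗ s)
    ((mem_Hom3_iff _).2 (fun u m => by
      simp only [LinearMap.comp_apply, LinearEquiv.coe_coe, LinearEquiv.restrictScalars_apply]
      rw [hs, map_smul]))
  obtain ⟨c, hc⟩ := h
  refine ⟨c, fun m => ?_⟩
  have h1 := hc m
  simp only [LinearMap.comp_apply, LinearEquiv.coe_coe, LinearEquiv.restrictScalars_apply] at h1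
  have h2 : s m = e (c • m) := by rw [← h1, LinearEquiv.apply_symm_apply]
  rw [h2]
  exact (e.restrictScalars K).map_smul c m

end aux

variable {n : ℕ} {K : Type*} [Field K] [IsAlgClosed K] (x : J n → K)
  (E : Type*) [AddCommGroup E] [Module K E] [Module (HA K (PX x)) E]
  [IsScalarTower K (HA K (PX x)) E] [FiniteDimensional K E]

theorem semis_ext_scalar (hn : n = 3 ∨ n = 4 ∨ n = 5) (hx : ∀ j, x j ≠ 0)
    (hinj : ∀ l, Function.Injective (fun i => x ⟨l, i⟩)) (ζ : K)
    (hz : ∀ e : E, zz K (PX x) • e = ζ • e)
    (N : Submodule (HA K (PX x)) E) [IsSimpleModule (HA K (PX x)) N]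
    [IsSimpleModule (HA K (PX x)) (E ⧸ N)] (hiso : Nonempty (N ≃ₗ[HA K (PX x)] (E ⧸ N))) :
    IsSemisimpleModule (HA K (PX x)) E := by
  classical
  obtain ⟨e⟩ := hiso
  have : FiniteDimensional K N :=
    FiniteDimensional.finiteDimensional_submodule (N.restrictScalars K)
  have : FiniteDimensional K (E ⧸ N) :=
    Module.Finite.of_surjective (N.mkQ.restrictScalars K) (Submodule.mkQ_surjective N)
  -- the inclusion and the projection
  set i : N →ₗ[K] E := N.subtype.restrictScalars K with hi
  set q : E →ₗ[K] (E ⧸ N) := N.mkQ.restrictScalars K with hq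
  have hP := PX_coeff_ne x hx
  have hzN : ∀ m : N, zz K (PX x) • m = ζ • m := by
    intro m
    apply Subtype.ext
    have := hz (m : E)
    simpa using this
  -- dimension vectors
  have hv := simple_root x N hn hx
  have hE : dimv x (gop (PX x) E) = (2 : ℤ) • dimv x (gop (PX x) N) := by
    funext j
    obtain ⟨l, j⟩ := j
    have hadd := mult_add (gop (PX x) N l) (gop (PX x) E l) (gop (PX x) (E ⧸ N) l)
      (fun i => x ⟨l, i⟩) (hinj l) ((isTriple_gop (PX x) N).pol l) ((isTriple_gop (PX x) E).pol l)
      ((isTriple_gop (PX x) (E ⧸ N)).pol l) i q (Submodule.injective_subtype N)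
      (Submodule.mkQ_surjective N) (by
        ext m
        simp [hi, hq]) (by ext m; simp [hi]) (by ext m; simp [hq]) j
    have hc := congrFun (dimv_congr x e) ⟨l, j⟩
    have hc' : mult (gop (PX x) N l) (fun i => x ⟨l, i⟩) j
        = mult (gop (PX x) (E ⧸ N) l) (fun i => x ⟨l, i⟩) j := hc
    change mult (gop (PX x) E l) (fun i => x ⟨l, i⟩) j
      = 2 * mult (gop (PX x) N l) (fun i => x ⟨l, i⟩) j
    rw [hadd, ← hc']
    ring
  have hbil : bil (dimv x (gop (PX x) N)) (dimv x (gop (PX x) E)) = 4 := by
    have h2 : bil (dimv x (gop (PX x) N)) (dimv x (gop (PX x) N)) = 2 := hv.1.2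
    rw [hE]
    have : bil (dimv x (gop (PX x) N)) ((2 : ℤ) • dimv x (gop (PX x) N))
        = 2 * bil (dimv x (gop (PX x) N)) (dimv x (gop (PX x) N)) := by
      unfold bil lev
      simp only [Pi.smul_apply, smul_eq_mul, ← Finset.mul_sum]
      have : ∑ j, dimv x (gop (PX x) N) j * (2 * dimv x (gop (PX x) N) j)
          = 2 * ∑ j, dimv x (gop (PX x) N) j * dimv x (gop (PX x) N) j := by
        rw [Finset.mul_sum]
        exact Finset.sum_congr rfl (fun j _ => by ring)
      rw [this]
      ring
    rw [this, h2]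
    norm_num
  have hsc := scott x (gop (PX x) N) (gop (PX x) E) (isCyc_gop hP) (isCyc_gop hP)
    (fun l => (isTriple_gop (PX x) N).pol l) (fun l => (isTriple_gop (PX x) E).pol l) ζ
    (by
      apply LinearMap.ext
      intro m
      rw [zop_gop_apply, hzN, Module.algebraMap_end_apply])
    (by
      apply LinearMap.ext
      intro m
      rw [zop_gop_apply, hz, Module.algebraMap_end_apply])
  rw [hbil] at hsc
  -- the two upper bounds
  have hiH : i ∈ Hom3 (gop (PX x) N) (gop (PX x) E) :=
    (mem_Hom3_iff _).2 (fun u m => by simp [hi])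
  have hb : Module.finrank K (Hom3 (gop (PX x) E) (gop (PX x) N)) ≤ 2 := by
    have hsq : ((e.symm.restrictScalars K).toLinearMap ∘ₗ q) ∈
        Hom3 (gop (PX x) E) (gop (PX x) N) :=
      (mem_Hom3_iff _).2 (fun u m => by simp [hq])
    let f : Hom3 (gop (PX x) E) (gop (PX x) N) →ₗ[K] (N →ₗ[K] N) :=
      (LinearMap.lcomp K N i) ∘ₗ (Hom3 (gop (PX x) E) (gop (PX x) N)).subtype
    refine finrank_le_two (K := K) (V := Hom3 (gop (PX x) E) (gop (PX x) N))
      (W := N →ₗ[K] N) f ⟨_, hsq⟩ LinearMap.id ?_ ?_
    · rintro ⟨s, hs⟩ h0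
      have hs' := (mem_Hom3_iff s).1 hs
      have h0' : ∀ m : N, s (m : E) = 0 := by
        intro m
        exact LinearMap.congr_fun h0 m
      -- s as an H-linear map, which factors through the quotient
      let sH : E →ₗ[HA K (PX x)] N :=
        { toFun := s, map_add' := s.map_add, map_smul' := fun u m => hs' u m }
      have hker : N ≤ LinearMap.ker sH := fun m hm => h0' ⟨m, hm⟩
      let t : (E ⧸ N) →ₗ[HA K (PX x)] N := N.liftQ sH hker
      obtain ⟨c, hc⟩ := hom_one (P := PX x) e.symm (t.restrictScalars K)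
        (fun u m => by simp)
      refine ⟨c, Subtype.ext (LinearMap.ext fun m => ?_)⟩
      have h1 := hc (N.mkQ m)
      have h2 : (t.restrictScalars K) (N.mkQ m) = s m := by
        change N.liftQ sH hker (N.mkQ m) = s m
        simp [sH]
      rw [h2] at h1
      simpa [hq] using h1
    · rintro ⟨s, hs⟩
      have hs' := (mem_Hom3_iff s).1 hs
      obtain ⟨c, hc⟩ := hom_one (P := PX x) (LinearEquiv.refl (HA K (PX x)) N) (s ∘ₗ i)
        (fun u m => by simp [hi, hs'])
      refine ⟨c, LinearMap.ext fun m => ?_⟩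
      exact hc m
  -- so there is a map that is not a multiple of the inclusion
  have hex : ∃ s ∈ Hom3 (gop (PX x) N) (gop (PX x) E), q ∘ₗ s ≠ 0 := by
    by_contra hcon
    push Not at hcon
    have h1 : Module.finrank K (Hom3 (gop (PX x) N) (gop (PX x) E)) ≤ 1 := by
      refine finrank_le_one' ⟨i, hiH⟩ ?_
      rintro ⟨s, hs⟩
      have hs' := (mem_Hom3_iff s).1 hs
      have h0 := hcon s hs
      have hmem : ∀ m, s m ∈ N := by
        intro m
        have := LinearMap.congr_fun h0 m
        simpa [hq] using this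
      let s₁ : N →ₗ[K] N :=
        { toFun := fun m => ⟨s m, hmem m⟩
          map_add' := fun a b => Subtype.ext (s.map_add a b)
          map_smul' := fun a b => Subtype.ext (s.map_smul a b) }
      obtain ⟨c, hc⟩ := hom_one (P := PX x) (LinearEquiv.refl (HA K (PX x)) N) s₁
        (fun u m => Subtype.ext (hs' u m))
      refine ⟨c, Subtype.ext (LinearMap.ext fun m => ?_)⟩
      have := congrArg (fun z : N => (z : E)) (hc m)
      simpa [hi, s₁] using this
    have h2 : (Module.finrank K (Hom3 (gop (PX x) N) (gop (PX x) E)) : ℤ) ≤ 1 := by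
      exact_mod_cast h1
    have h3 : (Module.finrank K (Hom3 (gop (PX x) E) (gop (PX x) N)) : ℤ) ≤ 2 := by
      exact_mod_cast hb
    linarith
  obtain ⟨s, hs, hqs⟩ := hex
  have hs' := (mem_Hom3_iff s).1 hs
  let sH : N →ₗ[HA K (PX x)] E :=
    { toFun := s, map_add' := s.map_add, map_smul' := fun u m => hs' u m }
  have hne : N.mkQ ∘ₗ sH ≠ 0 := by
    intro h
    apply hqs
    apply LinearMap.ext
    intro m
    exact LinearMap.congr_fun h m
  have hbij := LinearMap.bijective_of_ne_zero hne
  have hssN : IsSemisimpleModule (HA K (PX x)) N := inferInstance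
  have hssR : IsSemisimpleModule (HA K (PX x)) (LinearMap.range sH) :=
    IsSemisimpleModule.range sH
  have htop : N ⊔ LinearMap.range sH = ⊤ := by
    rw [eq_top_iff]
    rintro m -
    obtain ⟨a, ha⟩ := hbij.2 (N.mkQ m)
    have h1 : m - sH a ∈ N := by
      have h3 : N.mkQ (m - sH a) = 0 := by
        rw [map_sub, sub_eq_zero]
        exact ha.symm
      exact (Submodule.Quotient.mk_eq_zero N).1 h3
    have h2 : m = (m - sH a) + sH a := by abel
    rw [h2]
    exact Submodule.add_mem_sup h1 (LinearMap.mem_range_self sH a)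
  have hsup := IsSemisimpleModule.sup hssN hssR
  rw [htop] at hsup
  exact IsSemisimpleModule.congr (Submodule.topEquiv (R := HA K (PX x)) (M := E)).symm

end BMM
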