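/-
MP_b1ea0f_al, library BMM, module Unob5 (about 170 lines, linear algebra).  Sections 5.4, 5.5, 5.6.
From the vanishing of first order deformations (5.3) to unobstructedness.
Here g is a triple of invertible operators of the finite-dimensional space M, w = z⁻¹, z - ζ
nilpotent, and h53 is the conclusion of 5.3.
PROOF. N = dim V, V = End M.
(0) I_g ≤ ker dP: `dP_ad` with P(g) = 0. So on I3 hypothesis h53 applies.
(5.4) exact: let D = d1 restricted to I3 → I3 (`d1_mem`), Λ = LL restricted to I3. ker D = image of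
 d0 (⊂: h53 and (0); ⊃: `d1_d0`). So rk D = dim I3 - rk d0. dim ker Λ = dim I3 - rk Λ. By rk_LL and
 rk_d0 (X = Y = M) rk Λ = rk d0 = N - dim Hom3 g g. So rk D = dim ker Λ, and im D ≤ ker Λ (LL_d1), so
 im D = ker Λ. [For any other w' with w' z = 1: w' = w since z is invertible.]
(5.5) ker dP = I_g. Ad z : η ↦ z η w is unipotent on V: Ad z - 1 = (left mult. by z - ζ) and (right
 mult. by w - ζ⁻¹) combine to a nilpotent map: z η w - η = (z - ζ) η w + η (ζ w - 1) and
 ζ w - 1 = -(z - ζ) w, so Ad z - 1 = A + B with commuting nilpotent A = L_{z-ζ} R_w, B = -R_{(z-ζ)w}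
 (`Commute.isNilpotent_add`). It preserves D_x := ker dP (P x)(g x) (z commutes with g x) and
 I_x := range ad (as in d1_mem). Suppose η ∈ D_x, η ∉ I_x. Replace η by (Ad z - 1)^k η with k maximal
 such that this is not in I_x: then η ∈ D_x \ I_x and z η w - η ∈ I_x. Let δ = Pi.single x η.
 σ = d1 g w δ ∈ I3 [component x: (z η w - η) + [y, g x], other components [y, g x'] ] and L σ = 0
 (LL_d1), so σ = d1 δ' with δ' ∈ I3 (5.4). δ - δ' is in all D_x and d1 (δ - δ') = 0, so by h53
 δ - δ' = d0 s ∈ I3, so η ∈ I_x. Contradiction.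
(5.6) img: dP maps V into ker ad = {e : e g = g e} (`dP_comm` with P(g) = 0). dim range dP = N -
 dim ker dP = N - dim range ad = dim ker ad. So equality.
-/
import Pool.Agent.Lib.BMM.RkL
import Pool.Agent.Lib.BMM.C51
import Pool.Agent.Lib.BMM.DPl

open Polynomial

namespace BMM

variable {K : Type*} [Field K] {M : Type*} [AddCommGroup M] [Module K M] [FiniteDimensional K M]

private theorem mem_I3u {g : Fin 3 → Module.End K M} {δ : Fin 3 → Module.End K M} :
    δ ∈ I3 g g ↔ ∀ x, δ x ∈ LinearMap.range (ad (g x) (g x)) := by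
  unfold I3
  rw [Submodule.mem_pi]
  simp

private theorem range_ad_le {P : K[X]} {g : Module.End K M} (hP : aeval g P = 0)
    {η : Module.End K M} (h : η ∈ LinearMap.range (ad g g)) : dP P g η = 0 := by
  obtain ⟨s, rfl⟩ := h
  have := dP_ad P g s
  rw [hP, mul_zero, zero_mul, sub_zero] at this
  exact this

theorem exact54 {P : Fin 3 → K[X]} {g : Fin 3 → Module.End K M} (hg : IsCyc g)
    (hT : IsTriple P g) {w : Module.End K M} (hw : w * zop g = 1)
    (h53 : ∀ δ : Fin 3 → Module.End K M, (∀ x, dP (P x) (g x) (δ x) = 0) → d1 g w δ = 0 →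
      ∃ s, δ = d0 g g s) :
    ∀ δ ∈ I3 g g, LL g g δ = 0 → ∃ δ' ∈ I3 g g, d1 g w δ' = δ := by
  classical
  set D : I3 g g →ₗ[K] I3 g g := (d1 g w).restrict (fun δ h => d1_mem hg hw h) with hD
  set Λ : I3 g g →ₗ[K] Module.End K M := (LL g g).domRestrict (I3 g g) with hΛ
  have h1 := LinearMap.finrank_range_add_finrank_ker D
  have h2 := LinearMap.finrank_range_add_finrank_ker Λ
  have h3 : LinearMap.range Λ = (I3 g g).map (LL g g) := LinearMap.range_domRestrict _ _
  have h4 : (LinearMap.ker D).map (I3 g g).subtype = LinearMap.range (d0 g g) := by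
    apply le_antisymm
    · rintro _ ⟨δ, hδ, rfl⟩
      have hδ0 : d1 g w (δ : Fin 3 → Module.End K M) = 0 := by
        have := congrArg Subtype.val (LinearMap.mem_ker.mp hδ)
        simpa [hD] using this
      obtain ⟨s, hs⟩ := h53 δ (fun x => range_ad_le (hT.pol x) (mem_I3u.mp δ.2 x)) hδ0
      exact ⟨s, hs.symm⟩
    · rintro _ ⟨s, rfl⟩
      have hm : d0 g g s ∈ I3 g g := mem_I3u.mpr (fun x => ⟨s, rfl⟩)
      refine ⟨⟨d0 g g s, hm⟩, ?_, rfl⟩
      rw [SetLike.mem_coe, LinearMap.mem_ker]
      apply Subtype.ext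
      exact d1_d0 hg hw s
  have h5 : Module.finrank K (LinearMap.ker D) = Module.finrank K (LinearMap.range (d0 g g)) := by
    rw [← h4, Submodule.finrank_map_subtype_eq]
  have h6 := rk_LL hg hg
  have h7 := rk_d0 g g
  rw [h3] at h2
  have h8 : LinearMap.range D ≤ LinearMap.ker Λ := by
    rintro _ ⟨δ, rfl⟩
    rw [LinearMap.mem_ker]
    exact LL_d1 hg hw δ
  have h9 : LinearMap.range D = LinearMap.ker Λ := by
    apply Submodule.eq_of_le_of_finrank_eq h8
    have h7' : Module.finrank K (LinearMap.ker D) + Module.finrank K (Hom3 g g)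
        = Module.finrank K (M →ₗ[K] M) := by
      rw [h5]; exact h7
    have h2' : Module.finrank K ((I3 g g).map (LL g g)) + Module.finrank K (LinearMap.ker Λ)
        = Module.finrank K (I3 g g) := h2
    have h1' : Module.finrank K (LinearMap.range D) + Module.finrank K (LinearMap.ker D)
        = Module.finrank K (I3 g g) := h1
    have h6' : Module.finrank K ((I3 g g).map (LL g g)) + Module.finrank K (Hom3 g g)
        = Module.finrank K (M →ₗ[K] M) := h6
    change Module.finrank K (LinearMap.range D) = Module.finrank K (LinearMap.ker Λ)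
    clear h1 h2 h3 h4 h5 h6 h7
    omega
  intro δ hδ hδL
  have h10 : (⟨δ, hδ⟩ : I3 g g) ∈ LinearMap.ker Λ := by
    rw [LinearMap.mem_ker]
    exact hδL
  rw [← h9] at h10
  obtain ⟨δ', hδ'⟩ := h10
  exact ⟨δ', δ'.2, congrArg Subtype.val hδ'⟩

private theorem dP_conj (P : K[X]) {g z w : Module.End K M} (hz : Commute z g)
    (hw : Commute w g) (η : Module.End K M) : dP P g (z * η * w) = z * dP P g η * w := by
  change P.sum (fun k p => p • ∑ i ∈ Finset.range k, g ^ i * (z * η * w) * g ^ (k - 1 - i))
    = z * P.sum (fun k p => p • ∑ i ∈ Finset.range k, g ^ i * η * g ^ (k - 1 - i)) * w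
  simp only [Polynomial.sum, Finset.mul_sum, Finset.sum_mul]
  refine Finset.sum_congr rfl fun k _ => ?_
  rw [mul_smul_comm, smul_mul_assoc, Finset.mul_sum, Finset.sum_mul]
  congr 1
  refine Finset.sum_congr rfl fun i _ => ?_
  have h1 : z * g ^ i = g ^ i * z := (hz.pow_right i).eq
  have h2 : w * g ^ (k - 1 - i) = g ^ (k - 1 - i) * w := (hw.pow_right _).eq
  calc g ^ i * (z * η * w) * g ^ (k - 1 - i) = (g ^ i * z) * η * (w * g ^ (k - 1 - i)) := by
        simp only [mul_assoc]
    _ = z * (g ^ i * η * g ^ (k - 1 - i)) * w := by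
        rw [← h1, h2]; simp only [mul_assoc]

/-- The map `η ↦ z η w - η`. -/
private def TT (z w : Module.End K M) : Module.End K (Module.End K M) :=
  LinearMap.mulLeft K z * LinearMap.mulRight K w - 1

private theorem TT_apply (z w η : Module.End K M) : TT z w η = z * η * w - η := by
  simp [TT, mul_assoc]

private theorem TT_nil {z w : Module.End K M} (h : w * z = 1) (h' : z * w = 1) (ζ : K)
    (hnil : IsNilpotent (z - algebraMap K (Module.End K M) ζ)) : IsNilpotent (TT z w) := by
  set u := z - algebraMap K (Module.End K M) ζ with hu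
  have hcw : Commute u w := by
    have h1 : Commute z w := by rw [Commute, SemiconjBy, h, h']
    exact h1.sub_left (Algebra.commutes _ _)
  have e : TT z w = LinearMap.mulLeft K u * LinearMap.mulRight K w
      - LinearMap.mulRight K (u * w) := by
    apply LinearMap.ext
    intro η
    rw [TT_apply]
    simp only [LinearMap.sub_apply, Module.End.mul_apply, LinearMap.mulLeft_apply,
      LinearMap.mulRight_apply]
    have h1 : u * w = 1 - ζ • w := by
      rw [hu, sub_mul, h', Algebra.smul_def]
    have h2 : u * (η * w) = z * η * w - ζ • (η * w) := by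
      rw [hu, sub_mul, Algebra.smul_def, mul_assoc]
    rw [h1, h2, mul_sub, mul_one, mul_smul_comm]
    abel
  rw [e]
  have n1 : IsNilpotent (LinearMap.mulLeft K u) := (LinearMap.isNilpotent_mulLeft_iff K u).mpr hnil
  have n2 : IsNilpotent (LinearMap.mulRight K (u * w)) :=
    (LinearMap.isNilpotent_mulRight_iff K _).mpr (hcw.isNilpotent_mul_right hnil)
  have c1 : Commute (LinearMap.mulLeft K u) (LinearMap.mulRight K w) :=
    LinearMap.commute_mulLeft_right u w
  have n3 : IsNilpotent (LinearMap.mulLeft K u * LinearMap.mulRight K w) :=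
    c1.isNilpotent_mul_right n1
  apply Commute.isNilpotent_sub _ n3 n2
  have c2 : Commute (LinearMap.mulLeft K u) (LinearMap.mulRight K (u * w)) :=
    LinearMap.commute_mulLeft_right u (u * w)
  have c3 : Commute (LinearMap.mulRight K w) (LinearMap.mulRight K (u * w)) := by
    apply LinearMap.ext
    intro η
    simp only [Module.End.mul_apply, LinearMap.mulRight_apply, mul_assoc]
    rw [← mul_assoc w u w, ← hcw.eq, mul_assoc]
  exact c2.mul_left c3

private theorem zop_comm {g : Fin 3 → Module.End K M} (hg : IsCyc g) (x : Fin 3) :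
    Commute (zop g) (g x) := by
  have h1 := hg.cyc₁
  have h2 := hg.cyc₂
  rw [Commute, SemiconjBy]
  unfold zop
  fin_cases x
  · change g 0 * g 1 * g 2 * g 0 = g 0 * (g 0 * g 1 * g 2)
    conv_rhs => rw [h1]
    simp only [mul_assoc]
  · change g 0 * g 1 * g 2 * g 1 = g 1 * (g 0 * g 1 * g 2)
    conv_rhs => rw [h2]
    rw [h1]
    simp only [mul_assoc]
  · change g 0 * g 1 * g 2 * g 2 = g 2 * (g 0 * g 1 * g 2)
    rw [h2]
    conv_rhs => rw [← h2]
    simp only [mul_assoc]

private theorem zop_unit {g : Fin 3 → Module.End K M} (hg : IsCyc g) : IsUnit (zop g) :=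
  ((hg.unit 0).mul (hg.unit 1)).mul (hg.unit 2)

private theorem w_right {g : Fin 3 → Module.End K M} (hg : IsCyc g) {w : Module.End K M}
    (hw : w * zop g = 1) : zop g * w = 1 := by
  obtain ⟨u, hu⟩ := zop_unit hg
  rw [← hu] at hw ⊢
  have : w = ↑u⁻¹ := (Units.eq_inv_of_mul_eq_one_right hw)
  rw [this, Units.mul_inv]

private theorem w_comm {g : Fin 3 → Module.End K M} (hg : IsCyc g) {w : Module.End K M}
    (hw : w * zop g = 1) (x : Fin 3) : Commute w (g x) := by
  have h1 := (zop_comm hg x).eq
  have h2 := w_right hg hw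
  rw [Commute, SemiconjBy]
  calc w * g x = w * g x * (zop g * w) := by rw [h2, mul_one]
    _ = w * (g x * zop g) * w := by simp only [mul_assoc]
    _ = w * (zop g * g x) * w := by rw [h1]
    _ = (w * zop g) * (g x * w) := by simp only [mul_assoc]
    _ = g x * w := by rw [hw, one_mul]

private theorem TT_ad {g : Fin 3 → Module.End K M} (hg : IsCyc g) {w : Module.End K M}
    (hw : w * zop g = 1) (x : Fin 3) {η : Module.End K M}
    (h : η ∈ LinearMap.range (ad (g x) (g x))) :
    zop g * η * w ∈ LinearMap.range (ad (g x) (g x)) := by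
  obtain ⟨s, rfl⟩ := h
  refine ⟨zop g * s * w, ?_⟩
  change (zop g * s * w) * g x - g x * (zop g * s * w) = zop g * (s * g x - g x * s) * w
  have h1 := (w_comm hg hw x).eq
  have h2 := (zop_comm hg x).eq
  rw [mul_sub, sub_mul]
  congr 1
  · rw [mul_assoc, h1]; simp only [mul_assoc]
  · rw [← mul_assoc (g x), ← mul_assoc (g x), ← h2]; simp only [mul_assoc]

private theorem step55 {P : Fin 3 → K[X]} {g : Fin 3 → Module.End K M} (hg : IsCyc g)
    (hT : IsTriple P g) {w : Module.End K M} (hw : w * zop g = 1)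
    (h53 : ∀ δ : Fin 3 → Module.End K M, (∀ x, dP (P x) (g x) (δ x) = 0) → d1 g w δ = 0 →
      ∃ s, δ = d0 g g s) (x : Fin 3) (η : Module.End K M) (hη : dP (P x) (g x) η = 0)
    (h : zop g * η * w - η ∈ LinearMap.range (ad (g x) (g x))) :
    η ∈ LinearMap.range (ad (g x) (g x)) := by
  classical
  set δ : Fin 3 → Module.End K M := Pi.single x η with hδ
  have h1 : d1 g w δ ∈ I3 g g := by
    rw [mem_I3u]
    intro y
    rw [d1_apply]
    have h2 : LL g g δ * w * g y - g y * (LL g g δ * w) ∈ LinearMap.range (ad (g y) (g y)) :=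
      ⟨LL g g δ * w, rfl⟩
    refine Submodule.add_mem _ ?_ h2
    rcases eq_or_ne y x with rfl | hne
    · rw [hδ, Pi.single_eq_same]
      exact h
    · rw [hδ, Pi.single_eq_of_ne hne, mul_zero, zero_mul, sub_zero]
      exact Submodule.zero_mem _
  obtain ⟨δ', hδ', he⟩ := exact54 hg hT hw h53 (d1 g w δ) h1 (LL_d1 hg hw δ)
  have h3 : ∀ y, dP (P y) (g y) ((δ - δ') y) = 0 := by
    intro y
    rw [Pi.sub_apply, map_sub, range_ad_le (hT.pol y) (mem_I3u.mp hδ' y), sub_zero]
    rcases eq_or_ne y x with rfl | hne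
    · rw [hδ, Pi.single_eq_same]
      exact hη
    · rw [hδ, Pi.single_eq_of_ne hne, map_zero]
  obtain ⟨s, hs⟩ := h53 (δ - δ') h3 (by rw [map_sub, he, sub_self])
  have h4 : η = δ' x + ad (g x) (g x) s := by
    have := congrFun hs x
    rw [Pi.sub_apply, hδ, Pi.single_eq_same] at this
    have h5 : d0 g g s x = ad (g x) (g x) s := rfl
    rw [← h5, ← this]
    abel
  rw [h4]
  exact Submodule.add_mem _ (mem_I3u.mp hδ' x) ⟨s, rfl⟩

theorem ker55 {P : Fin 3 → K[X]} {g : Fin 3 → Module.End K M} (hg : IsCyc g)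
    (hT : IsTriple P g) {w : Module.End K M} (hw : w * zop g = 1) (ζ : K)
    (hnil : IsNilpotent (zop g - algebraMap K (Module.End K M) ζ))
    (h53 : ∀ δ : Fin 3 → Module.End K M, (∀ x, dP (P x) (g x) (δ x) = 0) → d1 g w δ = 0 →
      ∃ s, δ = d0 g g s) (x : Fin 3) (η : Module.End K M) (hη : dP (P x) (g x) η = 0) :
    ∃ s, η = s * g x - g x * s := by
  obtain ⟨k, hk⟩ := TT_nil hw (w_right hg hw) ζ hnil
  have hker : ∀ θ : Module.End K M, dP (P x) (g x) θ = 0 →
      dP (P x) (g x) (TT (zop g) w θ) = 0 := by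
    intro θ hθ
    rw [TT_apply, map_sub, dP_conj (P x) (zop_comm hg x) (w_comm hg hw x), hθ]
    simp
  have hkerk : ∀ j, dP (P x) (g x) ((TT (zop g) w ^ j) η) = 0 := by
    intro j
    induction j with
    | zero => simpa using hη
    | succ j ih =>
      rw [pow_succ', Module.End.mul_apply]
      exact hker _ ih
  have key : ∀ j, (TT (zop g) w ^ j) η ∈ LinearMap.range (ad (g x) (g x)) →
      η ∈ LinearMap.range (ad (g x) (g x)) := by
    intro j
    induction j with
    | zero => intro h; simpa using h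
    | succ j ih =>
      intro h
      rw [pow_succ', Module.End.mul_apply, TT_apply] at h
      exact ih (step55 hg hT hw h53 x _ (hkerk j) h)
  obtain ⟨s, hs⟩ := key k (by rw [hk, LinearMap.zero_apply]; exact Submodule.zero_mem _)
  exact ⟨s, hs.symm⟩

theorem unob_of_ext {P : Fin 3 → K[X]} {g : Fin 3 → Module.End K M} (hg : IsCyc g)
    (hT : IsTriple P g) {w : Module.End K M} (hw : w * zop g = 1) (ζ : K)
    (hnil : IsNilpotent (zop g - algebraMap K (Module.End K M) ζ))
    (h53 : ∀ δ : Fin 3 → Module.End K M, (∀ x, dP (P x) (g x) (δ x) = 0) → d1 g w δ = 0 →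
      ∃ s, δ = d0 g g s) : Unob P g where
  tri := hT
  unit := hg.unit
  img x e he := by
    have h1 := LinearMap.finrank_range_add_finrank_ker (dP (P x) (g x))
    have h2 : Module.finrank K (LinearMap.range (ad (g x) (g x)))
        + Module.finrank K (LinearMap.ker (ad (g x) (g x))) = Module.finrank K (Module.End K M) :=
      LinearMap.finrank_range_add_finrank_ker (ad (g x) (g x))
    have h3 : LinearMap.ker (dP (P x) (g x)) = LinearMap.range (ad (g x) (g x)) := by
      apply le_antisymm
      · intro η hη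
        obtain ⟨s, hs⟩ := ker55 hg hT hw ζ hnil h53 x η hη
        exact ⟨s, hs.symm⟩
      · intro η hη
        exact range_ad_le (hT.pol x) hη
    have h4 : LinearMap.range (dP (P x) (g x)) ≤ LinearMap.ker (ad (g x) (g x)) := by
      rintro _ ⟨η, rfl⟩
      rw [LinearMap.mem_ker]
      have := dP_comm (P x) (g x) η
      rw [hT.pol x, zero_mul, mul_zero, sub_zero, sub_eq_zero] at this
      change dP (P x) (g x) η * g x - g x * dP (P x) (g x) η = 0
      rw [this, sub_self]
    have h5 : LinearMap.range (dP (P x) (g x)) = LinearMap.ker (ad (g x) (g x)) := by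
      apply Submodule.eq_of_le_of_finrank_eq h4
      have h7 : Module.finrank K (LinearMap.ker (dP (P x) (g x)))
          = Module.finrank K (LinearMap.range (ad (g x) (g x))) :=
        congrArg (fun W : Submodule K (Module.End K M) => Module.finrank K W) h3
      have h8 : Module.finrank K (LinearMap.range (dP (P x) (g x)))
          + Module.finrank K (LinearMap.ker (dP (P x) (g x)))
          = Module.finrank K (Module.End K M) := h1
      change Module.finrank K (LinearMap.range (dP (P x) (g x)))
        = Module.finrank K (LinearMap.ker (ad (g x) (g x)))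
      omega
    have h6 : e ∈ LinearMap.ker (ad (g x) (g x)) := by
      rw [LinearMap.mem_ker]
      change e * g x - g x * e = 0
      rw [he, sub_self]
    rw [← h5] at h6
    exact h6
  ker x η hη := ker55 hg hT hw ζ hnil h53 x η hη
  exact w' hw' := by
    have h1 : w' = w := by
      have h2 := w_right hg hw
      calc w' = w' * (zop g * w) := by rw [h2, mul_one]
        _ = (w' * zop g) * w := by rw [mul_assoc]
        _ = w := by rw [hw', one_mul]
    rw [h1]
    exact exact54 hg hT hw h53

end BMM
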